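import Pool.Agent.Run7.h787.Defs

open Finset

set_option linter.unusedSectionVars false

namespace Run7.h787

variable {V I O : Type} [Fintype V] [DecidableEq V] [DecidableEq I] [CommRing O] [IsDomain O]

namespace Dat

variable (D : Dat V I O)

theorem sub_id' (z : O) : D.sub (fun a => a) z = z := D.sub_id z

theorem sub_perm_inv (σ : Equiv.Perm V) (z : O) : D.sub σ.symm (D.sub σ z) = z := by
  rw [← D.sub_comp]
  have : (σ.symm ∘ σ : V → V) = id := by ext a; simp
  rw [this, D.sub_id]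

theorem sub_inj (σ : Equiv.Perm V) : Function.Injective (D.sub σ) :=
  Function.LeftInverse.injective (D.sub_perm_inv σ)

variable (K : Type) [Field K] [Algebra O K] [IsFractionRing O K]

/-- action of permutations on the fraction field -/
noncomputable def act (σ : Equiv.Perm V) : K →+* K := IsFractionRing.map (D.sub_inj σ)

theorem act_alg (σ : Equiv.Perm V) (z : O) :
    D.act K σ (algebraMap O K z) = algebraMap O K (D.sub σ z) := by
  simp [act, IsFractionRing.map]

theorem alg_inj : Function.Injective (algebraMap O K) := IsFractionRing.injective O K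

theorem alg_ne {z : O} (h : z ≠ 0) : algebraMap O K z ≠ 0 := by
  intro h0
  exact h (IsFractionRing.injective O K (by rw [h0, map_zero]))

/-- `(z,w) ∈ Gr θ`: `z` is regular at the generic point of the image of `θ`, with value `w`. -/
def Gr (θ : V → V) : Subring (K × K) where
  carrier := {p | ∃ n d : O, D.sub θ d ≠ 0 ∧ p.1 * algebraMap O K d = algebraMap O K n ∧
    p.2 * algebraMap O K (D.sub θ d) = algebraMap O K (D.sub θ n)}
  mul_mem' := by
    rintro ⟨z, w⟩ ⟨z', w'⟩ ⟨n, d, h0, h1, h2⟩ ⟨n', d', h0', h1', h2'⟩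
    refine ⟨n * n', d * d', ?_, ?_, ?_⟩
    · rw [map_mul]; exact mul_ne_zero h0 h0'
    · simp only [Prod.fst_mul, map_mul] at *
      rw [← h1, ← h1']; ring
    · simp only [Prod.snd_mul, map_mul] at *
      rw [← h2, ← h2']; ring
  one_mem' := ⟨1, 1, by simp, by simp, by simp⟩
  add_mem' := by
    rintro ⟨z, w⟩ ⟨z', w'⟩ ⟨n, d, h0, h1, h2⟩ ⟨n', d', h0', h1', h2'⟩
    refine ⟨n * d' + n' * d, d * d', ?_, ?_, ?_⟩
    · rw [map_mul]; exact mul_ne_zero h0 h0'
    · simp only [Prod.fst_add, map_mul, map_add] at *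
      rw [← h1, ← h1']; ring
    · simp only [Prod.snd_add, map_mul, map_add] at *
      rw [← h2, ← h2']; ring
  zero_mem' := ⟨0, 1, by simp, by simp, by simp⟩
  neg_mem' := by
    rintro ⟨z, w⟩ ⟨n, d, h0, h1, h2⟩
    refine ⟨-n, d, h0, ?_, ?_⟩
    · simp only [Prod.fst_neg, map_neg] at *
      rw [← h1]; ring
    · simp only [Prod.snd_neg, map_neg] at *
      rw [← h2]; ring

variable {K}
variable {D}

theorem mem_Gr {θ : V → V} {z w : K} : (z, w) ∈ D.Gr K θ ↔ ∃ n d : O, D.sub θ d ≠ 0 ∧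
    z * algebraMap O K d = algebraMap O K n ∧
    w * algebraMap O K (D.sub θ d) = algebraMap O K (D.sub θ n) := Iff.rfl

theorem Gr_alg (θ : V → V) (n : O) :
    (algebraMap O K n, algebraMap O K (D.sub θ n)) ∈ D.Gr K θ :=
  ⟨n, 1, by simp, by simp, by simp⟩

theorem Gr_unique {θ : V → V} {z w w' : K} (h : (z, w) ∈ D.Gr K θ) (h' : (z, w') ∈ D.Gr K θ) :
    w = w' := by
  obtain ⟨n, d, h0, h1, h2⟩ := h
  obtain ⟨n', d', h0', h1', h2'⟩ := h'
  simp only at *
  have e : n * d' = n' * d := by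
    apply IsFractionRing.injective O K
    rw [map_mul, map_mul, ← h1, ← h1']; ring
  have e2 := congrArg (algebraMap O K) (congrArg (D.sub θ) e)
  simp only [map_mul] at e2
  rw [← h2, ← h2'] at e2
  have a0 := alg_ne K h0
  have a0' := alg_ne K h0'
  have : (w - w') * (algebraMap O K (D.sub θ d) * algebraMap O K (D.sub θ d')) = 0 := by
    linear_combination e2
  rcases mul_eq_zero.1 this with h | h
  · exact sub_eq_zero.1 h
  · exact absurd h (mul_ne_zero a0 a0')

theorem Gr_inv {θ : V → V} {z w : K} (h : (z, w) ∈ D.Gr K θ) (hw : w ≠ 0) :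
    (z⁻¹, w⁻¹) ∈ D.Gr K θ := by
  obtain ⟨n, d, h0, h1, h2⟩ := h
  simp only at *
  have a0 := alg_ne K h0
  have hn : D.sub θ n ≠ 0 := by
    intro h
    rw [h, map_zero] at h2
    exact (mul_ne_zero hw a0) h2
  have hz : z ≠ 0 := by
    intro hz
    rw [hz, zero_mul] at h1
    have : n = 0 := IsFractionRing.injective O K (by rw [← h1, map_zero])
    exact hn (by rw [this, map_zero])
  refine ⟨d, n, hn, ?_, ?_⟩
  · simp only; rw [← h1]; field_simp
  · simp only; rw [← h2]; field_simp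

theorem Gr_act {θ : V → V} {σ : Equiv.Perm V} (hσ : θ ∘ σ = θ) {z w : K}
    (h : (z, w) ∈ D.Gr K θ) : (D.act K σ z, w) ∈ D.Gr K θ := by
  obtain ⟨n, d, h0, h1, h2⟩ := h
  refine ⟨D.sub σ n, D.sub σ d, ?_, ?_, ?_⟩
  · rw [← D.sub_comp, hσ]; exact h0
  · simp only at *
    rw [← D.act_alg, ← D.act_alg, ← map_mul, h1]
  · simp only at *
    rw [← D.sub_comp, ← D.sub_comp, hσ]; exact h2

theorem Gr_comm {θ : V → V} {σ : Equiv.Perm V} (hσ : θ ∘ σ = σ ∘ θ) {z w : K}
    (h : (z, w) ∈ D.Gr K θ) : (D.act K σ z, D.act K σ w) ∈ D.Gr K θ := by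
  obtain ⟨n, d, h0, h1, h2⟩ := h
  refine ⟨D.sub σ n, D.sub σ d, ?_, ?_, ?_⟩
  · rw [← D.sub_comp, hσ, D.sub_comp]
    intro h
    exact h0 (D.sub_inj σ (by rw [h, map_zero]))
  · simp only at *
    rw [← D.act_alg, ← D.act_alg, ← map_mul, h1]
  · simp only at *
    rw [← D.sub_comp, ← D.sub_comp, hσ, D.sub_comp, D.sub_comp, ← D.act_alg, ← D.act_alg,
      ← map_mul, h2]

theorem Gr_comp {θ ψ : V → V} {z w w' : K} (h : (z, w) ∈ D.Gr K θ)
    (h' : (z, w') ∈ D.Gr K (ψ ∘ θ)) : (w, w') ∈ D.Gr K ψ := by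
  obtain ⟨n', d', h0', h1', h2'⟩ := h'
  simp only at *
  rw [D.sub_comp] at h0' h2'
  rw [D.sub_comp] at h2'
  have hd : D.sub θ d' ≠ 0 := by
    intro h; exact h0' (by rw [h, map_zero])
  have e : (z, algebraMap O K (D.sub θ n') / algebraMap O K (D.sub θ d')) ∈ D.Gr K θ := by
    refine ⟨n', d', hd, h1', ?_⟩
    simp only
    exact div_mul_cancel₀ _ (alg_ne K hd)
  have ew := Gr_unique h e
  refine ⟨D.sub θ n', D.sub θ d', h0', ?_, h2'⟩
  simp only
  rw [ew]
  exact div_mul_cancel₀ _ (alg_ne K hd)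

theorem Gr_sum {ι : Type*} {θ : V → V} (s : Finset ι) (f g : ι → K)
    (h : ∀ i ∈ s, (f i, g i) ∈ D.Gr K θ) : (∑ i ∈ s, f i, ∑ i ∈ s, g i) ∈ D.Gr K θ := by
  have := Subring.sum_mem (D.Gr K θ) (t := s) (f := fun i => (f i, g i)) h
  convert this using 1
  ext <;> simp [Prod.fst_sum, Prod.snd_sum]

theorem Gr_prod {ι : Type*} {θ : V → V} (s : Finset ι) (f g : ι → K)
    (h : ∀ i ∈ s, (f i, g i) ∈ D.Gr K θ) : (∏ i ∈ s, f i, ∏ i ∈ s, g i) ∈ D.Gr K θ := by
  have := Subring.prod_mem (D.Gr K θ) (t := s) (f := fun i => (f i, g i)) h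
  convert this using 1
  ext <;> simp [Prod.fst_prod, Prod.snd_prod]

theorem Gr_add {θ : V → V} {z w z' w' : K} (h : (z, w) ∈ D.Gr K θ) (h' : (z', w') ∈ D.Gr K θ) :
    (z + z', w + w') ∈ D.Gr K θ := add_mem h h'

theorem Gr_sub {θ : V → V} {z w z' w' : K} (h : (z, w) ∈ D.Gr K θ) (h' : (z', w') ∈ D.Gr K θ) :
    (z - z', w - w') ∈ D.Gr K θ := sub_mem h h'

theorem Gr_mul {θ : V → V} {z w z' w' : K} (h : (z, w) ∈ D.Gr K θ) (h' : (z', w') ∈ D.Gr K θ) :
    (z * z', w * w') ∈ D.Gr K θ := mul_mem h h'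

theorem Gr_neg {θ : V → V} {z w : K} (h : (z, w) ∈ D.Gr K θ) :
    (-z, -w) ∈ D.Gr K θ := neg_mem h

theorem mg_swap (a b : V) : mg a b ∘ (Equiv.swap a b) = mg a b := by
  ext v
  simp only [mg, Function.comp, Function.update_apply, id]
  rcases eq_or_ne v a with rfl | ha
  · rw [Equiv.swap_apply_left]; simp
  · rcases eq_or_ne v b with rfl | hb
    · rw [Equiv.swap_apply_right]; simp [ha.symm]
    · rw [Equiv.swap_apply_of_ne_of_ne ha hb]

/-- pole cancellation -/
theorem pole_cancel (z : K) (L : List (V × V)) (hL : ∀ p ∈ L, p.1 ≠ p.2)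
    (hz : ∃ n : O, z * algebraMap O K ((L.map (fun p => D.x p.1 - D.x p.2)).prod) = algebraMap O K n)
    (hr : ∀ p ∈ L, ∃ w, (z, w) ∈ D.Gr K (mg p.1 p.2)) :
    ∃ n : O, z = algebraMap O K n := by
  induction L with
  | nil =>
    obtain ⟨n, hn⟩ := hz
    exact ⟨n, by simpa using hn⟩
  | cons p L ih =>
    obtain ⟨n, hn⟩ := hz
    apply ih (fun q hq => hL q (List.mem_cons_of_mem _ hq)) _
      (fun q hq => hr q (List.mem_cons_of_mem _ hq))
    obtain ⟨w, hw⟩ := hr p List.mem_cons_self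
    have h1 := Gr_mul hw (Gr_alg (D := D) (K := K) (mg p.1 p.2)
      (((p :: L).map (fun p => D.x p.1 - D.x p.2)).prod))
    have h2 : D.sub (mg p.1 p.2) (((p :: L).map (fun p => D.x p.1 - D.x p.2)).prod) = 0 := by
      rw [List.map_cons, List.prod_cons, map_mul, map_sub, D.sub_x, D.sub_x]
      have : mg p.1 p.2 p.1 = mg p.1 p.2 p.2 := by
        simp [mg, Function.update_apply]
      rw [this]; simp
    rw [hn, h2, map_zero, mul_zero] at h1
    have h3 := Gr_unique h1 (Gr_alg _ n)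
    have h4 : D.sub (mg p.1 p.2) n = 0 := by
      apply IsFractionRing.injective O K
      rw [← h3, map_zero]
    have h5 := D.dvd_merge p.1 p.2 n
    change D.x p.1 - D.x p.2 ∣ n - D.sub (mg p.1 p.2) n at h5
    rw [h4, sub_zero] at h5
    obtain ⟨n', hn'⟩ := h5
    refine ⟨n', ?_⟩
    rw [List.map_cons, List.prod_cons, hn', map_mul, map_mul] at hn
    have hne : algebraMap O K (D.x p.1 - D.x p.2) ≠ 0 := by
      apply alg_ne K
      rw [sub_ne_zero]
      exact fun h => hL p List.mem_cons_self (D.x_inj h)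
    apply mul_left_cancel₀ hne
    rw [← hn]; ring

/-- simple pole lemma -/
theorem simple_pole {a b : V} (hab : a ≠ b) {u w : K} (h : (u, w) ∈ D.Gr K (mg a b)) :
    ∃ w', ((u - D.act K (Equiv.swap a b) u) / algebraMap O K (D.x a - D.x b), w')
      ∈ D.Gr K (mg a b) := by
  obtain ⟨n, d, h0, h1, h2⟩ := h
  simp only at *
  set s := Equiv.swap a b
  set q := n * D.sub s d - D.sub s n * d with hq
  have hs : ∀ z, D.sub (mg a b) (D.sub s z) = D.sub (mg a b) z := by
    intro z; rw [← D.sub_comp, mg_swap]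
  have hq0 : D.sub (mg a b) q = 0 := by
    rw [hq, map_sub, map_mul, map_mul, hs, hs]; ring
  obtain ⟨q', hq'⟩ : D.x a - D.x b ∣ q := by
    have := D.dvd_merge a b q
    change D.x a - D.x b ∣ q - D.sub (mg a b) q at this
    rwa [hq0, sub_zero] at this
  have hne : algebraMap O K (D.x a - D.x b) ≠ 0 := by
    apply alg_ne K
    rw [sub_ne_zero]
    exact fun h => hab (D.x_inj h)
  have hd : D.sub (mg a b) (d * D.sub s d) ≠ 0 := by
    rw [map_mul, hs]; exact mul_ne_zero h0 h0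
  refine ⟨algebraMap O K (D.sub (mg a b) q') / algebraMap O K (D.sub (mg a b) (d * D.sub s d)),
    q', d * D.sub s d, hd, ?_, ?_⟩
  · simp only
    have e1 : D.act K s u * algebraMap O K (D.sub s d) = algebraMap O K (D.sub s n) := by
      rw [← D.act_alg, ← D.act_alg, ← map_mul, h1]
    have e2 : algebraMap O K (D.x a - D.x b) * algebraMap O K q' =
        (u - D.act K s u) * algebraMap O K (d * D.sub s d) := by
      rw [← map_mul, ← hq', hq, map_sub, map_mul, map_mul, map_mul, ← h1, ← e1]; ring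
    rw [div_mul_eq_mul_div, ← e2]
    field_simp
  · simp only
    exact div_mul_cancel₀ _ (alg_ne K hd)

/-- double pole lemma, regularity -/
theorem double_pole {a b : V} (hab : a ≠ b) {u : K} (h : (u, 0) ∈ D.Gr K (mg a b)) :
    ∃ w', ((u + D.act K (Equiv.swap a b) u) / algebraMap O K (D.x a - D.x b) ^ 2, w')
      ∈ D.Gr K (mg a b) := by
  obtain ⟨n, d, h0, h1, h2⟩ := h
  simp only at *
  have hne : algebraMap O K (D.x a - D.x b) ≠ 0 := by
    apply alg_ne K
    rw [sub_ne_zero]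
    exact fun h => hab (D.x_inj h)
  have hn0 : D.sub (mg a b) n = 0 := by
    apply IsFractionRing.injective O K
    rw [← h2, map_zero, zero_mul]
  obtain ⟨n', hn'⟩ : D.x a - D.x b ∣ n := by
    have := D.dvd_merge a b n
    change D.x a - D.x b ∣ n - D.sub (mg a b) n at this
    rwa [hn0, sub_zero] at this
  have h3 : (u / algebraMap O K (D.x a - D.x b),
      algebraMap O K (D.sub (mg a b) n') / algebraMap O K (D.sub (mg a b) d))
      ∈ D.Gr K (mg a b) := by
    refine ⟨n', d, h0, ?_, ?_⟩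
    · simp only
      rw [div_mul_eq_mul_div, h1, hn', map_mul]
      field_simp
    · simp only
      exact div_mul_cancel₀ _ (alg_ne K h0)
  obtain ⟨w', hw'⟩ := simple_pole hab h3
  refine ⟨w', ?_⟩
  convert hw' using 2
  have e3 : D.act K (Equiv.swap a b) (algebraMap O K (D.x a - D.x b)) =
      - algebraMap O K (D.x a - D.x b) := by
    rw [D.act_alg, map_sub (D.sub _), D.sub_x, D.sub_x, Equiv.swap_apply_left,
      Equiv.swap_apply_right, ← map_neg]
    congr 1; ring
  rw [map_div₀, e3]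
  field_simp
  ring

end Dat

end Run7.h787
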