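import Pool.Agent.Run7.h787.Spec

/-! Lifting of elements along a specialisation of the flavour parameters. -/

open Finset

set_option linter.unusedSectionVars false
set_option linter.unusedVariables false
set_option linter.unusedSimpArgs false

namespace Run7.h787

variable {V I O O' : Type} [Fintype V] [DecidableEq V] [Fintype I] [DecidableEq I]
  [CommRing O] [IsDomain O] [Algebra ℚ O] [CommRing O'] [IsDomain O'] [Algebra ℚ O']

namespace Dat

variable (D : Dat V I O)
variable (K : Type) [Field K] [Algebra O K] [IsFractionRing O K]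

/-- sums of non-trivial products -/
def N1 : AddSubgroup (Finset V → Finset V → O) :=
  AddSubgroup.closure {Φ | ∃ q1 q2, ¬ (q1 = 0 ∧ q2 = D.dim univ) ∧ Φ ∈ D.T2 q1 q2}

/-- sums of non-trivial balanced products -/
def N0 : AddSubgroup (Finset V → Finset V → O) :=
  AddSubgroup.closure {Φ | ∃ q1 q2, ¬ (q1 = 0 ∧ q2 = D.dim univ) ∧
    q1 + q2 = D.dim univ ∧ Φ ∈ D.T2 q1 q2}

/-- balanced part -/
def cut (Φ : Finset V → Finset V → O) : Finset V → Finset V → O := fun S T =>
  if D.dim S + D.dim T = D.dim univ then Φ S T else 0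

variable {D K}

theorem ex_pair_inj {B Z B' Z' : Finset V} (h : Disjoint B Z) (h' : Disjoint B' Z')
    (he : ex false B' + ex true (B' ∪ Z') = ex false B + ex true (B ∪ Z)) :
    B' = B ∧ Z' = Z := by
  rw [Finset.disjoint_left] at h h'
  have key : ∀ a, (a ∈ B' ↔ a ∈ B) ∧ (a ∈ Z' ↔ a ∈ Z) := by
    intro a
    have h1 := congrFun he a
    have := @h a; have := @h' a
    simp only [ex, Pi.add_apply, Finset.mem_union] at h1
    by_cases hB : a ∈ B <;> by_cases hZ : a ∈ Z <;> by_cases hB' : a ∈ B' <;>
      by_cases hZ' : a ∈ Z' <;> simp_all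
  exact ⟨Finset.ext (fun a => (key a).1), Finset.ext (fun a => (key a).2)⟩

theorem coeff_X2_pair (Φ : Finset V → Finset V → O) {B Z : Finset V} (h : Disjoint B Z) :
    (D.X2 K false true Φ).coeff (ex false B + ex true (B ∪ Z)) =
      D.wt K false B * D.wt K true (B ∪ Z) * D.gco K true Φ B Z := by
  rw [X2, AddMonoidAlgebra.coeff_sum, Finset.sum_apply', Finset.sum_eq_single B]
  · rw [AddMonoidAlgebra.coeff_sum, Finset.sum_apply', Finset.sum_eq_single Z]
    · rw [AddMonoidAlgebra.coeff_single, Finsupp.single_eq_same]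
      simp
    · intro Z' hZ' hne
      rw [AddMonoidAlgebra.coeff_single, Finsupp.single_apply, if_neg]
      intro he
      rw [Finset.mem_powerset] at hZ'
      have hd : Disjoint B Z' := Finset.disjoint_of_subset_right hZ' disjoint_compl_right
      exact hne (ex_pair_inj h hd he).2
    · intro hZ
      exfalso
      apply hZ
      rw [Finset.mem_powerset]
      intro a ha
      rw [Finset.mem_compl]
      exact fun hB => Finset.disjoint_left.1 h hB ha
  · intro B' _ hne
    rw [AddMonoidAlgebra.coeff_sum, Finset.sum_apply']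
    apply Finset.sum_eq_zero
    intro Z' hZ'
    rw [AddMonoidAlgebra.coeff_single, Finsupp.single_apply, if_neg]
    intro he
    rw [Finset.mem_powerset] at hZ'
    have hd : Disjoint B' Z' := Finset.disjoint_of_subset_right hZ' disjoint_compl_right
    exact hne (ex_pair_inj h hd he).1
  · intro hB
    exact absurd (Finset.mem_univ _) hB

theorem MM_rep {x : AddMonoidAlgebra K (V → ℤ)} (hx : x ∈ D.MM K) :
    ∃ Φ ∈ D.N1, x = D.X2 K false true Φ := by
  rw [MM] at hx
  induction hx using Submodule.iSup_induction' with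
  | mem q x hx =>
    obtain ⟨⟨q1, q2⟩, hq⟩ := q
    simp only at hx hq
    rw [G, G, Submodule.span_mul_span] at hx
    induction hx using Submodule.span_induction with
    | mem x hx =>
      obtain ⟨_, ⟨f, hf, rfl⟩, _, ⟨g, hg, rfl⟩, rfl⟩ := hx
      refine ⟨fun S T => f S * g T, ?_, ?_⟩
      · exact AddSubgroup.subset_closure ⟨q1, q2, hq,
          AddSubgroup.subset_closure ⟨f, g, hf, hg, rfl⟩⟩
      · simp only
        rw [D.X_mul_X K false true (fun h => absurd h (by simp))]
    | zero => exact ⟨0, zero_mem _, (X2_zero D K false true).symm⟩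
    | add x y _ _ h h' =>
      obtain ⟨a, ha, rfl⟩ := h
      obtain ⟨b, hb, rfl⟩ := h'
      exact ⟨a + b, add_mem ha hb, (X2_add D K false true a b).symm⟩
    | smul n x _ h =>
      obtain ⟨a, ha, rfl⟩ := h
      refine ⟨n • a, AddSubgroup.zsmul_mem _ ha n, ?_⟩
      let F : (Finset V → Finset V → O) →+ AddMonoidAlgebra K (V → ℤ) :=
        { toFun := D.X2 K false true
          map_zero' := X2_zero D K false true
          map_add' := X2_add D K false true }
      exact (map_zsmul F n a).symm
  | zero => exact ⟨0, zero_mem _, (X2_zero D K false true).symm⟩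
  | add x y _ _ h h' =>
    obtain ⟨a, ha, rfl⟩ := h
    obtain ⟨b, hb, rfl⟩ := h'
    exact ⟨a + b, add_mem ha hb, (X2_add D K false true a b).symm⟩

theorem cut_mem {Φ : Finset V → Finset V → O} (h : Φ ∈ D.N1) : D.cut Φ ∈ D.N0 := by
  induction h using AddSubgroup.closure_induction with
  | mem Φ h =>
    obtain ⟨q1, q2, hq, hΦ⟩ := h
    by_cases hb : q1 + q2 = D.dim univ
    · have : D.cut Φ = Φ := by
        ext S T
        simp only [cut]
        split_ifs with h
        · rfl
        · symm
          apply T2_supp hΦ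
          rintro ⟨rfl, rfl⟩
          exact h hb
      rw [this]
      exact AddSubgroup.subset_closure ⟨q1, q2, hq, hb, hΦ⟩
    · have : D.cut Φ = 0 := by
        ext S T
        simp only [cut]
        split_ifs with h
        · apply T2_supp hΦ
          rintro ⟨rfl, rfl⟩
          exact hb h
        · rfl
      rw [this]; exact zero_mem _
  | zero =>
    have : D.cut (0 : Finset V → Finset V → O) = 0 := by
      ext S T; simp [cut]
    rw [this]; exact zero_mem _
  | add a b _ _ h h' =>
    have : D.cut (a + b) = D.cut a + D.cut b := by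
      ext S T; simp only [cut, Pi.add_apply]; split_ifs <;> simp
    rw [this]; exact add_mem h h'
  | neg a _ h =>
    have : D.cut (-a) = - D.cut a := by
      ext S T; simp only [cut, Pi.neg_apply]; split_ifs <;> simp
    rw [this]; exact neg_mem h

theorem gco_cut {Φ : Finset V → Finset V → O} {B Z : Finset V} (hd : Disjoint B Z) :
    D.gco K true (D.cut Φ) B Z =
      if D.dim B + D.dim (B ∪ Z) = D.dim univ then D.gco K true Φ B Z else 0 := by
  split_ifs with h
  · simp only [gco]
    apply Finset.sum_congr rfl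
    intro C hC
    rw [Finset.mem_powerset] at hC
    have hdC : Disjoint B C := Finset.disjoint_of_subset_right hC hd
    have hdE : Disjoint B (Z \ C) := Finset.disjoint_of_subset_right Finset.sdiff_subset hd
    have hCE : Disjoint C (Z \ C) := Finset.disjoint_sdiff
    have e1 : D.dim (B ∪ C) + D.dim (B ∪ (Z \ C)) = D.dim B + D.dim (B ∪ Z) := by
      have e2 : D.dim Z = D.dim C + D.dim (Z \ C) := by
        rw [← D.dim_union hCE, Finset.union_sdiff_of_subset hC]
      rw [D.dim_union hdC, D.dim_union hdE, D.dim_union hd, e2]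
      abel
    rw [cut, if_pos (by rw [e1, h])]
  · by_contra hne
    apply h
    apply gco_ne_dim hd _ _ hne
    intro S T hST
    by_contra h'
    exact hST (by rw [cut, if_neg h'])

theorem N0_prop {Φ : Finset V → Finset V → O} (h : Φ ∈ D.N0) :
    D.Eqv2 Φ ∧ D.Mg Φ ∧ (∀ S T, Φ S T ≠ 0 → D.dim S + D.dim T = D.dim univ) ∧
      D.X2 K false true Φ ∈ D.MM K := by
  induction h using AddSubgroup.closure_induction with
  | mem Φ h =>
    obtain ⟨q1, q2, hq, hb, hΦ⟩ := h
    refine ⟨T2_Eqv2 hΦ, T2_Mg hΦ, ?_, ?_⟩
    · intro S T hST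
      by_contra hcon
      apply hST
      apply T2_supp hΦ
      rintro ⟨rfl, rfl⟩
      exact hcon hb
    · exact Submodule.mem_iSup_of_mem ⟨(q1, q2), hq⟩
        (T2_X2 K false true (fun h => absurd h (by simp)) hΦ)
  | zero =>
    refine ⟨Eqv2_zero, Mg_zero, fun S T h => absurd rfl h, ?_⟩
    rw [X2_zero]; exact zero_mem _
  | add a b _ _ h h' =>
    refine ⟨Eqv2_add h.1 h'.1, Mg_add h.2.1 h'.2.1, ?_, ?_⟩
    · intro S T hST
      by_cases ha : a S T = 0
      · by_cases hb : b S T = 0
        · exfalso; apply hST; simp [ha, hb]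
        · exact h'.2.2.1 S T hb
      · exact h.2.2.1 S T ha
    · rw [X2_add]; exact add_mem h.2.2.2 h'.2.2.2
  | neg a _ h =>
    refine ⟨Eqv2_neg h.1, Mg_neg h.2.1, ?_, ?_⟩
    · intro S T hST
      apply h.2.2.1 S T
      intro ha; apply hST; simp [ha]
    · rw [X2_neg]; exact neg_mem h.2.2.2

end Dat

namespace SpecData

variable {D' : Dat V I O'} {D : Dat V I O} {s : SpecData D' D}
variable {K' K : Type} [Field K'] [Algebra O' K'] [IsFractionRing O' K']
  [Field K] [Algebra O K] [IsFractionRing O K]

theorem N0_io {Φ : Finset V → Finset V → O} (h : Φ ∈ D.N0) :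
    (fun S T => s.io (Φ S T)) ∈ D'.N0 := by
  have hadd : ∀ a b : Finset V → Finset V → O, (fun S T => s.io ((a + b) S T)) =
      (fun S T => s.io (a S T)) + (fun S T => s.io (b S T)) := by
    intro a b; ext S T; simp
  have hneg : ∀ a : Finset V → Finset V → O, (fun S T => s.io ((-a) S T)) =
      -(fun S T => s.io (a S T)) := by
    intro a; ext S T; simp
  have hzero : (fun S T => s.io ((0 : Finset V → Finset V → O) S T)) = 0 := by
    ext S T; simp
  induction h using AddSubgroup.closure_induction with
  | mem Φ h =>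
    obtain ⟨q1, q2, hq, hb, hΦ⟩ := h
    apply AddSubgroup.subset_closure
    refine ⟨q1, q2, ?_, ?_, ?_⟩
    · rw [dim_eq s]; exact hq
    · rw [dim_eq s]; exact hb
    · induction hΦ using AddSubgroup.closure_induction with
      | mem Φ h =>
        obtain ⟨f1, f2, h1, h2, rfl⟩ := h
        apply AddSubgroup.subset_closure
        refine ⟨fun S => s.io (f1 S), fun S => s.io (f2 S), EqvD_io h1, EqvD_io h2, ?_⟩
        ext S T; simp
      | zero => rw [hzero]; exact zero_mem _
      | add a b _ _ h h' => rw [hadd]; exact add_mem h h'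
      | neg a _ h => rw [hneg]; exact neg_mem h
  | zero => rw [hzero]; exact zero_mem _
  | add a b _ _ h h' => rw [hadd]; exact add_mem h h'
  | neg a _ h => rw [hneg]; exact neg_mem h

/-- lifting along the specialisation -/
theorem lift (s : SpecData D' D) (p : O)
    (hp : AddMonoidAlgebra.single 0 (algebraMap O K p) ∈ D.MM K) :
    ∃ p' : O', s.pi p' = p ∧ AddMonoidAlgebra.single 0 (algebraMap O' K' p') ∈ D'.MM K' := by
  classical
  obtain ⟨Φ, hΦ, hx⟩ := Dat.MM_rep hp
  have h0 : (fun S T => s.pi (s.io (D.cut Φ S T))) = D.cut Φ := by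
    ext S T; exact s.pi_io _
  obtain ⟨hE, hM, hs, hX⟩ := Dat.N0_prop (K := K') (N0_io (s := s) (Dat.cut_mem hΦ))
  -- coefficients
  have hco : ∀ B Z, Disjoint B Z → D.wt K false B * D.wt K true (B ∪ Z) *
      D.gco K true Φ B Z =
      (if (0 : V → ℤ) = Dat.ex false B + Dat.ex true (B ∪ Z) then algebraMap O K p else 0) := by
    intro B Z hd
    rw [← Dat.coeff_X2_pair Φ hd, ← hx, AddMonoidAlgebra.coeff_single, Finsupp.single_apply]
  apply lift_aux (s := s) (K := K) (K' := K') p (Fintype.card V)
    (fun S T => s.io (D.cut Φ S T)) hE hM hs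
  · intro B Z _ _
    exact Finset.card_le_univ B
  · intro B Z hd hB
    have h1 := Sp_gco (s := s) (K' := K') (K := K) true (fun S T => s.io (D.cut Φ S T)) B Z
    rw [h0, Dat.gco_cut hd] at h1
    have h2 := hco B Z hd
    rw [if_neg] at h2
    · have h3 : D.gco K true Φ B Z = 0 := by
        rcases mul_eq_zero.1 h2 with h | h
        · exact absurd h (mul_ne_zero (Dat.wt_ne _ _) (Dat.wt_ne _ _))
        · exact h
      rw [h3, ite_self] at h1
      exact h1
    · intro he
      apply hB
      obtain ⟨a, ha⟩ := Finset.nonempty_iff_ne_empty.2 hB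
      have := congrFun he a
      simp [Dat.ex, ha] at this
  · have h1 := Sp_gco (s := s) (K' := K') (K := K) true (fun S T => s.io (D.cut Φ S T)) ∅ univ
    rw [h0, Dat.gco_cut (Finset.disjoint_empty_left _)] at h1
    have h2 := hco ∅ univ (Finset.disjoint_empty_left _)
    rw [Finset.empty_union, Dat.ex_trivial, if_pos rfl, Dat.wt_false_empty,
      Dat.wt_true_univ, one_mul, one_mul] at h2
    rw [Finset.empty_union, Dat.dim_empty, zero_add, if_pos rfl, h2] at h1
    exact h1
  · exact hX

end SpecData

end Run7.h787
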