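import Pool.Agent.Run7.h787.QDat
import Pool.Agent.Run7.h787.Lift

/-! Specialisation of the flavour parameters for quiver data. -/

open Finset

set_option linter.unusedSectionVars false
set_option linter.unusedVariables false
set_option linter.unusedSimpArgs false

namespace Run7.h787

namespace QuiverData

variable (Q : QuiverData)

theorem dim_univ : Q.toDat.dim univ = Q.v := by
  funext i
  simp only [Dat.dim]
  have h1 : (univ.filter (fun a : Q.V => Q.toDat.c a = i)) =
      (univ : Finset (Fin (Q.v i))).map ⟨fun k => (⟨i, k⟩ : Q.V), fun k l h => by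
        simpa using h⟩ := by
    ext ⟨j, k⟩
    simp only [Finset.mem_filter, Finset.mem_univ, true_and, Finset.mem_map,
      Function.Embedding.coeFn_mk]
    constructor
    · intro h
      change j = i at h
      subst h
      exact ⟨k, rfl⟩
    · rintro ⟨l, hl⟩
      exact (congrArg Sigma.fst hl).symm
  rw [h1, Finset.card_map, Finset.card_univ, Fintype.card_fin]

/-- inclusion of characters -/
noncomputable def inclCh : Q.Ch →+ Q.enlarge.Ch :=
  Finsupp.mapDomain.addMonoidHom (Sum.map id Sum.inl)

theorem restrict_inl (a : Q.V) (n : ℤ) :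
    Q.restrict (Finsupp.single (Sum.inl a) n) = Finsupp.single (Sum.inl a) n := by
  ext b
  rcases b with b | t
  · exact (Finsupp.single_apply_left Sum.inl_injective a b n).trans
      (Finsupp.single_apply_left Sum.inl_injective a b n).symm
  · exact (Finsupp.single_eq_of_ne (by simp)).trans (Finsupp.single_eq_of_ne (by simp)).symm

theorem restrict_inr_inl' (t : Q.T) (n : ℤ) :
    Q.restrict (Finsupp.single (Sum.inr (Sum.inl t)) n) = Finsupp.single (Sum.inr t) n := by
  ext b
  rcases b with b | t'
  · exact (Finsupp.single_eq_of_ne (by simp)).trans (Finsupp.single_eq_of_ne (by simp)).symm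
  · exact (Finsupp.single_apply_left (Sum.inr_injective.comp Sum.inl_injective) t t' n).trans
      (Finsupp.single_apply_left Sum.inr_injective t t' n).symm

theorem restrict_inr_inr (e : Q.E) (n : ℤ) :
    Q.restrict (Finsupp.single (Sum.inr (Sum.inr e)) n) = 0 := by
  ext b
  rcases b with b | t
  · exact Finsupp.single_eq_of_ne (by simp)
  · exact Finsupp.single_eq_of_ne (by simp)

theorem restrict_incl (e : Q.Ch) : Q.restrict (Q.inclCh e) = e := by
  have : (Q.restrict.comp Q.inclCh) = AddMonoidHom.id _ := by
    apply Finsupp.addHom_ext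
    intro a n
    simp only [AddMonoidHom.comp_apply, inclCh, Finsupp.mapDomain.addMonoidHom_apply,
      Finsupp.mapDomain_single, AddMonoidHom.id_apply]
    rcases a with a | t
    · exact Q.restrict_inl a n
    · exact Q.restrict_inr_inl' t n
  exact DFunLike.congr_fun this e

/-- extension of functions, independent of the additional parameters -/
noncomputable def extend : Q.O →+* Q.enlarge.O :=
  AddMonoidAlgebra.mapDomainRingHom ℂ Q.inclCh

theorem special_single (e : Q.enlarge.Ch) (r : ℂ) :
    Q.special (AddMonoidAlgebra.single e r) = AddMonoidAlgebra.single (Q.restrict e) r := by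
  simp [special]

theorem extend_single (e : Q.Ch) (r : ℂ) :
    Q.extend (AddMonoidAlgebra.single e r) = AddMonoidAlgebra.single (Q.inclCh e) r := by
  simp [extend]

theorem special_extend (z : Q.O) : Q.special (Q.extend z) = z := by
  induction z using Q.ind with
  | hadd z z' h h' => rw [map_add, map_add, h, h']
  | hs e r => rw [extend_single, special_single, restrict_incl]

theorem special_mono (e : Q.enlarge.Ch) : Q.special (Q.enlarge.mono e) = Q.mono (Q.restrict e) :=
  Q.special_single e 1

theorem restrict_mapDomain (θ : Q.V → Q.V) (e : Q.enlarge.Ch) :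
    Q.restrict (e.mapDomain (Sum.map θ id)) = (Q.restrict e).mapDomain (Sum.map θ id) := by
  have : (Q.restrict.comp (Finsupp.mapDomain.addMonoidHom (Sum.map θ id))) =
      (Finsupp.mapDomain.addMonoidHom (Sum.map θ id)).comp Q.restrict := by
    apply Finsupp.addHom_ext
    intro a n
    simp only [AddMonoidHom.comp_apply, Finsupp.mapDomain.addMonoidHom_apply,
      Finsupp.mapDomain_single]
    rcases a with a | t | t
    · simp only [Sum.map_inl]
      rw [restrict_inl, restrict_inl, Finsupp.mapDomain_single]
      rfl
    · simp only [Sum.map_inr, id]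
      rw [restrict_inr_inl', Finsupp.mapDomain_single]
      rfl
    · simp only [Sum.map_inr, id]
      rw [restrict_inr_inr, Finsupp.mapDomain_zero]
  exact DFunLike.congr_fun this e

theorem incl_mapDomain (θ : Q.V → Q.V) (e : Q.Ch) :
    Q.inclCh (e.mapDomain (Sum.map θ id)) = (Q.inclCh e).mapDomain (Sum.map θ id) := by
  have : (Q.inclCh.comp (Finsupp.mapDomain.addMonoidHom (Sum.map θ id))) =
      (Finsupp.mapDomain.addMonoidHom (Sum.map θ id)).comp Q.inclCh := by
    apply Finsupp.addHom_ext
    intro a n
    rcases a with a | t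
    · simp [inclCh]
    · simp [inclCh]
  exact DFunLike.congr_fun this e

theorem restrict_inr_inl (χ : Q.T →₀ ℤ) :
    Q.restrict ((χ.mapDomain Sum.inl).mapDomain Sum.inr) = χ.mapDomain Sum.inr := by
  have : (Q.restrict.comp ((Finsupp.mapDomain.addMonoidHom
      (Sum.inr : Q.enlarge.T → Q.enlarge.V ⊕ Q.enlarge.T)).comp
      (Finsupp.mapDomain.addMonoidHom (Sum.inl : Q.T → Q.T ⊕ Q.E)))) =
      (Finsupp.mapDomain.addMonoidHom (Sum.inr : Q.T → Q.V ⊕ Q.T)) := by
    apply Finsupp.addHom_ext
    intro a n
    simp only [AddMonoidHom.comp_apply, Finsupp.mapDomain.addMonoidHom_apply,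
      Finsupp.mapDomain_single]
    exact Q.restrict_inr_inl' a n
  exact DFunLike.congr_fun this χ

theorem special_arrowWeight (e : Q.E) (a b : Q.V) :
    Q.special (Q.enlarge.arrowWeight (Q.enlarge.chi e) a b) = Q.arrowWeight (Q.chi e) a b := by
  rw [arrowWeight, arrowWeight, special_mono]
  congr 1
  have h1 : Q.restrict ((Q.enlarge.chi e).mapDomain Sum.inr) = (Q.chi e).mapDomain Sum.inr := by
    change Q.restrict (((Q.chi e).mapDomain Sum.inl + Finsupp.single (Sum.inr e) 1).mapDomain
      Sum.inr) = _
    rw [Finsupp.mapDomain_add, map_add, restrict_inr_inl, Finsupp.mapDomain_single,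
      restrict_inr_inr, add_zero]
  rw [map_sub, map_add, h1, restrict_inl, restrict_inl]

theorem special_frameWeight (i : Q.I) (l : Fin (Q.w i)) (a : Q.V) :
    Q.special (Q.enlarge.frameWeight (Q.enlarge.psi i l) a) = Q.frameWeight (Q.psi i l) a := by
  rw [frameWeight, frameWeight, special_mono]
  congr 1
  have h1 : Q.restrict ((Q.enlarge.psi i l).mapDomain Sum.inr) = (Q.psi i l).mapDomain Sum.inr :=
    restrict_inr_inl Q _
  rw [map_sub, h1, restrict_inl]

theorem special_sub (θ : Q.V → Q.V) (z : Q.enlarge.O) :
    Q.special (Q.enlarge.sub θ z) = Q.sub θ (Q.special z) := by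
  induction z using Q.enlarge.ind with
  | hadd z z' h h' => simp only [map_add, h, h']
  | hs e r => rw [sub_single, special_single, special_single, sub_single, restrict_mapDomain]

theorem extend_sub (θ : Q.V → Q.V) (z : Q.O) :
    Q.extend (Q.sub θ z) = Q.enlarge.sub θ (Q.extend z) := by
  induction z using Q.ind with
  | hadd z z' h h' => simp only [map_add, h, h']
  | hs e r => rw [sub_single, extend_single, extend_single, sub_single, incl_mapDomain]

theorem special_matter (a b : Q.V) : Q.special (Q.enlarge.matter a b) = Q.matter a b := by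
  rw [matter, matter, map_prod]
  apply Finset.prod_congr rfl
  intro e _
  change Q.special (if Q.src e = a.1 ∧ Q.tgt e = b.1 then
    1 - Q.enlarge.arrowWeight (Q.enlarge.chi e) a b else 1) = _
  split_ifs
  · rw [map_sub, map_one, special_arrowWeight]
  · exact map_one _

theorem special_framing (a : Q.V) : Q.special (Q.enlarge.framing a) = Q.framing a := by
  rw [framing, framing, map_prod]
  apply Finset.prod_congr rfl
  intro l _
  rw [map_sub, map_one, special_frameWeight]

theorem special_xx (a : Q.V) : Q.special (Q.enlarge.xx a) = Q.xx a := by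
  rw [xx, xx, special_mono, restrict_inl]

theorem special_mm (a b : Q.V) : Q.special (Q.enlarge.mm a b) = Q.mm a b := by
  rw [mm, mm, map_mul, special_matter]
  congr 1
  split_ifs
  · exact special_xx Q a
  · exact map_one _

/-- the specialisation data -/
noncomputable def specData : SpecData (V := Q.V) (I := Q.I) (O := Q.O) (O' := Q.enlarge.O)
    Q.enlarge.toDat Q.toDat where
  pi := Q.special
  io := Q.extend
  pi_io := Q.special_extend
  hc := fun a => rfl
  pi_x := Q.special_xx
  pi_sub := Q.special_sub
  io_sub := Q.extend_sub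
  pi_m := Q.special_mm
  pi_P := Q.special_framing

theorem enlarge_chi_ne (e : Q.E) : Q.enlarge.chi e ≠ 0 := by
  intro h
  have h1 := DFunLike.congr_fun h (Sum.inr e)
  change ((Q.chi e).mapDomain Sum.inl + Finsupp.single (Sum.inr e) 1 : (Q.T ⊕ Q.E) →₀ ℤ)
    (Sum.inr e) = 0 at h1
  rw [Finsupp.add_apply, Finsupp.mapDomain_of_notMem_range _ _ (by simp),
    Finsupp.single_eq_same] at h1
  norm_num at h1

end QuiverData

end Run7.h787
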