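import Pool.Agent.Run7.h787.Data

/-!
Definitions for the hand-in: the coordinate ring of the torus, dressed minuscule monopole
operators, the abelianised K-theoretic Coulomb branch algebra, its fixed point algebra, and the
ideal `J`.
-/

open Finset

namespace Run7.h787

namespace QuiverData

variable (Q : QuiverData)

/-- index set of the coordinates `x_a` of the maximal torus `T_v` of `G_v` -/
abbrev Idx : Type := (i : Q.I) × Fin (Q.v i)

/-- characters of `T_v × F`, written additively -/
def Char : Type := (Q.Idx ⊕ Q.T) →₀ ℤ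

noncomputable instance : AddCommGroup Q.Char :=
  (inferInstance : AddCommGroup ((Q.Idx ⊕ Q.T) →₀ ℤ))

/-- the character `x_a` -/
noncomputable def xchar (a : Q.Idx) : Q.Char := Finsupp.single (Sum.inl a) 1

/-- a character of `F` as a character of `T_v × F` -/
noncomputable def fchar (χ : Q.T →₀ ℤ) : Q.Char := χ.mapDomain Sum.inr

/-- coordinate ring of `T_v × F` -/
def Fun : Type := AddMonoidAlgebra ℂ Q.Char

noncomputable instance : CommRing Q.Fun := (inferInstance : CommRing (AddMonoidAlgebra ℂ Q.Char))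

/-- the function on `T_v × F` given by a character -/
noncomputable def mon (e : Q.Char) : Q.Fun := AddMonoidAlgebra.single e 1

/-- substitution `x_a ↦ x_{θ a}` -/
noncomputable def subst (θ : Q.Idx → Q.Idx) : Q.Fun →+* Q.Fun :=
  AddMonoidAlgebra.mapDomainRingHom ℂ (Finsupp.mapDomain.addMonoidHom (Sum.map θ id))

/-- the weight `t^χ x_b / x_a` of `Hom(V_i, V_j)`, for `a` over `i` and `b` over `j` -/
noncomputable def homWeight (χ : Q.T →₀ ℤ) (a b : Q.Idx) : Q.Fun :=
  Q.mon (Q.fchar χ + Q.xchar b - Q.xchar a)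

/-- the weight `t^χ / x_a` of `Hom(V_i, W_i)`, for `a` over `i` -/
noncomputable def wWeight (χ : Q.T →₀ ℤ) (a : Q.Idx) : Q.Fun :=
  Q.mon (Q.fchar χ - Q.xchar a)

/-- product of `1 - weight` over the weights `t^χ x_b / x_a` of the arrows -/
noncomputable def arrows (a b : Q.Idx) : Q.Fun :=
  ∏ e : Q.E, if Q.src e = a.1 ∧ Q.tgt e = b.1 then 1 - Q.homWeight (Q.chi e) a b else 1

/-- product of `1 - weight` over the weights `t^χ / x_a` of the framing -/
noncomputable def frame (a : Q.Idx) : Q.Fun :=
  ∏ l : Fin (Q.w a.1), (1 - Q.wWeight (Q.psi a.1 l) a)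

/-- `1 - x_b / x_a` for a root `x_b / x_a` of `G_v`, and `1` for `a, b` over different vertices -/
noncomputable def rootFactor (a b : Q.Idx) : Q.Fun :=
  if a.1 = b.1 then 1 - Q.homWeight 0 a b else 1

/-- elements of the Weyl group of `G_v` -/
def Weyl (σ : Equiv.Perm Q.Idx) : Prop := ∀ a, (σ a).1 = a.1

/-- Weyl group invariant functions -/
noncomputable def invSubring : Subring Q.Fun :=
  ⨅ σ : {σ : Equiv.Perm Q.Idx // Q.Weyl σ}, RingHom.eqLocus (Q.subst σ) (RingHom.id Q.Fun)

/-- the ring `K_{G_v × F}(pt)` of Weyl group invariant functions on `T_v × F` -/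
def Inv : Type := Q.invSubring

noncomputable instance : CommRing Q.Inv := (inferInstance : CommRing Q.invSubring)

/-- inclusion of the invariant functions -/
noncomputable def incl : Q.Inv →+* Q.Fun := Q.invSubring.subtype

instance : IsDomain Q.Fun :=
  (inferInstance : IsDomain (AddMonoidAlgebra ℂ ((Q.Idx ⊕ Q.T) →₀ ℤ)))

/-- the fraction field of the coordinate ring -/
def Frac : Type := FractionRing Q.Fun

noncomputable instance : Field Q.Frac := (inferInstance : Field (FractionRing Q.Fun))

/-- functions as elements of the fraction field -/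
noncomputable def toFrac : Q.Fun →+* Q.Frac := algebraMap Q.Fun (FractionRing Q.Fun)

/-- the commutative ring with basis `y^μ`, `μ : Idx → ℤ`, over the fraction field -/
def Amb : Type := AddMonoidAlgebra Q.Frac (Q.Idx → ℤ)

noncomputable instance : CommRing Q.Amb :=
  (inferInstance : CommRing (AddMonoidAlgebra Q.Frac (Q.Idx → ℤ)))

/-- the element `c y^μ` -/
noncomputable def term (μ : Q.Idx → ℤ) (c : Q.Frac) : Q.Amb := AddMonoidAlgebra.single μ c

/-- the coefficient of `y^μ` -/
noncomputable def coef (x : Q.Amb) (μ : Q.Idx → ℤ) : Q.Frac := AddMonoidAlgebra.coeff x μ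

noncomputable instance : Algebra Q.Inv Q.Amb := RingHom.toAlgebra
  ((AddMonoidAlgebra.singleZeroRingHom : Q.Frac →+* AddMonoidAlgebra Q.Frac (Q.Idx → ℤ)).comp
    (Q.toFrac.comp Q.incl))

/-- dressings of the minuscule monopole operators: Weyl equivariant functions on subsets -/
def Dressing (f : Finset Q.Idx → Q.Fun) : Prop :=
  ∀ σ, Q.Weyl σ → ∀ S, Q.subst σ (f S) = f (S.map σ.toEmbedding)

/-- `∏_{a ∈ S, b ∈ S'} arrows(a,b) / rootFactor(a,b)` -/
noncomputable def ratioFactor (S S' : Finset Q.Idx) : Q.Frac :=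
  ∏ a ∈ S, ∏ b ∈ S', Q.toFrac (Q.arrows a b) / Q.toFrac (Q.rootFactor a b)

/-- dressed minuscule monopole operators for the cocharacters `1_S` -/
noncomputable def up (f : Finset Q.Idx → Q.Fun) : Q.Amb :=
  ∑ S : Finset Q.Idx, Q.term (fun a => if a ∈ S then 1 else 0)
    (Q.toFrac (f S * ∏ a ∈ S, Q.frame a) * Q.ratioFactor S Sᶜ)

/-- dressed minuscule monopole operators for the cocharacters `-1_S` -/
noncomputable def down (f : Finset Q.Idx → Q.Fun) : Q.Amb :=
  ∑ S : Finset Q.Idx, Q.term (fun a => if a ∈ S then -1 else 0)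
    (Q.toFrac (f S) * Q.ratioFactor Sᶜ S)

/-- the subalgebra generated by the dressed minuscule monopole operators -/
noncomputable def coulombSub : Subalgebra Q.Inv Q.Amb :=
  Algebra.adjoin Q.Inv {x | ∃ f, Q.Dressing f ∧ (x = Q.up f ∨ x = Q.down f)}

/-- the coordinate ring of the deformed K-theoretic Coulomb branch -/
def Coulomb : Type := Q.coulombSub

noncomputable instance : CommRing Q.Coulomb := (inferInstance : CommRing Q.coulombSub)

noncomputable instance : Algebra Q.Inv Q.Coulomb := (inferInstance : Algebra Q.Inv Q.coulombSub)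

/-- elements of the Coulomb branch algebra as elements of the ambient ring -/
def toAmb (x : Q.Coulomb) : Q.Amb := x.1

/-- homogeneous of degree `n` for the grading given by `ν` -/
def Homog (ν : Q.I → ℤ) (n : ℤ) (x : Q.Coulomb) : Prop :=
  ∀ μ, Q.coef (Q.toAmb x) μ ≠ 0 → ∑ a, ν a.1 * μ a = n

/-- the ideal generated by the homogeneous elements of non-zero degree -/
noncomputable def moving (ν : Q.I → ℤ) : Ideal Q.Coulomb :=
  Ideal.span {x | ∃ n : ℤ, n ≠ 0 ∧ Q.Homog ν n x}

/-- `∑_S f(S) ∏_{a ∈ S} frame(a) ∏_{a ∈ S, b ∉ S} (arrows(a,b) arrows(b,a)) / (root(a,b) root(b,a))` -/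
noncomputable def hall (f : Finset Q.Idx → Q.Fun) : Q.Frac :=
  ∑ S : Finset Q.Idx, Q.toFrac (f S * ∏ a ∈ S, Q.frame a) *
    Q.ratioFactor S Sᶜ * Q.ratioFactor Sᶜ S

/-- invariant functions of the form `hall f` with `f ∅ = 0` -/
def IsHall (p : Q.Inv) : Prop :=
  ∃ f, Q.Dressing f ∧ f ∅ = 0 ∧ Q.toFrac (Q.incl p) = Q.hall f

/-- restriction of characters to the original torus -/
noncomputable def charRestrict : Q.enlarge.Char →+ Q.Char :=
  Finsupp.comapDomain.addMonoidHom (f := Sum.map id Sum.inl)
    (Function.injective_id.sumMap Sum.inl_injective)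

/-- restriction of functions to the original torus: the extra flavour parameters are set to one -/
noncomputable def funRestrict : Q.enlarge.Fun →+* Q.Fun :=
  AddMonoidAlgebra.mapDomainRingHom ℂ Q.charRestrict

/-- the ideal `J`, generated by the restrictions to the original torus of the functions `IsHall`
of the theory with the enlarged flavour torus -/
noncomputable def idealJ : Ideal Q.Inv :=
  Ideal.span {p | ∃ p', Q.enlarge.IsHall p' ∧ Q.funRestrict (Q.enlarge.incl p') = Q.incl p}

end QuiverData

end Run7.h787
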