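import Pool.Agent.Run7.h787.Fin2
import Pool.Agent.Run7.h787.Link
import Pool.Agent.Run7.h787.Model

/-! Connection between the definitions of the hand-in and the abstract data. -/

open Finset

set_option linter.unusedSectionVars false
set_option linter.unusedVariables false
set_option linter.unusedSimpArgs false

namespace Run7.h787

namespace QuiverData

variable (Q : QuiverData)

noncomputable instance : Algebra Q.Fun Q.Frac := (inferInstance : Algebra Q.Fun (FractionRing Q.Fun))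

instance : IsFractionRing Q.Fun Q.Frac :=
  (inferInstance : IsFractionRing Q.Fun (FractionRing Q.Fun))

noncomputable instance : Algebra ℚ Q.Fun :=
  (inferInstance : Algebra ℚ (AddMonoidAlgebra ℂ Q.Char))

theorem toFrac_eq (z : Q.Fun) : Q.toFrac z = algebraMap Q.Fun Q.Frac z := rfl

/-- the abstract data -/
noncomputable def dat : Dat Q.Idx Q.I Q.Fun := Q.toDat

theorem dressing_iff (f : Finset Q.Idx → Q.Fun) : Q.Dressing f ↔ Q.dat.Eqv f := Iff.rfl

theorem dat_dim_univ : Q.dat.dim univ = Q.v := Q.dim_univ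

theorem mem_inv {z : Q.Fun} : z ∈ Q.invSubring ↔ ∀ σ, Q.Weyl σ → Q.subst σ z = z := by
  rw [invSubring, Subring.mem_iInf]
  constructor
  · intro h σ hσ
    exact h ⟨σ, hσ⟩
  · rintro h ⟨σ, hσ⟩
    exact h σ hσ

theorem inv_sub (r : Q.Inv) {σ : Equiv.Perm Q.Idx} (hσ : Q.dat.CP σ) :
    Q.dat.sub σ (Q.incl r) = Q.incl r := Q.mem_inv.1 r.2 σ hσ

theorem mem_inv' {z : Q.Fun} (h : ∀ σ : Equiv.Perm Q.Idx, Q.dat.CP σ → Q.dat.sub σ z = z) :
    z ∈ Q.invSubring := Q.mem_inv.2 h

theorem eta_dat (a b : Q.Idx) (h : a ≠ b) :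
    Q.dat.eta Q.Frac a b = Q.toFrac (Q.arrows a b) / Q.toFrac (Q.rootFactor a b) :=
  @eta_eq Q Q.Frac _ (inferInstance : Algebra Q.Fun Q.Frac)
    (inferInstance : IsFractionRing Q.Fun Q.Frac) a b h

theorem ratio_dat {S T : Finset Q.Idx} (h : Disjoint S T) :
    Q.ratioFactor S T = Dat.ProdAux.H Q.dat Q.Frac S T := by
  rw [ratioFactor, Dat.ProdAux.H]
  apply Finset.prod_congr rfl
  intro a ha
  apply Finset.prod_congr rfl
  intro b hb
  rw [Q.eta_dat a b]
  rintro rfl
  exact Finset.disjoint_left.1 h ha hb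

theorem PP_dat (S : Finset Q.Idx) : Q.dat.PP S = ∏ a ∈ S, Q.frame a := rfl

theorem term_dat (μ : Q.Idx → ℤ) (c : Q.Frac) : Q.term μ c = AddMonoidAlgebra.single μ c := rfl

theorem up_dat (f : Finset Q.Idx → Q.Fun) : Q.up f = Q.dat.X Q.Frac false f := by
  rw [up, Dat.X]
  apply Finset.sum_congr rfl
  intro S _
  rw [term_dat]
  congr 1
  · ext a
    simp [Dat.ex]
  · rw [Dat.wt, Dat.ProdAux.eps_eq, ratio_dat Q disjoint_compl_right, map_mul, PP_dat]
    simp only [Bool.false_eq_true, if_false, mul_assoc]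
    rfl

theorem down_dat (f : Finset Q.Idx → Q.Fun) :
    Q.down f = Q.dat.X Q.Frac true (fun S => f Sᶜ) := by
  rw [down, Dat.X]
  apply Fintype.sum_equiv (Equiv.mk compl compl compl_compl compl_compl :
    Finset Q.Idx ≃ Finset Q.Idx)
  intro S
  simp only [Equiv.coe_fn_mk]
  rw [term_dat]
  congr 1
  · ext a
    simp only [Dat.ex, Finset.mem_compl, if_true]
    split_ifs <;> simp_all
  · rw [Dat.wt, Dat.ProdAux.eps_eq, ratio_dat Q disjoint_compl_left]
    simp only [if_true, one_mul, compl_compl]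
    rfl

theorem down_compl (f : Finset Q.Idx → Q.Fun) :
    Q.dat.X Q.Frac true f = Q.down (fun S => f Sᶜ) := by
  rw [down_dat]
  simp only [compl_compl]

theorem hall_dat (f : Finset Q.Idx → Q.Fun) : Q.hall f =
    ∑ S : Finset Q.Idx, algebraMap Q.Fun Q.Frac (f S * Q.dat.PP S) *
      Q.dat.kk Q.Frac S Sᶜ := by
  rw [hall]
  apply Finset.sum_congr rfl
  intro S _
  rw [Dat.ProdAux.kk_eq, ratio_dat Q disjoint_compl_right, ratio_dat Q disjoint_compl_left,
    mul_assoc]
  rfl

/-- the specialisation data -/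
noncomputable def spec : SpecData (V := Q.Idx) (I := Q.I) (O := Q.Fun) (O' := Q.enlarge.Fun)
    Q.enlarge.dat Q.dat := Q.specData

theorem spec_pi (z : Q.enlarge.Fun) : Q.spec.pi z = Q.funRestrict z := rfl

theorem diag_dat (hl : ∀ e, Q.src e = Q.tgt e → Q.chi e ≠ 0) (a : Q.Idx) : Q.dat.m a a ≠ 0 :=
  Q.mm_diag hl a

end QuiverData

end Run7.h787
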