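import Mathlib

/-! The combinatorial data of a quiver gauge theory. -/

namespace Run7.h787

/-- A finite quiver (vertices `I`, arrows `E`), dimension vector `v`, framing dimensions `w`, and a
flavour torus with character lattice `ℤ^T`, acting on the arrow `e` by the character `chi e` and on
the `l`-th basis vector of `W_i` by the character `psi i l`. -/
structure QuiverData where
  I : Type
  E : Type
  T : Type
  finI : Fintype I
  decI : DecidableEq I
  finE : Fintype E
  finT : Fintype T
  src : E → I
  tgt : E → I
  v : I → ℕ
  w : I → ℕ
  chi : E → (T →₀ ℤ)
  psi : (i : I) → Fin (w i) → (T →₀ ℤ)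

namespace QuiverData

variable (Q : QuiverData)

instance : Fintype Q.I := Q.finI
instance : DecidableEq Q.I := Q.decI
instance : Fintype Q.E := Q.finE
instance : Fintype Q.T := Q.finT

/-- the same theory with the flavour torus enlarged by one factor `ℂ^×` for each arrow, which
scales that arrow -/
noncomputable abbrev enlarge : QuiverData where
  I := Q.I
  E := Q.E
  T := Q.T ⊕ Q.E
  finI := Q.finI
  decI := Q.decI
  finE := Q.finE
  finT := inferInstance
  src := Q.src
  tgt := Q.tgt
  v := Q.v
  w := Q.w
  chi := fun e => (Q.chi e).mapDomain Sum.inl + Finsupp.single (Sum.inr e) 1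
  psi := fun i l => (Q.psi i l).mapDomain Sum.inl

end QuiverData

end Run7.h787
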