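import Mathlib

/-!
Abstract data for the abelianised commutative K-theoretic Coulomb branch of a quiver gauge theory.
`V` = set of pairs (vertex, index), `I` = set of vertices, `c a` the vertex of `a`;
`O` = coordinate ring of (torus of G) x (flavour torus);
`sub θ` = substitution `x_a ↦ x_{θ a}`.
-/

open Finset

namespace Run7.h787

/-- Abstract data. -/
structure Dat (V I O : Type) [Fintype V] [DecidableEq V] [DecidableEq I] [CommRing O] where
  c : V → I
  sub : (V → V) → O →+* O
  sub_id : ∀ z, sub id z = z
  sub_comp : ∀ (θ θ' : V → V) (z : O), sub (θ ∘ θ') z = sub θ (sub θ' z)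
  x : V → O
  x_inj : Function.Injective x
  sub_x : ∀ θ a, sub θ (x a) = x (θ a)
  dvd_merge : ∀ (a b : V) (z : O), x a - x b ∣ z - sub (Function.update id b a) z
  m : V → V → O
  m_ne : ∀ a b, a ≠ b → m a b ≠ 0
  sub_m : ∀ θ : V → V, (∀ a, c (θ a) = c a) → ∀ a b, sub θ (m a b) = m (θ a) (θ b)
  P : V → O
  P_ne : ∀ a, P a ≠ 0
  sub_P : ∀ θ : V → V, (∀ a, c (θ a) = c a) → ∀ a, sub θ (P a) = P (θ a)
  gen : ∀ z : O, z ∈ AddSubgroup.closure {u : O | ∃ (k : O) (f : V → O),
    (∀ θ, sub θ k = k) ∧ (∀ a θ θ', θ a = θ' a → sub θ (f a) = sub θ' (f a)) ∧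
      u = k * ∏ a, f a}

variable {V I O : Type} [Fintype V] [DecidableEq V] [DecidableEq I] [CommRing O]

namespace Dat

variable (D : Dat V I O)

/-- colour preserving maps -/
def CP (θ : V → V) : Prop := ∀ a, D.c (θ a) = D.c a

/-- merge `b` into `a` -/
def mg (a b : V) : V → V := Function.update id b a

/-- dimension vector of a subset -/
def dim (S : Finset V) : I → ℕ := fun i => (S.filter (fun a => D.c a = i)).card

/-- image of a subset under a permutation -/
def im (σ : Equiv.Perm V) (S : Finset V) : Finset V := S.map σ.toEmbedding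

/-- equivariant functions on subsets -/
def Eqv (f : Finset V → O) : Prop :=
  ∀ σ : Equiv.Perm V, D.CP σ → ∀ S, D.sub σ (f S) = f (im σ S)

/-- equivariant functions supported on subsets of dimension vector `d` -/
def EqvD (d : I → ℕ) (f : Finset V → O) : Prop := D.Eqv f ∧ ∀ S, D.dim S ≠ d → f S = 0

/-- equivariant functions on pairs of subsets -/
def Eqv2 (g : Finset V → Finset V → O) : Prop :=
  ∀ σ : Equiv.Perm V, D.CP σ → ∀ S T, D.sub σ (g S T) = g (im σ S) (im σ T)

/-- `T2 d1 d2`: sums of products `f1 (S1) * f2 (S2)` with `fi` equivariant supported on `di`. -/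
def T2 (d1 d2 : I → ℕ) : AddSubgroup (Finset V → Finset V → O) :=
  AddSubgroup.closure {Φ | ∃ f1 f2, D.EqvD d1 f1 ∧ D.EqvD d2 f2 ∧ Φ = fun S T => f1 S * f2 T}

/-- denominators -/
def dd (a b : V) : O := if D.c a = D.c b then D.x a - D.x b else 1

variable (K : Type) [Field K] [Algebra O K]

/-- the matter factor divided by the root factor -/
noncomputable def eta (a b : V) : K := algebraMap O K (D.m a b) / algebraMap O K (D.dd a b)

/-- symmetric factor -/
noncomputable def kap (a b : V) : K := D.eta K a b * D.eta K b a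

/-- product of the symmetric factors over `C × Z` -/
noncomputable def kk (C Z : Finset V) : K := ∏ a ∈ C, ∏ b ∈ Z, D.kap K a b

/-- product of the factors `eta a b`, `a ∈ S`, `b ∉ S` -/
noncomputable def eps (S : Finset V) : K := ∏ a ∈ S, ∏ b ∈ Sᶜ, D.eta K a b

/-- framing factor of a subset -/
def PP (S : Finset V) : O := ∏ a ∈ S, D.P a

/-- weights of the minuscule operators; label `false` = E (creation), `true` = F -/
noncomputable def wt (l : Bool) (S : Finset V) : K :=
  (if l then 1 else algebraMap O K (D.PP S)) * D.eps K S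

/-- exponents of the minuscule operators -/
def ex (l : Bool) (S : Finset V) : V → ℤ :=
  fun a => (if a ∈ S then 1 else 0) - (if l then 1 else 0)

/-- the dressed minuscule monopole operators -/
noncomputable def X (l : Bool) (f : Finset V → O) : AddMonoidAlgebra K (V → ℤ) :=
  ∑ S : Finset V, AddMonoidAlgebra.single (ex l S) (algebraMap O K (f S) * D.wt K l S)

/-- extra factor in the product of two operators: `e = true` iff the labels are (E,F) -/
def ef (e : Bool) (C : Finset V) : O := if e then D.PP C else 1

/-- coefficient function of a product of two operators,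
indexed by (intersection `B`, symmetric difference `Z`) -/
noncomputable def gco (e : Bool) (Φ : Finset V → Finset V → O) (B Z : Finset V) : K :=
  ∑ C ∈ Z.powerset, algebraMap O K (Φ (B ∪ C) (B ∪ (Z \ C)) * D.ef e C) * D.kk K C (Z \ C)

/-- span of the operators with label `l` and dimension `d` -/
noncomputable def G (l : Bool) (d : I → ℕ) : Submodule ℤ (AddMonoidAlgebra K (V → ℤ)) :=
  Submodule.span ℤ {u | ∃ f, D.EqvD d f ∧ u = D.X K l f}

/-- span of the products of type `τ` -/
noncomputable def Gw (τ : List (Bool × (I → ℕ))) : Submodule ℤ (AddMonoidAlgebra K (V → ℤ)) :=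
  (τ.map (fun t => D.G K t.1 t.2)).prod

end Dat

end Run7.h787
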