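import Pool.Agent.Run7.h787.Straighten

/-! Extension by zero to the diagonal. -/

open Finset

set_option linter.unusedSectionVars false
set_option linter.unusedVariables false
set_option linter.unusedSimpArgs false

namespace Run7.h787

variable {V I O : Type} [Fintype V] [DecidableEq V] [Fintype I] [DecidableEq I] [CommRing O]
  [IsDomain O] [Algebra ℚ O]

namespace Dat

variable (D : Dat V I O)

namespace ExtAux

/-- `h` depends only on the variables in `S` -/
def Dep (S : Finset V) (h : O) : Prop :=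
  ∀ θ θ' : V → V, (∀ a ∈ S, θ a = θ' a) → D.sub θ h = D.sub θ' h

theorem Dep_mono {S T : Finset V} (hST : S ⊆ T) {h : O} (hS : Dep D S h) : Dep D T h :=
  fun θ θ' hθ => hS θ θ' (fun a ha => hθ a (hST ha))

theorem Dep_mul {S : Finset V} {h h' : O} (hS : Dep D S h) (hS' : Dep D S h') :
    Dep D S (h * h') := by
  intro θ θ' hθ
  rw [map_mul, map_mul, hS θ θ' hθ, hS' θ θ' hθ]

theorem Dep_prod {S : Finset V} (T : Finset V) (f : V → O) (hf : ∀ a ∈ T, Dep D S (f a)) :
    Dep D S (∏ a ∈ T, f a) := by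
  intro θ θ' hθ
  rw [map_prod, map_prod]
  exact Finset.prod_congr rfl (fun a ha => hf a ha θ θ' hθ)

open Classical in
/-- colour preserving permutations moving only elements of `S` -/
noncomputable def WS (S : Finset V) : Finset (Equiv.Perm V) :=
  univ.filter (fun σ => D.CP σ ∧ ∀ a, a ∉ S → σ a = a)

theorem mem_WS {S : Finset V} {σ : Equiv.Perm V} :
    σ ∈ WS D S ↔ D.CP σ ∧ ∀ a, a ∉ S → σ a = a := by
  simp [WS]

theorem one_mem_WS (S : Finset V) : (1 : Equiv.Perm V) ∈ WS D S := by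
  rw [mem_WS]; exact ⟨fun _ => rfl, fun _ _ => rfl⟩

theorem WS_card_ne (S : Finset V) : ((WS D S).card : ℚ) ≠ 0 := by
  have : 0 < (WS D S).card := Finset.card_pos.2 ⟨1, one_mem_WS D S⟩
  positivity

theorem WS_mapsTo {S : Finset V} {σ : Equiv.Perm V} (hσ : σ ∈ WS D S) {a : V} (ha : a ∈ S) :
    σ a ∈ S := by
  by_contra h
  have h1 := (mem_WS D).1 hσ
  have h2 := h1.2 (σ a) h
  have h3 : σ a = a := σ.injective h2
  rw [h3] at h
  exact h ha

/-- averaging -/
noncomputable def Av (S : Finset V) (h : O) : O :=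
  algebraMap ℚ O (1 / (WS D S).card) * ∑ σ ∈ WS D S, D.sub σ h

theorem Av_add (S : Finset V) (h h' : O) : Av D S (h + h') = Av D S h + Av D S h' := by
  simp only [Av, map_add, Finset.sum_add_distrib, mul_add]

theorem Av_zero (S : Finset V) : Av D S 0 = 0 := by
  simp only [Av, map_zero, Finset.sum_const_zero, mul_zero]

theorem Av_neg (S : Finset V) (h : O) : Av D S (-h) = - Av D S h := by
  simp only [Av, map_neg, Finset.sum_neg_distrib, mul_neg]

theorem Av_of_inv {S : Finset V} {h : O} (hh : ∀ σ ∈ WS D S, D.sub σ h = h) : Av D S h = h := by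
  rw [Av, Finset.sum_congr rfl hh, Finset.sum_const, nsmul_eq_mul, ← mul_assoc]
  have : algebraMap ℚ O (1 / (WS D S).card) * ((WS D S).card : O) = 1 := by
    have h1 : ((WS D S).card : O) = algebraMap ℚ O ((WS D S).card : ℚ) := by
      rw [map_natCast]
    rw [h1, ← map_mul, one_div, inv_mul_cancel₀ (WS_card_ne D S), map_one]
  rw [this, one_mul]

theorem sub_rat (θ : V → V) (q : ℚ) : D.sub θ (algebraMap ℚ O q) = algebraMap ℚ O q := by
  exact RingHom.map_rat_algebraMap _ q

theorem Av_inv {S : Finset V} (h : O) {τ : Equiv.Perm V} (hτ : τ ∈ WS D S) :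
    D.sub τ (Av D S h) = Av D S h := by
  rw [Av, map_mul, sub_rat, map_sum]
  congr 1
  have hmul : ∀ σ, τ * σ ∈ WS D S ↔ σ ∈ WS D S := by
    have h1 := (mem_WS D).1 hτ
    have h1' : ∀ a, a ∉ S → τ.symm a = a := by
      intro a ha
      rw [Equiv.symm_apply_eq]; exact (h1.2 a ha).symm
    have h1c : ∀ a, D.c (τ.symm a) = D.c a := by
      intro a
      have := h1.1 (τ.symm a)
      rw [Equiv.apply_symm_apply] at this
      exact this.symm
    intro σ
    rw [mem_WS, mem_WS]
    constructor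
    · rintro ⟨h2, h3⟩
      constructor
      · intro a
        have h4 := h2 a
        rw [Equiv.Perm.mul_apply, h1.1] at h4
        exact h4
      · intro a ha
        have h4 := h3 a ha
        rw [Equiv.Perm.mul_apply] at h4
        have h5 : σ a = τ.symm a := by rw [Equiv.eq_symm_apply]; exact h4
        rw [h5, h1' a ha]
    · rintro ⟨h2, h3⟩
      constructor
      · intro a
        rw [Equiv.Perm.mul_apply, h1.1, h2]
      · intro a ha
        rw [Equiv.Perm.mul_apply, h3 a ha, h1.2 a ha]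
  apply Finset.sum_bij (fun σ _ => τ * σ)
  · intro σ hσ; exact (hmul σ).2 hσ
  · intro σ _ σ' _ h; exact mul_left_cancel h
  · intro σ hσ
    refine ⟨τ⁻¹ * σ, ?_, ?_⟩
    · rw [← hmul, mul_inv_cancel_left]; exact hσ
    · rw [mul_inv_cancel_left]
  · intro σ _
    rw [← D.sub_comp]; rfl

theorem Av_Dep {S : Finset V} {h : O} (hS : Dep D S h) : Dep D S (Av D S h) := by
  intro θ θ' hθ
  rw [Av, map_mul, map_mul, sub_rat, sub_rat, map_sum, map_sum]
  congr 1
  apply Finset.sum_congr rfl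
  intro σ hσ
  rw [← D.sub_comp, ← D.sub_comp]
  apply hS
  intro a ha
  exact hθ _ (WS_mapsTo D hσ ha)

theorem Av_mul {S T : Finset V} (hd : Disjoint S T) {u : O} (hu : Dep D T u) (h : O) :
    Av D S (u * h) = u * Av D S h := by
  rw [Av, Av, mul_left_comm]
  congr 1
  rw [Finset.mul_sum]
  apply Finset.sum_congr rfl
  intro σ hσ
  rw [map_mul]
  congr 1
  rw [hu σ id, D.sub_id]
  intro a ha
  exact ((mem_WS D).1 hσ).2 a (fun h => Finset.disjoint_left.1 hd h ha)

/-- invariance under the stabiliser -/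
theorem inv_of_stab {S : Finset V} {h : O} (hS : Dep D S h)
    (hi : ∀ σ ∈ WS D S, D.sub σ h = h) {σ : Equiv.Perm V} (hσ : D.CP σ) (hσS : im σ S = S) :
    D.sub σ h = h := by
  classical
  have hmem : ∀ a, σ a ∈ S ↔ a ∈ S := by
    intro a
    have := im_mem_iff (σ := σ) (S := S) (a := a)
    rwa [hσS] at this
  set σ1 : Equiv.Perm V := Equiv.Perm.ofSubtype (σ.subtypePerm hmem) with hσ1
  have h1 : ∀ a ∈ S, σ1 a = σ a := by
    intro a ha
    rw [hσ1, Equiv.Perm.ofSubtype_apply_of_mem _ ha]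
    rfl
  have h2 : ∀ a, a ∉ S → σ1 a = a := by
    intro a ha
    rw [hσ1]
    exact Equiv.Perm.ofSubtype_apply_of_not_mem _ ha
  rw [hS σ σ1 (fun a ha => (h1 a ha).symm)]
  apply hi
  rw [mem_WS]
  refine ⟨?_, h2⟩
  intro a
  by_cases ha : a ∈ S
  · rw [h1 a ha]; exact hσ a
  · rw [h2 a ha]

theorem CP_mul {σ τ : Equiv.Perm V} (hσ : D.CP σ) (hτ : D.CP τ) : D.CP (σ * τ) := by
  intro a
  rw [Equiv.Perm.mul_apply, hσ, hτ]

theorem CP_inv {σ : Equiv.Perm V} (hσ : D.CP σ) : D.CP (σ⁻¹ : Equiv.Perm V) := by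
  intro a
  have h := hσ (σ⁻¹ a)
  have h' : σ (σ⁻¹ a) = a := Equiv.apply_symm_apply σ a
  rw [h'] at h
  exact h.symm

theorem CP_one : D.CP (1 : Equiv.Perm V) := fun _ => rfl

/-- transport of an invariant element along an orbit -/
theorem transport {X : Type} (ac : Equiv.Perm V → X → X)
    (hmul : ∀ σ τ x, ac (σ * τ) x = ac σ (ac τ x)) (hone : ∀ x, ac 1 x = x) (x0 : X) (h0 : O)
    (hinv : ∀ σ : Equiv.Perm V, D.CP σ → ac σ x0 = x0 → D.sub σ h0 = h0) :
    ∃ f : X → O, (∀ σ : Equiv.Perm V, D.CP σ → ∀ x, D.sub σ (f x) = f (ac σ x)) ∧ f x0 = h0 ∧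
      ∀ x, f x ≠ 0 → ∃ σ : Equiv.Perm V, D.CP σ ∧ ac σ x0 = x := by
  classical
  have key : ∀ σ τ : Equiv.Perm V, D.CP σ → D.CP τ → ac σ x0 = ac τ x0 →
      D.sub σ h0 = D.sub τ h0 := by
    intro σ τ hσ hτ h
    have h1 : ac (τ⁻¹ * σ) x0 = x0 := by
      rw [hmul, h, ← hmul, inv_mul_cancel, hone]
    have h2 := hinv (τ⁻¹ * σ) (CP_mul D (CP_inv D hτ) hσ) h1
    have h3 : D.sub σ h0 = D.sub τ (D.sub (τ⁻¹ * σ : Equiv.Perm V) h0) := by
      rw [← D.sub_comp]
      congr 2
      ext a
      simp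
    rw [h3, h2]
  refine ⟨fun x => if h : ∃ σ : Equiv.Perm V, D.CP σ ∧ ac σ x0 = x then D.sub h.choose h0 else 0,
    ?_, ?_, ?_⟩
  · intro σ hσ x
    by_cases h : ∃ τ : Equiv.Perm V, D.CP τ ∧ ac τ x0 = x
    · have h' : ∃ τ : Equiv.Perm V, D.CP τ ∧ ac τ x0 = ac σ x := by
        obtain ⟨τ, hτ, h1⟩ := h
        exact ⟨σ * τ, CP_mul D hσ hτ, by rw [hmul, h1]⟩
      simp only [dif_pos h, dif_pos h']
      have h1 := h.choose_spec
      have h2 := h'.choose_spec
      rw [← D.sub_comp]
      have h3 := key (σ * h.choose) h'.choose (CP_mul D hσ h1.1) h2.1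
        (by rw [hmul, h1.2, h2.2])
      exact h3
    · have h' : ¬ ∃ τ : Equiv.Perm V, D.CP τ ∧ ac τ x0 = ac σ x := by
        rintro ⟨τ, hτ, h1⟩
        apply h
        refine ⟨σ⁻¹ * τ, CP_mul D (CP_inv D hσ) hτ, ?_⟩
        rw [hmul, h1, ← hmul, inv_mul_cancel, hone]
      simp only [dif_neg h, dif_neg h', map_zero]
  · have h : ∃ σ : Equiv.Perm V, D.CP σ ∧ ac σ x0 = x0 := ⟨1, CP_one D, hone x0⟩
    simp only [dif_pos h]
    exact hinv _ h.choose_spec.1 h.choose_spec.2
  · intro x hx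
    by_contra h
    simp only [dif_neg h] at hx
    exact hx rfl

/-- transitivity -/
theorem transitive {B0 D0 B D' : Finset V} (h0 : Disjoint B0 D0) (h1 : Disjoint B D')
    (hB : D.dim B0 = D.dim B) (hD : D.dim D0 = D.dim D') :
    ∃ σ : Equiv.Perm V, D.CP σ ∧ im σ B0 = B ∧ im σ D0 = D' := by
  classical
  let F : Finset V → Finset V → V → I × Fin 3 :=
    fun B D' a => (D.c a, if a ∈ B then 0 else if a ∈ D' then 1 else 2)
  have hcard : ∀ p : I × Fin 3, Nonempty ({a // F B0 D0 a = p} ≃ {a // F B D' a = p}) := by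
    rintro ⟨i, n⟩
    apply Nonempty.intro
    apply Fintype.equivOfCardEq
    have hcount : ∀ B D' : Finset V, Disjoint B D' →
        Fintype.card {a // F B D' a = (i, n)} =
          if n = 0 then D.dim B i else if n = 1 then D.dim D' i else D.dim (B ∪ D')ᶜ i := by
      intro B D' hd
      rw [Fintype.card_subtype]
      have hdl := Finset.disjoint_left.1 hd
      fin_cases n
      · simp only [dim]
        congr 1
        ext a
        simp only [F, Finset.mem_filter, Finset.mem_univ, true_and, Prod.mk.injEq]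
        by_cases h1 : a ∈ B
        · simp [h1]
        · by_cases h2 : a ∈ D' <;> simp [h1, h2]
      · simp only [dim]
        congr 1
        ext a
        simp only [F, Finset.mem_filter, Finset.mem_univ, true_and, Prod.mk.injEq]
        by_cases h1 : a ∈ B
        · simp [h1, hdl h1]
        · by_cases h2 : a ∈ D' <;> simp [h1, h2]
      · simp only [dim]
        congr 1
        ext a
        simp only [F, Finset.mem_filter, Finset.mem_univ, true_and, Prod.mk.injEq]
        by_cases h1 : a ∈ B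
        · simp [h1]
        · by_cases h2 : a ∈ D' <;> simp [h1, h2]
    rw [hcount B0 D0 h0, hcount B D' h1, hB, hD]
    have h2 := D.dim_compl (B0 ∪ D0)
    have h3 := D.dim_compl (B ∪ D')
    rw [D.dim_union h0, hB, hD, ← D.dim_union h1, ← h3] at h2
    rw [add_left_cancel h2]
  have e := fun p => (hcard p).some
  let σ : Equiv.Perm V := (Equiv.sigmaFiberEquiv (F B0 D0)).symm.trans
    ((Equiv.sigmaCongrRight e).trans (Equiv.sigmaFiberEquiv (F B D')))
  have hσ : ∀ a, F B D' (σ a) = F B0 D0 a := by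
    intro a
    exact (e (F B0 D0 a) ⟨a, rfl⟩).2
  have hσc : ∀ a, D.c (σ a) = D.c a := fun a => congrArg Prod.fst (hσ a)
  have hσ2 : ∀ a, (if σ a ∈ B then (0 : Fin 3) else if σ a ∈ D' then 1 else 2) =
      if a ∈ B0 then 0 else if a ∈ D0 then 1 else 2 := fun a => congrArg Prod.snd (hσ a)
  have hσB : ∀ a, σ a ∈ B ↔ a ∈ B0 := by
    intro a
    have := hσ2 a
    by_cases h1 : σ a ∈ B <;> by_cases h2 : a ∈ B0
    · simp [h1, h2]
    · rw [if_pos h1, if_neg h2] at this
      split_ifs at this <;> exact absurd this (by decide)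
    · rw [if_neg h1, if_pos h2] at this
      split_ifs at this <;> exact absurd this (by decide)
    · simp [h1, h2]
  have hσD : ∀ a, σ a ∈ D' ↔ a ∈ D0 := by
    intro a
    have := hσ2 a
    have hd0 := Finset.disjoint_left.1 h0
    have hd1 := Finset.disjoint_left.1 h1
    by_cases hb : a ∈ B0
    · have hb' := (hσB a).2 hb
      constructor
      · intro h; exact absurd h (hd1 hb')
      · intro h; exact absurd h (hd0 hb)
    · have hb' : σ a ∉ B := fun h => hb ((hσB a).1 h)
      rw [if_neg hb, if_neg hb'] at this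
      by_cases h1 : σ a ∈ D' <;> by_cases h2 : a ∈ D0
      · simp [h1, h2]
      · rw [if_pos h1, if_neg h2] at this
        exact absurd this (by decide)
      · rw [if_neg h1, if_pos h2] at this
        exact absurd this (by decide)
      · simp [h1, h2]
  refine ⟨σ, hσc, ?_, ?_⟩
  · ext b
    rw [mem_im, ← hσB, Equiv.apply_symm_apply]
  · ext b
    rw [mem_im, ← hσD, Equiv.apply_symm_apply]

end ExtAux

open ExtAux in
theorem extend (β γ : I → ℕ) (hβγ : β + γ = D.dim univ) (g : Finset V → Finset V → O)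
    (hg : D.Eqv2 g)
    (hm : ∀ B D' : Finset V, Disjoint B D' → D.dim B = β → D.dim D' = β →
      ∀ θ : V → V, D.CP θ → (∀ a, a ∉ D' → θ a = a) → Set.BijOn θ D' B →
        D.sub θ (g B D'ᶜ) = 0) :
    ∃ Φ ∈ D.T2 β γ, (∀ B A : Finset V, B ⊆ A → D.dim B = β → D.dim A = γ → Φ B A = g B A) ∧
      ∀ S, Φ S Sᶜ = 0 := by
  classical
  by_cases hex : ∃ B0 D0 : Finset V, Disjoint B0 D0 ∧ D.dim B0 = β ∧ D.dim D0 = β
  swap
  · refine ⟨0, zero_mem _, ?_, fun S => rfl⟩
    intro B A hBA hB hA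
    exfalso
    apply hex
    refine ⟨B, Aᶜ, ?_, hB, ?_⟩
    · rw [Finset.disjoint_left]; intro a ha h'; exact (Finset.mem_compl.1 h') (hBA ha)
    · have := D.dim_compl A
      rw [hA, ← hβγ, add_comm] at this
      exact add_right_cancel this
  obtain ⟨B0, D0, hd0, hB0, hD0⟩ := hex
  have hdl := Finset.disjoint_left.1 hd0
  obtain ⟨τ, hτ, hτB, hτD⟩ := transitive D hd0 hd0.symm (hB0.trans hD0.symm) (hD0.trans hB0.symm)
  set θ0 : V → V := fun a => if a ∈ D0 then τ a else a with hθ0
  have θ0D : ∀ a ∈ D0, θ0 a = τ a := fun a ha => by simp [hθ0, ha]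
  have θ0n : ∀ a, a ∉ D0 → θ0 a = a := fun a ha => by simp [hθ0, ha]
  have cθ0 : D.CP θ0 := by
    intro a
    by_cases ha : a ∈ D0
    · rw [θ0D a ha]; exact hτ a
    · rw [θ0n a ha]
  have bij0 : Set.BijOn θ0 D0 B0 := by
    refine ⟨?_, ?_, ?_⟩
    · intro a ha
      rw [Finset.mem_coe] at ha ⊢
      rw [θ0D a ha, ← hτD]
      exact im_mem_iff.2 ha
    · intro a ha b hb h
      rw [Finset.mem_coe] at ha hb
      rw [θ0D a ha, θ0D b hb] at h
      exact τ.injective h
    · intro b hb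
      rw [Finset.mem_coe, ← hτD, mem_im] at hb
      exact ⟨τ.symm b, hb, by rw [θ0D _ hb, Equiv.apply_symm_apply]⟩
  set Z0 : Finset V := (B0 ∪ D0)ᶜ with hZ0
  have hdimD : D.dim D0ᶜ = γ := by
    have := D.dim_compl D0
    rw [hD0, ← hβγ] at this
    exact add_left_cancel this
  have hBD : B0 ⊆ D0ᶜ := by
    intro a ha; rw [Finset.mem_compl]; exact hdl ha
  set g0 := g B0 D0ᶜ with hg0
  have hθg0 : D.sub θ0 g0 = 0 := hm B0 D0 hd0 hB0 hD0 θ0 cθ0 θ0n bij0
  -- the set of good elements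
  let PP : O → Prop := fun h => ∃ Ψ ∈ D.T2 β γ, (∀ S, Ψ S Sᶜ = 0) ∧
    Ψ B0 D0ᶜ = h - D.sub θ0 h
  have PP_add : ∀ h h', PP h → PP h' → PP (h + h') := by
    rintro h h' ⟨Ψ, h1, h2, h3⟩ ⟨Ψ', h1', h2', h3'⟩
    refine ⟨Ψ + Ψ', add_mem h1 h1', ?_, ?_⟩
    · intro S; simp only [Pi.add_apply, h2, h2', add_zero]
    · simp only [Pi.add_apply, h3, h3', map_add]; ring
  have PP_neg : ∀ h, PP h → PP (-h) := by
    rintro h ⟨Ψ, h1, h2, h3⟩
    refine ⟨-Ψ, neg_mem h1, ?_, ?_⟩
    · intro S; simp only [Pi.neg_apply, h2, neg_zero]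
    · simp only [Pi.neg_apply, h3, map_neg]; ring
  have PP_zero : PP 0 := ⟨0, zero_mem _, fun _ => rfl, by simp⟩
  -- products of invariant elements are good
  have PP_mul : ∀ u v w : O, Dep D B0 u → (∀ σ ∈ WS D B0, D.sub σ u = u) →
      Dep D D0 v → (∀ σ ∈ WS D D0, D.sub σ v = v) →
      Dep D Z0 w → (∀ σ ∈ WS D Z0, D.sub σ w = w) → PP (u * (v * w)) := by
    intro u v w hu hui hv hvi hw hwi
    obtain ⟨b, hb1, hb2, hb3⟩ := transport D (X := Finset V) (fun σ S => im σ S)
      (fun σ τ S => im_mul σ τ S) (fun S => by ext a; simp only [mem_im]; rfl) B0 u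
      (fun σ hσ h => inv_of_stab D hu hui hσ h)
    obtain ⟨e, he1, he2, he3⟩ := transport D (X := Finset V) (fun σ S => im σ S)
      (fun σ τ S => im_mul σ τ S) (fun S => by ext a; simp only [mem_im]; rfl) D0 v
      (fun σ hσ h => inv_of_stab D hv hvi hσ h)
    obtain ⟨z, hz1, hz2, hz3⟩ := transport D (X := Finset V × Finset V)
      (fun σ p => (im σ p.1, im σ p.2))
      (fun σ τ p => by simp only [im_mul])
      (fun p => by
        ext a <;> simp only [mem_im] <;> rfl) (B0, D0ᶜ) w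
      (fun σ hσ h => by
        apply inv_of_stab D hw hwi hσ
        simp only [Prod.mk.injEq] at h
        have h2 : im σ D0 = D0 := by
          have := h.2
          rw [im_compl] at this
          exact compl_injective this
        rw [hZ0, im_compl, im_union, h.1, h2])
    have hbE : D.Eqv b := hb1
    have heE : D.Eqv e := he1
    have hzE : D.Eqv2 (fun S T => z (S, T)) := fun σ hσ S T => hz1 σ hσ (S, T)
    obtain ⟨Zf, hZf, hZv⟩ := exists_T2 (fun S T => z (S, T)) hzE β γ
    -- closure of T2 under multiplication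
    have hT2 : ∀ Φ ∈ D.T2 β γ, (fun S T => b S * (e Tᶜ - e S) * Φ S T) ∈ D.T2 β γ := by
      intro Φ hΦ
      induction hΦ using AddSubgroup.closure_induction with
      | mem Φ h =>
        obtain ⟨f1, f2, h1, h2, rfl⟩ := h
        have e1 : (fun S T => b S * (e Tᶜ - e S) * (f1 S * f2 T)) =
            (fun (S T : Finset V) => (b S * f1 S) * (e Tᶜ * f2 T)) -
              (fun (S T : Finset V) => (b S * e S * f1 S) * f2 T) := by
          ext S T
          simp only [Pi.sub_apply]
          ring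
        have e2 : (fun (S T : Finset V) => b S * (e Tᶜ - e S) * (f1 S * f2 T)) =
            (fun S T => b S * (e Tᶜ - e S) * (f1 S * f2 T)) := rfl
        rw [e1]
        apply sub_mem
        · apply AddSubgroup.subset_closure
          refine ⟨fun S => b S * f1 S, fun T => e Tᶜ * f2 T, ⟨?_, ?_⟩, ⟨?_, ?_⟩, rfl⟩
          · intro σ hσ S; simp only [map_mul]; rw [hbE σ hσ, h1.1 σ hσ]
          · intro S hS; simp only; rw [h1.2 S hS, mul_zero]
          · intro σ hσ S; simp only [map_mul]; rw [heE σ hσ, h2.1 σ hσ, im_compl]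
          · intro S hS; simp only; rw [h2.2 S hS, mul_zero]
        · apply AddSubgroup.subset_closure
          refine ⟨fun S => b S * e S * f1 S, f2, ⟨?_, ?_⟩, h2, rfl⟩
          · intro σ hσ S; simp only [map_mul]; rw [hbE σ hσ, heE σ hσ, h1.1 σ hσ]
          · intro S hS; simp only; rw [h1.2 S hS, mul_zero]
      | zero =>
        have : (fun (S T : Finset V) => b S * (e Tᶜ - e S) * (0 : Finset V → Finset V → O) S T)
            = 0 := by
          ext S T; simp
        rw [this]; exact zero_mem _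
      | add Φ Φ' _ _ h h' =>
        have : (fun (S T : Finset V) => b S * (e Tᶜ - e S) * (Φ + Φ') S T)
            = (fun (S T : Finset V) => b S * (e Tᶜ - e S) * Φ S T) +
              (fun (S T : Finset V) => b S * (e Tᶜ - e S) * Φ' S T) := by
          ext S T; simp only [Pi.add_apply]; ring
        rw [this]; exact add_mem h h'
      | neg Φ _ h =>
        have : (fun (S T : Finset V) => b S * (e Tᶜ - e S) * (-Φ) S T)
            = - (fun (S T : Finset V) => b S * (e Tᶜ - e S) * Φ S T) := by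
          ext S T; simp only [Pi.neg_apply]; ring
        rw [this]; exact neg_mem h
    refine ⟨_, hT2 Zf hZf, ?_, ?_⟩
    · intro S
      simp only [compl_compl, sub_self, mul_zero, zero_mul]
    · simp only [compl_compl]
      have heB : e B0 = D.sub τ v := by
        have := he1 τ hτ D0
        rw [he2] at this
        simp only [hτD] at this
        exact this.symm
      have hZ : Zf B0 D0ᶜ = w := by
        rw [hZv B0 D0ᶜ hBD hB0 hdimD]; exact hz2
      have s1 : D.sub θ0 u = u := by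
        rw [hu θ0 id (fun a ha => θ0n a (hdl ha)), D.sub_id]
      have s2 : D.sub θ0 v = D.sub τ v := hv θ0 τ (fun a ha => θ0D a ha)
      have s3 : D.sub θ0 w = w := by
        rw [hw θ0 id (fun a ha => θ0n a (by
          rw [hZ0, Finset.mem_compl, Finset.mem_union, not_or] at ha
          exact ha.2)), D.sub_id]
      rw [hb2, he2, heB, hZ, map_mul, map_mul, s1, s2, s3]
      ring
  -- averaging
  have hBZ : Disjoint Z0 B0 := by
    rw [Finset.disjoint_left]; intro a ha h
    rw [hZ0, Finset.mem_compl, Finset.mem_union] at ha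
    exact ha (Or.inl h)
  have hDZ : Disjoint Z0 D0 := by
    rw [Finset.disjoint_left]; intro a ha h
    rw [hZ0, Finset.mem_compl, Finset.mem_union] at ha
    exact ha (Or.inr h)
  have hA : ∀ h : O, PP (Av D B0 (Av D D0 (Av D Z0 h))) := by
    intro h
    induction D.gen h using AddSubgroup.closure_induction with
    | mem h hh =>
      obtain ⟨k, f, hk, hf, rfl⟩ := hh
      have hk' : Dep D ∅ k := fun θ θ' _ => (hk θ).trans (hk θ').symm
      have hf' : ∀ a, Dep D {a} (f a) := fun a θ θ' h => hf a θ θ' (h a (Finset.mem_singleton_self a))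
      have e1 : k * ∏ a, f a = (k * ∏ a ∈ B0, f a) * ((∏ a ∈ D0, f a) * ∏ a ∈ Z0, f a) := by
        rw [mul_assoc, ← mul_assoc (∏ a ∈ B0, f a), ← Finset.prod_union hd0, hZ0,
          Finset.prod_mul_prod_compl]
      have d1 : Dep D B0 (k * ∏ a ∈ B0, f a) :=
        Dep_mul D (Dep_mono D (Finset.empty_subset _) hk')
          (Dep_prod D _ _ (fun a ha => Dep_mono D (Finset.singleton_subset_iff.2 ha) (hf' a)))
      have d2 : Dep D D0 (∏ a ∈ D0, f a) :=
        Dep_prod D _ _ (fun a ha => Dep_mono D (Finset.singleton_subset_iff.2 ha) (hf' a))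
      have d3 : Dep D Z0 (∏ a ∈ Z0, f a) :=
        Dep_prod D _ _ (fun a ha => Dep_mono D (Finset.singleton_subset_iff.2 ha) (hf' a))
      rw [e1, Av_mul D hBZ d1, Av_mul D hDZ d2, Av_mul D hd0.symm d1]
      rw [mul_comm (∏ a ∈ D0, f a), Av_mul D hDZ.symm (Av_Dep D d3)]
      rw [mul_comm (Av D Z0 _), mul_comm (k * _)]
      rw [Av_mul D (T := D0 ∪ Z0) (by
        rw [Finset.disjoint_union_right]; exact ⟨hd0, hBZ.symm⟩)
        (Dep_mul D (Dep_mono D Finset.subset_union_left (Av_Dep D d2))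
          (Dep_mono D Finset.subset_union_right (Av_Dep D d3)))]
      rw [mul_comm]
      exact PP_mul _ _ _ (Av_Dep D d1) (fun σ hσ => Av_inv D _ hσ) (Av_Dep D d2)
        (fun σ hσ => Av_inv D _ hσ) (Av_Dep D d3) (fun σ hσ => Av_inv D _ hσ)
    | zero => rw [Av_zero, Av_zero, Av_zero]; exact PP_zero
    | add x y _ _ hx hy => rw [Av_add, Av_add, Av_add]; exact PP_add _ _ hx hy
    | neg x _ hx => rw [Av_neg, Av_neg, Av_neg]; exact PP_neg _ hx
  have hinv : ∀ σ : Equiv.Perm V, D.CP σ → im σ B0 = B0 → im σ D0 = D0 → D.sub σ g0 = g0 := by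
    intro σ hσ h1 h2
    rw [hg0, hg σ hσ, im_compl, h1, h2]
  have hfixS : ∀ (σ : Equiv.Perm V) (S T : Finset V), σ ∈ WS D S → Disjoint S T → im σ T = T := by
    intro σ S T hσ hd
    ext a
    rw [mem_im]
    have h1 := (mem_WS D).1 hσ
    constructor
    · intro h
      have h2 := h1.2 (σ.symm a) (fun h' => Finset.disjoint_left.1 hd h' h)
      rw [Equiv.apply_symm_apply] at h2
      rw [h2]; exact h
    · intro h
      have h2 := h1.2 a (fun h' => Finset.disjoint_left.1 hd h' h)
      have h3 : σ.symm a = a := by rw [Equiv.symm_apply_eq]; exact h2.symm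
      rw [h3]; exact h
  have hselfS : ∀ (σ : Equiv.Perm V) (S : Finset V), σ ∈ WS D S → im σ S = S := by
    intro σ S hσ
    apply Finset.eq_of_subset_of_card_le
    · intro a ha
      rw [mem_im] at ha
      have := WS_mapsTo D hσ ha
      rwa [Equiv.apply_symm_apply] at this
    · simp [im]
  have hg0inv : Av D B0 (Av D D0 (Av D Z0 g0)) = g0 := by
    rw [Av_of_inv D (S := Z0), Av_of_inv D (S := D0), Av_of_inv D (S := B0)]
    · intro σ hσ
      exact hinv σ ((mem_WS D).1 hσ).1 (hselfS σ _ hσ) (hfixS σ _ _ hσ hd0)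
    · intro σ hσ
      exact hinv σ ((mem_WS D).1 hσ).1 (hfixS σ _ _ hσ hd0.symm) (hselfS σ _ hσ)
    · intro σ hσ
      exact hinv σ ((mem_WS D).1 hσ).1 (hfixS σ _ _ hσ hBZ) (hfixS σ _ _ hσ hDZ)
  obtain ⟨Ψ, hΨ, h1, h2⟩ := hg0inv ▸ hA g0
  rw [hθg0, sub_zero] at h2
  refine ⟨Ψ, hΨ, ?_, h1⟩
  intro B A hBA hB hA'
  have hdA : Disjoint B Aᶜ := by
    rw [Finset.disjoint_left]; intro a ha h'; exact (Finset.mem_compl.1 h') (hBA ha)
  have hdimA : D.dim Aᶜ = β := by
    have := D.dim_compl A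
    rw [hA', ← hβγ, add_comm] at this
    exact add_right_cancel this
  obtain ⟨σ, hσ, hσB, hσD⟩ := transitive D hd0 hdA (hB0.trans hB.symm) (hD0.trans hdimA.symm)
  have hσA : im σ D0ᶜ = A := by rw [im_compl, hσD, compl_compl]
  have := T2_Eqv2 hΨ σ hσ B0 D0ᶜ
  rw [hσB, hσA, h2, hg0, hg σ hσ, hσB, hσA] at this
  exact this.symm

end Dat

end Run7.h787
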