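import Pool.Agent.Run7.h787.Words3

/-! Preparations for the assembly. -/

open Finset

set_option linter.unusedSectionVars false
set_option linter.unusedVariables false
set_option linter.unusedSimpArgs false

namespace Run7.h787

variable {V I O : Type} [Fintype V] [DecidableEq V] [Fintype I] [DecidableEq I] [CommRing O]
  [IsDomain O] [Algebra ℚ O]

namespace Dat

variable (D : Dat V I O)
variable (K : Type) [Field K] [Algebra O K] [IsFractionRing O K]

/-- the zero coefficient of an element of `MM` -/
theorem MM_coeff {x : AddMonoidAlgebra K (V → ℤ)} (hx : x ∈ D.MM K) :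
    ∃ f : Finset V → O, D.Eqv f ∧ f ∅ = 0 ∧
      x.coeff 0 = ∑ S : Finset V, algebraMap O K (f S * D.PP S) * D.kk K S Sᶜ := by
  classical
  have hadd : ∀ x y : AddMonoidAlgebra K (V → ℤ),
      (∃ f : Finset V → O, D.Eqv f ∧ f ∅ = 0 ∧
        x.coeff 0 = ∑ S : Finset V, algebraMap O K (f S * D.PP S) * D.kk K S Sᶜ) →
      (∃ f : Finset V → O, D.Eqv f ∧ f ∅ = 0 ∧
        y.coeff 0 = ∑ S : Finset V, algebraMap O K (f S * D.PP S) * D.kk K S Sᶜ) →
      ∃ f : Finset V → O, D.Eqv f ∧ f ∅ = 0 ∧
        (x + y).coeff 0 = ∑ S : Finset V, algebraMap O K (f S * D.PP S) * D.kk K S Sᶜ := by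
    rintro x y ⟨f, h1, h2, h3⟩ ⟨g, h1', h2', h3'⟩
    refine ⟨fun S => f S + g S, ?_, ?_, ?_⟩
    · intro σ hσ S
      rw [map_add, h1 σ hσ, h1' σ hσ]
    · simp only [h2, h2', add_zero]
    · rw [AddMonoidAlgebra.coeff_add, Finsupp.add_apply, h3, h3', ← Finset.sum_add_distrib]
      apply Finset.sum_congr rfl
      intro S _
      rw [add_mul, map_add, add_mul]
  have hzero : ∃ f : Finset V → O, D.Eqv f ∧ f ∅ = 0 ∧
      (0 : AddMonoidAlgebra K (V → ℤ)).coeff 0 =
        ∑ S : Finset V, algebraMap O K (f S * D.PP S) * D.kk K S Sᶜ := by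
    refine ⟨fun _ => 0, fun σ _ S => map_zero _, rfl, ?_⟩
    simp
  rw [MM] at hx
  induction hx using Submodule.iSup_induction' with
  | mem q x hx =>
    obtain ⟨⟨q1, q2⟩, hq⟩ := q
    simp only at hx hq
    rw [G, G, Submodule.span_mul_span] at hx
    induction hx using Submodule.span_induction with
    | mem x hx =>
      obtain ⟨_, ⟨f, hf, rfl⟩, _, ⟨g, hg, rfl⟩, rfl⟩ := hx
      refine ⟨fun S => f S * g Sᶜ, ?_, ?_, ?_⟩
      · intro σ hσ S
        rw [map_mul, hf.1 σ hσ, hg.1 σ hσ, im_compl]
      · simp only [Finset.compl_empty]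
        by_cases h1 : D.dim (∅ : Finset V) = q1
        · by_cases h2 : D.dim (univ : Finset V) = q2
          · exact absurd ⟨by rw [← h1, D.dim_empty], h2.symm⟩ hq
          · rw [hg.2 _ h2, mul_zero]
        · rw [hf.2 _ h1, zero_mul]
      · simp only
        rw [D.X_mul_X K false true (fun h => absurd h (by simp)), X2,
          AddMonoidAlgebra.coeff_sum, Finset.sum_apply', Finset.sum_eq_single ∅]
        · rw [AddMonoidAlgebra.coeff_sum, Finset.sum_apply', Finset.sum_eq_single univ]
          · rw [Finset.empty_union, ex_trivial, wt_false_empty, wt_true_univ, one_mul, one_mul,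
              AddMonoidAlgebra.coeff_single, Finsupp.single_eq_same, gco, Finset.powerset_univ]
            apply Finset.sum_congr rfl
            intro C _
            rw [Finset.empty_union, Finset.empty_union, ← Finset.compl_eq_univ_sdiff]
            simp only [ef, Bool.not_false, Bool.true_and, if_true]
          · intro Z _ hZ
            rw [AddMonoidAlgebra.coeff_single, Finsupp.single_apply, if_neg]
            intro h
            apply hZ
            rw [Finset.eq_univ_iff_forall]
            intro a
            by_contra ha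
            have := congrFun h a
            simp [ex, ha] at this
          · intro h; exfalso; apply h; simp
        · intro B _ hB
          rw [AddMonoidAlgebra.coeff_sum, Finset.sum_apply']
          apply Finset.sum_eq_zero
          intro Z hZ
          rw [AddMonoidAlgebra.coeff_single, Finsupp.single_apply, if_neg]
          intro h
          obtain ⟨a, ha⟩ := Finset.nonempty_iff_ne_empty.2 hB
          have := congrFun h a
          simp [ex, ha] at this
        · intro h; exact absurd (Finset.mem_univ _) h
    | zero => exact hzero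
    | add x y _ _ h h' => exact hadd x y h h'
    | smul n x _ h =>
      obtain ⟨f, h1, h2, h3⟩ := h
      refine ⟨fun S => (n : O) * f S, ?_, ?_, ?_⟩
      · intro σ hσ S
        rw [map_mul, map_intCast, h1 σ hσ]
      · simp only [h2, mul_zero]
      · rw [AddMonoidAlgebra.coeff_smul, Finsupp.smul_apply, h3, Finset.smul_sum]
        apply Finset.sum_congr rfl
        intro S _
        simp only [map_mul, map_intCast, zsmul_eq_mul]
        ring
  | zero => exact hzero
  | add x y _ _ h h' => exact hadd x y h h'

/-- all words -/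
noncomputable def Aall : Submodule ℤ (AddMonoidAlgebra K (V → ℤ)) :=
  ⨆ τ : List (Bool × (I → ℕ)), D.Gw K τ

/-- all non-trivial words -/
noncomputable def NTall : Submodule ℤ (AddMonoidAlgebra K (V → ℤ)) :=
  ⨆ τ : {τ : List (Bool × (I → ℕ)) // ¬ ∀ t ∈ τ, D.Triv t}, D.Gw K τ.1

/-- non-trivial words with given labels -/
noncomputable def NTN (N : ℕ) : Submodule ℤ (AddMonoidAlgebra K (V → ℤ)) :=
  ⨆ τ : {τ : List (Bool × (I → ℕ)) //
      τ.map Prod.fst = List.replicate (N + 1) false ++ List.replicate (N + 1) true ∧
        ¬ ∀ t ∈ τ, D.Triv t}, D.Gw K τ.1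

variable {D K}

theorem Gw_append (τ τ' : List (Bool × (I → ℕ))) :
    D.Gw K (τ ++ τ') = D.Gw K τ * D.Gw K τ' := by
  simp only [Gw, List.map_append, List.prod_append]

theorem Aall_mul : D.Aall K * D.Aall K ≤ D.Aall K := by
  rw [Aall, Submodule.iSup_mul]
  apply iSup_le
  intro τ
  rw [Submodule.mul_iSup]
  apply iSup_le
  intro τ'
  rw [← Gw_append]
  exact le_iSup (fun τ => D.Gw K τ) (τ ++ τ')

theorem Aall_mul_NTall : D.Aall K * D.NTall K ≤ D.NTall K := by
  rw [Aall, NTall, Submodule.iSup_mul]
  apply iSup_le
  intro τ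
  rw [Submodule.mul_iSup]
  apply iSup_le
  rintro ⟨τ', hτ'⟩
  rw [← Gw_append]
  exact le_iSup (fun τ : {τ : List (Bool × (I → ℕ)) // ¬ ∀ t ∈ τ, D.Triv t} => D.Gw K τ.1)
    ⟨τ ++ τ', fun h => hτ' (fun t ht => h t (List.mem_append_right _ ht))⟩

theorem G_le_Aall (l : Bool) (d : I → ℕ) : D.G K l d ≤ D.Aall K := by
  have : D.G K l d = D.Gw K [(l, d)] := by simp [Gw]
  rw [this]
  exact le_iSup (fun τ => D.Gw K τ) [(l, d)]

theorem one_mem_G_triv (l : Bool) :
    (1 : AddMonoidAlgebra K (V → ℤ)) ∈ D.G K l (if l then D.dim univ else 0) := by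
  classical
  cases l
  · apply Submodule.subset_span
    refine ⟨fun S => if S = ∅ then 1 else 0, ⟨?_, ?_⟩, ?_⟩
    · intro σ hσ S
      have : im σ S = ∅ ↔ S = ∅ := by
        constructor
        · intro h
          rw [← im_symm_im σ S, h, im_empty]
        · rintro rfl
          exact im_empty σ
      simp only [this]
      split_ifs
      · exact map_one _
      · exact map_zero _
    · intro S hS
      simp only
      rw [if_neg]
      rintro rfl
      apply hS
      simp [D.dim_empty]
    · rw [X, Finset.sum_eq_single ∅]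
      · have e0 : ex false (∅ : Finset V) = 0 := by ext a; simp [ex]
        rw [if_pos rfl, map_one, one_mul, wt_false_empty, e0]
        exact AddMonoidAlgebra.one_def
      · intro S _ hS
        rw [if_neg hS, map_zero, zero_mul, AddMonoidAlgebra.single_zero]
      · intro h; exact absurd (Finset.mem_univ _) h
  · apply Submodule.subset_span
    refine ⟨fun S => if S = univ then 1 else 0, ⟨?_, ?_⟩, ?_⟩
    · intro σ hσ S
      have : im σ S = univ ↔ S = univ := by
        constructor
        · intro h
          rw [← im_symm_im σ S, h, im_univ]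
        · rintro rfl
          exact im_univ σ
      simp only [this]
      split_ifs
      · exact map_one _
      · exact map_zero _
    · intro S hS
      simp only
      rw [if_neg]
      rintro rfl
      apply hS
      simp
    · rw [X, Finset.sum_eq_single univ]
      · have e0 : ex true (univ : Finset V) = 0 := by ext a; simp [ex]
        rw [if_pos rfl, map_one, one_mul, wt_true_univ, e0]
        exact AddMonoidAlgebra.one_def
      · intro S _ hS
        rw [if_neg hS, map_zero, zero_mul, AddMonoidAlgebra.single_zero]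
      · intro h; exact absurd (Finset.mem_univ _) h

theorem le_mul_of_one_mem {A B : Submodule ℤ (AddMonoidAlgebra K (V → ℤ))}
    (h : (1 : AddMonoidAlgebra K (V → ℤ)) ∈ B) : A ≤ B * A := by
  intro x hx
  have := Submodule.mul_mem_mul h hx
  rwa [one_mul] at this

theorem Gw_replicate (l : Bool) (n : ℕ) :
    (1 : AddMonoidAlgebra K (V → ℤ)) ∈
      D.Gw K (List.replicate n (l, if l then D.dim univ else 0)) := by
  induction n with
  | zero =>
    simp only [List.replicate_zero, Gw, List.map_nil, List.prod_nil]
    exact Submodule.one_le.1 le_rfl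
  | succ n ih =>
    rw [List.replicate_succ]
    simp only [Gw, List.map_cons, List.prod_cons]
    have := Submodule.mul_mem_mul (one_mem_G_triv (D := D) (K := K) l) ih
    rw [one_mul] at this
    exact this

theorem Gw_perm {τ τ' : List (Bool × (I → ℕ))} (h : τ.Perm τ') : D.Gw K τ = D.Gw K τ' := by
  simp only [Gw]
  exact (h.map _).prod_eq

/-- padding a word with trivial letters and sorting the labels -/
theorem pad (τ : List (Bool × (I → ℕ))) (hτ : ¬ ∀ t ∈ τ, D.Triv t) (N : ℕ)
    (hN : τ.length ≤ N) : D.Gw K τ ≤ D.NTN K N := by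
  set τE := τ.filter (fun t => !t.1) with hE
  set τF := τ.filter (fun t => t.1) with hF
  have hperm : τ.Perm (τE ++ τF) := by
    have := List.filter_append_perm (fun t : Bool × (I → ℕ) => !t.1) τ
    simp only [Bool.not_not] at this
    exact this.symm
  have hlE : τE.length ≤ N + 1 := (List.length_filter_le _ _).trans (by omega)
  have hlF : τF.length ≤ N + 1 := (List.length_filter_le _ _).trans (by omega)
  have hfE : τE.map Prod.fst = List.replicate τE.length false := by
    rw [List.eq_replicate_iff]
    refine ⟨by simp, ?_⟩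
    intro b hb
    obtain ⟨t, ht, rfl⟩ := List.mem_map.1 hb
    rw [hE, List.mem_filter] at ht
    simpa using ht.2
  have hfF : τF.map Prod.fst = List.replicate τF.length true := by
    rw [List.eq_replicate_iff]
    refine ⟨by simp, ?_⟩
    intro b hb
    obtain ⟨t, ht, rfl⟩ := List.mem_map.1 hb
    rw [hF, List.mem_filter] at ht
    simpa using ht.2
  set pE : List (Bool × (I → ℕ)) :=
    List.replicate (N + 1 - τE.length) (false, if (false : Bool) then D.dim univ else 0) with hpE
  set pF : List (Bool × (I → ℕ)) :=
    List.replicate (N + 1 - τF.length) (true, if (true : Bool) then D.dim univ else 0) with hpF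
  have h1 : (1 : AddMonoidAlgebra K (V → ℤ)) ∈ D.Gw K pE := Gw_replicate false _
  have h2 : (1 : AddMonoidAlgebra K (V → ℤ)) ∈ D.Gw K pF := Gw_replicate true _
  have hle : D.Gw K τ ≤ D.Gw K ((pE ++ τE) ++ (pF ++ τF)) := by
    rw [Gw_perm hperm, Gw_append, Gw_append, Gw_append, Gw_append]
    exact mul_le_mul' (le_mul_of_one_mem h1) (le_mul_of_one_mem h2)
  refine hle.trans ?_
  refine le_iSup (fun τ : {τ : List (Bool × (I → ℕ)) //
      τ.map Prod.fst = List.replicate (N + 1) false ++ List.replicate (N + 1) true ∧
        ¬ ∀ t ∈ τ, D.Triv t} => D.Gw K τ.1) ⟨(pE ++ τE) ++ (pF ++ τF), ?_, ?_⟩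
  · rw [List.map_append, List.map_append, List.map_append, hfE, hfF, hpE, hpF,
      List.map_replicate, List.map_replicate, List.replicate_append_replicate,
      List.replicate_append_replicate]
    congr 2 <;> omega
  · intro h
    apply hτ
    intro t ht
    have ht' := hperm.mem_iff.1 ht
    rw [List.mem_append] at ht'
    apply h
    rw [List.mem_append, List.mem_append, List.mem_append]
    tauto

theorem NTN_mono {N M : ℕ} (h : N ≤ M) : D.NTN K N ≤ D.NTN K M := by
  apply iSup_le
  rintro ⟨τ, hτ, hn⟩
  simp only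
  -- insert trivial letters
  obtain ⟨k, rfl⟩ := Nat.exists_eq_add_of_le h
  set pE : List (Bool × (I → ℕ)) :=
    List.replicate k (false, if (false : Bool) then D.dim univ else 0) with hpE
  set pF : List (Bool × (I → ℕ)) :=
    List.replicate k (true, if (true : Bool) then D.dim univ else 0) with hpF
  have h1 : (1 : AddMonoidAlgebra K (V → ℤ)) ∈ D.Gw K pE := Gw_replicate false _
  have h2 : (1 : AddMonoidAlgebra K (V → ℤ)) ∈ D.Gw K pF := Gw_replicate true _
  have hle : D.Gw K τ ≤ D.Gw K (pE ++ (τ ++ pF)) := by
    rw [Gw_append, Gw_append, mul_comm (D.Gw K τ)]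
    exact (le_mul_of_one_mem h2).trans (le_mul_of_one_mem h1)
  refine hle.trans ?_
  refine le_iSup (fun τ : {τ : List (Bool × (I → ℕ)) //
      τ.map Prod.fst = List.replicate (N + k + 1) false ++ List.replicate (N + k + 1) true ∧
        ¬ ∀ t ∈ τ, D.Triv t} => D.Gw K τ.1) ⟨pE ++ (τ ++ pF), ?_, ?_⟩
  · rw [List.map_append, List.map_append, hτ, hpE, hpF, List.map_replicate, List.map_replicate]
    rw [List.append_assoc, List.replicate_append_replicate, ← List.append_assoc,
      List.replicate_append_replicate]
    congr 2 <;> omega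
  · intro h
    apply hn
    intro t ht
    apply h
    rw [List.mem_append, List.mem_append]
    tauto

theorem exists_NTN {x : AddMonoidAlgebra K (V → ℤ)} (hx : x ∈ D.NTall K) :
    ∃ N, x ∈ D.NTN K N := by
  rw [NTall] at hx
  induction hx using Submodule.iSup_induction' with
  | mem τ x hx => exact ⟨τ.1.length, pad τ.1 τ.2 _ le_rfl hx⟩
  | zero => exact ⟨0, zero_mem _⟩
  | add x y _ _ h h' =>
    obtain ⟨N, hN⟩ := h
    obtain ⟨M, hM⟩ := h'
    exact ⟨max N M, add_mem (NTN_mono (le_max_left _ _) hN) (NTN_mono (le_max_right _ _) hM)⟩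

/-- elements of the non-trivial part with small support -/
theorem NTall_small {x : AddMonoidAlgebra K (V → ℤ)} (hx : x ∈ D.NTall K)
    (hs : ∀ μ, x.coeff μ ≠ 0 → ∀ a, |μ a| ≤ 1) : x ∈ D.MM K := by
  obtain ⟨N, hN⟩ := exists_NTN hx
  exact D.small_support K N x hN hs

end Dat

end Run7.h787
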