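import Pool.Agent.Run7.h787.Fin1

/-! Degrees of the dressed monopole operators; abstract part of the assembly. -/

open Finset

set_option linter.unusedSectionVars false
set_option linter.unusedVariables false
set_option linter.unusedSimpArgs false

namespace Run7.h787

variable {V I O : Type} [Fintype V] [DecidableEq V] [Fintype I] [DecidableEq I] [CommRing O]
  [IsDomain O] [Algebra ℚ O]

namespace Dat

variable (D : Dat V I O)
variable (K : Type) [Field K] [Algebra O K] [IsFractionRing O K]

/-- the degree of an exponent -/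
def dg (ν : I → ℤ) : (V → ℤ) →+ ℤ where
  toFun μ := ∑ a, ν (D.c a) * μ a
  map_zero' := by simp
  map_add' μ μ' := by simp [mul_add, Finset.sum_add_distrib]

/-- pairing of a character with a dimension vector -/
def pr (ν : I → ℤ) (d : I → ℕ) : ℤ := ∑ i, ν i * d i

/-- degree of a letter -/
def ldeg (ν : I → ℤ) (t : Bool × (I → ℕ)) : ℤ :=
  pr ν t.2 - (if t.1 then pr ν (D.dim univ) else 0)

variable {D K}

theorem dg_ex (ν : I → ℤ) (l : Bool) (S : Finset V) :
    D.dg ν (ex l S) = D.ldeg ν (l, D.dim S) := by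
  have h1 : ∀ S : Finset V, ∑ a, ν (D.c a) * (if a ∈ S then 1 else 0 : ℤ) = pr ν (D.dim S) := by
    intro S
    simp only [mul_ite, mul_one, mul_zero, Finset.sum_ite_mem, Finset.univ_inter, pr, dim]
    rw [← Finset.sum_fiberwise S D.c (fun a => ν (D.c a))]
    apply Finset.sum_congr rfl
    intro i _
    rw [Finset.sum_congr rfl (g := fun _ => ν i), Finset.sum_const, nsmul_eq_mul, mul_comm]
    intro a ha
    rw [(Finset.mem_filter.1 ha).2]
  change ∑ a, ν (D.c a) * ex l S a = _
  simp only [ex, mul_sub, Finset.sum_sub_distrib, ldeg]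
  rw [h1]
  congr 1
  cases l
  · simp
  · have := h1 univ
    simp only [Finset.mem_univ, if_true] at this
    simp only [if_true]
    exact this

theorem X_grade (ν : I → ℤ) (l : Bool) {d : I → ℕ} {f : Finset V → O} (hf : D.EqvD d f) :
    D.X K l f ∈ AddMonoidAlgebra.gradeBy K (D.dg ν) (D.ldeg ν (l, d)) := by
  rw [X]
  apply Submodule.sum_mem
  intro S _
  by_cases h : D.dim S = d
  · subst h
    rw [← dg_ex]
    exact AddMonoidAlgebra.single_mem_gradeBy _ _ _
  · rw [hf.2 S h, map_zero, zero_mul, AddMonoidAlgebra.single_zero]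
    exact zero_mem _

theorem G_grade (ν : I → ℤ) (l : Bool) (d : I → ℕ) {x : AddMonoidAlgebra K (V → ℤ)}
    (hx : x ∈ D.G K l d) : x ∈ AddMonoidAlgebra.gradeBy K (D.dg ν) (D.ldeg ν (l, d)) := by
  induction hx using Submodule.span_induction with
  | mem x hx =>
    obtain ⟨f, hf, rfl⟩ := hx
    exact X_grade ν l hf
  | zero => exact zero_mem _
  | add x y _ _ h h' => exact add_mem h h'
  | smul n x _ h => exact zsmul_mem h n

theorem Gw_grade (ν : I → ℤ) (τ : List (Bool × (I → ℕ))) :
    ∀ {x : AddMonoidAlgebra K (V → ℤ)}, x ∈ D.Gw K τ →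
      x ∈ AddMonoidAlgebra.gradeBy K (D.dg ν) ((τ.map (D.ldeg ν)).sum) := by
  induction τ with
  | nil =>
    intro x hx
    simp only [Gw, List.map_nil, List.prod_nil] at hx
    obtain ⟨n, rfl⟩ := Submodule.mem_one.1 hx
    simp only [List.map_nil, List.sum_nil]
    have h1 : (1 : AddMonoidAlgebra K (V → ℤ)) ∈ AddMonoidAlgebra.gradeBy K (D.dg ν) 0 :=
      SetLike.GradedOne.one_mem
    rw [Algebra.algebraMap_eq_smul_one]
    exact zsmul_mem h1 n
  | cons t τ ih =>
    intro x hx
    have hG : D.Gw K (t :: τ) = D.G K t.1 t.2 * D.Gw K τ := by simp [Gw]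
    rw [hG] at hx
    simp only [List.map_cons, List.sum_cons]
    induction hx using Submodule.mul_induction_on' with
    | mem_mul_mem a ha b hb => exact SetLike.mul_mem_graded (G_grade ν t.1 t.2 ha) (ih hb)
    | add a _ b _ ha hb => exact add_mem ha hb

theorem Triv_ldeg (ν : I → ℤ) {t : Bool × (I → ℕ)} (h : D.Triv t) : D.ldeg ν t = 0 := by
  rw [Triv] at h
  rw [ldeg, h]
  cases t.1
  · simp [pr]
  · simp

theorem Aall_hom_aux (ν : I → ℤ) {n : ℤ} (hn : n ≠ 0) {x : AddMonoidAlgebra K (V → ℤ)}
    (hx : x ∈ D.Aall K) : ∃ y ∈ D.NTall K, y ∈ AddMonoidAlgebra.gradeBy K (D.dg ν) n ∧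
      ∀ μ, D.dg ν μ = n → y.coeff μ = x.coeff μ := by
  rw [Aall] at hx
  induction hx using Submodule.iSup_induction' with
  | mem τ x hx =>
    have hg := Gw_grade ν τ hx
    by_cases h : (τ.map (D.ldeg ν)).sum = n
    · refine ⟨x, ?_, by rw [← h]; exact hg, fun _ _ => rfl⟩
      refine Submodule.mem_iSup_of_mem ⟨τ, ?_⟩ hx
      intro htriv
      apply hn
      rw [← h]
      apply List.sum_eq_zero
      intro z hz
      obtain ⟨t, ht, rfl⟩ := List.mem_map.1 hz
      exact Triv_ldeg ν (htriv t ht)
    · refine ⟨0, zero_mem _, zero_mem _, ?_⟩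
      intro μ hμ
      rw [AddMonoidAlgebra.mem_gradeBy_iff] at hg
      by_contra hne
      apply h
      have : μ ∈ (x.coeff.support : Set (V → ℤ)) := by
        simp only [Finset.mem_coe, Finsupp.mem_support_iff]
        intro h0
        apply hne
        rw [h0]
        simp
      rw [← hμ]
      exact (hg this).symm
  | zero => exact ⟨0, zero_mem _, zero_mem _, fun _ _ => rfl⟩
  | add x x' _ _ h h' =>
    obtain ⟨y, h1, h2, h3⟩ := h
    obtain ⟨y', h1', h2', h3'⟩ := h'
    refine ⟨y + y', add_mem h1 h1', add_mem h2 h2', ?_⟩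
    intro μ hμ
    rw [AddMonoidAlgebra.coeff_add, AddMonoidAlgebra.coeff_add, Finsupp.add_apply,
      Finsupp.add_apply, h3 μ hμ, h3' μ hμ]

theorem Aall_hom (ν : I → ℤ) {n : ℤ} (hn : n ≠ 0) {x : AddMonoidAlgebra K (V → ℤ)}
    (hx : x ∈ D.Aall K) (hg : x ∈ AddMonoidAlgebra.gradeBy K (D.dg ν) n) : x ∈ D.NTall K := by
  obtain ⟨y, h1, h2, h3⟩ := Aall_hom_aux ν hn hx
  have : x = y := by
    ext μ
    by_cases hμ : D.dg ν μ = n
    · exact (h3 μ hμ).symm
    · rw [AddMonoidAlgebra.mem_gradeBy_iff] at hg h2
      have e1 : x.coeff μ = 0 := by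
        by_contra hne
        exact hμ (hg (by simpa using hne))
      have e2 : y.coeff μ = 0 := by
        by_contra hne
        exact hμ (h2 (by simpa using hne))
      rw [e1, e2]
  rw [this]; exact h1

theorem single_mul_X (r : O) (l : Bool) (f : Finset V → O) :
    AddMonoidAlgebra.single 0 (algebraMap O K r) * D.X K l f = D.X K l (fun S => r * f S) := by
  rw [X, X, Finset.mul_sum]
  apply Finset.sum_congr rfl
  intro S _
  rw [AddMonoidAlgebra.single_mul_single, zero_add, map_mul, mul_assoc]

theorem MM_smul {r : O} (hr : ∀ σ : Equiv.Perm V, D.CP σ → D.sub σ r = r)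
    {x : AddMonoidAlgebra K (V → ℤ)} (hx : x ∈ D.MM K) :
    AddMonoidAlgebra.single 0 (algebraMap O K r) * x ∈ D.MM K := by
  rw [MM] at hx
  induction hx using Submodule.iSup_induction' with
  | mem q x hx =>
    refine Submodule.mem_iSup_of_mem q ?_
    induction hx using Submodule.mul_induction_on' with
    | mem_mul_mem a ha b hb =>
      rw [← mul_assoc]
      apply Submodule.mul_mem_mul _ hb
      induction ha using Submodule.span_induction with
      | mem x hx =>
        obtain ⟨f, hf, rfl⟩ := hx
        rw [single_mul_X]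
        apply Submodule.subset_span
        refine ⟨_, ⟨?_, ?_⟩, rfl⟩
        · intro σ hσ S
          rw [map_mul, hr σ hσ, hf.1 σ hσ]
        · intro S hS
          rw [hf.2 S hS, mul_zero]
      | zero => rw [mul_zero]; exact zero_mem _
      | add x y _ _ h h' => rw [mul_add]; exact add_mem h h'
      | smul n x _ h => rw [mul_smul_comm]; exact Submodule.smul_mem _ n h
    | add a _ b _ ha hb => rw [mul_add]; exact add_mem ha hb
  | zero => rw [mul_zero]; exact zero_mem _
  | add x y _ _ h h' => rw [mul_add]; exact add_mem h h'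

theorem inv_of_sum {p : O} {f : Finset V → O} (hf : D.Eqv f)
    (hp : algebraMap O K p = ∑ S : Finset V, algebraMap O K (f S * D.PP S) * D.kk K S Sᶜ)
    {σ : Equiv.Perm V} (hσ : D.CP σ) : D.sub σ p = p := by
  apply IsFractionRing.injective O K
  rw [← act_alg, hp, map_sum]
  refine Eq.trans ?_ (sum_im σ (fun S => algebraMap O K (f S * D.PP S) * D.kk K S Sᶜ))
  apply Finset.sum_congr rfl
  intro S _
  rw [map_mul, act_alg, act_kk hσ, map_mul, hf σ hσ, sub_PP hσ, im_compl]

theorem MM_induction (P : AddSubgroup (AddMonoidAlgebra K (V → ℤ)))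
    (h : ∀ q1 q2 f g, ¬ (q1 = 0 ∧ q2 = D.dim univ) → D.EqvD q1 f → D.EqvD q2 g →
      D.X K false f * D.X K true g ∈ P)
    {x : AddMonoidAlgebra K (V → ℤ)} (hx : x ∈ D.MM K) : x ∈ P := by
  rw [MM] at hx
  induction hx using Submodule.iSup_induction' with
  | mem q x hx =>
    obtain ⟨⟨q1, q2⟩, hq⟩ := q
    simp only at hx hq
    rw [G, G, Submodule.span_mul_span] at hx
    induction hx using Submodule.span_induction with
    | mem x hx =>
      obtain ⟨_, ⟨f, hf, rfl⟩, _, ⟨g, hg, rfl⟩, rfl⟩ := hx
      exact h q1 q2 f g hq hf hg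
    | zero => exact zero_mem _
    | add x y _ _ h h' => exact add_mem h h'
    | smul n x _ h => exact zsmul_mem h n
  | zero => exact zero_mem _
  | add x y _ _ h h' => exact add_mem h h'

/-- the part of a dressing supported on the subsets of dimension `d` -/
def part (D : Dat V I O) (f : Finset V → O) (d : I → ℕ) : Finset V → O :=
  fun S => if D.dim S = d then f S else 0

theorem part_EqvD {f : Finset V → O} (hf : D.Eqv f) (d : I → ℕ) : D.EqvD d (D.part f d) := by
  constructor
  · intro σ hσ S
    simp only [part]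
    rw [D.dim_im hσ]
    split_ifs
    · exact hf σ hσ S
    · exact map_zero _
  · intro S hS
    simp only [part]
    rw [if_neg hS]

theorem X_decomp (l : Bool) (f : Finset V → O) :
    D.X K l f = ∑ d ∈ (univ : Finset (Finset V)).image D.dim, D.X K l (D.part f d) := by
  rw [X, ← Finset.sum_fiberwise_of_maps_to (g := D.dim)
    (t := (univ : Finset (Finset V)).image D.dim) (fun S _ => Finset.mem_image_of_mem _
      (Finset.mem_univ S))]
  apply Finset.sum_congr rfl
  intro d _
  rw [Finset.sum_filter, X]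
  apply Finset.sum_congr rfl
  intro S _
  simp only [part]
  split_ifs
  · rfl
  · rw [map_zero, zero_mul, AddMonoidAlgebra.single_zero]

/-- the trivial dimension vector for a label -/
def td (D : Dat V I O) (l : Bool) : I → ℕ := if l then D.dim univ else 0

/-- the trivial subset for a label -/
def ts (V : Type) [Fintype V] (l : Bool) : Finset V := if l then univ else ∅

theorem dim_eq_td {l : Bool} {S : Finset V} : D.dim S = D.td l ↔ S = ts V l := by
  cases l
  · simp only [td, ts, Bool.false_eq_true, if_false]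
    constructor
    · exact fun h => D.eq_empty_of_dim h
    · rintro rfl; exact D.dim_empty
  · simp only [td, ts, if_true]
    constructor
    · exact fun h => D.eq_univ_of_dim h
    · rintro rfl; rfl

theorem X_td (l : Bool) (f : Finset V → O) :
    D.X K l (D.part f (D.td l)) = AddMonoidAlgebra.single 0 (algebraMap O K (f (ts V l))) := by
  rw [X, Finset.sum_eq_single (ts V l)]
  · rw [part, if_pos (dim_eq_td.2 rfl)]
    cases l
    · have e0 : ex false (∅ : Finset V) = 0 := by ext a; simp [ex]
      simp only [ts, Bool.false_eq_true, if_false]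
      rw [wt_false_empty, e0, mul_one]
    · have e0 : ex true (univ : Finset V) = 0 := by ext a; simp [ex]
      simp only [ts, if_true]
      rw [wt_true_univ, e0, mul_one]
  · intro S _ hS
    rw [part, if_neg (fun h => hS (dim_eq_td.1 h)), map_zero, zero_mul,
      AddMonoidAlgebra.single_zero]
  · intro h; exact absurd (Finset.mem_univ _) h

theorem X_mem_Aall (l : Bool) {f : Finset V → O} (hf : D.Eqv f) : D.X K l f ∈ D.Aall K := by
  rw [X_decomp]
  apply sum_mem
  intro d _
  exact G_le_Aall l d (Submodule.subset_span ⟨_, part_EqvD hf d, rfl⟩)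

theorem single_mem_Aall {r : O} (hr : ∀ σ : Equiv.Perm V, D.CP σ → D.sub σ r = r) :
    AddMonoidAlgebra.single 0 (algebraMap O K r) ∈ D.Aall K := by
  have h1 := X_td (D := D) (K := K) false (fun _ => r)
  rw [← h1]
  exact G_le_Aall false _ (Submodule.subset_span ⟨_, part_EqvD (fun σ hσ _ => hr σ hσ) _, rfl⟩)

end Dat

end Run7.h787
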