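import Mathlib

/-! Quotients: an elementary lemma. -/

namespace Run7.h787

theorem quot_equiv {R A : Type*} [CommRing R] [CommRing A] [Algebra R A] (I : Ideal A)
    (J : Ideal R) (h1 : ∀ x : A, ∃ r : R, x - algebraMap R A r ∈ I)
    (h2 : ∀ r : R, algebraMap R A r ∈ I ↔ r ∈ J) :
    Nonempty ((A ⧸ I) ≃ₐ[R] (R ⧸ J)) := by
  have hs : Function.Surjective (Algebra.ofId R (A ⧸ I)) := by
    intro y
    obtain ⟨x, rfl⟩ := Ideal.Quotient.mk_surjective y
    obtain ⟨r, hr⟩ := h1 x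
    refine ⟨r, ?_⟩
    symm
    have e : Algebra.ofId R (A ⧸ I) r = Ideal.Quotient.mk I (algebraMap R A r) := rfl
    rw [e, Ideal.Quotient.eq]
    exact hr
  have hk : RingHom.ker (Algebra.ofId R (A ⧸ I)) = J := by
    ext r
    rw [RingHom.mem_ker, ← h2]
    have e : Algebra.ofId R (A ⧸ I) r = Ideal.Quotient.mk I (algebraMap R A r) := rfl
    rw [e, Ideal.Quotient.eq_zero_iff_mem]
  exact ⟨(Ideal.quotientKerAlgEquivOfSurjective hs).symm.trans
    (Ideal.quotientEquivAlgOfEq R hk)⟩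

end Run7.h787
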