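import Pool.Agent.Run7.h787.Conn
import Pool.Agent.Run7.h787.QuotEquiv

/-! Final assembly. -/

open Finset

set_option linter.unusedSectionVars false
set_option linter.unusedVariables false
set_option linter.unusedSimpArgs false

namespace Run7.h787

namespace QuiverData

variable (Q : QuiverData)

theorem algebraMap_amb (r : Q.Inv) :
    algebraMap Q.Inv Q.Amb r = Q.term 0 (Q.toFrac (Q.incl r)) := rfl

theorem homog_iff (ν : Q.I → ℤ) (n : ℤ) (x : Q.Coulomb) :
    Q.Homog ν n x ↔ Q.toAmb x ∈ AddMonoidAlgebra.gradeBy Q.Frac (Q.dat.dg ν) n := by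
  constructor
  · intro h
    refine (AddMonoidAlgebra.mem_gradeBy_iff Q.Frac (Q.dat.dg ν) n (Q.toAmb x)).2 ?_
    intro μ hμ
    exact h μ (Finsupp.mem_support_iff.1 hμ)
  · intro h μ hμ
    exact (AddMonoidAlgebra.mem_gradeBy_iff Q.Frac (Q.dat.dg ν) n (Q.toAmb x)).1 h
      (Finsupp.mem_support_iff.2 hμ)

/-- the abstract operators in the ambient ring -/
noncomputable def opX (l : Bool) (f : Finset Q.Idx → Q.Fun) : Q.Amb := Q.dat.X Q.Frac l f

theorem X_mem_coulomb (l : Bool) {f : Finset Q.Idx → Q.Fun} (hf : Q.dat.Eqv f) :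
    (Q.dat.X Q.Frac l f : Q.Amb) ∈ Q.coulombSub := by
  apply Algebra.subset_adjoin
  cases l
  · exact ⟨f, hf, Or.inl (Q.up_dat f).symm⟩
  · refine ⟨fun S => f Sᶜ, ?_, Or.inr (Q.down_compl f)⟩
    intro σ hσ S
    have := hf σ hσ Sᶜ
    rw [Dat.im_compl] at this
    exact this

theorem eqv_compl {f : Finset Q.Idx → Q.Fun} (hf : Q.Dressing f) :
    Q.dat.Eqv (fun S => f Sᶜ) := by
  intro σ hσ S
  have := hf σ hσ Sᶜ
  change Q.dat.sub σ (f Sᶜ) = f (Dat.im σ Sᶜ) at this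
  rw [Dat.im_compl] at this
  exact this

theorem coulomb_le {x : Q.Amb} (hx : x ∈ Q.coulombSub) : x ∈ Q.dat.Aall Q.Frac := by
  induction hx using Algebra.adjoin_induction with
  | mem x hx =>
    obtain ⟨f, hf, rfl | rfl⟩ := hx
    · rw [up_dat]
      exact Dat.X_mem_Aall false hf
    · rw [down_dat]
      exact Dat.X_mem_Aall true (Q.eqv_compl hf)
  | algebraMap r =>
    exact Dat.single_mem_Aall (D := Q.dat) (K := Q.Frac) (fun σ hσ => Q.inv_sub r hσ)
  | add x y _ _ h h' => exact add_mem (S := Submodule ℤ _) h h'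
  | mul x y _ _ h h' => exact Dat.Aall_mul (Submodule.mul_mem_mul h h')

/-- the moving ideal, as a subgroup of the ambient ring -/
noncomputable def UB (ν : Q.I → ℤ) : AddSubgroup Q.Amb where
  carrier := {x | ∃ y : Q.Coulomb, y ∈ Q.moving ν ∧ Q.toAmb y = x}
  zero_mem' := ⟨0, zero_mem _, rfl⟩
  add_mem' := by
    rintro _ _ ⟨y, hy, rfl⟩ ⟨z, hz, rfl⟩
    exact ⟨y + z, add_mem hy hz, rfl⟩
  neg_mem' := by
    rintro _ ⟨y, hy, rfl⟩
    exact ⟨-y, neg_mem hy, rfl⟩

theorem mem_UB {ν : Q.I → ℤ} {x : Q.Amb} :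
    x ∈ Q.UB ν ↔ ∃ y : Q.Coulomb, y ∈ Q.moving ν ∧ Q.toAmb y = x := Iff.rfl

theorem mul_mem_UB {ν : Q.I → ℤ} {c x : Q.Amb} (hc : c ∈ Q.coulombSub) (hx : x ∈ Q.UB ν) :
    c * x ∈ Q.UB ν := by
  obtain ⟨y, hy, rfl⟩ := Q.mem_UB.1 hx
  let c' : Q.Coulomb := (⟨c, hc⟩ : Q.coulombSub)
  exact Q.mem_UB.2 ⟨c' * y, Ideal.mul_mem_left _ _ hy, rfl⟩

theorem hom_mem_UB {ν : Q.I → ℤ} {n : ℤ} (hn : n ≠ 0) {x : Q.Amb} (hx : x ∈ Q.coulombSub)
    (hg : x ∈ AddMonoidAlgebra.gradeBy Q.Frac (Q.dat.dg ν) n) : x ∈ Q.UB ν := by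
  refine Q.mem_UB.2 ⟨(⟨x, hx⟩ : Q.coulombSub), Ideal.subset_span ⟨n, hn, ?_⟩, rfl⟩
  exact (Q.homog_iff ν n _).2 hg

/-- the moving ideal consists of non-trivial words -/
theorem UB_le {ν : Q.I → ℤ} {x : Q.Amb} (hx : x ∈ Q.UB ν) : x ∈ Q.dat.NTall Q.Frac := by
  obtain ⟨y, hy, rfl⟩ := Q.mem_UB.1 hx
  clear hx
  rw [moving] at hy
  induction hy using Submodule.span_induction with
  | mem y hy =>
    obtain ⟨n, hn, h⟩ := hy
    exact Dat.Aall_hom ν hn (Q.coulomb_le y.2) ((Q.homog_iff ν n _).1 h)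
  | zero => exact zero_mem (Q.dat.NTall Q.Frac)
  | add x y _ _ h h' => exact add_mem (S := Submodule ℤ _) h h'
  | smul c y _ h =>
    exact Dat.Aall_mul_NTall (Submodule.mul_mem_mul (Q.coulomb_le c.2) h)

variable {Q}

/-- generic characters -/
def Generic (ν : Q.I → ℤ) : Prop :=
  ∀ n : Q.I → ℕ, n ≤ Q.v → n ≠ 0 → ∑ i, ν i * n i ≠ 0

theorem X_mem_UB {ν : Q.I → ℤ} (hν : Generic ν) (l : Bool) {d : Q.I → ℕ}
    (hd : d ≠ Q.dat.td l) {f : Finset Q.Idx → Q.Fun} (hf : Q.dat.EqvD d f) :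
    (Q.dat.X Q.Frac l f : Q.Amb) ∈ Q.UB ν := by
  by_cases hle : d ≤ Q.v
  · apply Q.hom_mem_UB (n := Q.dat.ldeg ν (l, d)) _ (Q.X_mem_coulomb l hf.1)
      (Dat.X_grade ν l hf)
    cases l
    · have h1 : d ≠ 0 := by simpa [Dat.td] using hd
      have := hν d hle h1
      simpa [Dat.ldeg, Dat.pr] using this
    · have h1 : d ≠ Q.v := by
        have h2 : d ≠ Q.dat.dim univ := by simpa [Dat.td] using hd
        rwa [Q.dat_dim_univ] at h2
      have h3 : Q.v - d ≠ 0 := by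
        intro h0
        apply h1
        apply le_antisymm hle
        exact tsub_eq_zero_iff_le.1 h0
      have := hν (Q.v - d) tsub_le_self h3
      intro h4
      apply this
      have h5 : ∑ i, ν i * ((Q.v - d) i : ℕ) = ∑ i, ν i * (Q.v i : ℤ) - ∑ i, ν i * (d i : ℤ) := by
        rw [← Finset.sum_sub_distrib]
        apply Finset.sum_congr rfl
        intro i _
        rw [Pi.sub_apply, Nat.cast_sub (hle i), mul_sub]
      rw [h5]
      simp only [Dat.ldeg, if_true, Dat.pr, Q.dat_dim_univ] at h4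
      linarith
  · have h0 : f = 0 := by
      funext S
      by_contra h
      apply hle
      have h1 : Q.dat.dim S = d := by
        by_contra h2
        exact h (hf.2 S h2)
      have h3 := Q.dat.dim_le_univ S
      rw [Q.dat_dim_univ, h1] at h3
      exact h3
    have : Q.dat.X Q.Frac l f = 0 := by
      rw [h0, Dat.X]
      apply Finset.sum_eq_zero
      intro S _
      rw [Pi.zero_apply, map_zero, zero_mul, AddMonoidAlgebra.single_zero]
    rw [this]
    exact zero_mem (Q.UB ν)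

theorem MM_le_UB {ν : Q.I → ℤ} (hν : Generic ν) {x : Q.Amb} (hx : x ∈ Q.dat.MM Q.Frac) :
    x ∈ Q.UB ν := by
  apply Dat.MM_induction (D := Q.dat) (K := Q.Frac) (Q.UB ν) _ hx
  intro q1 q2 f g hq hf hg
  by_cases h1 : q1 = 0
  · apply Q.mul_mem_UB (Q.X_mem_coulomb false hf.1)
    apply X_mem_UB hν true _ hg
    intro h2
    exact hq ⟨h1, by simpa [Dat.td] using h2⟩
  · rw [mul_comm]
    apply Q.mul_mem_UB (Q.X_mem_coulomb true hg.1)
    apply X_mem_UB hν false _ hf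
    simpa [Dat.td] using h1

/-- every element of the Coulomb branch algebra is the sum of an element of `R` and an element of
the moving ideal -/
theorem decomp {ν : Q.I → ℤ} (hν : Generic ν) {x : Q.Amb} (hx : x ∈ Q.coulombSub) :
    ∃ r : Q.Inv, x - algebraMap Q.Inv Q.Amb r ∈ Q.UB ν := by
  have hX : ∀ (l : Bool) (f : Finset Q.Idx → Q.Fun), Q.dat.Eqv f →
      ∃ r : Q.Inv, Q.opX l f - algebraMap Q.Inv Q.Amb r ∈ Q.UB ν := by
    intro l f hf
    have hinv : f (Dat.ts Q.Idx l) ∈ Q.invSubring := by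
      apply Q.mem_inv'
      intro σ hσ
      rw [hf σ hσ]
      cases l
      · simp [Dat.ts, Dat.im_empty]
      · simp [Dat.ts, Dat.im_univ]
    refine ⟨(⟨_, hinv⟩ : Q.invSubring), ?_⟩
    have e1 : algebraMap Q.Inv Q.Amb (⟨_, hinv⟩ : Q.invSubring) =
        Q.dat.X Q.Frac l (Q.dat.part f (Q.dat.td l)) := (Dat.X_td l f).symm
    have hmem : Q.dat.td l ∈ (univ : Finset (Finset Q.Idx)).image Q.dat.dim := by
      rw [Finset.mem_image]
      exact ⟨Dat.ts Q.Idx l, Finset.mem_univ _, Dat.dim_eq_td.2 rfl⟩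
    have e2 : Q.dat.X Q.Frac l f - Q.dat.X Q.Frac l (Q.dat.part f (Q.dat.td l)) =
        ∑ d ∈ ((univ : Finset (Finset Q.Idx)).image Q.dat.dim).erase (Q.dat.td l),
          Q.dat.X Q.Frac l (Q.dat.part f d) := by
      rw [Dat.X_decomp, ← Finset.add_sum_erase _ _ hmem, add_sub_cancel_left]
    rw [e1]
    have e3 : ∑ d ∈ ((univ : Finset (Finset Q.Idx)).image Q.dat.dim).erase (Q.dat.td l),
          (Q.dat.X Q.Frac l (Q.dat.part f d) : Q.Amb) ∈ Q.UB ν := by
      apply sum_mem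
      intro d hd
      exact X_mem_UB hν l (Finset.ne_of_mem_erase hd) (Dat.part_EqvD hf d)
    exact e2 ▸ e3
  induction hx using Algebra.adjoin_induction with
  | mem x hx =>
    obtain ⟨f, hf, rfl | rfl⟩ := hx
    · rw [up_dat]
      exact hX false f hf
    · rw [down_dat]
      exact hX true _ (Q.eqv_compl hf)
  | algebraMap r => exact ⟨r, by rw [sub_self]; exact zero_mem _⟩
  | add x y _ _ h h' =>
    obtain ⟨r, hr⟩ := h
    obtain ⟨r', hr'⟩ := h'
    refine ⟨r + r', ?_⟩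
    have : x + y - algebraMap Q.Inv Q.Amb (r + r') =
        (x - algebraMap Q.Inv Q.Amb r) + (y - algebraMap Q.Inv Q.Amb r') := by
      rw [map_add]; ring
    rw [this]; exact add_mem hr hr'
  | mul x y hx hy h h' =>
    obtain ⟨r, hr⟩ := h
    obtain ⟨r', hr'⟩ := h'
    refine ⟨r * r', ?_⟩
    have : x * y - algebraMap Q.Inv Q.Amb (r * r') =
        y * (x - algebraMap Q.Inv Q.Amb r) +
          algebraMap Q.Inv Q.Amb r * (y - algebraMap Q.Inv Q.Amb r') := by
      rw [map_mul]; ring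
    rw [this]
    exact add_mem (Q.mul_mem_UB hy hr) (Q.mul_mem_UB (Subalgebra.algebraMap_mem _ r) hr')

/-- elements of `R` in the moving ideal -/
theorem mem_UB_iff {ν : Q.I → ℤ} (hν : Generic ν) (r : Q.Inv) :
    algebraMap Q.Inv Q.Amb r ∈ Q.UB ν ↔
      AddMonoidAlgebra.single 0 (algebraMap Q.Fun Q.Frac (Q.incl r)) ∈ Q.dat.MM Q.Frac := by
  classical
  constructor
  · intro h
    have h1 : AddMonoidAlgebra.single 0 (algebraMap Q.Fun Q.Frac (Q.incl r)) ∈
      Q.dat.NTall Q.Frac := Q.UB_le h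
    apply Dat.NTall_small h1
    intro μ hμ a
    rw [AddMonoidAlgebra.coeff_single, Finsupp.single_apply] at hμ
    have : (0 : Q.Idx → ℤ) = μ := by
      by_contra hne
      rw [if_neg hne] at hμ
      exact hμ rfl
    rw [← this]
    simp
  · intro h
    exact MM_le_UB hν h

/-- `IsHall` for theories without uncharged loops -/
theorem isHall_iff (hl : ∀ e, Q.src e = Q.tgt e → Q.chi e ≠ 0) (r : Q.Inv) :
    Q.IsHall r ↔
      AddMonoidAlgebra.single 0 (algebraMap Q.Fun Q.Frac (Q.incl r)) ∈ Q.dat.MM Q.Frac := by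
  constructor
  · rintro ⟨f, hf, h0, hp⟩
    rw [hall_dat] at hp
    exact Dat.mem_MM_of_sum Q.dat Q.Frac (Q.diag_dat hl) f hf h0 _ hp
  · intro h
    obtain ⟨f, hf, h0, hp⟩ := Q.dat.MM_coeff Q.Frac h
    refine ⟨f, hf, h0, ?_⟩
    rw [hall_dat, ← hp, AddMonoidAlgebra.coeff_single, Finsupp.single_eq_same]
    rfl

/-- the elements of `R` in `MM` form an ideal -/
noncomputable def idealMM (Q : QuiverData) : Ideal Q.Inv where
  carrier := {r | AddMonoidAlgebra.single 0 (algebraMap Q.Fun Q.Frac (Q.incl r)) ∈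
    Q.dat.MM Q.Frac}
  zero_mem' := by
    have : AddMonoidAlgebra.single (0 : Q.Idx → ℤ) (algebraMap Q.Fun Q.Frac (Q.incl 0)) = 0 := by
      rw [map_zero, map_zero, AddMonoidAlgebra.single_zero]
    change AddMonoidAlgebra.single 0 (algebraMap Q.Fun Q.Frac (Q.incl 0)) ∈ Q.dat.MM Q.Frac
    rw [this]; exact zero_mem _
  add_mem' := by
    intro x y h h'
    change AddMonoidAlgebra.single 0 (algebraMap Q.Fun Q.Frac (Q.incl (x + y))) ∈ Q.dat.MM Q.Frac
    rw [map_add, map_add, AddMonoidAlgebra.single_add]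
    exact add_mem h h'
  smul_mem' := by
    intro c x h
    have := Dat.MM_smul (r := Q.incl c) (fun σ hσ => Q.inv_sub c hσ) h
    rw [AddMonoidAlgebra.single_mul_single, zero_add, ← map_mul, ← map_mul] at this
    exact this

theorem mem_idealMM (r : Q.Inv) : r ∈ idealMM Q ↔
    AddMonoidAlgebra.single 0 (algebraMap Q.Fun Q.Frac (Q.incl r)) ∈ Q.dat.MM Q.Frac := Iff.rfl

theorem idealJ_eq : Q.idealJ = idealMM Q := by
  apply le_antisymm
  · rw [idealJ, Ideal.span_le]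
    rintro r ⟨p', hp', hr⟩
    rw [isHall_iff (Q := Q.enlarge) (fun e _ => Q.enlarge_chi_ne e)] at hp'
    have := SpecData.MM_spec_single (s := Q.spec) (K := Q.Frac) hp'
    rw [spec_pi, hr] at this
    exact this
  · intro r h
    rw [mem_idealMM] at h
    obtain ⟨p', hp, hm⟩ := SpecData.lift (K' := Q.enlarge.Frac) Q.spec (Q.incl r) h
    have hR : p' ∈ Q.enlarge.invSubring := by
      obtain ⟨f, hf, h0, hp'⟩ := Q.enlarge.dat.MM_coeff Q.enlarge.Frac hm
      apply Q.enlarge.mem_inv'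
      intro σ hσ
      apply Dat.inv_of_sum (K := Q.enlarge.Frac) hf _ hσ
      rw [← hp', AddMonoidAlgebra.coeff_single, Finsupp.single_eq_same]
    apply Ideal.subset_span
    refine ⟨(⟨p', hR⟩ : Q.enlarge.invSubring), ?_, hp⟩
    rw [isHall_iff (Q := Q.enlarge) (fun e _ => Q.enlarge_chi_ne e)]
    exact hm

/-- the direct description of `J` if there are no uncharged loops -/
theorem idealJ_direct (hl : ∀ e, Q.src e = Q.tgt e → Q.chi e ≠ 0) :
    Q.idealJ = Ideal.span {p | Q.IsHall p} := by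
  rw [idealJ_eq]
  apply le_antisymm
  · intro r hr
    exact Ideal.subset_span ((isHall_iff hl r).2 hr)
  · rw [Ideal.span_le]
    intro r hr
    exact (isHall_iff hl r).1 hr

/-- the fixed point algebra of the Coulomb branch is `R / J` -/
theorem main (ν : Q.I → ℤ) (hν : Generic ν) :
    Nonempty ((Q.Coulomb ⧸ Q.moving ν) ≃ₐ[Q.Inv] (Q.Inv ⧸ Q.idealJ)) := by
  apply quot_equiv
  · intro x
    obtain ⟨r, hr⟩ := decomp hν x.2
    refine ⟨r, ?_⟩
    obtain ⟨u, hu, hu2⟩ := Q.mem_UB.1 hr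
    have : x - algebraMap Q.Inv Q.Coulomb r = u := by
      apply Subtype.ext
      exact hu2.symm
    rw [this]; exact hu
  · intro r
    rw [idealJ_eq, mem_idealMM, ← mem_UB_iff hν]
    constructor
    · intro h
      exact Q.mem_UB.2 ⟨_, h, rfl⟩
    · intro h
      obtain ⟨y, hy, hy2⟩ := Q.mem_UB.1 h
      have : y = algebraMap Q.Inv Q.Coulomb r := Subtype.ext hy2
      rw [← this]; exact hy

end QuiverData

end Run7.h787
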