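import Pool.Agent.Run7.h787.Extend

/-! The hard direction: integral sums of residues lie in the ideal. -/

open Finset

set_option linter.unusedSectionVars false
set_option linter.unusedVariables false
set_option linter.unusedSimpArgs false

namespace Run7.h787

variable {V I O : Type} [Fintype V] [DecidableEq V] [Fintype I] [DecidableEq I] [CommRing O]
  [IsDomain O] [Algebra ℚ O]

namespace Dat

variable (D : Dat V I O)
variable (K : Type) [Field K] [Algebra O K] [IsFractionRing O K]

/-- products of at most one E and one F, not both trivial -/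
noncomputable def MM : Submodule ℤ (AddMonoidAlgebra K (V → ℤ)) :=
  ⨆ q : {q : (I → ℕ) × (I → ℕ) // ¬ (q.1 = 0 ∧ q.2 = D.dim univ)},
    D.G K false q.1.1 * D.G K true q.1.2

variable {D K}

theorem wt_false_empty : D.wt K false (∅ : Finset V) = 1 := by
  simp [wt, PP, eps]

theorem wt_true_univ : D.wt K true (univ : Finset V) = 1 := by
  simp [wt, eps]

theorem ex_trivial : ex false (∅ : Finset V) + ex true (univ : Finset V) = 0 := by
  ext a; simp [ex]

theorem sum_T2 {P : Finset (I → ℕ)} {r : (I → ℕ) → (I → ℕ)}
    {Ψ : (I → ℕ) → Finset V → Finset V → O} (hΨ : ∀ q ∈ P, Ψ q ∈ D.T2 q (r q)) :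
    D.Eqv2 (∑ q ∈ P, Ψ q) ∧ D.Mg (∑ q ∈ P, Ψ q) ∧
      ∀ S T, (∑ q ∈ P, Ψ q) S T ≠ 0 → D.dim S ∈ P ∧ D.dim T = r (D.dim S) := by
  refine ⟨?_, ?_, ?_⟩
  · induction P using Finset.induction_on with
    | empty => simp only [Finset.sum_empty]; exact Eqv2_zero
    | insert q P hq ihP =>
      rw [Finset.sum_insert hq]
      exact Eqv2_add (T2_Eqv2 (hΨ q (Finset.mem_insert_self _ _)))
        (ihP (fun q' h => hΨ q' (Finset.mem_insert_of_mem h)))
  · induction P using Finset.induction_on with
    | empty => simp only [Finset.sum_empty]; exact Mg_zero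
    | insert q P hq ihP =>
      rw [Finset.sum_insert hq]
      exact Mg_add (T2_Mg (hΨ q (Finset.mem_insert_self _ _)))
        (ihP (fun q' h => hΨ q' (Finset.mem_insert_of_mem h)))
  · intro S T h
    rw [Finset.sum_apply, Finset.sum_apply] at h
    obtain ⟨q, hq, hne⟩ := Finset.exists_ne_zero_of_sum_ne_zero h
    have h1 : D.dim S = q ∧ D.dim T = r q := by
      by_contra hcon
      exact hne (T2_supp (hΨ q hq) S T hcon)
    rw [h1.1, h1.2]
    exact ⟨hq, rfl⟩

theorem sum_X2 (l1 l2 : Bool) (P : Finset (I → ℕ)) (Ψ : (I → ℕ) → Finset V → Finset V → O) :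
    D.X2 K l1 l2 (∑ q ∈ P, Ψ q) = ∑ q ∈ P, D.X2 K l1 l2 (Ψ q) := by
  induction P using Finset.induction_on with
  | empty => simp only [Finset.sum_empty]; exact X2_zero D K l1 l2
  | insert q P hq ihP => rw [Finset.sum_insert hq, Finset.sum_insert hq, X2_add, ihP]

theorem sum_gco (e : Bool) (P : Finset (I → ℕ)) (Ψ : (I → ℕ) → Finset V → Finset V → O)
    (B Z : Finset V) :
    D.gco K e (∑ q ∈ P, Ψ q) B Z = ∑ q ∈ P, D.gco K e (Ψ q) B Z := by
  induction P using Finset.induction_on with
  | empty => simp only [Finset.sum_empty]; exact gco_zero D K e B Z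
  | insert q P hq ihP => rw [Finset.sum_insert hq, Finset.sum_insert hq, gco_add, ihP]

theorem hard_aux (hdiag : ∀ a, D.m a a ≠ 0) (p : O) (k : ℕ) :
    ∀ Φ : Finset V → Finset V → O, D.Eqv2 Φ → D.Mg Φ →
    (∀ S T, Φ S T ≠ 0 → D.dim S + D.dim T = D.dim univ) →
    (∀ B Z, Disjoint B Z → D.gco K true Φ B Z ≠ 0 → B.card ≤ k) →
    D.gco K true Φ ∅ univ = algebraMap O K p →
    D.X2 K false true Φ ∈ D.MM K →
    AddMonoidAlgebra.single 0 (algebraMap O K p) ∈ D.MM K := by
  classical
  induction k with
  | zero =>
    intro Φ hE hM hs hk hp hX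
    have : D.X2 K false true Φ = AddMonoidAlgebra.single 0 (algebraMap O K p) := by
      rw [X2, Finset.sum_eq_single ∅, Finset.sum_eq_single univ]
      · rw [Finset.empty_union, ex_trivial, wt_false_empty, wt_true_univ, one_mul, one_mul]
        simp only [Bool.not_false, Bool.true_and]
        rw [hp]
      · intro Z _ hZ
        have h0 : D.gco K (!false && true) Φ ∅ Z = 0 := by
          by_contra h
          have := gco_ne_dim (Finset.disjoint_empty_left Z) _ hs h
          rw [D.dim_empty, zero_add, Finset.empty_union] at this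
          exact hZ (D.eq_univ_of_dim this)
        rw [h0, mul_zero, AddMonoidAlgebra.single_zero]
      · intro h
        exfalso
        apply h
        simp
      · intro B _ hB
        apply Finset.sum_eq_zero
        intro Z hZ
        have hd : Disjoint B Z := by
          rw [Finset.disjoint_left]; intro a ha hz
          have := Finset.mem_powerset.1 hZ hz
          simp [ha] at this
        have h0 : D.gco K (!false && true) Φ B Z = 0 := by
          by_contra h
          have := hk B Z hd h
          exact hB (Finset.card_eq_zero.1 (by omega))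
        rw [h0, mul_zero, AddMonoidAlgebra.single_zero]
      · intro h
        exact absurd (Finset.mem_univ _) h
    rw [← this]; exact hX
  | succ k ih =>
    intro Φ hE hM hs hk hp hX
    have hk0 : ∀ B Z, Disjoint B Z → k + 1 < B.card → D.gco K true Φ B Z = 0 := by
      intro B Z hd hc
      by_contra h
      have := (hk B Z hd h)
      omega
    obtain ⟨g, hg, hgv⟩ := exists_g (K := K) true Φ hE hM (k + 1) hk0
    -- correction terms
    set Q : Finset (I → ℕ) := (univ.filter (fun B : Finset V => B.card = k + 1)).image D.dim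
      with hQ
    have hQmem : ∀ q ∈ Q, q + (D.dim univ - q) = D.dim univ ∧ ∑ i, q i = k + 1 := by
      intro q hq
      rw [hQ, Finset.mem_image] at hq
      obtain ⟨B, hB, rfl⟩ := hq
      rw [Finset.mem_filter] at hB
      refine ⟨?_, by rw [← card_eq_sum_dim]; exact hB.2⟩
      rw [add_tsub_cancel_of_le (D.dim_le_univ B)]
    have hex : ∀ q ∈ Q, ∃ Ψ ∈ D.T2 q (D.dim univ - q),
        (∀ B A, B ⊆ A → D.dim B = q → D.dim A = D.dim univ - q → Ψ B A = g B A) ∧
        ∀ S, Ψ S Sᶜ = 0 := by
      intro q hq
      apply D.extend q (D.dim univ - q) (hQmem q hq).1 g hg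
      intro B D' hdis hB hD' θ hθ1 hθ2 hθ3
      have hBc : B.card = k + 1 := by
        rw [card_eq_sum_dim (D := D), hB]; exact (hQmem q hq).2
      have hBne : B.Nonempty := by rw [← Finset.card_pos]; omega
      have h1 := D.gco_merge K hdiag Φ hE hM p hp B D' hdis hBne θ hθ1 hθ2 hθ3
      have hd2 : Disjoint B (univ \ (B ∪ D')) := by
        rw [Finset.disjoint_left]; intro a ha h
        exact (Finset.mem_sdiff.1 h).2 (Finset.mem_union_left _ ha)
      rw [hgv B _ hd2 hBc] at h1
      have h2 : B ∪ (univ \ (B ∪ D')) = D'ᶜ := by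
        ext a
        have hdl := Finset.disjoint_left.1 hdis
        have := @hdl a
        simp only [Finset.mem_union, Finset.mem_sdiff, Finset.mem_univ, true_and,
          Finset.mem_compl]
        tauto
      rw [h2] at h1
      have h3 := Gr_unique h1 (Gr_alg _ _)
      apply IsFractionRing.injective O K
      rw [← h3, map_zero]
    choose! Ψ hΨ hΨv hΨd using hex
    set Φ' : Finset V → Finset V → O := ∑ q ∈ Q, Ψ q with hΦ'
    obtain ⟨hE', hM', hsupp'⟩ := sum_T2 (D := D) (P := Q) (r := fun q => D.dim univ - q) hΨ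
    rw [← hΦ'] at hE' hM' hsupp'
    have hcardS : ∀ S T, Φ' S T ≠ 0 → S.card = k + 1 := by
      intro S T h
      rw [card_eq_sum_dim (D := D)]
      exact (hQmem _ (hsupp' S T h).1).2
    have hgco' : ∀ B Z, Disjoint B Z → k + 1 ≤ B.card → D.gco K true Φ' B Z =
        algebraMap O K (Φ' B (B ∪ Z)) := by
      intro B Z hd hk1
      apply gco_nested hd
      intro S T hST
      by_contra h
      have := hcardS S T h
      omega
    have hval : ∀ B A, B ⊆ A → B.card = k + 1 → D.dim B + D.dim A = D.dim univ →
        Φ' B A = g B A := by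
      intro B A hBA hB ht
      have hBQ : D.dim B ∈ Q := by
        rw [hQ, Finset.mem_image]
        exact ⟨B, by rw [Finset.mem_filter]; exact ⟨Finset.mem_univ _, hB⟩, rfl⟩
      rw [hΦ', Finset.sum_apply, Finset.sum_apply, Finset.sum_eq_single (D.dim B)]
      · apply hΨv _ hBQ B A hBA rfl
        rw [← ht]; exact (add_tsub_cancel_left _ _).symm
      · intro q hq hne
        exact T2_supp (hΨ q hq) B A (fun h => hne h.1.symm)
      · intro h; exact absurd hBQ h
    have hzero : D.gco K true Φ' ∅ univ = 0 := by
      rw [gco]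
      apply Finset.sum_eq_zero
      intro C _
      have : Φ' (∅ ∪ C) (∅ ∪ (univ \ C)) = 0 := by
        rw [Finset.empty_union, Finset.empty_union, ← Finset.compl_eq_univ_sdiff, hΦ',
          Finset.sum_apply, Finset.sum_apply]
        exact Finset.sum_eq_zero (fun q hq => hΨd q hq C)
      rw [this, zero_mul, map_zero, zero_mul]
    apply ih (Φ - Φ')
    · rw [sub_eq_add_neg]; exact Eqv2_add hE (Eqv2_neg hE')
    · rw [sub_eq_add_neg]; exact Mg_add hM (Mg_neg hM')
    · intro S T h
      by_cases h1 : Φ S T = 0
      · have : Φ' S T ≠ 0 := by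
          intro h2; apply h; simp only [Pi.sub_apply, h1, h2, sub_zero]
        have h3 := hsupp' S T this
        rw [h3.2]
        exact (hQmem _ h3.1).1
      · exact hs S T h1
    · intro B Z hd h
      rw [gco_sub] at h
      by_contra hcon
      rcases Nat.lt_or_ge B.card (k + 2) with hlt | hge
      · have heq : B.card = k + 1 := by omega
        apply h
        rw [hgco' B Z hd heq.ge]
        by_cases h1 : D.gco K true Φ B Z = 0
        · rw [h1, zero_sub, neg_eq_zero]
          by_cases h2 : Φ' B (B ∪ Z) = 0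
          · rw [h2, map_zero]
          · have h3 := hsupp' _ _ h2
            have h4 := hval B (B ∪ Z) Finset.subset_union_left heq
              (by rw [h3.2]; exact (hQmem _ h3.1).1)
            rw [h4, ← hgv B Z hd heq, h1]
        · have h3 := gco_ne_dim hd _ hs h1
          rw [hval B (B ∪ Z) Finset.subset_union_left heq h3, ← hgv B Z hd heq, sub_self]
      · apply h
        rw [hk0 B Z hd (by omega), hgco' B Z hd (by omega)]
        have : Φ' B (B ∪ Z) = 0 := by
          by_contra h2
          have := hcardS _ _ h2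
          omega
        rw [this, map_zero, sub_zero]
    · rw [gco_sub, hzero, sub_zero, hp]
    · rw [X2_sub]
      apply sub_mem hX
      rw [hΦ', sum_X2]
      apply sum_mem
      intro q hq
      refine Submodule.mem_iSup_of_mem ⟨(q, D.dim univ - q), ?_⟩
        (T2_X2 K false true (fun h => absurd h (by simp)) (hΨ q hq))
      rintro ⟨h1, _⟩
      have := (hQmem q hq).2
      simp only at h1
      rw [h1] at this
      simp at this

variable (D K)

/-- the hard direction -/
theorem mem_MM_of_sum (hdiag : ∀ a, D.m a a ≠ 0) (f : Finset V → O) (hf : D.Eqv f)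
    (h0 : f ∅ = 0) (p : O)
    (hp : algebraMap O K p = ∑ S : Finset V, algebraMap O K (f S * D.PP S) * D.kk K S Sᶜ) :
    AddMonoidAlgebra.single 0 (algebraMap O K p) ∈ D.MM K := by
  classical
  set Q : Finset (I → ℕ) := ((univ : Finset (Finset V)).image D.dim).erase 0 with hQ
  let Ψ : (I → ℕ) → Finset V → Finset V → O := fun q S T =>
    (if D.dim S = q then f S else 0) * (if D.dim T = D.dim univ - q then 1 else 0)
  have hΨ : ∀ q ∈ Q, Ψ q ∈ D.T2 q (D.dim univ - q) := by
    intro q _
    apply AddSubgroup.subset_closure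
    refine ⟨fun S => if D.dim S = q then f S else 0,
      fun T => if D.dim T = D.dim univ - q then 1 else 0, ⟨?_, ?_⟩, ⟨?_, ?_⟩, rfl⟩
    · intro σ hσ S
      simp only
      rw [D.dim_im hσ]
      split_ifs
      · exact hf σ hσ S
      · exact map_zero _
    · intro S hS; simp only; rw [if_neg hS]
    · intro σ hσ S
      simp only
      rw [D.dim_im hσ]
      split_ifs
      · exact map_one _
      · exact map_zero _
    · intro S hS; simp only; rw [if_neg hS]
  obtain ⟨hE, hM, hsupp⟩ := sum_T2 (D := D) (P := Q) (r := fun q => D.dim univ - q) hΨ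
  have hQle : ∀ q ∈ Q, q ≠ 0 ∧ q + (D.dim univ - q) = D.dim univ := by
    intro q hq
    rw [hQ, Finset.mem_erase, Finset.mem_image] at hq
    obtain ⟨h1, B, _, rfl⟩ := hq
    exact ⟨h1, add_tsub_cancel_of_le (D.dim_le_univ B)⟩
  have hdiagv : ∀ C : Finset V, (∑ q ∈ Q, Ψ q) C Cᶜ = f C := by
    intro C
    rw [Finset.sum_apply, Finset.sum_apply]
    by_cases hC : D.dim C = 0
    · have hC' := D.eq_empty_of_dim hC
      subst hC'
      rw [h0]
      apply Finset.sum_eq_zero
      intro q hq
      simp only [Ψ]
      rw [if_neg (by rw [hC]; exact (hQle q hq).1.symm), zero_mul]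
    · have hCQ : D.dim C ∈ Q := by
        rw [hQ, Finset.mem_erase]
        exact ⟨hC, Finset.mem_image_of_mem _ (Finset.mem_univ _)⟩
      rw [Finset.sum_eq_single (D.dim C)]
      · simp only [Ψ]
        have : D.dim Cᶜ = D.dim univ - D.dim C := by
          rw [← D.dim_compl C]; exact (add_tsub_cancel_left _ _).symm
        rw [if_pos this]
        simp
      · intro q _ hne
        simp only [Ψ]
        rw [if_neg (fun h => hne h.symm), zero_mul]
      · intro h; exact absurd hCQ h
  apply hard_aux hdiag p (Fintype.card V) (∑ q ∈ Q, Ψ q) hE hM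
  · intro S T h
    have h1 := hsupp S T h
    rw [h1.2]
    exact (hQle _ h1.1).2
  · intro B Z _ _
    exact Finset.card_le_univ B
  · rw [hp, gco, Finset.powerset_univ]
    apply Finset.sum_congr rfl
    intro C _
    rw [Finset.empty_union, Finset.empty_union, ← Finset.compl_eq_univ_sdiff, hdiagv]
    simp only [ef, if_true]
  · rw [sum_X2]
    apply sum_mem
    intro q hq
    refine Submodule.mem_iSup_of_mem ⟨(q, D.dim univ - q), ?_⟩
      (T2_X2 K false true (fun h => absurd h (by simp)) (hΨ q hq))
    rintro ⟨h1, _⟩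
    exact (hQle q hq).1 h1

end Dat

end Run7.h787
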