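import Pool.Agent.Run7.h787.Pole

/-! Integrality of the coefficient functions, and vanishing under merges. -/

open Finset

set_option linter.unusedSectionVars false
set_option linter.unusedVariables false
set_option linter.unusedSimpArgs false

namespace Run7.h787

variable {V I O : Type} [Fintype V] [DecidableEq V] [Fintype I] [DecidableEq I] [CommRing O]
  [IsDomain O] [Algebra ℚ O]

namespace Dat

variable {D : Dat V I O}
variable {K : Type} [Field K] [Algebra O K] [IsFractionRing O K]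

theorem kap_mul_dd {a b : V} (hab : a ≠ b) :
    D.kap K a b * algebraMap O K (D.dd a b * D.dd b a) = algebraMap O K (D.m a b * D.m b a) := by
  have h1 : algebraMap O K (D.dd a b) ≠ 0 := alg_ne K (dd_ne (fun _ => hab))
  have h2 : algebraMap O K (D.dd b a) ≠ 0 := alg_ne K (dd_ne (fun _ => hab.symm))
  simp only [kap, eta, map_mul]
  field_simp

theorem kk_clear {Z C : Finset V} (hC : C ⊆ Z) :
    ∃ n : O, D.kk K C (Z \ C) * algebraMap O K (∏ p ∈ Z.offDiag, D.dd p.1 p.2) =
      algebraMap O K n := by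
  set E := Z \ C with hE
  have hCE : ∀ a ∈ C, ∀ b ∈ E, a ≠ b := by
    intro a ha b hb h
    subst h
    exact (Finset.mem_sdiff.1 hb).2 ha
  have h1 : D.kk K C E * algebraMap O K (∏ a ∈ C, ∏ b ∈ E, (D.dd a b * D.dd b a)) =
      algebraMap O K (∏ a ∈ C, ∏ b ∈ E, (D.m a b * D.m b a)) := by
    simp only [kk, map_prod]
    rw [← Finset.prod_mul_distrib]
    apply Finset.prod_congr rfl
    intro a ha
    rw [← Finset.prod_mul_distrib]
    apply Finset.prod_congr rfl
    intro b hb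
    exact kap_mul_dd (hCE a ha b hb)
  have hdisj : Disjoint (C ×ˢ E) (E ×ˢ C) := by
    rw [Finset.disjoint_left]
    rintro ⟨a, b⟩ h1 h2
    simp only [Finset.mem_product] at h1 h2
    exact hCE a h1.1 a h2.1 rfl
  have h2 : ∏ a ∈ C, ∏ b ∈ E, (D.dd a b * D.dd b a) =
      ∏ p ∈ (C ×ˢ E) ∪ (E ×ˢ C), D.dd p.1 p.2 := by
    rw [Finset.prod_union hdisj, Finset.prod_product, Finset.prod_product_right,
      ← Finset.prod_mul_distrib]
    exact Finset.prod_congr rfl (fun a _ => Finset.prod_mul_distrib)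
  have h3 : ∏ p ∈ (C ×ˢ E) ∪ (E ×ˢ C), D.dd p.1 p.2 ∣ ∏ p ∈ Z.offDiag, D.dd p.1 p.2 := by
    apply Finset.prod_dvd_prod_of_subset
    rintro ⟨a, b⟩ h
    simp only [Finset.mem_union, Finset.mem_product] at h
    simp only [Finset.mem_offDiag]
    rcases h with ⟨h, h'⟩ | ⟨h, h'⟩
    · exact ⟨hC h, (Finset.mem_sdiff.1 h').1, hCE a h b h'⟩
    · exact ⟨(Finset.mem_sdiff.1 h).1, hC h', (hCE b h' a h).symm⟩
  obtain ⟨q, hq⟩ := h3
  refine ⟨(∏ a ∈ C, ∏ b ∈ E, (D.m a b * D.m b a)) * q, ?_⟩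
  rw [hq, ← h2, map_mul, map_mul, ← mul_assoc, h1]

theorem gco_clear (e : Bool) (Φ : Finset V → Finset V → O) (B Z : Finset V) :
    ∃ n : O, D.gco K e Φ B Z * algebraMap O K (∏ p ∈ Z.offDiag, D.dd p.1 p.2) =
      algebraMap O K n := by
  have h : ∀ C ∈ Z.powerset, ∃ n : O,
      D.tm K e Φ B Z C * algebraMap O K (∏ p ∈ Z.offDiag, D.dd p.1 p.2) = algebraMap O K n := by
    intro C hC
    obtain ⟨n, hn⟩ := kk_clear (D := D) (K := K) (Finset.mem_powerset.1 hC)
    refine ⟨(Φ (B ∪ C) (B ∪ (Z \ C)) * D.ef e C) * n, ?_⟩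
    rw [tm, mul_assoc, hn, ← map_mul]
  choose! n hn using h
  refine ⟨∑ C ∈ Z.powerset, n C, ?_⟩
  rw [gco_eq_tm, Finset.sum_mul, map_sum]
  exact Finset.sum_congr rfl hn

theorem mg_sep_left {a b : V} {Z : Finset V} (hab : a ≠ b) (hbZ : b ∉ Z) :
    ∀ c ∈ insert a Z, ∀ d ∈ insert a Z, c ≠ d → D.c c = D.c d → mg a b c ≠ mg a b d := by
  intro c hc d hd h _
  have h1 : ∀ v ∈ insert a Z, mg a b v = v := by
    intro v hv
    have : v ≠ b := by
      rintro rfl
      rcases Finset.mem_insert.1 hv with h | h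
      · exact hab h.symm
      · exact hbZ h
    simp [mg, Function.update_apply, this]
  rw [h1 c hc, h1 d hd]; exact h

theorem mg_sep_right {a b : V} {Z : Finset V} (hab : a ≠ b) (haZ : a ∉ Z) (hbZ : b ∉ Z) :
    ∀ c ∈ insert b Z, ∀ d ∈ insert b Z, c ≠ d → D.c c = D.c d → mg a b c ≠ mg a b d := by
  intro c hc d hd h _
  have h1 : ∀ v ∈ Z, mg a b v = v ∧ v ≠ a := by
    intro v hv
    have : v ≠ b := by rintro rfl; exact hbZ hv
    refine ⟨by simp [mg, Function.update_apply, this], ?_⟩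
    rintro rfl; exact haZ hv
  have h2 : mg a b b = a := by simp [mg]
  rcases Finset.mem_insert.1 hc with h3 | h3
  · rcases Finset.mem_insert.1 hd with h4 | h4
    · exact absurd (h3.trans h4.symm) h
    · rw [h3, h2, (h1 d h4).1]; exact (h1 d h4).2.symm
  · rcases Finset.mem_insert.1 hd with h4 | h4
    · rw [h4, h2, (h1 c h3).1]; exact (h1 c h3).2
    · rw [(h1 c h3).1, (h1 d h4).1]; exact h

variable (D K)

/-- integrality of the coefficient functions -/
theorem gco_int (e : Bool) (Φ : Finset V → Finset V → O) (hE : D.Eqv2 Φ) (hM : D.Mg Φ)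
    (B Z : Finset V) (hd : Disjoint B Z)
    (h : ∀ a ∈ Z, ∀ b ∈ Z, a ≠ b → D.c a = D.c b →
      D.gco K e Φ (insert a B) ((Z.erase a).erase b) = 0) :
    ∃ n : O, D.gco K e Φ B Z = algebraMap O K n := by
  classical
  set L := (Z.offDiag.filter (fun p => D.c p.1 = D.c p.2)).toList with hL
  have hmem : ∀ p : V × V, p ∈ L ↔ (p.1 ∈ Z ∧ p.2 ∈ Z ∧ p.1 ≠ p.2) ∧ D.c p.1 = D.c p.2 := by
    intro p
    rw [hL, Finset.mem_toList, Finset.mem_filter, Finset.mem_offDiag]
  apply pole_cancel (D := D) (D.gco K e Φ B Z) L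
  · intro p hp
    exact ((hmem p).1 hp).1.2.2
  · have h1 : (L.map (fun p => D.x p.1 - D.x p.2)).prod = ∏ p ∈ Z.offDiag, D.dd p.1 p.2 := by
      rw [hL, Finset.prod_map_toList, Finset.prod_filter]
      rfl
    rw [h1]
    exact gco_clear e Φ B Z
  · intro p hp
    obtain ⟨⟨ha, hb, hab⟩, hc⟩ := (hmem p).1 hp
    obtain ⟨a, b⟩ := p
    simp only at ha hb hab hc ⊢
    set Z' := (Z.erase a).erase b with hZ'
    have haZ : a ∉ Z' := by simp [hZ']
    have hbZ : b ∉ Z' := by simp [hZ']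
    have haB : a ∉ B := fun h => Finset.disjoint_left.1 hd h ha
    have hbB : b ∉ B := fun h => Finset.disjoint_left.1 hd h hb
    have hZe : Z = insert a (insert b Z') := by
      rw [hZ', Finset.insert_erase (by simp [hb, hab.symm]), Finset.insert_erase ha]
    have hθ : D.CP (mg a b) := D.CP_mg hc
    have hθab : mg a b a = mg a b b := by simp [mg, Function.update_apply, hab]
    obtain ⟨r, hr⟩ := RR_Gr (K := K) hθ hab e Φ (B := B) haZ hbZ
      (mg_sep_left hab hbZ) (mg_sep_right hab haZ hbZ)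
    have h0 := h a ha b hb hab hc
    have hw : (D.gco K e Φ (insert a B) Z', (0 : K)) ∈ D.Gr K (mg a b) := by
      rw [h0]; exact zero_mem _
    have hU := UU_Gr hθ hθab e hM hc haZ hbZ haB hbB (mg_sep_left hab hbZ) hw
    rw [mul_zero] at hU
    obtain ⟨w', hw'⟩ := double_pole hab hU
    refine ⟨r - w', ?_⟩
    have := Gr_sub hr hw'
    rwa [← gco_decomp hab hc e hE haZ hbZ haB hbB, ← hZe] at this

/-- one step of the merging argument -/
theorem merge_step (hdiag : ∀ a, D.m a a ≠ 0) (Φ : Finset V → Finset V → O) (hE : D.Eqv2 Φ)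
    (hM : D.Mg Φ) {a b : V} (hab : a ≠ b) (hc : D.c a = D.c b) {B Z : Finset V}
    (haZ : a ∉ Z) (hbZ : b ∉ Z) (haB : a ∉ B) (hbB : b ∉ B)
    {θ : V → V} (hθ : D.CP θ) (hfix : ∀ v ∈ insert a (insert b Z), θ v = v)
    (hcomm : θ ∘ (Equiv.swap a b) = (Equiv.swap a b) ∘ θ)
    (p : O) (hp : (D.gco K true Φ B (insert a (insert b Z)), algebraMap O K p) ∈ D.Gr K θ) :
    (D.gco K true Φ (insert a B) Z, (0 : K)) ∈ D.Gr K (mg a b ∘ θ) := by
  have hθa : θ a = a := hfix a (by simp)
  have hθb : θ b = b := hfix b (by simp)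
  have hθZ : ∀ v ∈ Z, θ v = v := fun v hv => hfix v (by simp [hv])
  have hψ : D.CP (mg a b) := D.CP_mg hc
  have hθ' : D.CP (mg a b ∘ θ) := fun v => (hψ (θ v)).trans (hθ v)
  have haa : mg a b a = a := by simp [mg, Function.update_apply, hab]
  have hbb : mg a b b = a := by simp [mg]
  have hθab : (mg a b ∘ θ) a = (mg a b ∘ θ) b := by
    simp only [Function.comp, hθa, hθb, haa, hbb]
  -- separation
  have sepθ : ∀ (Y : Finset V), (∀ v ∈ Y, θ v = v) →
      ∀ c ∈ Y, ∀ d ∈ Y, c ≠ d → D.c c = D.c d → θ c ≠ θ d := by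
    intro Y hY c hc d hd h _
    rw [hY c hc, hY d hd]; exact h
  have sepψ : ∀ (Y : Finset V), (∀ v ∈ Y, θ v = v) →
      (∀ c ∈ Y, ∀ d ∈ Y, c ≠ d → D.c c = D.c d → mg a b c ≠ mg a b d) →
      ∀ c ∈ Y, ∀ d ∈ Y, c ≠ d → D.c c = D.c d → (mg a b ∘ θ) c ≠ (mg a b ∘ θ) d := by
    intro Y hY hs c hc d hd h h'
    simp only [Function.comp, hY c hc, hY d hd]; exact hs c hc d hd h h'
  have fa : ∀ v ∈ insert a Z, θ v = v := by
    intro v hv
    rcases Finset.mem_insert.1 hv with h | h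
    · rw [h]; exact hθa
    · exact hθZ v h
  have fb : ∀ v ∈ insert b Z, θ v = v := by
    intro v hv
    rcases Finset.mem_insert.1 hv with h | h
    · rw [h]; exact hθb
    · exact hθZ v h
  -- values at θ
  obtain ⟨r0, hr0⟩ := RR_Gr (K := K) hθ hab true Φ (B := B) haZ hbZ (sepθ _ fa) (sepθ _ fb)
  obtain ⟨r1, hr1⟩ := RR_Gr (K := K) hθ' hab true Φ (B := B) haZ hbZ
    (sepψ _ fa (mg_sep_left hab hbZ)) (sepψ _ fb (mg_sep_right hab haZ hbZ))
  -- value of the gco at θ'
  obtain ⟨w, hw⟩ : ∃ w, (D.gco K true Φ (insert a B) Z, w) ∈ D.Gr K (mg a b ∘ θ) := by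
    refine ⟨∑ C ∈ Z.powerset, D.tv K (mg a b ∘ θ) true Φ (insert a B) Z C, ?_⟩
    rw [gco_eq_tm]
    apply Gr_sum
    intro C hC
    have hC' := Finset.mem_powerset.1 hC
    apply tm_Gr hθ'
    intro c hcC d hd h
    obtain ⟨hd1, hd2⟩ := Finset.mem_sdiff.1 hd
    exact sepψ _ fa (mg_sep_left hab hbZ) c (Finset.mem_insert_of_mem (hC' hcC)) d
      (Finset.mem_insert_of_mem hd1) (fun h => hd2 (h ▸ hcC)) h
  have hU1 := UU_Gr hθ' hθab true hM hc haZ hbZ haB hbB (sepψ _ fa (mg_sep_left hab hbZ)) hw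
  -- UU at θ
  obtain ⟨U0, hU0⟩ : ∃ U0, (UU D K true Φ B Z a b, U0) ∈ D.Gr K θ := by
    refine ⟨∑ C ∈ Z.powerset, (algebraMap O K (D.sub θ (D.m a b * D.m b a)) *
      algebraMap O K (D.sub θ (if (true : Bool) then D.P a else 1)) *
      ((∏ d ∈ Z \ C, D.kap K (θ a) (θ d)) * (∏ c ∈ C, D.kap K (θ c) (θ b))) *
      (algebraMap O K (D.sub θ (Φ (insert a (B ∪ C)) (insert b (B ∪ (Z \ C))) * D.ef true C)) *
      (∏ c ∈ C, ∏ d ∈ Z \ C, D.kap K (θ c) (θ d)))), ?_⟩
    rw [UU]
    apply Gr_sum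
    intro C hC
    have hC' := Finset.mem_powerset.1 hC
    refine Gr_mul (Gr_mul (Gr_mul (Gr_alg _ _) (Gr_alg _ _)) (Gr_mul ?_ ?_))
      (Gr_mul (Gr_alg _ _) ?_)
    · apply Gr_prod
      intro d hd
      have hdZ := (Finset.mem_sdiff.1 hd).1
      apply kap_Gr hθ
      intro h
      exact sepθ _ fa a (Finset.mem_insert_self _ _) d (Finset.mem_insert_of_mem hdZ)
        (fun h => haZ (h ▸ hdZ)) h
    · apply Gr_prod
      intro c hcC
      have hcZ := hC' hcC
      apply kap_Gr hθ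
      intro h
      exact sepθ _ fb c (Finset.mem_insert_of_mem hcZ) b (Finset.mem_insert_self _ _)
        (fun h => hbZ (h ▸ hcZ)) h
    · apply Gr_prod
      intro c hcC
      apply Gr_prod
      intro d hd
      obtain ⟨hd1, hd2⟩ := Finset.mem_sdiff.1 hd
      apply kap_Gr hθ
      intro h
      exact sepθ _ fa c (Finset.mem_insert_of_mem (hC' hcC)) d
        (Finset.mem_insert_of_mem hd1) (fun h => hd2 (h ▸ hcC)) h
  have hUs := Gr_comm hcomm hU0
  -- identity at θ
  set δ := algebraMap O K (D.x a - D.x b) with hδ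
  have hδne : δ ≠ 0 := by
    rw [hδ]; apply alg_ne K; rw [sub_ne_zero]; exact fun h => hab (D.x_inj h)
  have hδG : (δ, δ) ∈ D.Gr K θ := by
    have := Gr_alg (D := D) (K := K) θ (D.x a - D.x b)
    rwa [map_sub (D.sub θ), D.sub_x, D.sub_x, hθa, hθb] at this
  have hid : D.gco K true Φ B (insert a (insert b Z)) * δ ^ 2 = RR D K true Φ B Z a b * δ ^ 2 -
      (UU D K true Φ B Z a b + D.act K (Equiv.swap a b) (UU D K true Φ B Z a b)) := by
    rw [gco_decomp hab hc true hE haZ hbZ haB hbB]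
    rw [← hδ]
    field_simp
  have hδ2 : (δ ^ 2, δ ^ 2) ∈ D.Gr K θ := by
    have := Gr_mul hδG hδG
    rwa [← pow_two] at this
  have g1 := Gr_mul hp hδ2
  have g2 := Gr_sub (Gr_mul hr0 hδ2) (Gr_add hU0 hUs)
  rw [hid] at g1
  have hval := Gr_unique g1 g2
  -- hval : alg p * δ^2 = r0 * δ^2 - (U0 + s U0)
  have k0 := Gr_comp hU0 hU1
  have kr := Gr_comp hr0 hr1
  have ks := Gr_act (mg_swap a b) k0
  have kp := Gr_alg (D := D) (K := K) (mg a b) p
  have kδ : (δ ^ 2, (0 : K)) ∈ D.Gr K (mg a b) := by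
    have h1 := Gr_alg (D := D) (K := K) (mg a b) (D.x a - D.x b)
    rw [map_sub (D.sub (mg a b)), D.sub_x, D.sub_x, haa, hbb, sub_self, map_zero] at h1
    have := Gr_mul h1 h1
    rwa [mul_zero, ← pow_two] at this
  have f1 := Gr_add k0 ks
  have f2 := Gr_mul (Gr_sub kr kp) kδ
  rw [mul_zero] at f2
  have hval' : U0 + D.act K (Equiv.swap a b) U0 = (r0 - algebraMap O K p) * δ ^ 2 := by
    linear_combination hval
  rw [hval'] at f1
  have hz := Gr_unique f1 f2
  have h2 : (2 : K) ≠ 0 := by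
    have : (2 : K) = algebraMap O K (algebraMap ℚ O 2) := by
      rw [map_ofNat, map_ofNat]
    rw [this]
    apply alg_ne K
    intro h
    have h3 : (algebraMap ℚ O 2) * (algebraMap ℚ O (1/2)) = 1 := by
      rw [← map_mul]; norm_num
    rw [h, zero_mul] at h3
    exact zero_ne_one h3
  have hz' : algebraMap O K (D.sub (mg a b ∘ θ) (D.m a b * D.m b a)) *
      algebraMap O K (D.sub (mg a b ∘ θ) (if (true : Bool) then D.P a else 1)) *
      (∏ z ∈ Z, D.kap K ((mg a b ∘ θ) a) ((mg a b ∘ θ) z)) * w = 0 := by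
    have : 2 * (algebraMap O K (D.sub (mg a b ∘ θ) (D.m a b * D.m b a)) *
      algebraMap O K (D.sub (mg a b ∘ θ) (if (true : Bool) then D.P a else 1)) *
      (∏ z ∈ Z, D.kap K ((mg a b ∘ θ) a) ((mg a b ∘ θ) z)) * w) = 0 := by
      rw [two_mul]; exact hz
    exact (mul_eq_zero.1 this).resolve_left h2
  have e1 : (mg a b ∘ θ) a = a := by simp only [Function.comp, hθa, haa]
  have e2 : (mg a b ∘ θ) b = a := by simp only [Function.comp, hθb, hbb]
  have n1 : algebraMap O K (D.sub (mg a b ∘ θ) (D.m a b * D.m b a)) ≠ 0 := by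
    apply alg_ne K
    rw [map_mul (D.sub _), D.sub_m _ hθ', D.sub_m _ hθ', e1, e2]
    exact mul_ne_zero (hdiag a) (hdiag a)
  have n2 : algebraMap O K (D.sub (mg a b ∘ θ) (if (true : Bool) then D.P a else 1)) ≠ 0 := by
    apply alg_ne K
    simp only [if_true]
    rw [D.sub_P _ hθ', e1]
    exact D.P_ne a
  have n3 : (∏ z ∈ Z, D.kap K ((mg a b ∘ θ) a) ((mg a b ∘ θ) z)) ≠ 0 := by
    rw [Finset.prod_ne_zero_iff]
    intro z hz
    have hza : z ≠ a := fun h => haZ (h ▸ hz)
    have hzb : z ≠ b := fun h => hbZ (h ▸ hz)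
    have e3 : (mg a b ∘ θ) z = z := by
      simp only [Function.comp, hθZ z hz, mg, Function.update_apply, hzb, if_false, id]
    rw [e1, e3]
    intro h0
    have := kap_mul_dd (D := D) (K := K) hza.symm
    rw [h0, zero_mul] at this
    exact alg_ne K (mul_ne_zero (D.m_ne a z hza.symm) (D.m_ne z a hza)) this.symm
  have hw0 : w = 0 := (mul_eq_zero.1 hz').resolve_left (mul_ne_zero (mul_ne_zero n1 n2) n3)
  rw [← hw0]; exact hw

/-- vanishing under merges -/
theorem gco_merge (hdiag : ∀ a, D.m a a ≠ 0) (Φ : Finset V → Finset V → O) (hE : D.Eqv2 Φ)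
    (hM : D.Mg Φ) (p : O) (hp : D.gco K true Φ ∅ univ = algebraMap O K p)
    (B D' : Finset V) (hdis : Disjoint B D') (hB : B.Nonempty) (θ : V → V) (hθ1 : D.CP θ)
    (hθ2 : ∀ a, a ∉ D' → θ a = a) (hθ3 : Set.BijOn θ D' B) :
    (D.gco K true Φ B (univ \ (B ∪ D')), (0 : K)) ∈ D.Gr K θ := by
  -- generalized statement, by induction on the cardinality of `B`
  suffices h : ∀ (n : ℕ) (B D' : Finset V), B.card = n → Disjoint B D' → ∀ θ : V → V, D.CP θ →
      (∀ a, a ∉ D' → θ a = a) → Set.BijOn θ D' B →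
      (D.gco K true Φ B (univ \ (B ∪ D')), algebraMap O K (if n = 0 then p else 0)) ∈ D.Gr K θ by
    have h1 := h B.card B D' rfl hdis θ hθ1 hθ2 hθ3
    have h2 : B.card ≠ 0 := Finset.card_ne_zero.2 hB
    rwa [if_neg h2, map_zero] at h1
  clear hθ3 hθ2 hθ1 θ hB hdis D' B
  intro n
  induction n with
  | zero =>
    intro B D' hc hdis θ hθ1 hθ2 hθ3
    have hB : B = ∅ := Finset.card_eq_zero.1 hc
    subst hB
    have hD : D' = ∅ := by
      rw [Finset.eq_empty_iff_forall_notMem]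
      intro a ha
      have := hθ3.mapsTo (Finset.mem_coe.2 ha)
      simp at this
    subst hD
    have hθ : θ = id := by
      ext a; exact hθ2 a (by simp)
    subst hθ
    simp only [Finset.union_empty, Finset.sdiff_empty, if_true]
    rw [hp]
    have := Gr_alg (D := D) (K := K) id p
    rwa [D.sub_id] at this
  | succ n ih =>
    intro B D' hcard hdis θ hθ1 hθ2 hθ3
    have hBne : B.Nonempty := by
      rw [← Finset.card_pos, hcard]; omega
    obtain ⟨a, ha⟩ := hBne
    obtain ⟨b, hb, hba⟩ := hθ3.surjOn (Finset.mem_coe.2 ha)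
    rw [Finset.mem_coe] at hb
    have haD : a ∉ D' := fun h => Finset.disjoint_left.1 hdis ha h
    have hbB : b ∉ B := fun h => Finset.disjoint_left.1 hdis h hb
    have hab : a ≠ b := fun h => hbB (h ▸ ha)
    have hc : D.c a = D.c b := by rw [← hba]; exact hθ1 b
    set B0 := B.erase a with hB0
    set D0 := D'.erase b with hD0
    set θ0 : V → V := Function.update θ b b with hθ0
    set Z := univ \ (B ∪ D') with hZ
    have haZ : a ∉ Z := by simp [hZ, ha]
    have hbZ : b ∉ Z := by simp [hZ, hb]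
    have haB0 : a ∉ B0 := by simp [hB0]
    have hbB0 : b ∉ B0 := by simp [hB0, hbB]
    have hBe : insert a B0 = B := Finset.insert_erase ha
    have hZe : insert a (insert b Z) = univ \ (B0 ∪ D0) := by
      ext v
      simp only [hZ, hB0, hD0, Finset.mem_insert, Finset.mem_sdiff, Finset.mem_univ, true_and,
        Finset.mem_union, Finset.mem_erase]
      constructor
      · rintro (h | h | h)
        · subst h; simp [haD]
        · subst h; simp [hbB]
        · tauto
      · intro h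
        by_cases h1 : v = a
        · exact Or.inl h1
        · by_cases h2 : v = b
          · exact Or.inr (Or.inl h2)
          · right; right; tauto
    have hθ0b : θ0 b = b := by simp [hθ0]
    have hθ0n : ∀ v, v ≠ b → θ0 v = θ v := by
      intro v hv; simp [hθ0, Function.update_apply, hv]
    have cθ0 : D.CP θ0 := by
      intro v
      rcases eq_or_ne v b with h | h
      · rw [h, hθ0b]
      · rw [hθ0n v h]; exact hθ1 v
    have hfix0 : ∀ v, v ∉ D0 → θ0 v = v := by
      intro v hv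
      rcases eq_or_ne v b with h | h
      · rw [h, hθ0b]
      · rw [hθ0n v h]
        apply hθ2
        intro h'
        exact hv (by simp [hD0, h, h'])
    have hbij0 : Set.BijOn θ0 D0 B0 := by
      refine ⟨?_, ?_, ?_⟩
      · intro v hv
        rw [Finset.mem_coe, hD0, Finset.mem_erase] at hv
        rw [hθ0n v hv.1, Finset.mem_coe, hB0, Finset.mem_erase]
        refine ⟨?_, Finset.mem_coe.1 (hθ3.mapsTo (Finset.mem_coe.2 hv.2))⟩
        intro h
        exact hv.1 (hθ3.injOn (Finset.mem_coe.2 hv.2) (Finset.mem_coe.2 hb) (h.trans hba.symm))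
      · intro v hv v' hv' h
        rw [Finset.mem_coe, hD0, Finset.mem_erase] at hv hv'
        rw [hθ0n v hv.1, hθ0n v' hv'.1] at h
        exact hθ3.injOn (Finset.mem_coe.2 hv.2) (Finset.mem_coe.2 hv'.2) h
      · intro u hu
        rw [Finset.mem_coe, hB0, Finset.mem_erase] at hu
        obtain ⟨v, hv, hvu⟩ := hθ3.surjOn (Finset.mem_coe.2 hu.2)
        have hvb : v ≠ b := by
          rintro rfl; exact hu.1 (hvu.symm.trans hba)
        exact ⟨v, by rw [Finset.mem_coe, hD0, Finset.mem_erase]; exact ⟨hvb, hv⟩,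
          by rw [hθ0n v hvb]; exact hvu⟩
    have hcard0 : B0.card = n := by
      rw [hB0, Finset.card_erase_of_mem ha, hcard]; rfl
    have hdis0 : Disjoint B0 D0 :=
      Finset.disjoint_of_subset_left (Finset.erase_subset _ _)
        (Finset.disjoint_of_subset_right (Finset.erase_subset _ _) hdis)
    have h1 := ih B0 D0 hcard0 hdis0 θ0 cθ0 hfix0 hbij0
    rw [← hZe] at h1
    have hnotD : ∀ v ∈ insert a (insert b Z), v ∉ D0 := by
      intro v hv
      rw [hZe] at hv
      simp only [Finset.mem_sdiff, Finset.mem_univ, true_and, Finset.mem_union, not_or] at hv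
      exact hv.2
    have hθ0v : ∀ v, v ≠ a → v ≠ b → θ0 v ≠ a ∧ θ0 v ≠ b := by
      intro v hva hvb
      by_cases hv : v ∈ D0
      · have h2 := hbij0.mapsTo (Finset.mem_coe.2 hv)
        rw [Finset.mem_coe] at h2
        exact ⟨fun h => haB0 (h ▸ h2), fun h => hbB0 (h ▸ h2)⟩
      · rw [hfix0 v hv]; exact ⟨hva, hvb⟩
    have hcomm : θ0 ∘ (Equiv.swap a b) = (Equiv.swap a b) ∘ θ0 := by
      ext v
      simp only [Function.comp]
      rcases eq_or_ne v a with h | h
      · rw [h, Equiv.swap_apply_left, hθ0b, hfix0 a (hnotD a (by simp)), Equiv.swap_apply_left]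
      · rcases eq_or_ne v b with h' | h'
        · rw [h', Equiv.swap_apply_right, hθ0b, hfix0 a (hnotD a (by simp)),
            Equiv.swap_apply_right]
        · obtain ⟨h2, h3⟩ := hθ0v v h h'
          rw [Equiv.swap_apply_of_ne_of_ne h h', Equiv.swap_apply_of_ne_of_ne h2 h3]
    have h2 := D.merge_step K hdiag Φ hE hM hab hc haZ hbZ haB0 hbB0 cθ0
      (fun v hv => hfix0 v (hnotD v hv)) hcomm _ h1
    have hcomp : mg a b ∘ θ0 = θ := by
      ext v
      simp only [Function.comp]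
      rcases eq_or_ne v b with h | h
      · rw [h, hθ0b]; simp [mg, hba]
      · rw [hθ0n v h]
        have : θ v ≠ b := by
          by_cases hv : v ∈ D'
          · intro h'
            exact hbB (h' ▸ Finset.mem_coe.1 (hθ3.mapsTo (Finset.mem_coe.2 hv)))
          · rw [hθ2 v hv]; exact h
        simp [mg, Function.update_apply, this]
    rw [hcomp, hBe] at h2
    rw [if_neg (Nat.succ_ne_zero n), map_zero]
    exact h2

end Dat

end Run7.h787
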