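import Pool.Agent.Run7.h787.Integ

/-! Equivariant Lagrange interpolation on nested pairs of subsets. -/

open Finset

set_option linter.unusedSectionVars false
set_option linter.unusedVariables false
set_option linter.unusedSimpArgs false

namespace Run7.h787

variable {V I O : Type} [Fintype V] [DecidableEq V] [Fintype I] [DecidableEq I] [CommRing O]
  [IsDomain O] [Algebra ℚ O]

namespace Dat

variable (D : Dat V I O)
variable (K : Type) [Field K] [Algebra O K] [IsFractionRing O K]

namespace InterpAux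

/-- `∏_{a∈T, b∈U} dd a b` -/
def Pi2 (T U : Finset V) : O := ∏ a ∈ T, ∏ b ∈ U, D.dd a b

noncomputable def qU (U : Finset V) (i : I) : Polynomial O :=
  ∏ b ∈ U, if D.c b = i then Polynomial.X - Polynomial.C (D.x b) else 1

noncomputable def MT (T : Finset V) : MvPolynomial (I × ℕ) O :=
  ∏ a ∈ T, ∑ k ∈ Finset.range (Fintype.card V + 1),
    MvPolynomial.X (D.c a, k) * MvPolynomial.C (D.x a ^ k)

noncomputable def tau (j : (I × ℕ) →₀ ℕ) (U : Finset V) : O :=
  ∏ p ∈ j.support, ((qU D U p.1).coeff p.2) ^ (j p)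

noncomputable def JJ : Finset ((I × ℕ) →₀ ℕ) :=
  (univ : Finset (Finset V)).biUnion (fun T => (MT D T).support)

theorem natDegree_qU (U : Finset V) (i : I) : (qU D U i).natDegree < Fintype.card V + 1 := by
  have h1 : (qU D U i).natDegree ≤ ∑ b ∈ U, 1 := by
    refine (Polynomial.natDegree_prod_le _ _).trans ?_
    apply Finset.sum_le_sum
    intro b _
    split_ifs
    · exact Polynomial.natDegree_X_sub_C_le _
    · simp
  have h2 : ∑ b ∈ U, 1 = U.card := by simp
  have h3 : U.card ≤ Fintype.card V := Finset.card_le_univ U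
  omega

theorem eval_qU (U : Finset V) (a : V) :
    (qU D U (D.c a)).eval (D.x a) = ∏ b ∈ U, D.dd a b := by
  rw [qU, Polynomial.eval_prod]
  apply Finset.prod_congr rfl
  intro b _
  simp only [dd]
  by_cases h : D.c b = D.c a
  · rw [if_pos h, if_pos h.symm]; simp
  · rw [if_neg h, if_neg (fun h' => h h'.symm)]; simp

theorem eval_MT (T U : Finset V) :
    MvPolynomial.eval (fun p : I × ℕ => (qU D U p.1).coeff p.2) (MT D T) = Pi2 D T U := by
  rw [MT, map_prod, Pi2]
  apply Finset.prod_congr rfl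
  intro a _
  rw [← eval_qU, Polynomial.eval_eq_sum_range' (natDegree_qU D U (D.c a)), map_sum]
  apply Finset.sum_congr rfl
  intro k _
  rw [map_mul, MvPolynomial.eval_X, MvPolynomial.eval_C]

theorem expand (T U : Finset V) :
    ∑ j ∈ JJ D, (MT D T).coeff j * tau D j U = Pi2 D T U := by
  rw [← eval_MT, MvPolynomial.eval_eq]
  symm
  apply Finset.sum_subset
  · intro j hj
    exact Finset.mem_biUnion.2 ⟨T, Finset.mem_univ _, hj⟩
  · intro j _ hj
    rw [MvPolynomial.notMem_support_iff] at hj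
    rw [hj, zero_mul]

theorem map_MT {σ : Equiv.Perm V} (hσ : D.CP σ) (T : Finset V) :
    MvPolynomial.map (D.sub σ) (MT D T) = MT D (im σ T) := by
  rw [MT, MT, map_prod, prod_im]
  apply Finset.prod_congr rfl
  intro a _
  rw [map_sum]
  apply Finset.sum_congr rfl
  intro k _
  rw [map_mul, MvPolynomial.map_X, MvPolynomial.map_C, map_pow, D.sub_x, hσ a]

theorem map_qU {σ : Equiv.Perm V} (hσ : D.CP σ) (U : Finset V) (i : I) :
    (qU D U i).map (D.sub σ) = qU D (im σ U) i := by
  rw [qU, qU, Polynomial.map_prod, prod_im]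
  apply Finset.prod_congr rfl
  intro b _
  rw [hσ b]
  split_ifs
  · rw [Polynomial.map_sub, Polynomial.map_X, Polynomial.map_C, D.sub_x]
  · exact Polynomial.map_one _

theorem sub_tau {σ : Equiv.Perm V} (hσ : D.CP σ) (j : (I × ℕ) →₀ ℕ) (U : Finset V) :
    D.sub σ (tau D j U) = tau D j (im σ U) := by
  rw [tau, tau, map_prod]
  apply Finset.prod_congr rfl
  intro p _
  rw [map_pow, ← map_qU D hσ, Polynomial.coeff_map]

theorem sub_Pi2 {σ : Equiv.Perm V} (hσ : D.CP σ) (T U : Finset V) :
    D.sub σ (Pi2 D T U) = Pi2 D (im σ T) (im σ U) := by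
  simp only [Pi2, map_prod, prod_im, sub_dd hσ]

theorem Pi2_ne {L U : Finset V} (h : Disjoint L U) : Pi2 D L U ≠ 0 := by
  rw [Pi2, Finset.prod_ne_zero_iff]
  intro a ha
  rw [Finset.prod_ne_zero_iff]
  intro b hb
  apply dd_ne
  intro _ h'
  subst h'
  exact Finset.disjoint_left.1 h ha hb

theorem Pi2_eq_zero {T U : Finset V} {a : V} (h : a ∈ T) (h' : a ∈ U) : Pi2 D T U = 0 := by
  rw [Pi2]
  apply Finset.prod_eq_zero h
  apply Finset.prod_eq_zero h'
  simp [dd]

/-- coefficient -/
noncomputable def cj (j : (I × ℕ) →₀ ℕ) (L S : Finset V) : K :=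
  algebraMap O K (tau D j (S \ L)) / algebraMap O K (Pi2 D L (S \ L))

theorem act_cj {σ : Equiv.Perm V} (hσ : D.CP σ) (j : (I × ℕ) →₀ ℕ) (L S : Finset V) :
    D.act K σ (cj D K j L S) = cj D K j (im σ L) (im σ S) := by
  rw [cj, map_div₀, act_alg, act_alg, sub_tau D hσ, sub_Pi2 D hσ, im_sdiff]; rfl

/-- the interpolation coefficients -/
noncomputable def zz (d1 : I → ℕ) (g : Finset V → Finset V → O) (j : (I × ℕ) →₀ ℕ)
    (S : Finset V) : K :=
  ∑ L ∈ S.powerset with D.dim L = d1, cj D K j L S * algebraMap O K (g L S)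

theorem act_zz {σ : Equiv.Perm V} (hσ : D.CP σ) (d1 : I → ℕ) {g : Finset V → Finset V → O}
    (hg : D.Eqv2 g) (j : (I × ℕ) →₀ ℕ) (S : Finset V) :
    D.act K σ (zz D K d1 g j S) = zz D K d1 g j (im σ S) := by
  rw [zz, zz, Finset.sum_filter, Finset.sum_filter, sum_powerset_im, map_sum]
  apply Finset.sum_congr rfl
  intro L _
  rw [D.dim_im hσ]
  split_ifs
  · rw [map_mul, act_cj D K hσ, act_alg, hg σ hσ]
  · exact map_zero _

theorem zz_clear (d1 : I → ℕ) (g : Finset V → Finset V → O) (j : (I × ℕ) →₀ ℕ)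
    (S : Finset V) :
    ∃ n : O, zz D K d1 g j S * algebraMap O K (∏ p ∈ S.offDiag, D.dd p.1 p.2) =
      algebraMap O K n := by
  have h : ∀ L ∈ S.powerset.filter (fun L => D.dim L = d1), ∃ n : O,
      (cj D K j L S * algebraMap O K (g L S)) *
        algebraMap O K (∏ p ∈ S.offDiag, D.dd p.1 p.2) = algebraMap O K n := by
    intro L hL
    have hLS : L ⊆ S := Finset.mem_powerset.1 (Finset.mem_filter.1 hL).1
    have h1 : Pi2 D L (S \ L) ∣ ∏ p ∈ S.offDiag, D.dd p.1 p.2 := by
      rw [Pi2, ← Finset.prod_product']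
      apply Finset.prod_dvd_prod_of_subset
      rintro ⟨a, b⟩ h
      rw [Finset.mem_product] at h
      rw [Finset.mem_offDiag]
      obtain ⟨h1, h2⟩ := Finset.mem_sdiff.1 h.2
      exact ⟨hLS h.1, h1, fun h' => h2 (h' ▸ h.1)⟩
    obtain ⟨q, hq⟩ := h1
    refine ⟨tau D j (S \ L) * g L S * q, ?_⟩
    have hne : algebraMap O K (Pi2 D L (S \ L)) ≠ 0 :=
      alg_ne K (Pi2_ne D Finset.disjoint_sdiff)
    rw [hq, cj]
    simp only [map_mul]
    field_simp
  choose! n hn using h
  refine ⟨∑ L ∈ S.powerset with D.dim L = d1, n L, ?_⟩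
  rw [zz, Finset.sum_mul, map_sum]
  exact Finset.sum_congr rfl hn

/-- regularity of the individual terms -/
theorem term_reg {θ : V → V} (hθ : D.CP θ) (j : (I × ℕ) →₀ ℕ) (L S : Finset V) (y : O)
    (P : Finset (V × V)) (hP : ∀ p ∈ P, D.c p.1 = D.c p.2 → θ p.1 ≠ θ p.2) :
    ∃ w, (algebraMap O K y / algebraMap O K (∏ p ∈ P, D.dd p.1 p.2), w) ∈ D.Gr K θ := by
  have h1 : D.sub θ (∏ p ∈ P, D.dd p.1 p.2) ≠ 0 := by
    rw [map_prod, Finset.prod_ne_zero_iff]
    intro p hp
    rw [sub_dd hθ]
    apply dd_ne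
    rw [hθ, hθ]
    exact hP p hp
  have h2 := Gr_alg (D := D) (K := K) θ (∏ p ∈ P, D.dd p.1 p.2)
  have h3 := Gr_inv h2 (alg_ne K h1)
  exact ⟨_, by rw [div_eq_mul_inv]; exact Gr_mul (Gr_alg _ _) h3⟩

theorem zz_reg (d1 : I → ℕ) {g : Finset V → Finset V → O} (hg : D.Eqv2 g)
    (j : (I × ℕ) →₀ ℕ) {S : Finset V} {a b : V} (haS : a ∈ S) (hbS : b ∈ S) (hab : a ≠ b)
    (hc : D.c a = D.c b) : ∃ w, (zz D K d1 g j S, w) ∈ D.Gr K (mg a b) := by
  classical
  set s := Equiv.swap a b with hs
  have hσ : D.CP s := D.CP_swap hc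
  have hθ : D.CP (mg a b) := D.CP_mg hc
  have hsS : im s S = S := im_swap_of_mem haS hbS
  set δ := algebraMap O K (D.x a - D.x b) with hδ
  have hδne : δ ≠ 0 := by
    rw [hδ]; apply alg_ne K; rw [sub_ne_zero]; exact fun h => hab (D.x_inj h)
  have hsδ : D.act K s δ = - δ := by
    rw [hδ, act_alg, map_sub (D.sub _), D.sub_x, D.sub_x, hs, Equiv.swap_apply_left,
      Equiv.swap_apply_right, ← map_neg]
    congr 1; ring
  set F : Finset V → K := fun L => cj D K j L S * algebraMap O K (g L S) with hF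
  have hFs : ∀ L, D.act K s (F L) = F (im s L) := by
    intro L
    simp only [hF]
    rw [map_mul, act_cj D K hσ, act_alg, hg s hσ, hsS]
  set T := S.powerset.filter (fun L => D.dim L = d1) with hT
  have hmemT : ∀ L, L ∈ T ↔ L ⊆ S ∧ D.dim L = d1 := by
    intro L; rw [hT, Finset.mem_filter, Finset.mem_powerset]
  have hTs : ∀ L, im s L ∈ T ↔ L ∈ T := by
    intro L
    rw [hmemT, hmemT, D.dim_im hσ]
    conv_lhs => rw [← hsS, im_subset]
  have e0 : zz D K d1 g j S = ∑ L ∈ T, F L := rfl
  -- split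
  have e1 : ∑ L ∈ T, F L = ∑ L ∈ T with (a ∈ L ↔ b ∈ L), F L +
      (∑ L ∈ T with (a ∈ L ∧ b ∉ L), F L + ∑ L ∈ T with (a ∉ L ∧ b ∈ L), F L) := by
    rw [← Finset.sum_filter_add_sum_filter_not T (fun L => (a ∈ L ↔ b ∈ L))]
    congr 1
    rw [← Finset.sum_filter_add_sum_filter_not (T.filter (fun L => ¬ (a ∈ L ↔ b ∈ L)))
      (fun L => a ∈ L)]
    congr 1
    · apply Finset.sum_congr _ (fun _ _ => rfl)
      ext L
      simp only [Finset.mem_filter]
      tauto
    · apply Finset.sum_congr _ (fun _ _ => rfl)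
      ext L
      simp only [Finset.mem_filter]
      tauto
  have hsa : s.symm a = b := by rw [hs, Equiv.symm_swap, Equiv.swap_apply_left]
  have hsb : s.symm b = a := by rw [hs, Equiv.symm_swap, Equiv.swap_apply_right]
  have hss : ∀ L, im s (im s L) = L := by
    intro L
    have h1 : s.symm = s := by rw [hs, Equiv.symm_swap]
    have h2 := im_symm_im s L
    rwa [h1] at h2
  have e2 : ∑ L ∈ T with (a ∉ L ∧ b ∈ L), F L =
      D.act K s (∑ L ∈ T with (a ∈ L ∧ b ∉ L), F L) := by
    rw [map_sum]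
    symm
    apply Finset.sum_bij (fun L _ => im s L)
    · intro L hL
      rw [Finset.mem_filter] at hL ⊢
      rw [hTs, mem_im, mem_im, hsa, hsb]
      exact ⟨hL.1, hL.2.2, hL.2.1⟩
    · intro L _ L' _ h
      exact im_inj s h
    · intro L hL
      rw [Finset.mem_filter] at hL
      refine ⟨im s L, ?_, hss L⟩
      rw [Finset.mem_filter, hTs, mem_im, mem_im, hsa, hsb]
      exact ⟨hL.1, hL.2.2, hL.2.1⟩
    · intro L _
      exact hFs L
  -- regular part
  have hreg1 : ∃ w, (∑ L ∈ T with (a ∈ L ↔ b ∈ L), F L, w) ∈ D.Gr K (mg a b) := by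
    have h : ∀ L ∈ T.filter (fun L => (a ∈ L ↔ b ∈ L)), ∃ w, (F L, w) ∈ D.Gr K (mg a b) := by
      intro L hL
      rw [Finset.mem_filter, hmemT] at hL
      obtain ⟨⟨hLS, hd⟩, hiff⟩ := hL
      have h1 : Pi2 D L (S \ L) = ∏ p ∈ L ×ˢ (S \ L), D.dd p.1 p.2 :=
        (Finset.prod_product' _ _ _).symm
      obtain ⟨w, hw⟩ := term_reg D K hθ j L S (tau D j (S \ L)) (L ×ˢ (S \ L)) (by
        rintro ⟨c, d⟩ hcd h'
        rw [Finset.mem_product, Finset.mem_sdiff] at hcd
        simp only at hcd h' ⊢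
        obtain ⟨hcL, hdS, hdL⟩ := hcd
        intro heq
        have hne : c ≠ d := fun h => hdL (h ▸ hcL)
        simp only [mg, Function.update_apply, id] at heq
        by_cases h1 : c = b
        · by_cases h2 : d = b
          · exact hne (h1.trans h2.symm)
          · rw [if_pos h1, if_neg h2] at heq
            rw [h1] at hcL
            rw [← heq] at hdL
            exact hdL (hiff.2 hcL)
        · by_cases h2 : d = b
          · rw [if_neg h1, if_pos h2] at heq
            rw [heq] at hcL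
            rw [h2] at hdL
            exact hdL (hiff.1 hcL)
          · rw [if_neg h1, if_neg h2] at heq
            exact hne heq)
      refine ⟨w * algebraMap O K (D.sub (mg a b) (g L S)), Gr_mul ?_ (Gr_alg _ (g L S))⟩
      rw [cj, h1]; exact hw
    choose! w hw using h
    exact ⟨_, Gr_sum _ _ _ hw⟩
  have hreg2 : ∃ w, (δ * ∑ L ∈ T with (a ∈ L ∧ b ∉ L), F L, w) ∈ D.Gr K (mg a b) := by
    have h : ∀ L ∈ T.filter (fun L => (a ∈ L ∧ b ∉ L)),
        ∃ w, (δ * F L, w) ∈ D.Gr K (mg a b) := by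
      intro L hL
      rw [Finset.mem_filter, hmemT] at hL
      obtain ⟨⟨hLS, hd⟩, haL, hbL⟩ := hL
      have hmem : ((a, b) : V × V) ∈ L ×ˢ (S \ L) := by
        rw [Finset.mem_product, Finset.mem_sdiff]; exact ⟨haL, hbS, hbL⟩
      have h1 : Pi2 D L (S \ L) = (D.x a - D.x b) *
          ∏ p ∈ (L ×ˢ (S \ L)).erase (a, b), D.dd p.1 p.2 := by
        rw [Pi2, ← Finset.prod_product', ← Finset.mul_prod_erase _ _ hmem]
        simp only [dd, hc, if_true]
      obtain ⟨w, hw⟩ := term_reg D K hθ j L S (tau D j (S \ L) * g L S)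
        ((L ×ˢ (S \ L)).erase (a, b)) (by
        rintro ⟨c, d⟩ hcd h'
        rw [Finset.mem_erase, Finset.mem_product, Finset.mem_sdiff] at hcd
        simp only at hcd h' ⊢
        obtain ⟨hne0, hcL, hdS, hdL⟩ := hcd
        intro heq
        have hne : c ≠ d := fun h => hdL (h ▸ hcL)
        simp only [mg, Function.update_apply, id] at heq
        by_cases h1 : c = b
        · exact hbL (h1 ▸ hcL)
        · by_cases h2 : d = b
          · rw [if_neg h1, if_pos h2] at heq
            exact hne0 (by rw [heq, h2])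
          · rw [if_neg h1, if_neg h2] at heq
            exact hne heq)
      refine ⟨w, ?_⟩
      convert hw using 2
      simp only [hF, cj]
      rw [h1, map_mul, map_mul, ← hδ]
      have h2 : algebraMap O K (∏ p ∈ (L ×ˢ (S \ L)).erase (a, b), D.dd p.1 p.2) ≠ 0 := by
        apply alg_ne K
        have := Pi2_ne D (L := L) (U := S \ L) Finset.disjoint_sdiff
        rw [h1] at this
        exact right_ne_zero_of_mul this
      field_simp
    choose! w hw using h
    refine ⟨∑ L ∈ T with (a ∈ L ∧ b ∉ L), w L, ?_⟩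
    rw [Finset.mul_sum]
    exact Gr_sum _ _ _ hw
  obtain ⟨w1, hw1⟩ := hreg1
  obtain ⟨w2, hw2⟩ := hreg2
  obtain ⟨w3, hw3⟩ := simple_pole hab hw2
  refine ⟨w1 + w3, ?_⟩
  have := Gr_add hw1 hw3
  convert this using 2
  rw [e0, e1, e2, ← hδ, map_mul, hsδ]
  field_simp
  ring

theorem zz_int (d1 : I → ℕ) {g : Finset V → Finset V → O} (hg : D.Eqv2 g)
    (j : (I × ℕ) →₀ ℕ) (S : Finset V) : ∃ n : O, zz D K d1 g j S = algebraMap O K n := by
  classical
  set L := (S.offDiag.filter (fun p => D.c p.1 = D.c p.2)).toList with hL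
  have hmem : ∀ p : V × V, p ∈ L ↔ (p.1 ∈ S ∧ p.2 ∈ S ∧ p.1 ≠ p.2) ∧ D.c p.1 = D.c p.2 := by
    intro p
    rw [hL, Finset.mem_toList, Finset.mem_filter, Finset.mem_offDiag]
  apply pole_cancel (D := D) (zz D K d1 g j S) L
  · intro p hp
    exact ((hmem p).1 hp).1.2.2
  · have h1 : (L.map (fun p => D.x p.1 - D.x p.2)).prod = ∏ p ∈ S.offDiag, D.dd p.1 p.2 := by
      rw [hL, Finset.prod_map_toList, Finset.prod_filter]
      rfl
    rw [h1]
    exact zz_clear D K d1 g j S
  · intro p hp
    obtain ⟨⟨ha, hb, hab⟩, hc⟩ := (hmem p).1 hp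
    exact zz_reg D K d1 hg j ha hb hab hc

end InterpAux

open InterpAux in
theorem interp (d1 : I → ℕ) :
    ∃ (J : Type) (_ : Fintype J) (sg : J → Finset V → O) (cj : J → Finset V → Finset V → K),
      (∀ j, D.EqvD d1 (sg j)) ∧
      ∀ (d2 : I → ℕ) (g : Finset V → Finset V → O), D.Eqv2 g →
        ∃ Gj : J → Finset V → O, (∀ j, D.EqvD d2 (Gj j)) ∧
          (∀ j S, D.dim S = d2 → algebraMap O K (Gj j S) =
            ∑ L ∈ S.powerset with D.dim L = d1, cj j L S * algebraMap O K (g L S)) ∧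
          (∀ S T, T ⊆ S → D.dim T = d1 → D.dim S = d2 → ∑ j, sg j T * Gj j S = g T S) := by
  classical
  refine ⟨{j // j ∈ JJ D}, inferInstance,
    fun j T => if D.dim T = d1 then (MT D T).coeff j.1 else 0,
    fun j L S => InterpAux.cj D K j.1 L S, ?_, ?_⟩
  · intro j
    refine ⟨?_, ?_⟩
    · intro σ hσ S
      simp only
      rw [D.dim_im hσ]
      split_ifs
      · rw [← map_MT D hσ, MvPolynomial.coeff_map]
      · exact map_zero _
    · intro S hS
      simp only
      rw [if_neg hS]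
  · intro d2 g hg
    have hint := fun (j : {j // j ∈ JJ D}) (S : Finset V) => zz_int D K d1 hg j.1 S
    choose n hn using hint
    refine ⟨fun j S => if D.dim S = d2 then n j S else 0, ?_, ?_, ?_⟩
    · intro j
      refine ⟨?_, ?_⟩
      · intro σ hσ S
        simp only
        rw [D.dim_im hσ]
        split_ifs
        · apply IsFractionRing.injective O K
          rw [← act_alg, ← hn, ← hn, act_zz D K hσ d1 hg]
        · exact map_zero _
      · intro S hS
        simp only
        rw [if_neg hS]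
    · intro j S hS
      simp only
      rw [if_pos hS, ← hn]
      rfl
    · intro S T hTS hT hS
      simp only [if_pos hS, if_pos hT]
      apply IsFractionRing.injective O K
      rw [map_sum]
      have h1 : ∀ j : {j // j ∈ JJ D}, algebraMap O K ((MT D T).coeff j.1 * n j S) =
          ∑ L ∈ S.powerset with D.dim L = d1,
            (algebraMap O K ((MT D T).coeff j.1 * tau D j.1 (S \ L))) *
              (algebraMap O K (g L S) / algebraMap O K (Pi2 D L (S \ L))) := by
        intro j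
        rw [map_mul, ← hn, zz, Finset.mul_sum]
        apply Finset.sum_congr rfl
        intro L _
        rw [InterpAux.cj, map_mul]
        ring
      rw [Finset.sum_congr rfl (fun j _ => h1 j), Finset.sum_comm]
      have h2 : ∀ L ∈ S.powerset.filter (fun L => D.dim L = d1),
          ∑ j : {j // j ∈ JJ D}, (algebraMap O K ((MT D T).coeff j.1 * tau D j.1 (S \ L))) *
              (algebraMap O K (g L S) / algebraMap O K (Pi2 D L (S \ L))) =
          if L = T then algebraMap O K (g T S) else 0 := by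
        intro L hL
        rw [Finset.mem_filter, Finset.mem_powerset] at hL
        rw [← Finset.sum_mul, ← map_sum]
        have h3 : ∑ j : {j // j ∈ JJ D}, (MT D T).coeff j.1 * tau D j.1 (S \ L) =
            Pi2 D T (S \ L) := by
          rw [← expand, ← Finset.sum_coe_sort (JJ D)]
        rw [h3]
        split_ifs with h
        · subst h
          have hne : algebraMap O K (Pi2 D L (S \ L)) ≠ 0 :=
            alg_ne K (Pi2_ne D Finset.disjoint_sdiff)
          field_simp
        · have : ∃ a ∈ T, a ∉ L := by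
            by_contra hcon
            push Not at hcon
            exact h (D.eq_of_subset_of_dim hcon (by rw [hT, hL.2])).symm
          obtain ⟨a, haT, haL⟩ := this
          rw [Pi2_eq_zero D haT (Finset.mem_sdiff.2 ⟨hTS haT, haL⟩), map_zero, zero_mul]
      rw [Finset.sum_congr rfl h2, Finset.sum_ite_eq']
      rw [if_pos]
      rw [Finset.mem_filter, Finset.mem_powerset]
      exact ⟨hTS, hT⟩

end Dat

end Run7.h787
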