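import Pool.Agent.Run7.h787.Prod

/-! Double pole analysis of the coefficient functions. -/

open Finset

set_option linter.unusedSectionVars false
set_option linter.unusedVariables false

namespace Run7.h787

variable {V I O : Type} [Fintype V] [DecidableEq V] [Fintype I] [DecidableEq I] [CommRing O]
  [IsDomain O] [Algebra ℚ O]

namespace Dat

variable (D : Dat V I O)
variable (K : Type) [Field K] [Algebra O K] [IsFractionRing O K]

/-- compatibility of functions on pairs of subsets under merging -/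
def Mg (Φ : Finset V → Finset V → O) : Prop :=
  ∀ (θ : V → V) (σ : Equiv.Perm V), D.CP σ → θ ∘ σ = θ → ∀ S T,
    D.sub θ (Φ S (im σ T)) = D.sub θ (Φ S T)

/-- a term of `gco` -/
noncomputable def tm (e : Bool) (Φ : Finset V → Finset V → O) (B Z C : Finset V) : K :=
  algebraMap O K (Φ (B ∪ C) (B ∪ (Z \ C)) * D.ef e C) * D.kk K C (Z \ C)

/-- value of a term of `gco` along `θ` -/
noncomputable def tv (θ : V → V) (e : Bool) (Φ : Finset V → Finset V → O) (B Z C : Finset V) : K :=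
  algebraMap O K (D.sub θ (Φ (B ∪ C) (B ∪ (Z \ C)) * D.ef e C)) *
    ∏ a ∈ C, ∏ b ∈ Z \ C, D.kap K (θ a) (θ b)

theorem gco_eq_tm (e : Bool) (Φ : Finset V → Finset V → O) (B Z : Finset V) :
    D.gco K e Φ B Z = ∑ C ∈ Z.powerset, D.tm K e Φ B Z C := rfl

variable {D K}

theorem kap_comm (a b : V) : D.kap K a b = D.kap K b a := by
  rw [kap, kap, mul_comm]

theorem sub_dd {θ : V → V} (hθ : D.CP θ) (a b : V) : D.sub θ (D.dd a b) = D.dd (θ a) (θ b) := by
  simp only [dd, hθ a, hθ b]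
  split_ifs
  · rw [map_sub, D.sub_x, D.sub_x]
  · exact map_one _

theorem dd_ne {a b : V} (h : D.c a = D.c b → a ≠ b) : D.dd a b ≠ 0 := by
  simp only [dd]
  split_ifs with h1
  · rw [sub_ne_zero]; exact fun h2 => h h1 (D.x_inj h2)
  · exact one_ne_zero

theorem eta_Gr {θ : V → V} (hθ : D.CP θ) {a b : V} (h : D.c a = D.c b → θ a ≠ θ b) :
    (D.eta K a b, D.eta K (θ a) (θ b)) ∈ D.Gr K θ := by
  have h' : D.c (θ a) = D.c (θ b) → θ a ≠ θ b := by rw [hθ a, hθ b]; exact h
  have h0 : D.sub θ (D.dd a b) ≠ 0 := by rw [sub_dd hθ]; exact dd_ne h'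
  have h1 : D.dd a b ≠ 0 := by intro h; rw [h, map_zero] at h0; exact h0 rfl
  refine ⟨D.m a b, D.dd a b, h0, ?_, ?_⟩
  · simp only [eta]
    exact div_mul_cancel₀ _ (alg_ne K h1)
  · simp only [eta]
    rw [D.sub_m θ hθ, sub_dd hθ]
    exact div_mul_cancel₀ _ (alg_ne K (dd_ne h'))

theorem kap_Gr {θ : V → V} (hθ : D.CP θ) {a b : V} (h : D.c a = D.c b → θ a ≠ θ b) :
    (D.kap K a b, D.kap K (θ a) (θ b)) ∈ D.Gr K θ :=
  Gr_mul (eta_Gr hθ h) (eta_Gr hθ (fun h1 => (h h1.symm).symm))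

theorem tm_Gr {θ : V → V} (hθ : D.CP θ) (e : Bool) (Φ : Finset V → Finset V → O)
    (B Z C : Finset V) (h : ∀ a ∈ C, ∀ b ∈ Z \ C, D.c a = D.c b → θ a ≠ θ b) :
    (D.tm K e Φ B Z C, D.tv K θ e Φ B Z C) ∈ D.Gr K θ := by
  apply Gr_mul (Gr_alg _ _)
  apply Gr_prod
  intro a ha
  apply Gr_prod
  intro b hb
  exact kap_Gr hθ (h a ha b hb)

theorem act_eta {σ : Equiv.Perm V} (hσ : D.CP σ) (a b : V) :
    D.act K σ (D.eta K a b) = D.eta K (σ a) (σ b) := by
  rw [eta, map_div₀, act_alg, act_alg, D.sub_m σ hσ, sub_dd hσ]; rfl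

theorem act_kap {σ : Equiv.Perm V} (hσ : D.CP σ) (a b : V) :
    D.act K σ (D.kap K a b) = D.kap K (σ a) (σ b) := by
  rw [kap, map_mul, act_eta hσ, act_eta hσ]; rfl

theorem act_kk {σ : Equiv.Perm V} (hσ : D.CP σ) (C Z : Finset V) :
    D.act K σ (D.kk K C Z) = D.kk K (im σ C) (im σ Z) := by
  simp only [kk, map_prod, prod_im, act_kap hσ]

theorem sub_PP {σ : Equiv.Perm V} (hσ : D.CP σ) (C : Finset V) :
    D.sub σ (D.PP C) = D.PP (im σ C) := by
  simp only [PP, map_prod, prod_im, D.sub_P σ hσ]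

theorem sub_ef {σ : Equiv.Perm V} (hσ : D.CP σ) (e : Bool) (C : Finset V) :
    D.sub σ (D.ef e C) = D.ef e (im σ C) := by
  cases e
  · simp [ef]
  · simp [ef, sub_PP hσ]

theorem act_tm {σ : Equiv.Perm V} (hσ : D.CP σ) (e : Bool) {Φ : Finset V → Finset V → O}
    (hE : D.Eqv2 Φ) (B Z C : Finset V) :
    D.act K σ (D.tm K e Φ B Z C) = D.tm K e Φ (im σ B) (im σ Z) (im σ C) := by
  simp only [tm]
  rw [map_mul, act_alg, act_kk hσ, map_mul, hE σ hσ, sub_ef hσ, im_union, im_union, im_sdiff]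

theorem act_gco {σ : Equiv.Perm V} (hσ : D.CP σ) (e : Bool) {Φ : Finset V → Finset V → O}
    (hE : D.Eqv2 Φ) (B Z : Finset V) :
    D.act K σ (D.gco K e Φ B Z) = D.gco K e Φ (im σ B) (im σ Z) := by
  rw [gco_eq_tm, gco_eq_tm, sum_powerset_im, map_sum]
  exact Finset.sum_congr rfl (fun C _ => act_tm hσ e hE B Z C)

/-- the square of the root factor times `kap` -/
theorem kap_pole {a b : V} (hab : a ≠ b) (hc : D.c a = D.c b) :
    D.kap K a b = - algebraMap O K (D.m a b * D.m b a) / algebraMap O K (D.x a - D.x b) ^ 2 := by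
  have h1 : algebraMap O K (D.x a - D.x b) ≠ 0 := by
    apply alg_ne K
    rw [sub_ne_zero]; exact fun h => hab (D.x_inj h)
  have h2 : algebraMap O K (D.x b - D.x a) = - algebraMap O K (D.x a - D.x b) := by
    rw [← map_neg]; congr 1; ring
  simp only [kap, eta, dd, hc, if_true]
  rw [h2, map_mul]
  field_simp

/-- the coefficient of the double pole -/
noncomputable def UU (D : Dat V I O) (K : Type) [Field K] [Algebra O K] (e : Bool)
    (Φ : Finset V → Finset V → O) (B Z : Finset V) (a b : V) : K :=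
  ∑ C ∈ Z.powerset, (algebraMap O K (D.m a b * D.m b a) *
    algebraMap O K (if e then D.P a else 1) *
    ((∏ d ∈ Z \ C, D.kap K a d) * (∏ c ∈ C, D.kap K c b)) *
    (algebraMap O K (Φ (insert a (B ∪ C)) (insert b (B ∪ (Z \ C))) * D.ef e C) *
      D.kk K C (Z \ C)))

/-- regular part along `x a = x b` -/
noncomputable def RR (D : Dat V I O) (K : Type) [Field K] [Algebra O K] (e : Bool)
    (Φ : Finset V → Finset V → O) (B Z : Finset V) (a b : V) : K :=
  ∑ C ∈ Z.powerset, (D.tm K e Φ B (insert a (insert b Z)) C +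
    D.tm K e Φ B (insert a (insert b Z)) (insert a (insert b C)))

theorem tm_insert {a b : V} (hab : a ≠ b) (hc : D.c a = D.c b) (e : Bool)
    (Φ : Finset V → Finset V → O) {B Z C : Finset V} (haZ : a ∉ Z) (hbZ : b ∉ Z) (hC : C ⊆ Z) :
    D.tm K e Φ B (insert a (insert b Z)) (insert a C) =
      - (algebraMap O K (D.m a b * D.m b a) *
        algebraMap O K (if e then D.P a else 1) *
        ((∏ d ∈ Z \ C, D.kap K a d) * (∏ c ∈ C, D.kap K c b)) *
        (algebraMap O K (Φ (insert a (B ∪ C)) (insert b (B ∪ (Z \ C))) * D.ef e C) *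
          D.kk K C (Z \ C))) / algebraMap O K (D.x a - D.x b) ^ 2 := by
  have haC : a ∉ C := fun h => haZ (hC h)
  have hbC : b ∉ C := fun h => hbZ (hC h)
  have e1 : insert a (insert b Z) \ insert a C = insert b (Z \ C) := by
    ext v
    simp only [Finset.mem_sdiff, Finset.mem_insert]
    constructor
    · rintro ⟨h1 | h1 | h1, h2⟩
      · exact absurd (Or.inl h1) h2
      · exact Or.inl h1
      · exact Or.inr ⟨h1, fun h => h2 (Or.inr h)⟩
    · rintro (h1 | ⟨h1, h2⟩)
      · subst h1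
        exact ⟨Or.inr (Or.inl rfl), by rintro (h | h); exacts [hab h.symm, hbC h]⟩
      · refine ⟨Or.inr (Or.inr h1), ?_⟩
        rintro (h | h)
        · subst h; exact haZ h1
        · exact h2 h
  have hbD : b ∉ Z \ C := fun h => hbZ (Finset.mem_sdiff.1 h).1
  have e2 : B ∪ insert a C = insert a (B ∪ C) := Finset.union_insert _ _ _
  have e3 : B ∪ insert b (Z \ C) = insert b (B ∪ (Z \ C)) := Finset.union_insert _ _ _
  have e4 : D.ef e (insert a C) = (if e then D.P a else 1) * D.ef e C := by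
    cases e
    · simp [ef]
    · simp [ef, PP, Finset.prod_insert haC]
  have e5 : D.kk K (insert a C) (insert b (Z \ C)) =
      D.kap K a b * ((∏ d ∈ Z \ C, D.kap K a d) * (∏ c ∈ C, D.kap K c b)) * D.kk K C (Z \ C) := by
    simp only [kk]
    rw [Finset.prod_insert haC, Finset.prod_insert hbD]
    have : ∀ c ∈ C, ∏ d ∈ insert b (Z \ C), D.kap K c d =
        D.kap K c b * ∏ d ∈ Z \ C, D.kap K c d := fun c _ => Finset.prod_insert hbD
    rw [Finset.prod_congr rfl this, Finset.prod_mul_distrib]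
    ring
  rw [tm, e1, e2, e3, e4, e5, kap_pole hab hc]
  simp only [map_mul]
  ring

theorem gco_decomp {a b : V} (hab : a ≠ b) (hc : D.c a = D.c b) (e : Bool)
    {Φ : Finset V → Finset V → O} (hE : D.Eqv2 Φ) {B Z : Finset V} (haZ : a ∉ Z) (hbZ : b ∉ Z)
    (haB : a ∉ B) (hbB : b ∉ B) :
    D.gco K e Φ B (insert a (insert b Z)) = RR D K e Φ B Z a b -
      (UU D K e Φ B Z a b + D.act K (Equiv.swap a b) (UU D K e Φ B Z a b)) /
        algebraMap O K (D.x a - D.x b) ^ 2 := by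
  have hab' : a ∉ insert b Z := by
    rw [Finset.mem_insert]; rintro (h | h); exacts [hab h, haZ h]
  have hs : D.CP (Equiv.swap a b) := D.CP_swap hc
  have h2 : algebraMap O K (D.x b - D.x a) = - algebraMap O K (D.x a - D.x b) := by
    rw [← map_neg]; congr 1; ring
  have hsd : D.act K (Equiv.swap a b) (algebraMap O K (D.x a - D.x b) ^ 2) =
      algebraMap O K (D.x a - D.x b) ^ 2 := by
    rw [map_pow, act_alg, map_sub (D.sub _), D.sub_x, D.sub_x, Equiv.swap_apply_left,
      Equiv.swap_apply_right, h2, neg_sq]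
  have hA : ∑ C ∈ Z.powerset, D.tm K e Φ B (insert a (insert b Z)) (insert a C) =
      - UU D K e Φ B Z a b / algebraMap O K (D.x a - D.x b) ^ 2 := by
    rw [UU, ← Finset.sum_neg_distrib, Finset.sum_div]
    apply Finset.sum_congr rfl
    intro C hC
    rw [tm_insert hab hc e Φ haZ hbZ (Finset.mem_powerset.1 hC)]
  have hB : ∑ C ∈ Z.powerset, D.tm K e Φ B (insert a (insert b Z)) (insert b C) =
      - D.act K (Equiv.swap a b) (UU D K e Φ B Z a b) /
        algebraMap O K (D.x a - D.x b) ^ 2 := by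
    have h3 := congrArg (D.act K (Equiv.swap a b)) hA
    rw [map_div₀, hsd, map_neg, map_sum] at h3
    rw [← h3]
    apply Finset.sum_congr rfl
    intro C hC
    have hC' := Finset.mem_powerset.1 hC
    rw [act_tm hs e hE, im_swap_of_not_mem haB hbB,
      im_swap_of_mem (S := insert a (insert b Z)) (by simp) (by simp),
      im_swap_insert (fun h => haZ (hC' h)) (fun h => hbZ (hC' h))]
  rw [gco_eq_tm, Finset.sum_powerset_insert hab', Finset.sum_powerset_insert hbZ,
    Finset.sum_powerset_insert hbZ, hA, hB, RR, Finset.sum_add_distrib]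
  ring

/-- value of the double pole coefficient -/
theorem UU_Gr {θ : V → V} (hθ : D.CP θ) {a b : V} (hθab : θ a = θ b)
    (e : Bool) {Φ : Finset V → Finset V → O} (hM : D.Mg Φ) {B Z : Finset V}
    (hc : D.c a = D.c b) (haZ : a ∉ Z) (hbZ : b ∉ Z) (haB : a ∉ B) (hbB : b ∉ B)
    (hsep : ∀ c ∈ insert a Z, ∀ d ∈ insert a Z, c ≠ d → D.c c = D.c d → θ c ≠ θ d)
    {w : K} (hw : (D.gco K e Φ (insert a B) Z, w) ∈ D.Gr K θ) :
    (UU D K e Φ B Z a b, algebraMap O K (D.sub θ (D.m a b * D.m b a)) *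
      algebraMap O K (D.sub θ (if e then D.P a else 1)) *
      (∏ z ∈ Z, D.kap K (θ a) (θ z)) * w) ∈ D.Gr K θ := by
  have hs : D.CP (Equiv.swap a b) := D.CP_swap hc
  have hθs : θ ∘ (Equiv.swap a b) = θ := by
    ext v
    simp only [Function.comp]
    rcases eq_or_ne v a with rfl | hva
    · rw [Equiv.swap_apply_left]; exact hθab.symm
    · rcases eq_or_ne v b with rfl | hvb
      · rw [Equiv.swap_apply_right]; exact hθab
      · rw [Equiv.swap_apply_of_ne_of_ne hva hvb]
  have hterm : ∀ C ∈ Z.powerset, (D.tm K e Φ (insert a B) Z C, D.tv K θ e Φ (insert a B) Z C)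
      ∈ D.Gr K θ := by
    intro C hC
    have hC' := Finset.mem_powerset.1 hC
    apply tm_Gr hθ
    intro c hc' d hd h
    apply hsep c (Finset.mem_insert_of_mem (hC' hc')) d
      (Finset.mem_insert_of_mem (Finset.mem_sdiff.1 hd).1) _ h
    intro hcd
    subst hcd
    exact (Finset.mem_sdiff.1 hd).2 hc'
  have hwe : w = ∑ C ∈ Z.powerset, D.tv K θ e Φ (insert a B) Z C := by
    apply Gr_unique hw
    rw [gco_eq_tm]
    exact Gr_sum _ _ _ hterm
  rw [hwe, Finset.mul_sum, UU]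
  apply Gr_sum
  intro C hC
  have hC' := Finset.mem_powerset.1 hC
  have k1 : ((∏ d ∈ Z \ C, D.kap K a d) * (∏ c ∈ C, D.kap K c b),
      ∏ z ∈ Z, D.kap K (θ a) (θ z)) ∈ D.Gr K θ := by
    have k2 : ((∏ d ∈ Z \ C, D.kap K a d), ∏ z ∈ Z \ C, D.kap K (θ a) (θ z)) ∈ D.Gr K θ := by
      apply Gr_prod
      intro d hd
      apply kap_Gr hθ
      intro h
      have hdZ := (Finset.mem_sdiff.1 hd).1
      exact hsep a (Finset.mem_insert_self _ _) d (Finset.mem_insert_of_mem hdZ)
        (fun h => haZ (h ▸ hdZ)) h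
    have k3 : ((∏ c ∈ C, D.kap K c b), ∏ z ∈ C, D.kap K (θ a) (θ z)) ∈ D.Gr K θ := by
      apply Gr_prod
      intro c hcC
      have hcZ := hC' hcC
      rw [kap_comm (D := D) (θ a) (θ c), hθab]
      apply kap_Gr hθ
      intro h
      rw [← hθab]
      exact hsep c (Finset.mem_insert_of_mem hcZ) a (Finset.mem_insert_self _ _)
        (fun h => haZ (h ▸ hcZ)) (h.trans hc.symm)
    have := Gr_mul k2 k3
    rwa [Finset.prod_sdiff hC'] at this
  have k4 : (algebraMap O K (Φ (insert a (B ∪ C)) (insert b (B ∪ (Z \ C))) * D.ef e C) *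
      D.kk K C (Z \ C), D.tv K θ e Φ (insert a B) Z C) ∈ D.Gr K θ := by
    have e1 : insert a B ∪ C = insert a (B ∪ C) := Finset.insert_union _ _ _
    have e2 : insert a B ∪ (Z \ C) = insert a (B ∪ (Z \ C)) := Finset.insert_union _ _ _
    have haN : a ∉ B ∪ (Z \ C) := by
      rw [Finset.mem_union]; rintro (h | h)
      exacts [haB h, haZ (Finset.mem_sdiff.1 h).1]
    have hbN : b ∉ B ∪ (Z \ C) := by
      rw [Finset.mem_union]; rintro (h | h)
      exacts [hbB h, hbZ (Finset.mem_sdiff.1 h).1]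
    have e3 : D.sub θ (Φ (insert a (B ∪ C)) (insert b (B ∪ (Z \ C)))) =
        D.sub θ (Φ (insert a (B ∪ C)) (insert a (B ∪ (Z \ C)))) := by
      have := hM θ (Equiv.swap a b) hs hθs (insert a (B ∪ C)) (insert a (B ∪ (Z \ C)))
      rwa [im_swap_insert haN hbN] at this
    rw [tv, e1, e2, map_mul (D.sub θ), ← e3, ← map_mul (D.sub θ)]
    apply Gr_mul (Gr_alg _ _)
    apply Gr_prod
    intro c hcC
    apply Gr_prod
    intro d hd
    apply kap_Gr hθ
    intro h
    exact hsep c (Finset.mem_insert_of_mem (hC' hcC)) d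
      (Finset.mem_insert_of_mem (Finset.mem_sdiff.1 hd).1)
      (fun h => (Finset.mem_sdiff.1 hd).2 (h ▸ hcC)) h
  exact Gr_mul (Gr_mul (Gr_mul (Gr_alg _ _) (Gr_alg _ _)) k1) k4

theorem RR_Gr {θ : V → V} (hθ : D.CP θ) {a b : V} (hab : a ≠ b)
    (e : Bool) (Φ : Finset V → Finset V → O) {B Z : Finset V}
    (haZ : a ∉ Z) (hbZ : b ∉ Z)
    (hsepa : ∀ c ∈ insert a Z, ∀ d ∈ insert a Z, c ≠ d → D.c c = D.c d → θ c ≠ θ d)
    (hsepb : ∀ c ∈ insert b Z, ∀ d ∈ insert b Z, c ≠ d → D.c c = D.c d → θ c ≠ θ d) :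
    ∃ w, (RR D K e Φ B Z a b, w) ∈ D.Gr K θ := by
  refine ⟨∑ C ∈ Z.powerset, (D.tv K θ e Φ B (insert a (insert b Z)) C +
    D.tv K θ e Φ B (insert a (insert b Z)) (insert a (insert b C))), ?_⟩
  rw [RR]
  apply Gr_sum
  intro C hC
  have hC' := Finset.mem_powerset.1 hC
  apply Gr_add
  · apply tm_Gr hθ
    intro c hcC d hd h
    obtain ⟨hd1, hd2⟩ := Finset.mem_sdiff.1 hd
    have hcd : c ≠ d := fun h => hd2 (h ▸ hcC)
    rcases Finset.mem_insert.1 hd1 with h1 | h1
    · exact hsepa c (Finset.mem_insert_of_mem (hC' hcC)) d (by rw [h1]; simp) hcd h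
    · exact hsepb c (Finset.mem_insert_of_mem (hC' hcC)) d h1 hcd h
  · apply tm_Gr hθ
    intro c hcC d hd h
    obtain ⟨hd1, hd2⟩ := Finset.mem_sdiff.1 hd
    simp only [Finset.mem_insert, not_or] at hd1 hd2 hcC
    have hdZ : d ∈ Z := by
      rcases hd1 with h1 | h1 | h1
      · exact absurd h1 hd2.1
      · exact absurd h1 hd2.2.1
      · exact h1
    rcases hcC with h1 | h1 | h1
    · exact hsepa c (by rw [h1]; simp) d (Finset.mem_insert_of_mem hdZ) (by
        rw [h1]; exact fun h => hd2.1 h.symm) h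
    · exact hsepb c (by rw [h1]; simp) d (Finset.mem_insert_of_mem hdZ) (by
        rw [h1]; exact fun h => hd2.2.1 h.symm) h
    · exact hsepa c (Finset.mem_insert_of_mem (hC' h1)) d (Finset.mem_insert_of_mem hdZ)
        (fun h => hd2.2.2 (h ▸ h1)) h

end Dat

end Run7.h787
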