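import Pool.Agent.Run7.h787.Sets

/-! Product of two operators. -/

open Finset

set_option linter.unusedSectionVars false

namespace Run7.h787

variable {V I O : Type} [Fintype V] [DecidableEq V] [Fintype I] [DecidableEq I] [CommRing O]
  [IsDomain O]

namespace Dat

variable (D : Dat V I O)
variable (K : Type) [Field K] [Algebra O K]

/-- product of two operators, in terms of a function on pairs of subsets;
`B` = intersection, `Z` = symmetric difference -/
noncomputable def X2 (l1 l2 : Bool) (Φ : Finset V → Finset V → O) :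
    AddMonoidAlgebra K (V → ℤ) :=
  ∑ B : Finset V, ∑ Z ∈ Bᶜ.powerset, AddMonoidAlgebra.single (ex l1 B + ex l2 (B ∪ Z))
    (D.wt K l1 B * D.wt K l2 (B ∪ Z) * D.gco K (!l1 && l2) Φ B Z)

theorem gco_add (e : Bool) (Φ Φ' : Finset V → Finset V → O) (B Z : Finset V) :
    D.gco K e (Φ + Φ') B Z = D.gco K e Φ B Z + D.gco K e Φ' B Z := by
  simp only [gco, Pi.add_apply, ← Finset.sum_add_distrib]
  apply Finset.sum_congr rfl
  intro C _
  rw [add_mul, map_add, add_mul]

theorem gco_zero (e : Bool) (B Z : Finset V) :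
    D.gco K e (0 : Finset V → Finset V → O) B Z = 0 := by
  simp only [gco, Pi.zero_apply, zero_mul, map_zero, Finset.sum_const_zero]

theorem gco_neg (e : Bool) (Φ : Finset V → Finset V → O) (B Z : Finset V) :
    D.gco K e (-Φ) B Z = - D.gco K e Φ B Z := by
  simp only [gco, Pi.neg_apply, neg_mul, map_neg, Finset.sum_neg_distrib]

theorem gco_sub (e : Bool) (Φ Φ' : Finset V → Finset V → O) (B Z : Finset V) :
    D.gco K e (Φ - Φ') B Z = D.gco K e Φ B Z - D.gco K e Φ' B Z := by
  rw [sub_eq_add_neg, gco_add, gco_neg, sub_eq_add_neg]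

theorem X2_add (l1 l2 : Bool) (Φ Φ' : Finset V → Finset V → O) :
    D.X2 K l1 l2 (Φ + Φ') = D.X2 K l1 l2 Φ + D.X2 K l1 l2 Φ' := by
  simp only [X2, gco_add, mul_add, AddMonoidAlgebra.single_add, Finset.sum_add_distrib]

theorem X2_zero (l1 l2 : Bool) : D.X2 K l1 l2 (0 : Finset V → Finset V → O) = 0 := by
  simp only [X2, gco_zero, mul_zero, AddMonoidAlgebra.single_zero, Finset.sum_const_zero]

theorem X2_neg (l1 l2 : Bool) (Φ : Finset V → Finset V → O) :
    D.X2 K l1 l2 (-Φ) = - D.X2 K l1 l2 Φ := by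
  have h := D.X2_add K l1 l2 Φ (-Φ)
  rw [add_neg_cancel, X2_zero] at h
  exact (neg_eq_of_add_eq_zero_right h.symm).symm

theorem X2_sub (l1 l2 : Bool) (Φ Φ' : Finset V → Finset V → O) :
    D.X2 K l1 l2 (Φ - Φ') = D.X2 K l1 l2 Φ - D.X2 K l1 l2 Φ' := by
  rw [sub_eq_add_neg, X2_add, X2_neg, sub_eq_add_neg]

namespace ProdAux

/-- product of `eta` over a rectangle -/
noncomputable def H (S T : Finset V) : K := ∏ a ∈ S, ∏ b ∈ T, D.eta K a b

theorem H_left {S S' : Finset V} (T : Finset V) (h : Disjoint S S') :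
    H D K (S ∪ S') T = H D K S T * H D K S' T := Finset.prod_union h

theorem H_right (S : Finset V) {T T' : Finset V} (h : Disjoint T T') :
    H D K S (T ∪ T') = H D K S T * H D K S T' := by
  simp only [H]
  rw [← Finset.prod_mul_distrib]
  exact Finset.prod_congr rfl (fun a _ => Finset.prod_union h)

theorem eps_eq (S : Finset V) : D.eps K S = H D K S Sᶜ := rfl

theorem kk_eq (S T : Finset V) : D.kk K S T = H D K S T * H D K T S := by
  simp only [kk, H, kap]
  rw [Finset.prod_comm (s := T) (t := S), ← Finset.prod_mul_distrib]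
  exact Finset.prod_congr rfl (fun a _ => Finset.prod_mul_distrib)

theorem eps_mul {B C E : Finset V} (h1 : Disjoint B C) (h2 : Disjoint B E) (h3 : Disjoint C E) :
    D.eps K (B ∪ C) * D.eps K (B ∪ E) = D.eps K B * D.eps K (B ∪ (C ∪ E)) * D.kk K C E := by
  set N := (B ∪ (C ∪ E))ᶜ with hN
  have hNB : Disjoint B N := by
    rw [Finset.disjoint_left]; intro a ha; simp [hN, ha]
  have hNC : Disjoint C N := by
    rw [Finset.disjoint_left]; intro a ha; simp [hN, ha]
  have hNE : Disjoint E N := by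
    rw [Finset.disjoint_left]; intro a ha; simp [hN, ha]
  rw [Finset.disjoint_left] at h1 h2 h3
  have e1 : (B ∪ C)ᶜ = E ∪ N := by
    ext a
    have := @h1 a; have := @h2 a; have := @h3 a
    simp only [hN, Finset.mem_compl, Finset.mem_union]
    tauto
  have e2 : (B ∪ E)ᶜ = C ∪ N := by
    ext a
    have := @h1 a; have := @h2 a; have := @h3 a
    simp only [hN, Finset.mem_compl, Finset.mem_union]
    tauto
  have e3 : Bᶜ = (C ∪ E) ∪ N := by
    ext a
    have := @h1 a; have := @h2 a; have := @h3 a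
    simp only [hN, Finset.mem_compl, Finset.mem_union]
    tauto
  rw [← Finset.disjoint_left] at h1 h2 h3
  have hBCE : Disjoint B (C ∪ E) := Finset.disjoint_union_right.2 ⟨h1, h2⟩
  have hCEN : Disjoint (C ∪ E) N := Finset.disjoint_union_left.2 ⟨hNC, hNE⟩
  rw [eps_eq, eps_eq, eps_eq, eps_eq, kk_eq, e1, e2, e3, ← hN,
    H_left D K _ h1, H_left D K _ h2, H_right D K _ hNE, H_right D K _ hNE,
    H_right D K _ hNC, H_right D K _ hNC, H_right D K _ hCEN, H_right D K _ h3,
    H_left D K _ hBCE, H_left D K _ h3]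
  ring

theorem wt_mul (l1 l2 : Bool) (h : l1 = true → l2 = true) {B C E : Finset V}
    (h1 : Disjoint B C) (h2 : Disjoint B E) (h3 : Disjoint C E) :
    D.wt K l1 (B ∪ C) * D.wt K l2 (B ∪ E) =
      D.wt K l1 B * D.wt K l2 (B ∪ (C ∪ E)) * algebraMap O K (D.ef (!l1 && l2) C) *
        D.kk K C E := by
  have hBCE : Disjoint B (C ∪ E) := Finset.disjoint_union_right.2 ⟨h1, h2⟩
  have key := eps_mul D K h1 h2 h3
  have p1 : D.PP (B ∪ C) = D.PP B * D.PP C := Finset.prod_union h1
  have p2 : D.PP (B ∪ E) = D.PP B * D.PP E := Finset.prod_union h2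
  have p3 : D.PP (B ∪ (C ∪ E)) = D.PP B * (D.PP C * D.PP E) := by
    rw [PP, Finset.prod_union hBCE, Finset.prod_union h3]; rfl
  cases l1 <;> cases l2
  · simp only [wt, ef, Bool.not_false, Bool.true_and, Bool.false_eq_true, if_false, map_one,
      mul_one, p1, p2, p3, map_mul]
    linear_combination (algebraMap O K (D.PP B) * algebraMap O K (D.PP C) *
      (algebraMap O K (D.PP B) * algebraMap O K (D.PP E))) * key
  · simp only [wt, ef, Bool.not_false, Bool.true_and, Bool.false_eq_true, if_false, if_true,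
      map_mul, p1]
    linear_combination (algebraMap O K (D.PP B) * algebraMap O K (D.PP C)) * key
  · exact absurd (h rfl) (by simp)
  · simp only [wt, ef, Bool.not_true, Bool.false_and, Bool.false_eq_true, if_false, if_true,
      map_one, mul_one]
    linear_combination key

theorem ex_add (l1 l2 : Bool) {B C E : Finset V}
    (h1 : Disjoint B C) (h2 : Disjoint B E) (h3 : Disjoint C E) :
    ex l1 (B ∪ C) + ex l2 (B ∪ E) = ex l1 B + ex l2 (B ∪ (C ∪ E)) := by
  rw [Finset.disjoint_left] at h1 h2 h3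
  ext a
  have := @h1 a; have := @h2 a; have := @h3 a
  simp only [ex, Pi.add_apply, Finset.mem_union]
  by_cases hB : a ∈ B <;> by_cases hC : a ∈ C <;> by_cases hE : a ∈ E <;> simp_all <;> ring

/-- reindexing of pairs of subsets -/
theorem sum_pairs {M : Type*} [AddCommMonoid M] (F : Finset V → Finset V → M) :
    ∑ S : Finset V, ∑ T : Finset V, F S T =
      ∑ B : Finset V, ∑ Z ∈ Bᶜ.powerset, ∑ C ∈ Z.powerset, F (B ∪ C) (B ∪ (Z \ C)) := by
  rw [← Finset.sum_product', Finset.sum_sigma', Finset.sum_sigma']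
  apply Finset.sum_bij'
    (i := fun (p : Finset V × Finset V) _ =>
      (⟨⟨p.1 ∩ p.2, (p.1 \ p.2) ∪ (p.2 \ p.1)⟩, p.1 \ p.2⟩ :
        (_ : (_ : Finset V) × Finset V) × Finset V))
    (j := fun (q : (_ : (_ : Finset V) × Finset V) × Finset V) _ =>
      (q.1.1 ∪ q.2, q.1.1 ∪ (q.1.2 \ q.2)))
  · rintro ⟨S, T⟩ _
    simp only [Finset.mem_sigma, Finset.mem_univ, true_and, Finset.mem_powerset]
    constructor
    · intro a; simp only [Finset.mem_union, Finset.mem_sdiff, Finset.mem_compl, Finset.mem_inter]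
      tauto
    · exact Finset.subset_union_left
  · rintro ⟨⟨B, Z⟩, C⟩ _
    simp
  · rintro ⟨S, T⟩ _
    simp only [Prod.mk.injEq]
    constructor
    · ext a; simp only [Finset.mem_union, Finset.mem_sdiff, Finset.mem_inter]; tauto
    · ext a; simp only [Finset.mem_union, Finset.mem_sdiff, Finset.mem_inter]; tauto
  · rintro ⟨⟨B, Z⟩, C⟩ h
    simp only [Finset.mem_sigma, Finset.mem_univ, true_and, Finset.mem_powerset] at h
    obtain ⟨hZ, hC⟩ := h
    have h1 : ∀ a, a ∈ Z → a ∉ B := fun a ha => by simpa using hZ ha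
    have h2 : ∀ a, a ∈ C → a ∈ Z := fun a ha => hC ha
    have e1 : (B ∪ C) ∩ (B ∪ Z \ C) = B := by
      ext a
      have := h1 a; have := h2 a
      simp only [Finset.mem_union, Finset.mem_sdiff, Finset.mem_inter]; tauto
    have e2 : (B ∪ C) \ (B ∪ Z \ C) ∪ (B ∪ Z \ C) \ (B ∪ C) = Z := by
      ext a
      have := h1 a; have := h2 a
      simp only [Finset.mem_union, Finset.mem_sdiff]; tauto
    have e3 : (B ∪ C) \ (B ∪ Z \ C) = C := by
      ext a
      have := h1 a; have := h2 a
      simp only [Finset.mem_union, Finset.mem_sdiff]; tauto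
    rw [e1, e2, e3]
  · rintro ⟨S, T⟩ _
    simp only
    congr 1
    · ext a; simp only [Finset.mem_union, Finset.mem_sdiff, Finset.mem_inter]; tauto
    · ext a; simp only [Finset.mem_union, Finset.mem_sdiff, Finset.mem_inter]; tauto

end ProdAux

theorem X_mul_X (l1 l2 : Bool) (h : l1 = true → l2 = true) (f1 f2 : Finset V → O) :
    D.X K l1 f1 * D.X K l2 f2 = D.X2 K l1 l2 (fun S T => f1 S * f2 T) := by
  rw [X, X, Finset.sum_mul_sum, ProdAux.sum_pairs, X2]
  apply Finset.sum_congr rfl
  intro B _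
  apply Finset.sum_congr rfl
  intro Z hZ
  rw [Finset.mem_powerset] at hZ
  rw [gco, Finset.mul_sum]
  rw [← AddMonoidAlgebra.singleAddHom_apply, map_sum]
  apply Finset.sum_congr rfl
  intro C hC
  rw [Finset.mem_powerset] at hC
  have hBZ : Disjoint B Z := by
    rw [Finset.disjoint_left]; intro a ha hz
    have := hZ hz
    simp [ha] at this
  have h1 : Disjoint B C := Finset.disjoint_of_subset_right hC hBZ
  have h2 : Disjoint B (Z \ C) := Finset.disjoint_of_subset_right Finset.sdiff_subset hBZ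
  have h3 : Disjoint C (Z \ C) := Finset.disjoint_sdiff
  have hZe : C ∪ (Z \ C) = Z := Finset.union_sdiff_of_subset hC
  have w := ProdAux.wt_mul D K l1 l2 h h1 h2 h3
  have x := ProdAux.ex_add l1 l2 h1 h2 h3
  rw [hZe] at w x
  rw [AddMonoidAlgebra.single_mul_single, x, AddMonoidAlgebra.singleAddHom_apply]
  congr 1
  rw [map_mul, map_mul]
  linear_combination (algebraMap O K (f1 (B ∪ C)) * algebraMap O K (f2 (B ∪ Z \ C))) * w

end Dat

end Run7.h787
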