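import Pool.Agent.Run7.h787.Quiv
import Pool.Agent.Run7.h787.Pole

/-!
The concrete quiver data satisfy the axioms of `Dat`.
-/

open Finset

set_option linter.unusedSectionVars false
set_option linter.unusedVariables false
set_option linter.unusedSimpArgs false

namespace Run7.h787

namespace QuiverData

variable (Q : QuiverData)

/-- the coordinate `x_a` -/
noncomputable def xx (a : Q.V) : Q.O := Q.mono (Finsupp.single (Sum.inl a) 1)

/-- matter factor times the unit `x_a` (for equal colours) -/
noncomputable def mm (a b : Q.V) : Q.O := Q.matter a b * (if a.1 = b.1 then Q.xx a else 1)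

theorem mono_add (e e' : Q.Ch) : Q.mono (e + e') = Q.mono e * Q.mono e' := by
  simp only [mono]
  rw [AddMonoidAlgebra.single_mul_single, mul_one]

theorem mono_zero : Q.mono 0 = 1 := AddMonoidAlgebra.one_def.symm

theorem mono_neg_mul (e : Q.Ch) : Q.mono (-e) * Q.mono e = 1 := by
  rw [← mono_add, neg_add_cancel, mono_zero]

theorem mono_inj : Function.Injective Q.mono := by
  intro e e' h
  simp only [mono] at h
  have h1 := congrArg (fun z => z.coeff e) h
  simp only [AddMonoidAlgebra.coeff_single] at h1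
  rw [Finsupp.single_eq_same, Finsupp.single_apply] at h1
  split_ifs at h1 with h2
  · exact h2.symm
  · exact absurd h1 one_ne_zero

theorem mono_ne_zero (e : Q.Ch) : Q.mono e ≠ 0 := by
  intro h
  have := mono_neg_mul Q e
  rw [h, mul_zero] at this
  exact zero_ne_one this

theorem sub_single (θ : Q.V → Q.V) (e : Q.Ch) (r : ℂ) :
    Q.sub θ (AddMonoidAlgebra.single e r) =
      AddMonoidAlgebra.single (e.mapDomain (Sum.map θ id)) r := by
  simp [sub]

theorem sub_mono (θ : Q.V → Q.V) (e : Q.Ch) :
    Q.sub θ (Q.mono e) = Q.mono (e.mapDomain (Sum.map θ id)) := by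
  simp only [mono, sub_single]

/-- induction on elements of the ring -/
theorem ind {P : Q.O → Prop} (hadd : ∀ z z', P z → P z' → P (z + z'))
    (hs : ∀ e r, P (AddMonoidAlgebra.single e r)) (z : Q.O) : P z := by
  induction z using AddMonoidAlgebra.induction_linear with
  | zero =>
    have := hs 0 0
    rwa [AddMonoidAlgebra.single_zero] at this
  | add x y hx hy => exact hadd _ _ hx hy
  | single e r => exact hs e r

theorem sub_id (z : Q.O) : Q.sub id z = z := by
  induction z using Q.ind with
  | hadd z z' h h' => rw [map_add, h, h']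
  | hs e r =>
    rw [sub_single]
    simp

theorem sub_comp (θ θ' : Q.V → Q.V) (z : Q.O) : Q.sub (θ ∘ θ') z = Q.sub θ (Q.sub θ' z) := by
  induction z using Q.ind with
  | hadd z z' h h' => rw [map_add, map_add, map_add, h, h']
  | hs e r =>
    rw [sub_single, sub_single, sub_single, ← Finsupp.mapDomain_comp]
    congr 2
    ext a
    cases a <;> rfl

theorem xx_inj : Function.Injective Q.xx := by
  intro a b h
  have h1 := mono_inj Q h
  have h2 := Finsupp.single_left_injective (one_ne_zero) h1
  exact Sum.inl_injective h2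

theorem sub_xx (θ : Q.V → Q.V) (a : Q.V) : Q.sub θ (Q.xx a) = Q.xx (θ a) := by
  rw [xx, xx, sub_mono, Finsupp.mapDomain_single]
  rfl

theorem mono_nsmul (e : Q.Ch) (n : ℕ) : Q.mono (n • e) = Q.mono e ^ n := by
  induction n with
  | zero => rw [zero_smul, pow_zero, mono_zero]
  | succ n ih => rw [succ_nsmul, mono_add, ih, pow_succ]

theorem dvd_mono_sub (a b : Q.V) (k : ℤ) :
    Q.xx a - Q.xx b ∣ Q.mono (Finsupp.single (Sum.inl b) k) -
      Q.mono (Finsupp.single (Sum.inl a) k) := by
  have hs : ∀ (c : Q.V) (n : ℕ), Q.mono (Finsupp.single (Sum.inl c) (n : ℤ)) = Q.xx c ^ n := by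
    intro c n
    rw [xx, ← mono_nsmul]
    congr 1
    rw [Finsupp.smul_single]
    simp
  have hpos : ∀ n : ℕ, Q.xx a - Q.xx b ∣ Q.mono (Finsupp.single (Sum.inl b) (n : ℤ)) -
      Q.mono (Finsupp.single (Sum.inl a) (n : ℤ)) := by
    intro n
    rw [hs, hs, ← dvd_neg, neg_sub]
    exact sub_dvd_pow_sub_pow _ _ n
  rcases Int.le_total 0 k with h | h
  · obtain ⟨n, rfl⟩ := Int.eq_ofNat_of_zero_le h
    exact hpos n
  · obtain ⟨n, hn⟩ := Int.eq_ofNat_of_zero_le (Int.neg_nonneg_of_nonpos h)
    have hk : k = -(n : ℤ) := by omega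
    subst hk
    obtain ⟨q, hq⟩ := hpos n
    refine ⟨- (Q.mono (Finsupp.single (Sum.inl b) (-(n : ℤ))) *
      Q.mono (Finsupp.single (Sum.inl a) (-(n : ℤ))) * q), ?_⟩
    have ha := mono_neg_mul Q (Finsupp.single (Sum.inl a) (n : ℤ))
    have hb := mono_neg_mul Q (Finsupp.single (Sum.inl b) (n : ℤ))
    rw [← Finsupp.single_neg] at ha hb
    generalize Q.mono (Finsupp.single (Sum.inl a) (-(n : ℤ))) = A' at *
    generalize Q.mono (Finsupp.single (Sum.inl b) (-(n : ℤ))) = B' at *
    generalize Q.mono (Finsupp.single (Sum.inl a) (n : ℤ)) = A at *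
    generalize Q.mono (Finsupp.single (Sum.inl b) (n : ℤ)) = B at *
    generalize Q.xx a - Q.xx b = X at *
    -- B' - A' = A' B' (A - B)
    linear_combination (-B') * ha + A' * hb + (-(A' * B')) * hq

theorem dvd_merge (a b : Q.V) (z : Q.O) :
    Q.xx a - Q.xx b ∣ z - Q.sub (Function.update id b a) z := by
  classical
  induction z using Q.ind with
  | hadd z z' h h' =>
    rw [map_add, add_sub_add_comm]
    exact dvd_add h h'
  | hs e r =>
    -- split off the b-component
    set k := e (Sum.inl b) with hk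
    have he : e = e.erase (Sum.inl b) + Finsupp.single (Sum.inl b) k :=
      (Finsupp.erase_add_single _ _).symm
    have h1 : AddMonoidAlgebra.single e r =
        AddMonoidAlgebra.single (e.erase (Sum.inl b)) r *
          Q.mono (Finsupp.single (Sum.inl b) k) := by
      rw [mono, AddMonoidAlgebra.single_mul_single, mul_one, ← he]
    have h2 : Q.sub (Function.update id b a) (AddMonoidAlgebra.single (e.erase (Sum.inl b)) r) =
        AddMonoidAlgebra.single (e.erase (Sum.inl b)) r := by
      rw [sub_single]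
      congr 1
      conv_rhs => rw [← Finsupp.mapDomain_id (v := e.erase (Sum.inl b))]
      apply Finsupp.mapDomain_congr
      intro c hc
      have hcb : c ≠ Sum.inl b := by
        rintro rfl
        rw [Finsupp.support_erase] at hc
        exact absurd hc (Finset.notMem_erase _ _)
      rcases c with c | c
      · have : c ≠ b := fun h => hcb (by rw [h])
        simp [Function.update_apply, this]
      · rfl
    have h3 : Q.sub (Function.update id b a) (Q.mono (Finsupp.single (Sum.inl b) k)) =
        Q.mono (Finsupp.single (Sum.inl a) k) := by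
      rw [sub_mono, Finsupp.mapDomain_single]
      simp
    rw [h1, map_mul, h2, h3, ← mul_sub]
    exact dvd_mul_of_dvd_right (dvd_mono_sub Q a b k) _

theorem one_sub_mono_ne {e : Q.Ch} (he : e ≠ 0) : 1 - Q.mono e ≠ 0 := by
  intro h
  rw [sub_eq_zero, ← mono_zero] at h
  exact he (mono_inj Q h).symm

theorem mm_ne (a b : Q.V) (h : a ≠ b) : Q.mm a b ≠ 0 := by
  classical
  rw [mm]
  apply mul_ne_zero
  · rw [matter, Finset.prod_ne_zero_iff]
    intro e _
    split_ifs
    · rw [arrowWeight]
      apply one_sub_mono_ne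
      intro h0
      have h1 := DFunLike.congr_fun h0 (Sum.inl b)
      simp only [Finsupp.coe_sub, Finsupp.coe_add, Pi.sub_apply, Pi.add_apply,
        Finsupp.coe_zero, Pi.zero_apply] at h1
      rw [Finsupp.mapDomain_of_notMem_range _ _ (by simp), Finsupp.single_eq_same,
        Finsupp.single_apply, if_neg (fun h' => h (Sum.inl_injective h'))] at h1
      norm_num at h1
    · exact one_ne_zero
  · split_ifs
    · exact mono_ne_zero Q _
    · exact one_ne_zero

theorem mm_diag (hl : ∀ e, Q.src e = Q.tgt e → Q.chi e ≠ 0) (a : Q.V) : Q.mm a a ≠ 0 := by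
  rw [mm]
  apply mul_ne_zero
  · rw [matter, Finset.prod_ne_zero_iff]
    intro e _
    split_ifs with h
    · rw [arrowWeight]
      apply one_sub_mono_ne
      rw [add_sub_cancel_right]
      intro h0
      apply hl e (h.1.trans h.2.symm)
      have h1 : Function.Injective (Finsupp.mapDomain (Sum.inr : Q.T → Q.V ⊕ Q.T) :
        (Q.T →₀ ℤ) → _) := Finsupp.mapDomain_injective Sum.inr_injective
      apply h1
      rw [h0, Finsupp.mapDomain_zero]
    · exact one_ne_zero
  · split_ifs
    · exact mono_ne_zero Q _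
    · exact one_ne_zero

theorem sub_arrowWeight (θ : Q.V → Q.V) (χ : Q.T →₀ ℤ) (a b : Q.V) :
    Q.sub θ (Q.arrowWeight χ a b) = Q.arrowWeight χ (θ a) (θ b) := by
  rw [arrowWeight, arrowWeight, sub_mono]
  congr 1
  rw [sub_eq_add_neg, sub_eq_add_neg, Finsupp.mapDomain_add, Finsupp.mapDomain_add,
    ← Finsupp.single_neg, ← Finsupp.single_neg, Finsupp.mapDomain_single,
    Finsupp.mapDomain_single, ← Finsupp.mapDomain_comp]
  rfl

theorem sub_frameWeight (θ : Q.V → Q.V) (χ : Q.T →₀ ℤ) (a : Q.V) :
    Q.sub θ (Q.frameWeight χ a) = Q.frameWeight χ (θ a) := by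
  rw [frameWeight, frameWeight, sub_mono]
  congr 1
  rw [sub_eq_add_neg, sub_eq_add_neg, Finsupp.mapDomain_add,
    ← Finsupp.single_neg, ← Finsupp.single_neg, Finsupp.mapDomain_single,
    ← Finsupp.mapDomain_comp]
  rfl

theorem sub_mm (θ : Q.V → Q.V) (hθ : ∀ a, (θ a).1 = a.1) (a b : Q.V) :
    Q.sub θ (Q.mm a b) = Q.mm (θ a) (θ b) := by
  rw [mm, mm, map_mul, matter, matter, map_prod]
  congr 1
  · apply Finset.prod_congr rfl
    intro e _
    rw [hθ, hθ]
    split_ifs
    · rw [map_sub, map_one, sub_arrowWeight]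
    · exact map_one _
  · rw [hθ, hθ]
    split_ifs
    · exact sub_xx Q θ a
    · exact map_one _

theorem framing_ne (a : Q.V) : Q.framing a ≠ 0 := by
  rw [framing, Finset.prod_ne_zero_iff]
  intro l _
  rw [frameWeight]
  apply one_sub_mono_ne
  intro h0
  have h1 := DFunLike.congr_fun h0 (Sum.inl a)
  simp only [Finsupp.coe_sub, Pi.sub_apply, Finsupp.coe_zero, Pi.zero_apply] at h1
  rw [Finsupp.mapDomain_of_notMem_range _ _ (by simp), Finsupp.single_eq_same] at h1
  norm_num at h1

theorem sub_framing (θ : Q.V → Q.V) (hθ : ∀ a, (θ a).1 = a.1) (a : Q.V) :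
    Q.sub θ (Q.framing a) = Q.framing (θ a) := by
  have key : ∀ (i j : Q.I) (h : i = j) (c : Q.V),
      ∏ l : Fin (Q.w i), (1 - Q.frameWeight (Q.psi i l) c) =
        ∏ l : Fin (Q.w j), (1 - Q.frameWeight (Q.psi j l) c) := by
    intro i j h c; subst h; rfl
  rw [framing, framing, map_prod, key _ _ (hθ a)]
  apply Finset.prod_congr rfl
  intro l _
  rw [map_sub, map_one, sub_frameWeight]

theorem gen (z : Q.O) : z ∈ AddSubgroup.closure {u : Q.O | ∃ (k : Q.O) (f : Q.V → Q.O),
    (∀ θ, Q.sub θ k = k) ∧ (∀ a θ θ', θ a = θ' a → Q.sub θ (f a) = Q.sub θ' (f a)) ∧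
      u = k * ∏ a, f a} := by
  induction z using Q.ind with
  | hadd z z' h h' => exact add_mem h h'
  | hs e r =>
    apply AddSubgroup.subset_closure
    refine ⟨AddMonoidAlgebra.single (∑ j : Q.T, Finsupp.single (Sum.inr j) (e (Sum.inr j))) r,
      fun a => Q.mono (Finsupp.single (Sum.inl a) (e (Sum.inl a))), ?_, ?_, ?_⟩
    · intro θ
      rw [sub_single]
      congr 1
      rw [Finsupp.mapDomain_finsetSum]
      apply Finset.sum_congr rfl
      intro j _
      rw [Finsupp.mapDomain_single]
      rfl
    · intro a θ θ' h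
      rw [sub_mono, sub_mono, Finsupp.mapDomain_single, Finsupp.mapDomain_single]
      simp only [Sum.map_inl, h]
    · have hprod : ∀ s : Finset Q.V,
          ∏ a ∈ s, Q.mono (Finsupp.single (Sum.inl a) (e (Sum.inl a))) =
          Q.mono (∑ a ∈ s, Finsupp.single (Sum.inl a) (e (Sum.inl a))) := by
        intro s
        classical
        induction s using Finset.induction_on with
        | empty => simp only [Finset.prod_empty, Finset.sum_empty, mono_zero]
        | insert a s ha ih => rw [Finset.prod_insert ha, Finset.sum_insert ha, mono_add, ih]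
      rw [hprod, mono, AddMonoidAlgebra.single_mul_single, mul_one]
      congr 1
      conv_lhs => rw [← Finsupp.univ_sum_single e]
      rw [Fintype.sum_sum_type, add_comm]

/-- the abstract data of a quiver gauge theory -/
noncomputable def toDat : Dat Q.V Q.I Q.O where
  c := Sigma.fst
  sub := fun θ => Q.sub θ
  sub_id := Q.sub_id
  sub_comp := Q.sub_comp
  x := Q.xx
  x_inj := Q.xx_inj
  sub_x := Q.sub_xx
  dvd_merge := Q.dvd_merge
  m := Q.mm
  m_ne := Q.mm_ne
  sub_m := Q.sub_mm
  P := Q.framing
  P_ne := Q.framing_ne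
  sub_P := Q.sub_framing
  gen := Q.gen

/-- matter over root factor -/
theorem eta_eq (K : Type) [Field K] [Algebra Q.O K] [IsFractionRing Q.O K] (a b : Q.V)
    (h : a ≠ b) :
    Q.toDat.eta K a b = algebraMap Q.O K (Q.matter a b) / algebraMap Q.O K (Q.root a b) := by
  have e1 : Q.toDat.m a b = Q.matter a b * (if a.1 = b.1 then Q.xx a else 1) := rfl
  have e2 : Q.toDat.dd a b = (if a.1 = b.1 then Q.xx a - Q.xx b else 1) := rfl
  rw [Dat.eta, e1, e2, root]
  split_ifs with h1
  · have e3 : Q.xx a - Q.xx b = Q.xx a * (1 - Q.arrowWeight 0 a b) := by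
      rw [mul_sub, mul_one]
      congr 1
      rw [arrowWeight, xx, xx, ← mono_add, Finsupp.mapDomain_zero, zero_add,
        add_sub_cancel]
    rw [e3, map_mul, map_mul]
    have h2 : algebraMap Q.O K (Q.xx a) ≠ 0 := Dat.alg_ne K (mono_ne_zero Q _)
    rw [mul_comm (algebraMap Q.O K (Q.xx a)), mul_div_mul_right _ _ h2]
  · rw [mul_one]

end QuiverData

end Run7.h787
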