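import Pool.Agent.Run7.h787.Data

/-!
Auxiliary definitions over the group algebra: coordinate functions, weights, specialisation.
-/

open Finset

namespace Run7.h787

namespace QuiverData

variable (Q : QuiverData)

/-- index set of the coordinates of the maximal torus `T_v` of `G_v` -/
abbrev V : Type := (i : Q.I) × Fin (Q.v i)

/-- characters of `T_v × F` -/
abbrev Ch : Type := (Q.V ⊕ Q.T) →₀ ℤ

/-- coordinate ring of `T_v × F` -/
abbrev O : Type := AddMonoidAlgebra ℂ Q.Ch

/-- the function on `T_v × F` given by a character -/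
noncomputable def mono (e : Q.Ch) : Q.O := AddMonoidAlgebra.single e 1

/-- substitution `x_a ↦ x_{θ a}` -/
noncomputable def sub (θ : Q.V → Q.V) : Q.O →+* Q.O :=
  AddMonoidAlgebra.mapDomainRingHom ℂ (Finsupp.mapDomain.addMonoidHom (Sum.map θ id))

/-- the weight `t^χ x_b / x_a` of `Hom(V_i, V_j)`, `a ∈ V_i`, `b ∈ V_j` -/
noncomputable def arrowWeight (χ : Q.T →₀ ℤ) (a b : Q.V) : Q.O :=
  Q.mono (χ.mapDomain Sum.inr + Finsupp.single (Sum.inl b) 1 - Finsupp.single (Sum.inl a) 1)

/-- the weight `t^χ / x_a` of `Hom(V_i, W_i)`, `a ∈ V_i` -/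
noncomputable def frameWeight (χ : Q.T →₀ ℤ) (a : Q.V) : Q.O :=
  Q.mono (χ.mapDomain Sum.inr - Finsupp.single (Sum.inl a) 1)

/-- product of `1 - weight` over the weights `t^χ x_b / x_a` of the arrows -/
noncomputable def matter (a b : Q.V) : Q.O :=
  ∏ e : Q.E, if Q.src e = a.1 ∧ Q.tgt e = b.1 then 1 - Q.arrowWeight (Q.chi e) a b else 1

/-- product of `1 - weight` over the weights `t^χ / x_a` of the framing -/
noncomputable def framing (a : Q.V) : Q.O :=
  ∏ l : Fin (Q.w a.1), (1 - Q.frameWeight (Q.psi a.1 l) a)

/-- `1 - x_b / x_a` for a root `x_b / x_a` of `G_v`, and `1` for `a, b` over different vertices -/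
noncomputable def root (a b : Q.V) : Q.O :=
  if a.1 = b.1 then 1 - Q.arrowWeight 0 a b else 1

/-- restriction of characters to the original torus -/
noncomputable def restrict : Q.enlarge.Ch →+ Q.Ch :=
  Finsupp.comapDomain.addMonoidHom (f := Sum.map id Sum.inl)
    (Function.injective_id.sumMap Sum.inl_injective)

/-- restriction of functions to the original torus: the extra flavour parameters are set to one -/
noncomputable def special : Q.enlarge.O →+* Q.O :=
  AddMonoidAlgebra.mapDomainRingHom ℂ Q.restrict

end QuiverData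

end Run7.h787
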