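import Pool.Agent.Run7.h787.Act

/-! Basic facts on images of subsets under permutations. -/

open Finset

set_option linter.unusedSectionVars false

namespace Run7.h787

variable {V I O : Type} [Fintype V] [DecidableEq V] [DecidableEq I] [CommRing O]

namespace Dat

theorem mem_im {σ : Equiv.Perm V} {S : Finset V} {a : V} : a ∈ im σ S ↔ σ.symm a ∈ S := by
  simp only [im, Finset.mem_map_equiv]

theorem im_mem_iff {σ : Equiv.Perm V} {S : Finset V} {a : V} : σ a ∈ im σ S ↔ a ∈ S := by
  simp [mem_im]

theorem im_union (σ : Equiv.Perm V) (S T : Finset V) : im σ (S ∪ T) = im σ S ∪ im σ T := by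
  ext a; simp [mem_im]

theorem im_sdiff (σ : Equiv.Perm V) (S T : Finset V) : im σ (S \ T) = im σ S \ im σ T := by
  ext a; simp [mem_im]

theorem im_compl (σ : Equiv.Perm V) (S : Finset V) : im σ Sᶜ = (im σ S)ᶜ := by
  ext a; simp [mem_im]

theorem im_univ (σ : Equiv.Perm V) : im σ (univ : Finset V) = univ := by
  ext a; simp [mem_im]

theorem im_empty (σ : Equiv.Perm V) : im σ (∅ : Finset V) = ∅ := by
  ext a; simp [mem_im]

theorem im_insert (σ : Equiv.Perm V) (a : V) (S : Finset V) :
    im σ (insert a S) = insert (σ a) (im σ S) := by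
  ext b
  simp only [mem_im, Finset.mem_insert, Equiv.symm_apply_eq]

theorem im_subset {σ : Equiv.Perm V} {S T : Finset V} : im σ S ⊆ im σ T ↔ S ⊆ T := by
  simp [im]

theorem im_inj (σ : Equiv.Perm V) : Function.Injective (im σ) := by
  intro S T h
  exact Finset.map_injective _ h

theorem im_symm_im (σ : Equiv.Perm V) (S : Finset V) : im σ.symm (im σ S) = S := by
  ext a; simp [mem_im]

theorem im_im_symm (σ : Equiv.Perm V) (S : Finset V) : im σ (im σ.symm S) = S := by
  ext a; simp [mem_im]

theorem im_mul (σ τ : Equiv.Perm V) (S : Finset V) : im (σ * τ) S = im σ (im τ S) := by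
  ext a; simp only [mem_im]; rfl

/-- image as an equivalence on subsets -/
def imE (σ : Equiv.Perm V) : Finset V ≃ Finset V where
  toFun := im σ
  invFun := im σ.symm
  left_inv := im_symm_im σ
  right_inv := im_im_symm σ

theorem sum_im {M : Type*} [AddCommMonoid M] (σ : Equiv.Perm V) (F : Finset V → M) :
    ∑ S : Finset V, F (im σ S) = ∑ S : Finset V, F S :=
  Fintype.sum_equiv (imE σ) _ _ (fun _ => rfl)

theorem sum_powerset_im {M : Type*} [AddCommMonoid M] (σ : Equiv.Perm V) (Z : Finset V)
    (F : Finset V → M) :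
    ∑ C ∈ (im σ Z).powerset, F C = ∑ C ∈ Z.powerset, F (im σ C) := by
  symm
  apply Finset.sum_bij (fun C _ => im σ C)
  · intro C hC
    rw [Finset.mem_powerset] at *
    exact im_subset.2 hC
  · intro C _ C' _ h
    exact im_inj σ h
  · intro C hC
    refine ⟨im σ.symm C, ?_, im_im_symm σ C⟩
    rw [Finset.mem_powerset] at *
    rw [← im_symm_im σ Z]
    exact im_subset.2 hC
  · intro C _; rfl

theorem prod_im {M : Type*} [CommMonoid M] (σ : Equiv.Perm V) (S : Finset V) (F : V → M) :
    ∏ a ∈ im σ S, F a = ∏ a ∈ S, F (σ a) := by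
  simp [im, Finset.prod_map]

theorem im_swap_of_not_mem {a b : V} {S : Finset V} (ha : a ∉ S) (hb : b ∉ S) :
    im (Equiv.swap a b) S = S := by
  ext v
  rw [mem_im, Equiv.symm_swap]
  rcases eq_or_ne v a with rfl | hva
  · rw [Equiv.swap_apply_left]; simp [ha, hb]
  · rcases eq_or_ne v b with rfl | hvb
    · rw [Equiv.swap_apply_right]; simp [ha, hb]
    · rw [Equiv.swap_apply_of_ne_of_ne hva hvb]

theorem im_swap_of_mem {a b : V} {S : Finset V} (ha : a ∈ S) (hb : b ∈ S) :
    im (Equiv.swap a b) S = S := by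
  ext v
  rw [mem_im, Equiv.symm_swap]
  rcases eq_or_ne v a with rfl | hva
  · rw [Equiv.swap_apply_left]; simp [ha, hb]
  · rcases eq_or_ne v b with rfl | hvb
    · rw [Equiv.swap_apply_right]; simp [ha, hb]
    · rw [Equiv.swap_apply_of_ne_of_ne hva hvb]

theorem im_swap_insert {a b : V} {S : Finset V} (ha : a ∉ S) (hb : b ∉ S) :
    im (Equiv.swap a b) (insert a S) = insert b S := by
  rw [im_insert, im_swap_of_not_mem ha hb, Equiv.swap_apply_left]

variable (D : Dat V I O)

theorem CP_swap {a b : V} (h : D.c a = D.c b) : D.CP (Equiv.swap a b) := by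
  intro v
  rcases eq_or_ne v a with rfl | hva
  · rw [Equiv.swap_apply_left]; exact h.symm
  · rcases eq_or_ne v b with rfl | hvb
    · rw [Equiv.swap_apply_right]; exact h
    · rw [Equiv.swap_apply_of_ne_of_ne hva hvb]

theorem CP_mg {a b : V} (h : D.c a = D.c b) : D.CP (mg a b) := by
  intro v
  simp only [mg, Function.update_apply, id]
  split_ifs with h1
  · rw [h, h1]
  · rfl

theorem dim_im {σ : Equiv.Perm V} (hσ : D.CP σ) (S : Finset V) : D.dim (im σ S) = D.dim S := by
  ext i
  simp only [dim, im]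
  rw [Finset.filter_map, Finset.card_map]
  congr 1
  apply Finset.filter_congr
  intro a _
  simp [hσ a]

theorem dim_union {S T : Finset V} (h : Disjoint S T) : D.dim (S ∪ T) = D.dim S + D.dim T := by
  ext i
  simp only [dim, Pi.add_apply]
  rw [Finset.filter_union, Finset.card_union_of_disjoint]
  exact Finset.disjoint_filter_filter h

theorem dim_mono {S T : Finset V} (h : S ⊆ T) : D.dim S ≤ D.dim T := by
  intro i
  exact Finset.card_le_card (Finset.filter_subset_filter _ h)

theorem dim_empty : D.dim (∅ : Finset V) = 0 := by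
  ext i; simp [dim]

theorem dim_le_univ (S : Finset V) : D.dim S ≤ D.dim univ := D.dim_mono (Finset.subset_univ S)

theorem dim_compl (S : Finset V) : D.dim S + D.dim Sᶜ = D.dim univ := by
  rw [← D.dim_union disjoint_compl_right, Finset.union_compl]

theorem eq_empty_of_dim {S : Finset V} (h : D.dim S = 0) : S = ∅ := by
  by_contra hne
  obtain ⟨a, ha⟩ := Finset.nonempty_iff_ne_empty.2 hne
  have h1 : D.dim S (D.c a) = 0 := by rw [h]; rfl
  simp only [dim, Finset.card_eq_zero] at h1
  have : a ∈ S.filter (fun b => D.c b = D.c a) := by simp [ha]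
  rw [h1] at this
  simp at this

theorem eq_of_subset_of_dim {S T : Finset V} (h : S ⊆ T) (hd : D.dim S = D.dim T) : S = T := by
  have h1 : T = S ∪ (T \ S) := by rw [Finset.union_sdiff_of_subset h]
  have h2 : D.dim T = D.dim S + D.dim (T \ S) := by
    conv_lhs => rw [h1]
    exact D.dim_union Finset.disjoint_sdiff
  have h3 : D.dim (T \ S) = 0 := by
    rw [hd] at h2
    exact (left_eq_add.1 h2)
  have h4 := D.eq_empty_of_dim h3
  rw [h4, Finset.union_empty] at h1
  exact h1.symm

theorem eq_univ_of_dim {S : Finset V} (h : D.dim S = D.dim univ) : S = univ :=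
  D.eq_of_subset_of_dim (Finset.subset_univ S) h

end Dat

end Run7.h787
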