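import Pool.Agent.Run7.h787.Fin1

/-! Specialisation of the flavour parameters. -/

open Finset

set_option linter.unusedSectionVars false
set_option linter.unusedVariables false
set_option linter.unusedSimpArgs false

namespace Run7.h787

variable {V I O O' : Type} [Fintype V] [DecidableEq V] [Fintype I] [DecidableEq I]
  [CommRing O] [IsDomain O] [Algebra ℚ O] [CommRing O'] [IsDomain O'] [Algebra ℚ O']

/-- specialisation data -/
structure SpecData (D' : Dat V I O') (D : Dat V I O) where
  pi : O' →+* O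
  io : O →+* O'
  pi_io : ∀ z, pi (io z) = z
  hc : ∀ a, D'.c a = D.c a
  pi_x : ∀ a, pi (D'.x a) = D.x a
  pi_sub : ∀ θ z, pi (D'.sub θ z) = D.sub θ (pi z)
  io_sub : ∀ θ z, io (D.sub θ z) = D'.sub θ (io z)
  pi_m : ∀ a b, pi (D'.m a b) = D.m a b
  pi_P : ∀ a, pi (D'.P a) = D.P a

namespace SpecData

variable {D' : Dat V I O'} {D : Dat V I O} (s : SpecData D' D)
variable (K' K : Type) [Field K'] [Algebra O' K'] [IsFractionRing O' K']
  [Field K] [Algebra O K] [IsFractionRing O K]

/-- pairs (element, specialisation) -/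
def Sp : Subring (K' × K) where
  carrier := {p | ∃ n d : O', s.pi d ≠ 0 ∧ p.1 * algebraMap O' K' d = algebraMap O' K' n ∧
    p.2 * algebraMap O K (s.pi d) = algebraMap O K (s.pi n)}
  mul_mem' := by
    rintro ⟨z, w⟩ ⟨z', w'⟩ ⟨n, d, h0, h1, h2⟩ ⟨n', d', h0', h1', h2'⟩
    refine ⟨n * n', d * d', ?_, ?_, ?_⟩
    · rw [map_mul]; exact mul_ne_zero h0 h0'
    · simp only [Prod.fst_mul, map_mul] at *
      rw [← h1, ← h1']; ring
    · simp only [Prod.snd_mul, map_mul] at *
      rw [← h2, ← h2']; ring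
  one_mem' := ⟨1, 1, by simp, by simp, by simp⟩
  add_mem' := by
    rintro ⟨z, w⟩ ⟨z', w'⟩ ⟨n, d, h0, h1, h2⟩ ⟨n', d', h0', h1', h2'⟩
    refine ⟨n * d' + n' * d, d * d', ?_, ?_, ?_⟩
    · rw [map_mul]; exact mul_ne_zero h0 h0'
    · simp only [Prod.fst_add, map_mul, map_add] at *
      rw [← h1, ← h1']; ring
    · simp only [Prod.snd_add, map_mul, map_add] at *
      rw [← h2, ← h2']; ring
  zero_mem' := ⟨0, 1, by simp, by simp, by simp⟩
  neg_mem' := by
    rintro ⟨z, w⟩ ⟨n, d, h0, h1, h2⟩
    refine ⟨-n, d, h0, ?_, ?_⟩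
    · simp only [Prod.fst_neg, map_neg] at *
      rw [← h1]; ring
    · simp only [Prod.snd_neg, map_neg] at *
      rw [← h2]; ring

variable {K' K}
variable {s}

theorem Sp_alg (n : O') :
    (algebraMap O' K' n, algebraMap O K (s.pi n)) ∈ s.Sp K' K :=
  ⟨n, 1, by simp, by simp, by simp⟩

theorem Sp_unique {z : K'} {w w' : K} (h : (z, w) ∈ s.Sp K' K) (h' : (z, w') ∈ s.Sp K' K) :
    w = w' := by
  obtain ⟨n, d, h0, h1, h2⟩ := h
  obtain ⟨n', d', h0', h1', h2'⟩ := h'
  simp only at *
  have e : n * d' = n' * d := by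
    apply IsFractionRing.injective O' K'
    rw [map_mul, map_mul, ← h1, ← h1']; ring
  have e2 := congrArg (algebraMap O K) (congrArg s.pi e)
  simp only [map_mul] at e2
  rw [← h2, ← h2'] at e2
  have a0 := Dat.alg_ne K h0
  have a0' := Dat.alg_ne K h0'
  have : (w - w') * (algebraMap O K (s.pi d) * algebraMap O K (s.pi d')) = 0 := by
    linear_combination e2
  rcases mul_eq_zero.1 this with h | h
  · exact sub_eq_zero.1 h
  · exact absurd h (mul_ne_zero a0 a0')

theorem Sp_inv {z : K'} {w : K} (h : (z, w) ∈ s.Sp K' K) (hw : w ≠ 0) :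
    (z⁻¹, w⁻¹) ∈ s.Sp K' K := by
  obtain ⟨n, d, h0, h1, h2⟩ := h
  simp only at *
  have a0 := Dat.alg_ne K h0
  have hn : s.pi n ≠ 0 := by
    intro h
    rw [h, map_zero] at h2
    exact (mul_ne_zero hw a0) h2
  have hz : z ≠ 0 := by
    intro hz
    rw [hz, zero_mul] at h1
    have : n = 0 := IsFractionRing.injective O' K' (by rw [← h1, map_zero])
    exact hn (by rw [this, map_zero])
  refine ⟨d, n, hn, ?_, ?_⟩
  · simp only; rw [← h1]; field_simp
  · simp only; rw [← h2]; field_simp

theorem Sp_sum {ι : Type*} (t : Finset ι) (f : ι → K') (g : ι → K)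
    (h : ∀ i ∈ t, (f i, g i) ∈ s.Sp K' K) : (∑ i ∈ t, f i, ∑ i ∈ t, g i) ∈ s.Sp K' K := by
  have := Subring.sum_mem (s.Sp K' K) (t := t) (f := fun i => (f i, g i)) h
  convert this using 1
  ext <;> simp [Prod.fst_sum, Prod.snd_sum]

theorem Sp_prod {ι : Type*} (t : Finset ι) (f : ι → K') (g : ι → K)
    (h : ∀ i ∈ t, (f i, g i) ∈ s.Sp K' K) : (∏ i ∈ t, f i, ∏ i ∈ t, g i) ∈ s.Sp K' K := by
  have := Subring.prod_mem (s.Sp K' K) (t := t) (f := fun i => (f i, g i)) h
  convert this using 1
  ext <;> simp [Prod.fst_prod, Prod.snd_prod]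

theorem Sp_mul {z z' : K'} {w w' : K} (h : (z, w) ∈ s.Sp K' K) (h' : (z', w') ∈ s.Sp K' K) :
    (z * z', w * w') ∈ s.Sp K' K := mul_mem h h'

theorem pi_dd (a b : V) : s.pi (D'.dd a b) = D.dd a b := by
  simp only [Dat.dd, s.hc]
  split_ifs
  · rw [map_sub, s.pi_x, s.pi_x]
  · exact map_one _

theorem Sp_eta {a b : V} (h : a ≠ b) : (D'.eta K' a b, D.eta K a b) ∈ s.Sp K' K := by
  have h0 : s.pi (D'.dd a b) ≠ 0 := by rw [pi_dd]; exact Dat.dd_ne (fun _ => h)
  have h1 : D'.dd a b ≠ 0 := Dat.dd_ne (fun _ => h)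
  refine ⟨D'.m a b, D'.dd a b, h0, ?_, ?_⟩
  · simp only [Dat.eta]
    exact div_mul_cancel₀ _ (Dat.alg_ne K' h1)
  · simp only [Dat.eta]
    rw [s.pi_m, pi_dd]
    rw [pi_dd] at h0
    exact div_mul_cancel₀ _ (Dat.alg_ne K h0)

theorem Sp_kap {a b : V} (h : a ≠ b) : (D'.kap K' a b, D.kap K a b) ∈ s.Sp K' K :=
  Sp_mul (Sp_eta h) (Sp_eta h.symm)

theorem Sp_kk {C Z : Finset V} (h : Disjoint C Z) : (D'.kk K' C Z, D.kk K C Z) ∈ s.Sp K' K := by
  apply Sp_prod
  intro a ha
  apply Sp_prod
  intro b hb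
  exact Sp_kap (fun hab => Finset.disjoint_left.1 h ha (hab ▸ hb))

theorem pi_PP (C : Finset V) : s.pi (D'.PP C) = D.PP C := by
  simp only [Dat.PP, map_prod, s.pi_P]

theorem pi_ef (e : Bool) (C : Finset V) : s.pi (D'.ef e C) = D.ef e C := by
  cases e
  · simp [Dat.ef]
  · simp [Dat.ef, pi_PP]

theorem Sp_eps (S : Finset V) : (D'.eps K' S, D.eps K S) ∈ s.Sp K' K := by
  apply Sp_prod
  intro a ha
  apply Sp_prod
  intro b hb
  exact Sp_eta (fun hab => (Finset.mem_compl.1 hb) (hab ▸ ha))

theorem Sp_wt (l : Bool) (S : Finset V) : (D'.wt K' l S, D.wt K l S) ∈ s.Sp K' K := by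
  simp only [Dat.wt]
  apply Sp_mul _ (Sp_eps S)
  cases l
  · simp only [Bool.false_eq_true, if_false]
    rw [← pi_PP (s := s)]
    exact Sp_alg _
  · simp only [if_true]
    exact one_mem _

theorem Sp_gco (e : Bool) (Φ' : Finset V → Finset V → O') (B Z : Finset V) :
    (D'.gco K' e Φ' B Z, D.gco K e (fun S T => s.pi (Φ' S T)) B Z) ∈ s.Sp K' K := by
  apply Sp_sum
  intro C _
  apply Sp_mul
  · have := Sp_alg (s := s) (K' := K') (K := K) (Φ' (B ∪ C) (B ∪ (Z \ C)) * D'.ef e C)
    rwa [map_mul s.pi, pi_ef] at this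
  · exact Sp_kk Finset.disjoint_sdiff

theorem coeff_X2_Sp (l1 l2 : Bool) (Φ' : Finset V → Finset V → O') (μ : V → ℤ) :
    ((D'.X2 K' l1 l2 Φ').coeff μ,
      (D.X2 K l1 l2 (fun S T => s.pi (Φ' S T))).coeff μ) ∈ s.Sp K' K := by
  classical
  simp only [Dat.X2]
  rw [AddMonoidAlgebra.coeff_sum, Finset.sum_apply', AddMonoidAlgebra.coeff_sum,
    Finset.sum_apply']
  apply Sp_sum
  intro B _
  rw [AddMonoidAlgebra.coeff_sum, Finset.sum_apply', AddMonoidAlgebra.coeff_sum,
    Finset.sum_apply']
  apply Sp_sum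
  intro Z _
  rw [AddMonoidAlgebra.coeff_single, AddMonoidAlgebra.coeff_single, Finsupp.single_apply,
    Finsupp.single_apply]
  split_ifs
  · exact Sp_mul (Sp_mul (Sp_wt _ _) (Sp_wt _ _)) (Sp_gco _ _ _ _)
  · exact zero_mem _

theorem dim_eq (s : SpecData D' D) (S : Finset V) : D'.dim S = D.dim S := by
  ext i
  simp only [Dat.dim, s.hc]

theorem CP_iff (s : SpecData D' D) (θ : V → V) : D'.CP θ ↔ D.CP θ := by
  simp only [Dat.CP, s.hc]

theorem Eqv_pi {f : Finset V → O'} (hf : D'.Eqv f) : D.Eqv (fun S => s.pi (f S)) := by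
  intro σ hσ S
  simp only
  rw [← s.pi_sub, hf σ ((CP_iff s _).2 hσ)]

theorem EqvD_pi {d : I → ℕ} {f : Finset V → O'} (hf : D'.EqvD d f) :
    D.EqvD d (fun S => s.pi (f S)) := by
  refine ⟨Eqv_pi hf.1, ?_⟩
  intro S hS
  simp only
  rw [hf.2 S (by rw [dim_eq s]; exact hS), map_zero]

theorem Eqv_io {f : Finset V → O} (hf : D.Eqv f) : D'.Eqv (fun S => s.io (f S)) := by
  intro σ hσ S
  simp only
  rw [← s.io_sub, hf σ ((CP_iff s _).1 hσ)]

theorem EqvD_io {d : I → ℕ} {f : Finset V → O} (hf : D.EqvD d f) :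
    D'.EqvD d (fun S => s.io (f S)) := by
  refine ⟨Eqv_io hf.1, ?_⟩
  intro S hS
  simp only
  rw [hf.2 S (by rw [← dim_eq s]; exact hS), map_zero]

/-- specialisation of `MM` -/
theorem MM_spec {x' : AddMonoidAlgebra K' (V → ℤ)} (hx : x' ∈ D'.MM K') :
    ∃ x ∈ D.MM K, ∀ μ, (x'.coeff μ, x.coeff μ) ∈ s.Sp K' K := by
  rw [Dat.MM] at hx
  induction hx using Submodule.iSup_induction' with
  | mem q x hx =>
    obtain ⟨⟨q1, q2⟩, hq⟩ := q
    simp only at hx hq
    rw [Dat.G, Dat.G, Submodule.span_mul_span] at hx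
    induction hx using Submodule.span_induction with
    | mem x hx =>
      obtain ⟨_, ⟨f, hf, rfl⟩, _, ⟨g, hg, rfl⟩, rfl⟩ := hx
      refine ⟨D.X K false (fun S => s.pi (f S)) * D.X K true (fun S => s.pi (g S)), ?_, ?_⟩
      · refine Submodule.mem_iSup_of_mem ⟨(q1, q2), ?_⟩
          (Submodule.mul_mem_mul (Submodule.subset_span ⟨_, EqvD_pi hf, rfl⟩)
            (Submodule.subset_span ⟨_, EqvD_pi hg, rfl⟩))
        rw [← dim_eq s]
        exact hq
      · intro μ
        simp only
        rw [D'.X_mul_X K' false true (fun h => absurd h (by simp)),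
          D.X_mul_X K false true (fun h => absurd h (by simp))]
        have := coeff_X2_Sp (s := s) (K' := K') (K := K) false true (fun S T => f S * g T) μ
        simp only [map_mul] at this
        exact this
    | zero => exact ⟨0, zero_mem _, fun μ => zero_mem _⟩
    | add x y _ _ h h' =>
      obtain ⟨a, ha, ha'⟩ := h
      obtain ⟨b, hb, hb'⟩ := h'
      exact ⟨a + b, add_mem ha hb, fun μ => add_mem (ha' μ) (hb' μ)⟩
    | smul n x _ h =>
      obtain ⟨a, ha, ha'⟩ := h
      exact ⟨n • a, (D.MM K).smul_mem n ha, fun μ => zsmul_mem (ha' μ) n⟩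
  | zero => exact ⟨0, zero_mem _, fun μ => zero_mem _⟩
  | add x y _ _ h h' =>
    obtain ⟨a, ha, ha'⟩ := h
    obtain ⟨b, hb, hb'⟩ := h'
    exact ⟨a + b, add_mem ha hb, fun μ => add_mem (ha' μ) (hb' μ)⟩

theorem MM_spec_single {p' : O'}
    (hp : AddMonoidAlgebra.single 0 (algebraMap O' K' p') ∈ D'.MM K') :
    AddMonoidAlgebra.single 0 (algebraMap O K (s.pi p')) ∈ D.MM K := by
  classical
  obtain ⟨x, hx, hx'⟩ := MM_spec (s := s) (K := K) hp
  have : x = AddMonoidAlgebra.single 0 (algebraMap O K (s.pi p')) := by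
    ext μ
    apply Sp_unique (hx' μ)
    rw [AddMonoidAlgebra.coeff_single, AddMonoidAlgebra.coeff_single, Finsupp.single_apply,
      Finsupp.single_apply]
    split_ifs
    · exact Sp_alg _
    · exact zero_mem _
  rw [← this]; exact hx

/-- interpolation inside the kernel of the specialisation -/
theorem exists_T2_ker (g : Finset V → Finset V → O') (hg : D'.Eqv2 g)
    (hk : ∀ S T, s.pi (g S T) = 0) (q1 q2 : I → ℕ) :
    ∃ Φ ∈ D'.T2 q1 q2, (∀ B A, B ⊆ A → D'.dim B = q1 → D'.dim A = q2 → Φ B A = g B A) ∧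
      ∀ S T, s.pi (Φ S T) = 0 := by
  classical
  -- we use the explicit coefficients
  let K0 := FractionRing O'
  let K1 := FractionRing O
  have hint := fun (j : {j // j ∈ Dat.InterpAux.JJ D'}) (S : Finset V) =>
    Dat.InterpAux.zz_int D' K0 q1 hg j.1 S
  choose n hn using hint
  have hpi : ∀ j S, s.pi (n j S) = 0 := by
    intro j S
    have h1 : (Dat.InterpAux.zz D' K0 q1 g j.1 S, (0 : K1)) ∈ s.Sp K0 K1 := by
      have h0 : (0 : K1) = ∑ L ∈ S.powerset with D'.dim L = q1,
          (algebraMap O K1 (s.pi (Dat.InterpAux.tau D' j.1 (S \ L))) *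
            (algebraMap O K1 (s.pi (Dat.InterpAux.Pi2 D' L (S \ L))))⁻¹ *
              algebraMap O K1 (s.pi (g L S))) := by
        symm
        apply Finset.sum_eq_zero
        intro L _
        rw [hk, map_zero, mul_zero]
      rw [h0, Dat.InterpAux.zz]
      apply Sp_sum
      intro L _
      apply Sp_mul _ (Sp_alg _)
      rw [Dat.InterpAux.cj, div_eq_mul_inv]
      apply Sp_mul (Sp_alg _)
      apply Sp_inv (Sp_alg _)
      apply Dat.alg_ne
      rw [Dat.InterpAux.Pi2, map_prod, Finset.prod_ne_zero_iff]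
      intro a ha
      rw [map_prod, Finset.prod_ne_zero_iff]
      intro b hb
      rw [pi_dd]
      exact Dat.dd_ne (fun _ hab => (Finset.mem_sdiff.1 hb).2 (hab ▸ ha))
    rw [hn j S] at h1
    have h2 := Sp_unique h1 (Sp_alg _)
    apply IsFractionRing.injective O K1
    rw [← h2, map_zero]
  refine ⟨fun S T => ∑ j : {j // j ∈ Dat.InterpAux.JJ D'},
    (if D'.dim S = q1 then (Dat.InterpAux.MT D' S).coeff j.1 else 0) *
      (if D'.dim T = q2 then n j T else 0), ?_, ?_, ?_⟩
  · apply Dat.T2_sum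
    · intro j
      refine ⟨?_, ?_⟩
      · intro σ hσ S
        simp only
        rw [D'.dim_im hσ]
        split_ifs
        · rw [← Dat.InterpAux.map_MT D' hσ, MvPolynomial.coeff_map]
        · exact map_zero _
      · intro S hS
        simp only
        rw [if_neg hS]
    · intro j
      refine ⟨?_, ?_⟩
      · intro σ hσ S
        simp only
        rw [D'.dim_im hσ]
        split_ifs
        · apply IsFractionRing.injective O' K0
          rw [← Dat.act_alg, ← hn, ← hn, Dat.InterpAux.act_zz D' K0 hσ q1 hg]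
        · exact map_zero _
      · intro S hS
        simp only
        rw [if_neg hS]
  · intro T S hTS hT hS
    simp only [if_pos hS, if_pos hT]
    apply IsFractionRing.injective O' K0
    rw [map_sum]
    have h1 : ∀ j : {j // j ∈ Dat.InterpAux.JJ D'},
        algebraMap O' K0 ((Dat.InterpAux.MT D' T).coeff j.1 * n j S) =
        ∑ L ∈ S.powerset with D'.dim L = q1,
          (algebraMap O' K0 ((Dat.InterpAux.MT D' T).coeff j.1 *
            Dat.InterpAux.tau D' j.1 (S \ L))) *
            (algebraMap O' K0 (g L S) / algebraMap O' K0 (Dat.InterpAux.Pi2 D' L (S \ L))) := by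
      intro j
      rw [map_mul, ← hn, Dat.InterpAux.zz, Finset.mul_sum]
      apply Finset.sum_congr rfl
      intro L _
      rw [Dat.InterpAux.cj, map_mul]
      ring
    rw [Finset.sum_congr rfl (fun j _ => h1 j), Finset.sum_comm]
    have h2 : ∀ L ∈ S.powerset.filter (fun L => D'.dim L = q1),
        ∑ j : {j // j ∈ Dat.InterpAux.JJ D'}, (algebraMap O' K0
          ((Dat.InterpAux.MT D' T).coeff j.1 * Dat.InterpAux.tau D' j.1 (S \ L))) *
            (algebraMap O' K0 (g L S) / algebraMap O' K0 (Dat.InterpAux.Pi2 D' L (S \ L))) =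
        if L = T then algebraMap O' K0 (g T S) else 0 := by
      intro L hL
      rw [Finset.mem_filter, Finset.mem_powerset] at hL
      rw [← Finset.sum_mul, ← map_sum]
      have h3 : ∑ j : {j // j ∈ Dat.InterpAux.JJ D'}, (Dat.InterpAux.MT D' T).coeff j.1 *
          Dat.InterpAux.tau D' j.1 (S \ L) = Dat.InterpAux.Pi2 D' T (S \ L) := by
        rw [← Dat.InterpAux.expand, ← Finset.sum_coe_sort (Dat.InterpAux.JJ D')]
      rw [h3]
      split_ifs with h
      · subst h
        have hne : algebraMap O' K0 (Dat.InterpAux.Pi2 D' L (S \ L)) ≠ 0 :=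
          Dat.alg_ne K0 (Dat.InterpAux.Pi2_ne D' Finset.disjoint_sdiff)
        rw [← mul_div_assoc]
        exact mul_div_cancel_left₀ _ hne
      · have : ∃ a ∈ T, a ∉ L := by
          by_contra hcon
          push Not at hcon
          exact h (D'.eq_of_subset_of_dim hcon (by rw [hT, hL.2])).symm
        obtain ⟨a, haT, haL⟩ := this
        rw [Dat.InterpAux.Pi2_eq_zero D' haT (Finset.mem_sdiff.2 ⟨hTS haT, haL⟩), map_zero,
          zero_mul]
    rw [Finset.sum_congr rfl h2, Finset.sum_ite_eq']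
    rw [if_pos]
    rw [Finset.mem_filter, Finset.mem_powerset]
    exact ⟨hTS, hT⟩
  · intro S T
    simp only [map_sum, map_mul]
    apply Finset.sum_eq_zero
    intro j _
    split_ifs <;> simp [hpi]

theorem lift_aux (p : O) (k : ℕ) :
    ∀ Φ : Finset V → Finset V → O', D'.Eqv2 Φ → D'.Mg Φ →
    (∀ S T, Φ S T ≠ 0 → D'.dim S + D'.dim T = D'.dim univ) →
    (∀ B Z, Disjoint B Z → D'.gco K' true Φ B Z ≠ 0 → B.card ≤ k) →
    (∀ B Z, Disjoint B Z → B ≠ ∅ → (D'.gco K' true Φ B Z, (0 : K)) ∈ s.Sp K' K) →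
    (D'.gco K' true Φ ∅ univ, algebraMap O K p) ∈ s.Sp K' K →
    D'.X2 K' false true Φ ∈ D'.MM K' →
    ∃ p' : O', s.pi p' = p ∧ AddMonoidAlgebra.single 0 (algebraMap O' K' p') ∈ D'.MM K' := by
  classical
  induction k with
  | zero =>
    intro Φ hE hM hs hk h0 hp hX
    have hv : ∀ B Z, Disjoint B Z → B ≠ ∅ → D'.gco K' true Φ B Z = 0 := by
      intro B Z hd hB
      by_contra h
      have := hk B Z hd h
      exact hB (Finset.card_eq_zero.1 (by omega))
    obtain ⟨p', hp'⟩ := D'.gco_int K' true Φ hE hM ∅ univ (Finset.disjoint_empty_left _) (by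
      intro a _ b _ hab _
      apply hv
      · rw [Finset.disjoint_left]
        intro v hv
        simp only [Finset.mem_insert, Finset.notMem_empty, or_false] at hv
        subst hv
        simp
      · simp)
    refine ⟨p', ?_, ?_⟩
    · rw [hp'] at hp
      have := Sp_unique hp (Sp_alg _)
      exact (IsFractionRing.injective O K this).symm
    · have : D'.X2 K' false true Φ = AddMonoidAlgebra.single 0 (algebraMap O' K' p') := by
        rw [Dat.X2, Finset.sum_eq_single ∅, Finset.sum_eq_single univ]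
        · rw [Finset.empty_union, Dat.ex_trivial, Dat.wt_false_empty, Dat.wt_true_univ, one_mul,
            one_mul]
          simp only [Bool.not_false, Bool.true_and]
          rw [hp']
        · intro Z _ hZ
          have h0 : D'.gco K' (!false && true) Φ ∅ Z = 0 := by
            by_contra h
            have := Dat.gco_ne_dim (Finset.disjoint_empty_left Z) _ hs h
            rw [D'.dim_empty, zero_add, Finset.empty_union] at this
            exact hZ (D'.eq_univ_of_dim this)
          rw [h0, mul_zero, AddMonoidAlgebra.single_zero]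
        · intro h
          exfalso
          apply h
          simp
        · intro B _ hB
          apply Finset.sum_eq_zero
          intro Z hZ
          have hd : Disjoint B Z := by
            rw [Finset.disjoint_left]; intro a ha hz
            have := Finset.mem_powerset.1 hZ hz
            simp [ha] at this
          have h0 : D'.gco K' (!false && true) Φ B Z = 0 := hv B Z hd hB
          rw [h0, mul_zero, AddMonoidAlgebra.single_zero]
        · intro h
          exact absurd (Finset.mem_univ _) h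
      rw [← this]; exact hX
  | succ k ih =>
    intro Φ hE hM hs hk h0 hp hX
    have hk0 : ∀ B Z, Disjoint B Z → k + 1 < B.card → D'.gco K' true Φ B Z = 0 := by
      intro B Z hd hc
      by_contra h
      have := (hk B Z hd h)
      omega
    obtain ⟨g0, hg0, hgv0⟩ := Dat.exists_g (K := K') true Φ hE hM (k + 1) hk0
    -- cut off `g0` to nested pairs with `B` of size `k + 1`
    set g : Finset V → Finset V → O' := fun B A =>
      if B.card = k + 1 ∧ B ⊆ A then g0 B A else 0 with hgdef
    have hg : D'.Eqv2 g := by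
      intro σ hσ B A
      simp only [hgdef]
      have h1 : (Dat.im σ B).card = B.card := by simp [Dat.im]
      simp only [h1, Dat.im_subset]
      split_ifs
      · exact hg0 σ hσ B A
      · exact map_zero _
    have hgv : ∀ B Z, Disjoint B Z → B.card = k + 1 →
        D'.gco K' true Φ B Z = algebraMap O' K' (g B (B ∪ Z)) := by
      intro B Z hd hB
      simp only [hgdef]
      rw [if_pos ⟨hB, Finset.subset_union_left⟩]
      exact hgv0 B Z hd hB
    have hgk : ∀ B A, s.pi (g B A) = 0 := by
      intro B A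
      simp only [hgdef]
      split_ifs with h
      · have hd : Disjoint B (A \ B) := Finset.disjoint_sdiff
        have h1 := h0 B (A \ B) hd (by
          rintro rfl
          simp at h)
        rw [hgv0 B (A \ B) hd h.1, Finset.union_sdiff_of_subset h.2] at h1
        have h2 := Sp_unique h1 (Sp_alg _)
        apply IsFractionRing.injective O K
        rw [← h2, map_zero]
      · exact map_zero _
    set Q : Finset (I → ℕ) := (univ.filter (fun B : Finset V => B.card = k + 1)).image D'.dim
      with hQ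
    have hQmem : ∀ q ∈ Q, q + (D'.dim univ - q) = D'.dim univ ∧ ∑ i, q i = k + 1 := by
      intro q hq
      rw [hQ, Finset.mem_image] at hq
      obtain ⟨B, hB, rfl⟩ := hq
      rw [Finset.mem_filter] at hB
      refine ⟨?_, by rw [← Dat.card_eq_sum_dim]; exact hB.2⟩
      rw [add_tsub_cancel_of_le (D'.dim_le_univ B)]
    have hex : ∀ q : I → ℕ, ∃ Ψ ∈ D'.T2 q (D'.dim univ - q),
        (∀ B A, B ⊆ A → D'.dim B = q → D'.dim A = D'.dim univ - q → Ψ B A = g B A) ∧
        ∀ S T, s.pi (Ψ S T) = 0 := fun q => exists_T2_ker g hg hgk q _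
    choose Ψ hΨ hΨv hΨk using hex
    set Φ' : Finset V → Finset V → O' := ∑ q ∈ Q, Ψ q with hΦ'
    obtain ⟨hE', hM', hsupp'⟩ := Dat.sum_T2 (D := D') (P := Q) (r := fun q => D'.dim univ - q)
      (fun q _ => hΨ q)
    rw [← hΦ'] at hE' hM' hsupp'
    have hcardS : ∀ S T, Φ' S T ≠ 0 → S.card = k + 1 := by
      intro S T h
      rw [Dat.card_eq_sum_dim (D := D')]
      exact (hQmem _ (hsupp' S T h).1).2
    have hgco' : ∀ B Z, Disjoint B Z → k + 1 ≤ B.card → D'.gco K' true Φ' B Z =
        algebraMap O' K' (Φ' B (B ∪ Z)) := by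
      intro B Z hd hk1
      apply Dat.gco_nested hd
      intro S T hST
      by_contra h
      have := hcardS S T h
      omega
    have hval : ∀ B A, B ⊆ A → B.card = k + 1 → D'.dim B + D'.dim A = D'.dim univ →
        Φ' B A = g B A := by
      intro B A hBA hB ht
      have hBQ : D'.dim B ∈ Q := by
        rw [hQ, Finset.mem_image]
        exact ⟨B, by rw [Finset.mem_filter]; exact ⟨Finset.mem_univ _, hB⟩, rfl⟩
      rw [hΦ', Finset.sum_apply, Finset.sum_apply, Finset.sum_eq_single (D'.dim B)]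
      · apply hΨv _ B A hBA rfl
        rw [← ht]; exact (add_tsub_cancel_left _ _).symm
      · intro q hq hne
        exact Dat.T2_supp (hΨ q) B A (fun h => hne h.1.symm)
      · intro h; exact absurd hBQ h
    have hkerΦ' : ∀ S T, s.pi (Φ' S T) = 0 := by
      intro S T
      rw [hΦ', Finset.sum_apply, Finset.sum_apply, map_sum]
      exact Finset.sum_eq_zero (fun q _ => hΨk q S T)
    have hSp' : ∀ B Z, (D'.gco K' true Φ' B Z, (0 : K)) ∈ s.Sp K' K := by
      intro B Z
      have h1 := Sp_gco (s := s) (K' := K') (K := K) true Φ' B Z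
      have h2 : (fun S T => s.pi (Φ' S T)) = (0 : Finset V → Finset V → O) := by
        ext S T; exact hkerΦ' S T
      rw [h2, Dat.gco_zero] at h1
      exact h1
    apply ih (Φ - Φ')
    · rw [sub_eq_add_neg]; exact Dat.Eqv2_add hE (Dat.Eqv2_neg hE')
    · rw [sub_eq_add_neg]; exact Dat.Mg_add hM (Dat.Mg_neg hM')
    · intro S T h
      by_cases h1 : Φ S T = 0
      · have : Φ' S T ≠ 0 := by
          intro h2; apply h; simp only [Pi.sub_apply, h1, h2, sub_zero]
        have h3 := hsupp' S T this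
        rw [h3.2]
        exact (hQmem _ h3.1).1
      · exact hs S T h1
    · intro B Z hd h
      rw [Dat.gco_sub] at h
      by_contra hcon
      rcases Nat.lt_or_ge B.card (k + 2) with hlt | hge
      · have heq : B.card = k + 1 := by omega
        apply h
        rw [hgco' B Z hd heq.ge]
        by_cases h1 : D'.gco K' true Φ B Z = 0
        · rw [h1, zero_sub, neg_eq_zero]
          by_cases h2 : Φ' B (B ∪ Z) = 0
          · rw [h2, map_zero]
          · have h3 := hsupp' _ _ h2
            have h4 := hval B (B ∪ Z) Finset.subset_union_left heq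
              (by rw [h3.2]; exact (hQmem _ h3.1).1)
            rw [h4, ← hgv B Z hd heq, h1]
        · have h3 := Dat.gco_ne_dim hd _ hs h1
          rw [hval B (B ∪ Z) Finset.subset_union_left heq h3, ← hgv B Z hd heq, sub_self]
      · apply h
        rw [hk0 B Z hd (by omega), hgco' B Z hd (by omega)]
        have : Φ' B (B ∪ Z) = 0 := by
          by_contra h2
          have := hcardS _ _ h2
          omega
        rw [this, map_zero, sub_zero]
    · intro B Z hd hB
      rw [Dat.gco_sub]
      have := sub_mem (h0 B Z hd hB) (hSp' B Z)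
      simpa using this
    · rw [Dat.gco_sub]
      have := sub_mem hp (hSp' ∅ univ)
      simpa using this
    · rw [Dat.X2_sub]
      apply sub_mem hX
      rw [hΦ', Dat.sum_X2]
      apply sum_mem
      intro q hq
      refine Submodule.mem_iSup_of_mem ⟨(q, D'.dim univ - q), ?_⟩
        (Dat.T2_X2 K' false true (fun h => absurd h (by simp)) (hΨ q))
      rintro ⟨h1, _⟩
      have := (hQmem q hq).2
      simp only at h1
      rw [h1] at this
      simp at this

end SpecData

end Run7.h787
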