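import Pool.Agent.Run7.h787.Interp

/-! Straightening of products of two operators. -/

open Finset

set_option linter.unusedSectionVars false
set_option linter.unusedVariables false
set_option linter.unusedSimpArgs false

namespace Run7.h787

variable {V I O : Type} [Fintype V] [DecidableEq V] [Fintype I] [DecidableEq I] [CommRing O]
  [IsDomain O] [Algebra ℚ O]

namespace Dat

variable (D : Dat V I O)
variable (K : Type) [Field K] [Algebra O K] [IsFractionRing O K]

/-- admissible steps: replacing neighbouring dimension vectors `(d1,d2)` by `(q1,q2)` -/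
def Step (d1 d2 q1 q2 : I → ℕ) : Prop :=
  q1 + q2 = d1 + d2 ∧ q1 ≤ d1 ∧ q1 ≤ d2 ∧ q1 ≠ d1 ∧ q2 ≤ D.dim univ

variable {D}

theorem Eqv2_zero : D.Eqv2 (0 : Finset V → Finset V → O) := by
  intro σ _ S T; simp

theorem Eqv2_add {Φ Φ' : Finset V → Finset V → O} (h : D.Eqv2 Φ) (h' : D.Eqv2 Φ') :
    D.Eqv2 (Φ + Φ') := by
  intro σ hσ S T
  simp only [Pi.add_apply, map_add, h σ hσ, h' σ hσ]

theorem Eqv2_neg {Φ : Finset V → Finset V → O} (h : D.Eqv2 Φ) : D.Eqv2 (-Φ) := by
  intro σ hσ S T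
  simp only [Pi.neg_apply, map_neg, h σ hσ]

theorem Mg_zero : D.Mg (0 : Finset V → Finset V → O) := by
  intro θ σ _ _ S T; simp

theorem Mg_add {Φ Φ' : Finset V → Finset V → O} (h : D.Mg Φ) (h' : D.Mg Φ') :
    D.Mg (Φ + Φ') := by
  intro θ σ hσ hθ S T
  simp only [Pi.add_apply, map_add, h θ σ hσ hθ, h' θ σ hσ hθ]

theorem Mg_neg {Φ : Finset V → Finset V → O} (h : D.Mg Φ) : D.Mg (-Φ) := by
  intro θ σ hσ hθ S T
  simp only [Pi.neg_apply, map_neg, h θ σ hσ hθ]

theorem Eqv2_mul {f1 f2 : Finset V → O} (h1 : D.Eqv f1) (h2 : D.Eqv f2) :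
    D.Eqv2 (fun S T => f1 S * f2 T) := by
  intro σ hσ S T
  simp only [map_mul, h1 σ hσ, h2 σ hσ]

theorem Mg_mul {f1 f2 : Finset V → O} (h2 : D.Eqv f2) :
    D.Mg (fun S T => f1 S * f2 T) := by
  intro θ σ hσ hθ S T
  simp only [map_mul]
  rw [← h2 σ hσ, ← D.sub_comp, hθ]

theorem T2_Eqv2 {d1 d2 : I → ℕ} {Φ : Finset V → Finset V → O} (h : Φ ∈ D.T2 d1 d2) :
    D.Eqv2 Φ := by
  induction h using AddSubgroup.closure_induction with
  | mem Φ h =>
    obtain ⟨f1, f2, h1, h2, rfl⟩ := h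
    exact Eqv2_mul h1.1 h2.1
  | zero => exact Eqv2_zero
  | add _ _ _ _ h h' => exact Eqv2_add h h'
  | neg _ _ h => exact Eqv2_neg h

theorem T2_Mg {d1 d2 : I → ℕ} {Φ : Finset V → Finset V → O} (h : Φ ∈ D.T2 d1 d2) :
    D.Mg Φ := by
  induction h using AddSubgroup.closure_induction with
  | mem Φ h =>
    obtain ⟨f1, f2, h1, h2, rfl⟩ := h
    exact Mg_mul h2.1
  | zero => exact Mg_zero
  | add _ _ _ _ h h' => exact Mg_add h h'
  | neg _ _ h => exact Mg_neg h

theorem T2_supp {d1 d2 : I → ℕ} {Φ : Finset V → Finset V → O} (h : Φ ∈ D.T2 d1 d2) :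
    ∀ S T, ¬ (D.dim S = d1 ∧ D.dim T = d2) → Φ S T = 0 := by
  induction h using AddSubgroup.closure_induction with
  | mem Φ h =>
    obtain ⟨f1, f2, h1, h2, rfl⟩ := h
    intro S T hST
    simp only
    by_cases h : D.dim S = d1
    · rw [h2.2 T (fun h' => hST ⟨h, h'⟩), mul_zero]
    · rw [h1.2 S h, zero_mul]
  | zero => intro S T _; rfl
  | add _ _ _ _ h h' => intro S T hST; simp only [Pi.add_apply, h S T hST, h' S T hST, add_zero]
  | neg _ _ h => intro S T hST; simp only [Pi.neg_apply, h S T hST, neg_zero]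

theorem T2_X2 {d1 d2 : I → ℕ} (l1 l2 : Bool) (hl : l1 = true → l2 = true)
    {Φ : Finset V → Finset V → O} (h : Φ ∈ D.T2 d1 d2) :
    D.X2 K l1 l2 Φ ∈ D.G K l1 d1 * D.G K l2 d2 := by
  induction h using AddSubgroup.closure_induction with
  | mem Φ h =>
    obtain ⟨f1, f2, h1, h2, rfl⟩ := h
    rw [← D.X_mul_X K l1 l2 hl]
    exact Submodule.mul_mem_mul (Submodule.subset_span ⟨f1, h1, rfl⟩)
      (Submodule.subset_span ⟨f2, h2, rfl⟩)
  | zero => rw [X2_zero]; exact zero_mem _
  | add _ _ _ _ h h' => rw [X2_add]; exact add_mem h h'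
  | neg _ _ h => rw [X2_neg]; exact neg_mem h

theorem T2_sum {d1 d2 : I → ℕ} {J : Type} [Fintype J] (f g : J → Finset V → O)
    (hf : ∀ j, D.EqvD d1 (f j)) (hg : ∀ j, D.EqvD d2 (g j)) :
    (fun S T => ∑ j, f j S * g j T) ∈ D.T2 d1 d2 := by
  have : (fun S T => ∑ j, f j S * g j T) =
      ∑ j, (fun (S T : Finset V) => f j S * g j T) := by
    ext S T; simp only [Finset.sum_apply]
  rw [this]
  apply sum_mem
  intro j _
  exact AddSubgroup.subset_closure ⟨f j, g j, hf j, hg j, rfl⟩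

theorem exists_T2 (g : Finset V → Finset V → O) (hg : D.Eqv2 g) (q1 q2 : I → ℕ) :
    ∃ Φ ∈ D.T2 q1 q2, ∀ B A, B ⊆ A → D.dim B = q1 → D.dim A = q2 → Φ B A = g B A := by
  obtain ⟨J, _, sg, cj, hsg, h⟩ := D.interp (FractionRing O) q1
  obtain ⟨Gj, hG, _, h3⟩ := h q2 g hg
  exact ⟨_, T2_sum sg Gj hsg hG, fun B A hBA hB hA => h3 A B hBA hB hA⟩

variable {K}

theorem card_eq_sum_dim (S : Finset V) : S.card = ∑ i, D.dim S i := by
  simp only [dim]
  exact Finset.card_eq_sum_card_fiberwise (fun a _ => Finset.mem_univ (D.c a))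

theorem gco_nested {e : Bool} {Φ : Finset V → Finset V → O} {B Z : Finset V} (hd : Disjoint B Z)
    (h : ∀ S T, B.card < S.card → Φ S T = 0) :
    D.gco K e Φ B Z = algebraMap O K (Φ B (B ∪ Z)) := by
  rw [gco, Finset.sum_eq_single ∅]
  · simp [ef, PP, kk]
  · intro C hC hne
    rw [Finset.mem_powerset] at hC
    have hdC : Disjoint B C := Finset.disjoint_of_subset_right hC hd
    rw [h (B ∪ C) _ (by
      rw [Finset.card_union_of_disjoint hdC]
      have := Finset.card_pos.2 (Finset.nonempty_iff_ne_empty.2 hne)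
      omega), zero_mul, map_zero, zero_mul]
  · intro h; exact absurd (Finset.empty_mem_powerset _) h

theorem gco_ne {e : Bool} {Φ : Finset V → Finset V → O} {B Z : Finset V}
    (h : D.gco K e Φ B Z ≠ 0) : ∃ C ⊆ Z, Φ (B ∪ C) (B ∪ (Z \ C)) ≠ 0 := by
  by_contra hcon
  push Not at hcon
  apply h
  rw [gco]
  apply Finset.sum_eq_zero
  intro C hC
  rw [hcon C (Finset.mem_powerset.1 hC), zero_mul, map_zero, zero_mul]

theorem gco_ne_dim {e : Bool} {Φ : Finset V → Finset V → O} {B Z : Finset V}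
    (hd : Disjoint B Z) (t : I → ℕ) (hs : ∀ S T, Φ S T ≠ 0 → D.dim S + D.dim T = t)
    (h : D.gco K e Φ B Z ≠ 0) : D.dim B + D.dim (B ∪ Z) = t := by
  obtain ⟨C, hC, hne⟩ := gco_ne h
  have h1 := hs _ _ hne
  have hdC : Disjoint B C := Finset.disjoint_of_subset_right hC hd
  have hdE : Disjoint B (Z \ C) := Finset.disjoint_of_subset_right Finset.sdiff_subset hd
  have hCE : Disjoint C (Z \ C) := Finset.disjoint_sdiff
  have hZ : D.dim Z = D.dim C + D.dim (Z \ C) := by
    rw [← D.dim_union hCE, Finset.union_sdiff_of_subset hC]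
  rw [D.dim_union hdC, D.dim_union hdE] at h1
  rw [D.dim_union hd, hZ, ← h1]
  abel

/-- the next function in the elimination procedure: the values of the coefficient function on
subsets `B` with `k` elements -/
theorem exists_g (e : Bool) (Φ : Finset V → Finset V → O) (hE : D.Eqv2 Φ) (hM : D.Mg Φ) (k : ℕ)
    (hk : ∀ B Z, Disjoint B Z → k < B.card → D.gco K e Φ B Z = 0) :
    ∃ g : Finset V → Finset V → O, D.Eqv2 g ∧
      ∀ B Z, Disjoint B Z → B.card = k → D.gco K e Φ B Z = algebraMap O K (g B (B ∪ Z)) := by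
  classical
  have h1 : ∀ B A : Finset V, ∃ n : O, B.card = k → D.gco K e Φ B (A \ B) = algebraMap O K n := by
    intro B A
    by_cases hB : B.card = k
    · have hd : Disjoint B (A \ B) := Finset.disjoint_sdiff
      obtain ⟨n, hn⟩ := D.gco_int K e Φ hE hM B (A \ B) hd (by
        intro a ha b hb hab hc
        have haB : a ∉ B := fun h => Finset.disjoint_left.1 hd h ha
        apply hk
        · rw [Finset.disjoint_insert_left]
          constructor
          · simp
          · exact Finset.disjoint_of_subset_right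
              ((Finset.erase_subset _ _).trans (Finset.erase_subset _ _)) hd
        · rw [Finset.card_insert_of_notMem haB]; omega)
      exact ⟨n, fun _ => hn⟩
    · exact ⟨0, fun h => absurd h hB⟩
  choose n hn using h1
  refine ⟨fun B A => if B.card = k then n B A else 0, ?_, ?_⟩
  · intro σ hσ B A
    simp only
    have hcard : (im σ B).card = B.card := by simp [im]
    rw [hcard]
    split_ifs with h
    · apply IsFractionRing.injective O K
      rw [← act_alg, ← hn B A h, ← hn (im σ B) (im σ A) (hcard.trans h), act_gco hσ e hE,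
        im_sdiff]
    · exact map_zero _
  · intro B Z hd hB
    simp only
    rw [if_pos hB, ← hn B (B ∪ Z) hB]
    congr 1
    rw [Finset.union_sdiff_cancel_left hd]

variable (K)

theorem straighten_aux (l1 l2 : Bool) (hl : l1 = true → l2 = true) (t : I → ℕ)
    (DD : (I → ℕ) → Prop) (hDD : ∀ q q', q' ≤ q → DD q → DD q') (k : ℕ) :
    ∀ Φ : Finset V → Finset V → O, D.Eqv2 Φ → D.Mg Φ →
    (∀ S T, Φ S T ≠ 0 → D.dim S + D.dim T = t) →
    (∀ B Z, Disjoint B Z → D.gco K (!l1 && l2) Φ B Z ≠ 0 → DD (D.dim B) ∧ B.card < k) →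
    D.X2 K l1 l2 Φ ∈ ⨆ q : {q : (I → ℕ) × (I → ℕ) // q.1 + q.2 = t ∧ DD q.1 ∧
      q.2 ≤ D.dim univ}, D.G K l1 q.1.1 * D.G K l2 q.1.2 := by
  classical
  induction k with
  | zero =>
    intro Φ hE hM hs hk
    have : D.X2 K l1 l2 Φ = 0 := by
      rw [X2]
      apply Finset.sum_eq_zero
      intro B _
      apply Finset.sum_eq_zero
      intro Z hZ
      have hd : Disjoint B Z := by
        rw [Finset.disjoint_left]; intro a ha hz
        have := Finset.mem_powerset.1 hZ hz
        simp [ha] at this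
      have : D.gco K (!l1 && l2) Φ B Z = 0 := by
        by_contra h
        exact absurd (hk B Z hd h).2 (by omega)
      rw [this, mul_zero, AddMonoidAlgebra.single_zero]
    rw [this]; exact zero_mem _
  | succ k ih =>
    intro Φ hE hM hs hk
    have hk0 : ∀ B Z, Disjoint B Z → k < B.card → D.gco K (!l1 && l2) Φ B Z = 0 := by
      intro B Z hd hc
      by_contra h
      have := (hk B Z hd h).2
      omega
    obtain ⟨g, hg, hgv⟩ := exists_g (K := K) _ Φ hE hM k hk0
    -- correction terms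
    set Q : Finset (I → ℕ) := (univ.filter (fun B : Finset V => B.card = k ∧ DD (D.dim B) ∧
      ∃ A, D.dim B + D.dim A = t)).image D.dim with hQ
    have hex : ∀ q : I → ℕ, ∃ Ψ ∈ D.T2 q (t - q), ∀ B A, B ⊆ A → D.dim B = q →
        D.dim A = t - q → Ψ B A = g B A := fun q => exists_T2 g hg q (t - q)
    choose Ψ hΨ hΨv using hex
    set Φ' : Finset V → Finset V → O := ∑ q ∈ Q, Ψ q with hΦ'
    have hQmem : ∀ q ∈ Q, DD q ∧ q + (t - q) = t ∧ t - q ≤ D.dim univ ∧ ∑ i, q i = k := by
      intro q hq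
      rw [hQ, Finset.mem_image] at hq
      obtain ⟨B, hB, rfl⟩ := hq
      rw [Finset.mem_filter] at hB
      obtain ⟨_, hB1, hB2, A, hA⟩ := hB
      have : t - D.dim B = D.dim A := by rw [← hA]; exact add_tsub_cancel_left _ _
      rw [this]
      exact ⟨hB2, hA, D.dim_le_univ A, by rw [← card_eq_sum_dim]; exact hB1⟩
    have hEsum : ∀ P : Finset (I → ℕ), D.Eqv2 (∑ q ∈ P, Ψ q) ∧ D.Mg (∑ q ∈ P, Ψ q) := by
      intro P
      induction P using Finset.induction_on with
      | empty => simp only [Finset.sum_empty]; exact ⟨Eqv2_zero, Mg_zero⟩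
      | insert q P hq ihP =>
        rw [Finset.sum_insert hq]
        exact ⟨Eqv2_add (T2_Eqv2 (hΨ q)) ihP.1, Mg_add (T2_Mg (hΨ q)) ihP.2⟩
    have hX2sum : ∀ P : Finset (I → ℕ), D.X2 K l1 l2 (∑ q ∈ P, Ψ q) =
        ∑ q ∈ P, D.X2 K l1 l2 (Ψ q) := by
      intro P
      induction P using Finset.induction_on with
      | empty => simp only [Finset.sum_empty]; exact X2_zero D K l1 l2
      | insert q P hq ihP => rw [Finset.sum_insert hq, Finset.sum_insert hq, X2_add, ihP]
    have hsupp' : ∀ S T, Φ' S T ≠ 0 → D.dim S ∈ Q ∧ D.dim S + D.dim T = t := by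
      intro S T h
      rw [hΦ', Finset.sum_apply, Finset.sum_apply] at h
      obtain ⟨q, hq, hne⟩ := Finset.exists_ne_zero_of_sum_ne_zero h
      have h1 : D.dim S = q ∧ D.dim T = t - q := by
        by_contra hcon
        exact hne (T2_supp (hΨ q) S T hcon)
      rw [h1.1, h1.2]
      exact ⟨hq, (hQmem q hq).2.1⟩
    -- value of the coefficient function of the correction
    have hcardS : ∀ S T, Φ' S T ≠ 0 → S.card = k := by
      intro S T h
      rw [card_eq_sum_dim (D := D)]
      exact (hQmem _ (hsupp' S T h).1).2.2.2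
    have hgco' : ∀ B Z, Disjoint B Z → k ≤ B.card → D.gco K (!l1 && l2) Φ' B Z =
        algebraMap O K (Φ' B (B ∪ Z)) := by
      intro B Z hd hk1
      apply gco_nested hd
      intro S T hST
      by_contra h
      have := hcardS S T h
      omega
    have hval : ∀ B A, B ⊆ A → B.card = k → DD (D.dim B) → D.dim B + D.dim A = t →
        Φ' B A = g B A := by
      intro B A hBA hB hDB ht
      have hBQ : D.dim B ∈ Q := by
        rw [hQ, Finset.mem_image]
        exact ⟨B, by rw [Finset.mem_filter]; exact ⟨Finset.mem_univ _, hB, hDB, A, ht⟩, rfl⟩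
      rw [hΦ', Finset.sum_apply, Finset.sum_apply, Finset.sum_eq_single (D.dim B)]
      · apply hΨv _ B A hBA rfl
        rw [← ht]; exact (add_tsub_cancel_left _ _).symm
      · intro q _ hne
        exact T2_supp (hΨ q) B A (fun h => hne h.1.symm)
      · intro h; exact absurd hBQ h
    have key : D.X2 K l1 l2 (Φ - Φ') ∈ ⨆ q : {q : (I → ℕ) × (I → ℕ) // q.1 + q.2 = t ∧ DD q.1 ∧
        q.2 ≤ D.dim univ}, D.G K l1 q.1.1 * D.G K l2 q.1.2 := by
      apply ih
      · rw [sub_eq_add_neg]; exact Eqv2_add hE (Eqv2_neg (hEsum Q).1)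
      · rw [sub_eq_add_neg]; exact Mg_add hM (Mg_neg (hEsum Q).2)
      · intro S T h
        by_cases h1 : Φ S T = 0
        · have : Φ' S T ≠ 0 := by
            intro h2; apply h; simp only [Pi.sub_apply, h1, h2, sub_zero]
          exact (hsupp' S T this).2
        · exact hs S T h1
      · intro B Z hd h
        rw [gco_sub] at h
        rcases lt_trichotomy B.card k with hlt | heq | hgt
        · refine ⟨?_, hlt⟩
          by_cases h1 : D.gco K (!l1 && l2) Φ B Z = 0
          · have h2 : D.gco K (!l1 && l2) Φ' B Z ≠ 0 := by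
              intro h2; apply h; rw [h1, h2, sub_zero]
            obtain ⟨C, hC, hne⟩ := gco_ne h2
            have h3 := (hQmem _ (hsupp' _ _ hne).1).1
            exact hDD _ _ (D.dim_mono Finset.subset_union_left) h3
          · exact (hk B Z hd h1).1
        · exfalso
          apply h
          rw [hgco' B Z hd heq.ge]
          by_cases h1 : D.gco K (!l1 && l2) Φ B Z = 0
          · rw [h1, zero_sub, neg_eq_zero]
            by_cases h2 : Φ' B (B ∪ Z) = 0
            · rw [h2, map_zero]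
            · have h3 := hsupp' _ _ h2
              have h4 := hval B (B ∪ Z) Finset.subset_union_left heq (hQmem _ h3.1).1 h3.2
              rw [h4, ← hgv B Z hd heq, h1]
          · have h2 := hk B Z hd h1
            have h3 := gco_ne_dim hd t hs h1
            rw [hval B (B ∪ Z) Finset.subset_union_left heq h2.1 h3, ← hgv B Z hd heq, sub_self]
        · exfalso
          apply h
          rw [hk0 B Z hd hgt, hgco' B Z hd hgt.le]
          have : Φ' B (B ∪ Z) = 0 := by
            by_contra h2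
            have := hcardS _ _ h2
            omega
          rw [this, map_zero, sub_zero]
    have key2 : D.X2 K l1 l2 Φ' ∈ ⨆ q : {q : (I → ℕ) × (I → ℕ) // q.1 + q.2 = t ∧ DD q.1 ∧
        q.2 ≤ D.dim univ}, D.G K l1 q.1.1 * D.G K l2 q.1.2 := by
      rw [hΦ', hX2sum]
      apply sum_mem
      intro q hq
      obtain ⟨h1, h2, h3, _⟩ := hQmem q hq
      exact Submodule.mem_iSup_of_mem ⟨(q, t - q), h2, h1, h3⟩ (T2_X2 K l1 l2 hl (hΨ q))
    have : D.X2 K l1 l2 Φ = D.X2 K l1 l2 (Φ - Φ') + D.X2 K l1 l2 Φ' := by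
      rw [← X2_add, sub_add_cancel]
    rw [this]
    exact add_mem key key2

variable (D)

theorem straighten (l1 l2 : Bool) (h : l1 = true → l2 = true) (d1 d2 : I → ℕ)
    (Φ : Finset V → Finset V → O) (hΦ : Φ ∈ D.T2 d1 d2)
    (hn : ∀ S T, S ⊆ T → Φ S T = 0) :
    D.X2 K l1 l2 Φ ∈ ⨆ q : {q : (I → ℕ) × (I → ℕ) // D.Step d1 d2 q.1 q.2},
      D.G K l1 q.1.1 * D.G K l2 q.1.2 := by
  have h1 := straighten_aux K l1 l2 h (d1 + d2) (fun q => q ≤ d1 ∧ q ≤ d2 ∧ q ≠ d1)
    (by
      rintro q q' hq ⟨h1, h2, h3⟩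
      refine ⟨hq.trans h1, hq.trans h2, ?_⟩
      rintro rfl
      exact h3 (le_antisymm h1 hq))
    (Fintype.card V + 1) Φ (T2_Eqv2 hΦ) (T2_Mg hΦ)
    (by
      intro S T hST
      by_contra hcon
      apply hST
      apply T2_supp hΦ
      rintro ⟨rfl, rfl⟩
      exact hcon rfl)
    (by
      intro B Z hd hne
      refine ⟨?_, Nat.lt_succ_of_le (Finset.card_le_univ B)⟩
      obtain ⟨C, hC, hne'⟩ := gco_ne hne
      have h2 : D.dim (B ∪ C) = d1 ∧ D.dim (B ∪ (Z \ C)) = d2 := by
        by_contra hcon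
        exact hne' (T2_supp hΦ _ _ hcon)
      refine ⟨?_, ?_, ?_⟩
      · rw [← h2.1]; exact D.dim_mono Finset.subset_union_left
      · rw [← h2.2]; exact D.dim_mono Finset.subset_union_left
      · intro h3
        have h4 : B = B ∪ C := D.eq_of_subset_of_dim Finset.subset_union_left (h3.trans h2.1.symm)
        apply hne'
        apply hn
        rw [← h4]
        exact Finset.subset_union_left)
  have hle : (⨆ q : {q : (I → ℕ) × (I → ℕ) // q.1 + q.2 = d1 + d2 ∧
      (q.1 ≤ d1 ∧ q.1 ≤ d2 ∧ q.1 ≠ d1) ∧ q.2 ≤ D.dim univ},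
        D.G K l1 q.1.1 * D.G K l2 q.1.2) ≤
      ⨆ q : {q : (I → ℕ) × (I → ℕ) // D.Step d1 d2 q.1 q.2},
        D.G K l1 q.1.1 * D.G K l2 q.1.2 := by
    apply iSup_le
    rintro ⟨q, hq1, ⟨hq2, hq3, hq4⟩, hq5⟩
    exact le_iSup (fun q : {q : (I → ℕ) × (I → ℕ) // D.Step d1 d2 q.1 q.2} =>
      D.G K l1 q.1.1 * D.G K l2 q.1.2) ⟨q, hq1, hq2, hq3, hq4, hq5⟩
  exact hle h1

end Dat

end Run7.h787
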