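import Pool.Agent.Run7.h787.Hard

/-! Words of operators: evaluation of functions on tuples, vanishing on chains. -/

open Finset

set_option linter.unusedSectionVars false
set_option linter.unusedVariables false
set_option linter.unusedSimpArgs false

namespace Run7.h787

variable {V I O : Type} [Fintype V] [DecidableEq V] [Fintype I] [DecidableEq I] [CommRing O]
  [IsDomain O] [Algebra ℚ O]

namespace Dat

/-- multiply a function on tuples by a function of one more variable -/
def consFun (f : Finset V → O) (g : List (Finset V) → O) : List (Finset V) → O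
  | [] => 0
  | S :: L => f S * g L

/-- the function on tuples which is one on the empty tuple -/
def nilFun : List (Finset V) → O
  | [] => 1
  | _ :: _ => 0

variable (D : Dat V I O)
variable (K : Type) [Field K] [Algebra O K] [IsFractionRing O K]

/-- sums of products of equivariant functions on tuples of type `ds` -/
def TT : List (I → ℕ) → AddSubgroup (List (Finset V) → O)
  | [] => AddSubgroup.closure {nilFun}
  | d :: ds => AddSubgroup.closure {h | ∃ f g, D.EqvD d f ∧ g ∈ TT ds ∧ h = consFun f g}

/-- evaluation of a function on tuples -/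
noncomputable def ev : List Bool → (List (Finset V) → O) → AddMonoidAlgebra K (V → ℤ)
  | [], g => AddMonoidAlgebra.single 0 (algebraMap O K (g []))
  | l :: ls, g => ∑ S : Finset V,
      AddMonoidAlgebra.single (ex l S) (D.wt K l S) * ev ls (fun L => g (S :: L))

variable {D K}

theorem ev_add (ls : List Bool) (g g' : List (Finset V) → O) :
    ev D K ls (g + g') = ev D K ls g + ev D K ls g' := by
  induction ls generalizing g g' with
  | nil => simp only [ev, Pi.add_apply, map_add, AddMonoidAlgebra.single_add]
  | cons l ls ih =>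
    simp only [ev]
    rw [← Finset.sum_add_distrib]
    apply Finset.sum_congr rfl
    intro S _
    have : (fun L => (g + g') (S :: L)) = (fun L => g (S :: L)) + (fun L => g' (S :: L)) := rfl
    rw [this, ih, mul_add]

theorem ev_zero (ls : List Bool) : ev D K ls (0 : List (Finset V) → O) = 0 := by
  have h := ev_add (D := D) (K := K) ls 0 0
  rw [add_zero] at h
  exact (left_eq_add.1 h)

theorem ev_neg (ls : List Bool) (g : List (Finset V) → O) : ev D K ls (-g) = - ev D K ls g := by
  have h := ev_add (D := D) (K := K) ls g (-g)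
  rw [add_neg_cancel, ev_zero] at h
  exact (neg_eq_of_add_eq_zero_right h.symm).symm

theorem ev_sum {ι : Type*} (ls : List Bool) (s : Finset ι) (g : ι → List (Finset V) → O) :
    ev D K ls (∑ i ∈ s, g i) = ∑ i ∈ s, ev D K ls (g i) := by
  classical
  induction s using Finset.induction_on with
  | empty => simp only [Finset.sum_empty, ev_zero]
  | insert a s ha ih => rw [Finset.sum_insert ha, Finset.sum_insert ha, ev_add, ih]

theorem ev_smul (ls : List Bool) (c : O) (g : List (Finset V) → O) :
    ev D K ls (fun L => c * g L) =
      AddMonoidAlgebra.single 0 (algebraMap O K c) * ev D K ls g := by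
  induction ls generalizing g with
  | nil =>
    simp only [ev]
    rw [AddMonoidAlgebra.single_mul_single, add_zero, map_mul]
  | cons l ls ih =>
    simp only [ev]
    rw [Finset.mul_sum]
    apply Finset.sum_congr rfl
    intro S _
    rw [ih (fun L => g (S :: L)), mul_left_comm]

theorem ev_cons (l : Bool) (ls : List Bool) (f : Finset V → O) (g : List (Finset V) → O) :
    ev D K (l :: ls) (consFun f g) = D.X K l f * ev D K ls g := by
  simp only [ev, consFun, X]
  rw [Finset.sum_mul]
  apply Finset.sum_congr rfl
  intro S _
  rw [ev_smul, ← mul_assoc, AddMonoidAlgebra.single_mul_single, add_zero, mul_comm (D.wt K l S)]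

theorem ev_zsmul (ls : List Bool) (n : ℤ) (g : List (Finset V) → O) :
    ev D K ls (n • g) = n • ev D K ls g :=
  map_zsmul (AddMonoidHom.mk' (ev D K ls) (ev_add ls)) n g

theorem ev_nil : ev D K [] (nilFun : List (Finset V) → O) = 1 := by
  simp only [ev, nilFun, map_one]
  exact AddMonoidAlgebra.one_def.symm

theorem consFun_add_right (f : Finset V → O) (g g' : List (Finset V) → O) :
    consFun f (g + g') = consFun f g + consFun f g' := by
  ext L
  cases L with
  | nil => simp [consFun]
  | cons S L => simp [consFun, mul_add]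

theorem consFun_neg_right (f : Finset V → O) (g : List (Finset V) → O) :
    consFun f (-g) = - consFun f g := by
  ext L
  cases L with
  | nil => simp [consFun]
  | cons S L => simp [consFun]

theorem consFun_zero_right (f : Finset V → O) :
    consFun f (0 : List (Finset V) → O) = 0 := by
  ext L
  cases L with
  | nil => simp [consFun]
  | cons S L => simp [consFun]

theorem TT_supp {ds : List (I → ℕ)} {g : List (Finset V) → O} (hg : g ∈ D.TT ds) :
    ∀ L, g L ≠ 0 → L.map D.dim = ds := by
  induction ds generalizing g with
  | nil =>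
    induction hg using AddSubgroup.closure_induction with
    | mem g hg =>
      rw [Set.mem_singleton_iff] at hg
      subst hg
      intro L hL
      cases L with
      | nil => rfl
      | cons S L => exact absurd rfl hL
    | zero => intro L hL; exact absurd rfl hL
    | add g g' _ _ h h' =>
      intro L hL
      by_cases h1 : g L = 0
      · apply h'; intro h2; apply hL; simp [h1, h2]
      · exact h L h1
    | neg g _ h =>
      intro L hL
      apply h; intro h2; apply hL; simp [h2]
  | cons d ds ih =>
    induction hg using AddSubgroup.closure_induction with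
    | mem g hg =>
      obtain ⟨f, g', hf, hg', rfl⟩ := hg
      intro L hL
      cases L with
      | nil => exact absurd rfl hL
      | cons S L =>
        simp only [consFun] at hL
        rw [List.map_cons, ih hg' L (right_ne_zero_of_mul hL)]
        by_cases h : D.dim S = d
        · rw [h]
        · exact absurd (hf.2 S h) (left_ne_zero_of_mul hL)
    | zero => intro L hL; exact absurd rfl hL
    | add g g' _ _ h h' =>
      intro L hL
      by_cases h1 : g L = 0
      · apply h'; intro h2; apply hL; simp [h1, h2]
      · exact h L h1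
    | neg g _ h =>
      intro L hL
      apply h; intro h2; apply hL; simp [h2]

theorem mem_Gw_of_TT {ls : List Bool} {ds : List (I → ℕ)} (hlen : ls.length = ds.length)
    {g : List (Finset V) → O} (hg : g ∈ D.TT ds) : ev D K ls g ∈ D.Gw K (ls.zip ds) := by
  induction ds generalizing ls g with
  | nil =>
    have hls : ls = [] := List.length_eq_zero_iff.1 (by simpa using hlen)
    subst hls
    induction hg using AddSubgroup.closure_induction with
    | mem g hg =>
      rw [Set.mem_singleton_iff] at hg
      subst hg
      rw [ev_nil]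
      simp only [Gw, List.zip_nil_left, List.map_nil, List.prod_nil]
      exact Submodule.one_le.1 le_rfl
    | zero => rw [ev_zero]; exact zero_mem _
    | add g g' _ _ h h' => rw [ev_add]; exact add_mem h h'
    | neg g _ h => rw [ev_neg]; exact neg_mem h
  | cons d ds ih =>
    cases ls with
    | nil => simp at hlen
    | cons l ls =>
      have hlen' : ls.length = ds.length := by simpa using hlen
      induction hg using AddSubgroup.closure_induction with
      | mem g hg =>
        obtain ⟨f, g', hf, hg', rfl⟩ := hg
        rw [ev_cons]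
        simp only [Gw, List.zip_cons_cons, List.map_cons, List.prod_cons]
        exact Submodule.mul_mem_mul (Submodule.subset_span ⟨f, hf, rfl⟩) (ih hlen' hg')
      | zero => rw [ev_zero]; exact zero_mem _
      | add g g' _ _ h h' => rw [ev_add]; exact add_mem h h'
      | neg g _ h => rw [ev_neg]; exact neg_mem h

theorem exists_TT_of_mem_Gw {ls : List Bool} {ds : List (I → ℕ)} (hlen : ls.length = ds.length)
    {x : AddMonoidAlgebra K (V → ℤ)} (hx : x ∈ D.Gw K (ls.zip ds)) :
    ∃ g ∈ D.TT ds, x = ev D K ls g := by
  induction ds generalizing ls x with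
  | nil =>
    have hls : ls = [] := List.length_eq_zero_iff.1 (by simpa using hlen)
    subst hls
    simp only [Gw, List.zip_nil_left, List.map_nil, List.prod_nil] at hx
    rw [Submodule.mem_one] at hx
    obtain ⟨n, rfl⟩ := hx
    have hnil : (nilFun : List (Finset V) → O) ∈ D.TT [] := by
      simp only [TT]
      exact AddSubgroup.subset_closure (Set.mem_singleton _)
    refine ⟨n • nilFun, zsmul_mem hnil n, ?_⟩
    rw [ev_zsmul, ev_nil, Algebra.algebraMap_eq_smul_one]
  | cons d ds ih =>
    cases ls with
    | nil => simp at hlen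
    | cons l ls =>
      have hlen' : ls.length = ds.length := by simpa using hlen
      simp only [Gw, List.zip_cons_cons, List.map_cons, List.prod_cons] at hx
      induction hx using Submodule.mul_induction_on' with
      | mem_mul_mem u hu w hw =>
        obtain ⟨g', hg', rfl⟩ := ih hlen' hw
        induction hu using Submodule.span_induction with
        | mem u hu =>
          obtain ⟨f, hf, rfl⟩ := hu
          exact ⟨consFun f g', AddSubgroup.subset_closure ⟨f, g', hf, hg', rfl⟩,
            (ev_cons l ls f g').symm⟩
        | zero => exact ⟨0, zero_mem _, by rw [zero_mul, ev_zero]⟩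
        | add u u' _ _ h h' =>
          obtain ⟨a, ha, ha'⟩ := h
          obtain ⟨b, hb, hb'⟩ := h'
          exact ⟨a + b, add_mem ha hb, by rw [add_mul, ha', hb', ev_add]⟩
        | smul n u _ h =>
          obtain ⟨a, ha, ha'⟩ := h
          refine ⟨n • a, zsmul_mem ha n, ?_⟩
          rw [smul_mul_assoc, ha', ev_zsmul]
      | add x _ y _ hx hy =>
        obtain ⟨a, ha, ha'⟩ := hx
        obtain ⟨b, hb, hb'⟩ := hy
        exact ⟨a + b, add_mem ha hb, by rw [ha', hb', ev_add]⟩

variable (D) in
/-- neighbouring types -/
inductive Adj : List (I → ℕ) → List (I → ℕ) → Prop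
  | head {d1 d2 q1 q2 : I → ℕ} {ds : List (I → ℕ)} (h : D.Step d1 d2 q1 q2) :
      Adj (d1 :: d2 :: ds) (q1 :: q2 :: ds)
  | cons {d : I → ℕ} {ds ds' : List (I → ℕ)} (h : Adj ds ds') : Adj (d :: ds) (d :: ds')

variable (D K) in
/-- span of the neighbouring types -/
noncomputable def Spr (ls : List Bool) (ds : List (I → ℕ)) :
    Submodule ℤ (AddMonoidAlgebra K (V → ℤ)) :=
  ⨆ ds' : {ds' : List (I → ℕ) // D.Adj ds ds'}, D.Gw K (ls.zip ds'.1)

/-- a chain of subsets -/
def Chain (C : List (Finset V)) : Prop := C.Pairwise (· ⊆ ·)

theorem lemma_M {l1 l2 : Bool} (hl : l1 = true → l2 = true) (ls : List Bool) (d1 d2 : I → ℕ)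
    (ds : List (I → ℕ)) (hlen : ls.length = ds.length)
    {J : Type} [Fintype J] {sg : J → Finset V → O} {cj : J → Finset V → Finset V → K}
    (hsg : ∀ j, D.EqvD d1 (sg j))
    (hint : ∀ (g : Finset V → Finset V → O), D.Eqv2 g →
        ∃ Gj : J → Finset V → O, (∀ j, D.EqvD d2 (Gj j)) ∧
          (∀ j S, D.dim S = d2 → algebraMap O K (Gj j S) =
            ∑ L ∈ S.powerset with D.dim L = d1, cj j L S * algebraMap O K (g L S)) ∧
          (∀ S T, T ⊆ S → D.dim T = d1 → D.dim S = d2 → ∑ j, sg j T * Gj j S = g T S))
    {g : List (Finset V) → O} (hg : g ∈ D.TT (d1 :: d2 :: ds)) :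
    ∃ gj : J → List (Finset V) → O, (∀ j, gj j ∈ D.TT (d2 :: ds)) ∧
      (∀ j S L, D.dim S = d2 → algebraMap O K (gj j (S :: L)) =
        ∑ L1 ∈ S.powerset with D.dim L1 = d1, cj j L1 S * algebraMap O K (g (L1 :: S :: L))) ∧
      ev D K (l1 :: l2 :: ls) g - ∑ j, D.X K l1 (sg j) * ev D K (l2 :: ls) (gj j) ∈
        (⨆ q : {q : (I → ℕ) × (I → ℕ) // D.Step d1 d2 q.1 q.2},
          D.G K l1 q.1.1 * D.G K l2 q.1.2) * D.Gw K (ls.zip ds) := by
  classical
  have hadd : ∀ g g' : List (Finset V) → O, 
      (∃ gj : J → List (Finset V) → O, (∀ j, gj j ∈ D.TT (d2 :: ds)) ∧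
      (∀ j S L, D.dim S = d2 → algebraMap O K (gj j (S :: L)) =
        ∑ L1 ∈ S.powerset with D.dim L1 = d1, cj j L1 S * algebraMap O K (g (L1 :: S :: L))) ∧
      ev D K (l1 :: l2 :: ls) g - ∑ j, D.X K l1 (sg j) * ev D K (l2 :: ls) (gj j) ∈
        (⨆ q : {q : (I → ℕ) × (I → ℕ) // D.Step d1 d2 q.1 q.2},
          D.G K l1 q.1.1 * D.G K l2 q.1.2) * D.Gw K (ls.zip ds)) →
      (∃ gj : J → List (Finset V) → O, (∀ j, gj j ∈ D.TT (d2 :: ds)) ∧
      (∀ j S L, D.dim S = d2 → algebraMap O K (gj j (S :: L)) =
        ∑ L1 ∈ S.powerset with D.dim L1 = d1, cj j L1 S * algebraMap O K (g' (L1 :: S :: L))) ∧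
      ev D K (l1 :: l2 :: ls) g' - ∑ j, D.X K l1 (sg j) * ev D K (l2 :: ls) (gj j) ∈
        (⨆ q : {q : (I → ℕ) × (I → ℕ) // D.Step d1 d2 q.1 q.2},
          D.G K l1 q.1.1 * D.G K l2 q.1.2) * D.Gw K (ls.zip ds)) →
      (∃ gj : J → List (Finset V) → O, (∀ j, gj j ∈ D.TT (d2 :: ds)) ∧
      (∀ j S L, D.dim S = d2 → algebraMap O K (gj j (S :: L)) =
        ∑ L1 ∈ S.powerset with D.dim L1 = d1,
          cj j L1 S * algebraMap O K ((g + g') (L1 :: S :: L))) ∧
      ev D K (l1 :: l2 :: ls) (g + g') - ∑ j, D.X K l1 (sg j) * ev D K (l2 :: ls) (gj j) ∈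
        (⨆ q : {q : (I → ℕ) × (I → ℕ) // D.Step d1 d2 q.1 q.2},
          D.G K l1 q.1.1 * D.G K l2 q.1.2) * D.Gw K (ls.zip ds)) := by
    rintro g g' ⟨a, ha1, ha2, ha3⟩ ⟨b, hb1, hb2, hb3⟩
    refine ⟨fun j => a j + b j, fun j => add_mem (ha1 j) (hb1 j), ?_, ?_⟩
    · intro j S L hS
      simp only [Pi.add_apply, map_add, mul_add, Finset.sum_add_distrib]
      rw [ha2 j S L hS, hb2 j S L hS]
    · have : ev D K (l1 :: l2 :: ls) (g + g') -
          ∑ j, D.X K l1 (sg j) * ev D K (l2 :: ls) (a j + b j) =
          (ev D K (l1 :: l2 :: ls) g - ∑ j, D.X K l1 (sg j) * ev D K (l2 :: ls) (a j)) +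
          (ev D K (l1 :: l2 :: ls) g' - ∑ j, D.X K l1 (sg j) * ev D K (l2 :: ls) (b j)) := by
        rw [ev_add]
        simp only [ev_add, mul_add, Finset.sum_add_distrib]
        abel
      rw [this]
      exact add_mem ha3 hb3
  have hneg : ∀ g : List (Finset V) → O, 
      (∃ gj : J → List (Finset V) → O, (∀ j, gj j ∈ D.TT (d2 :: ds)) ∧
      (∀ j S L, D.dim S = d2 → algebraMap O K (gj j (S :: L)) =
        ∑ L1 ∈ S.powerset with D.dim L1 = d1, cj j L1 S * algebraMap O K (g (L1 :: S :: L))) ∧
      ev D K (l1 :: l2 :: ls) g - ∑ j, D.X K l1 (sg j) * ev D K (l2 :: ls) (gj j) ∈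
        (⨆ q : {q : (I → ℕ) × (I → ℕ) // D.Step d1 d2 q.1 q.2},
          D.G K l1 q.1.1 * D.G K l2 q.1.2) * D.Gw K (ls.zip ds)) →
      (∃ gj : J → List (Finset V) → O, (∀ j, gj j ∈ D.TT (d2 :: ds)) ∧
      (∀ j S L, D.dim S = d2 → algebraMap O K (gj j (S :: L)) =
        ∑ L1 ∈ S.powerset with D.dim L1 = d1,
          cj j L1 S * algebraMap O K ((-g) (L1 :: S :: L))) ∧
      ev D K (l1 :: l2 :: ls) (-g) - ∑ j, D.X K l1 (sg j) * ev D K (l2 :: ls) (gj j) ∈
        (⨆ q : {q : (I → ℕ) × (I → ℕ) // D.Step d1 d2 q.1 q.2},
          D.G K l1 q.1.1 * D.G K l2 q.1.2) * D.Gw K (ls.zip ds)) := by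
    rintro g ⟨a, ha1, ha2, ha3⟩
    refine ⟨fun j => - a j, fun j => neg_mem (ha1 j), ?_, ?_⟩
    · intro j S L hS
      simp only [Pi.neg_apply, map_neg, mul_neg, Finset.sum_neg_distrib]
      rw [ha2 j S L hS]
    · have : ev D K (l1 :: l2 :: ls) (-g) -
          ∑ j, D.X K l1 (sg j) * ev D K (l2 :: ls) (- a j) =
          - (ev D K (l1 :: l2 :: ls) g - ∑ j, D.X K l1 (sg j) * ev D K (l2 :: ls) (a j)) := by
        rw [ev_neg]
        simp only [ev_neg, mul_neg, Finset.sum_neg_distrib]
        abel
      rw [this]
      exact neg_mem ha3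
  have hzero : (∃ gj : J → List (Finset V) → O, (∀ j, gj j ∈ D.TT (d2 :: ds)) ∧
      (∀ j S L, D.dim S = d2 → algebraMap O K (gj j (S :: L)) =
        ∑ L1 ∈ S.powerset with D.dim L1 = d1,
          cj j L1 S * algebraMap O K ((0 : List (Finset V) → O) (L1 :: S :: L))) ∧
      ev D K (l1 :: l2 :: ls) 0 - ∑ j, D.X K l1 (sg j) * ev D K (l2 :: ls) (gj j) ∈
        (⨆ q : {q : (I → ℕ) × (I → ℕ) // D.Step d1 d2 q.1 q.2},
          D.G K l1 q.1.1 * D.G K l2 q.1.2) * D.Gw K (ls.zip ds)) := by
    refine ⟨fun _ => 0, fun _ => zero_mem _, ?_, ?_⟩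
    · intro j S L hS
      simp
    · simp only [ev_zero, mul_zero, Finset.sum_const_zero, sub_zero]
      exact zero_mem _
  induction hg using AddSubgroup.closure_induction with
  | mem g hg =>
    obtain ⟨f1, g', hf1, hg', rfl⟩ := hg
    induction hg' using AddSubgroup.closure_induction with
    | mem g' hg' =>
      obtain ⟨f2, g'', hf2, hg'', rfl⟩ := hg'
      obtain ⟨Gj, hG1, hG2, hG3⟩ := hint (fun S T => f1 S * f2 T) (Eqv2_mul hf1.1 hf2.1)
      refine ⟨fun j => consFun (Gj j) g'', ?_, ?_, ?_⟩
      · intro j
        exact AddSubgroup.subset_closure ⟨Gj j, g'', hG1 j, hg'', rfl⟩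
      · intro j S L hS
        simp only [consFun, map_mul]
        rw [hG2 j S hS, Finset.sum_mul]
        apply Finset.sum_congr rfl
        intro L1 _
        rw [map_mul]
        ring
      · have e1 : ev D K (l1 :: l2 :: ls) (consFun f1 (consFun f2 g'')) -
            ∑ j, D.X K l1 (sg j) * ev D K (l2 :: ls) (consFun (Gj j) g'') =
            D.X2 K l1 l2 ((fun S T => f1 S * f2 T) - (fun S T => ∑ j, sg j S * Gj j T)) *
              ev D K ls g'' := by
          rw [ev_cons, ev_cons, X2_sub, ← D.X_mul_X K l1 l2 hl]
          have e2 : D.X2 K l1 l2 (fun S T => ∑ j, sg j S * Gj j T) =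
              ∑ j, D.X K l1 (sg j) * D.X K l2 (Gj j) := by
            have e3 : ∀ s : Finset J, D.X2 K l1 l2 (∑ j ∈ s, (fun S T => sg j S * Gj j T)) =
                ∑ j ∈ s, D.X K l1 (sg j) * D.X K l2 (Gj j) := by
              intro s
              induction s using Finset.induction_on with
              | empty => simp only [Finset.sum_empty]; exact X2_zero D K l1 l2
              | insert j s hj ih =>
                rw [Finset.sum_insert hj, Finset.sum_insert hj, X2_add, ih, D.X_mul_X K l1 l2 hl]
            rw [← e3]
            congr 1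
            ext S T
            simp only [Finset.sum_apply]
          rw [e2, sub_mul, Finset.sum_mul]
          congr 1
          · ring
          · apply Finset.sum_congr rfl
            intro j _
            rw [ev_cons, mul_assoc]
        rw [e1]
        apply Submodule.mul_mem_mul
        · apply D.straighten K l1 l2 hl d1 d2
          · apply sub_mem
            · exact AddSubgroup.subset_closure ⟨f1, f2, hf1, hf2, rfl⟩
            · exact T2_sum sg Gj hsg hG1
          · intro S T hST
            simp only [Pi.sub_apply]
            rw [sub_eq_zero]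
            by_cases h1 : D.dim S = d1
            · by_cases h2 : D.dim T = d2
              · exact (hG3 T S hST h1 h2).symm
              · rw [hf2.2 T h2, mul_zero]
                symm
                apply Finset.sum_eq_zero
                intro j _
                rw [(hG1 j).2 T h2, mul_zero]
            · rw [hf1.2 S h1, zero_mul]
              symm
              apply Finset.sum_eq_zero
              intro j _
              rw [(hsg j).2 S h1, zero_mul]
        · exact mem_Gw_of_TT hlen hg''
    | zero => rw [consFun_zero_right]; exact hzero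
    | add g g' _ _ h h' => rw [consFun_add_right]; exact hadd _ _ h h'
    | neg g _ h => rw [consFun_neg_right]; exact hneg _ h
  | zero => exact hzero
  | add g g' _ _ h h' => exact hadd _ _ h h'
  | neg g _ h => exact hneg _ h

/-- functions vanishing on chains -/
theorem lemma_N (ls : List Bool) (hs : ls.Pairwise (fun l l' => l = true → l' = true))
    (ds : List (I → ℕ)) (hlen : ls.length = ds.length) (g : List (Finset V) → O)
    (hg : g ∈ D.TT ds) (hch : ∀ C : List (Finset V), Chain C → C.map D.dim = ds → g C = 0) :
    ev D K ls g ∈ Spr D K ls ds := by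
  classical
  induction ds generalizing ls g with
  | nil =>
    have hls : ls = [] := List.length_eq_zero_iff.1 (by simpa using hlen)
    subst hls
    simp only [ev]
    rw [hch [] List.Pairwise.nil rfl, map_zero, AddMonoidAlgebra.single_zero]
    exact zero_mem _
  | cons d1 ds ih =>
    cases ls with
    | nil => simp at hlen
    | cons l1 ls =>
      have hlen1 : ls.length = ds.length := by simpa using hlen
      cases ds with
      | nil =>
        have hls : ls = [] := List.length_eq_zero_iff.1 (by simpa using hlen1)
        subst hls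
        simp only [ev]
        have : ∀ S : Finset V, g [S] = 0 := by
          intro S
          by_contra h
          have h1 := TT_supp hg [S] h
          exact h (hch [S] (List.pairwise_singleton _ _) h1)
        simp only [this, map_zero, AddMonoidAlgebra.single_zero, mul_zero, Finset.sum_const_zero]
        exact zero_mem _
      | cons d2 ds =>
        cases ls with
        | nil => simp at hlen1
        | cons l2 ls =>
          have hlen2 : ls.length = ds.length := by simpa using hlen1
          obtain ⟨J, _, sg, cj, hsg, hint⟩ := D.interp K d1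
          have hl : l1 = true → l2 = true := by
            rw [List.pairwise_cons] at hs
            exact hs.1 l2 List.mem_cons_self
          obtain ⟨gj, h1, h2, h3⟩ := lemma_M hl ls d1 d2 ds hlen2 hsg (hint d2) hg
          have h4 : ∀ j, ev D K (l2 :: ls) (gj j) ∈ Spr D K (l2 :: ls) (d2 :: ds) := by
            intro j
            apply ih (l2 :: ls) (List.pairwise_cons.1 hs).2 hlen1 (gj j) (h1 j)
            intro C hC hCd
            cases C with
            | nil => simp at hCd
            | cons S L =>
              rw [List.map_cons, List.cons.injEq] at hCd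
              apply IsFractionRing.injective O K
              rw [h2 j S L hCd.1, map_zero]
              apply Finset.sum_eq_zero
              intro L1 hL1
              rw [Finset.mem_filter, Finset.mem_powerset] at hL1
              have hchain : Chain (L1 :: S :: L) := by
                apply List.Pairwise.cons _ hC
                intro T hT
                rcases List.mem_cons.1 hT with h | h
                · rw [h]; exact hL1.1
                · exact hL1.1.trans ((List.pairwise_cons.1 hC).1 T h)
              rw [hch _ hchain (by simp [hL1.2, hCd.1, hCd.2]), map_zero, mul_zero]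
          have e : ev D K (l1 :: l2 :: ls) g =
              (ev D K (l1 :: l2 :: ls) g - ∑ j, D.X K l1 (sg j) * ev D K (l2 :: ls) (gj j)) +
              ∑ j, D.X K l1 (sg j) * ev D K (l2 :: ls) (gj j) := by abel
          rw [e]
          apply add_mem
          · have hle : (⨆ q : {q : (I → ℕ) × (I → ℕ) // D.Step d1 d2 q.1 q.2},
                D.G K l1 q.1.1 * D.G K l2 q.1.2) * D.Gw K (ls.zip ds) ≤
                Spr D K (l1 :: l2 :: ls) (d1 :: d2 :: ds) := by
              rw [Submodule.iSup_mul]
              apply iSup_le
              rintro ⟨q, hq⟩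
              have : D.G K l1 q.1 * D.G K l2 q.2 * D.Gw K (ls.zip ds) =
                  D.Gw K ((l1 :: l2 :: ls).zip (q.1 :: q.2 :: ds)) := by
                simp only [Gw, List.zip_cons_cons, List.map_cons, List.prod_cons, mul_assoc]
              rw [this]
              exact le_iSup (fun ds' : {ds' : List (I → ℕ) // D.Adj (d1 :: d2 :: ds) ds'} =>
                D.Gw K ((l1 :: l2 :: ls).zip ds'.1)) ⟨q.1 :: q.2 :: ds, Adj.head hq⟩
            exact hle h3
          · apply sum_mem
            intro j _
            have hle : D.G K l1 d1 * Spr D K (l2 :: ls) (d2 :: ds) ≤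
                Spr D K (l1 :: l2 :: ls) (d1 :: d2 :: ds) := by
              rw [Spr, Submodule.mul_iSup]
              apply iSup_le
              rintro ⟨ds', hds'⟩
              have : D.G K l1 d1 * D.Gw K ((l2 :: ls).zip ds') =
                  D.Gw K ((l1 :: l2 :: ls).zip (d1 :: ds')) := by
                simp only [Gw, List.zip_cons_cons, List.map_cons, List.prod_cons]
              rw [this]
              exact le_iSup (fun ds' : {ds' : List (I → ℕ) // D.Adj (d1 :: d2 :: ds) ds'} =>
                D.Gw K ((l1 :: l2 :: ls).zip ds'.1)) ⟨d1 :: ds', Adj.cons hds'⟩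
            exact hle (Submodule.mul_mem_mul (Submodule.subset_span ⟨sg j, hsg j, rfl⟩) (h4 j))

end Dat

end Run7.h787
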