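import Pool.Agent.Run7.h787.Words1

/-! Leading coefficients. -/

open Finset

set_option linter.unusedSectionVars false
set_option linter.unusedVariables false
set_option linter.unusedSimpArgs false

namespace Run7.h787

variable {V I O : Type} [Fintype V] [DecidableEq V] [Fintype I] [DecidableEq I] [CommRing O]
  [IsDomain O] [Algebra ℚ O]

namespace Dat

variable (D : Dat V I O)
variable (K : Type) [Field K] [Algebra O K] [IsFractionRing O K]

/-- exponent of a tuple -/
def expo : List Bool → List (Finset V) → (V → ℤ)
  | [], _ => 0
  | _ :: _, [] => 0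
  | l :: ls, S :: L => ex l S + expo ls L

/-- weight of a tuple -/
noncomputable def wts : List Bool → List (Finset V) → K
  | [], _ => 1
  | _ :: _, [] => 1
  | l :: ls, S :: L => D.wt K l S * wts ls L

/-- multiplicity of an element in a tuple of subsets -/
def cnt : List (Finset V) → V → ℕ
  | [], _ => 0
  | S :: L, a => (if a ∈ S then 1 else 0) + cnt L a

/-- total size of a list of dimension vectors -/
def tot : List (I → ℕ) → ℕ
  | [] => 0
  | d :: ds => (∑ i, d i) + tot ds

/-- weighted size of a list of dimension vectors -/
def Lm : List (I → ℕ) → ℕ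
  | [] => 0
  | _ :: ds => Lm ds + tot ds

variable {D K}

theorem eta_ne {a b : V} (hab : a ≠ b) : D.eta K a b ≠ 0 := by
  rw [eta]
  exact div_ne_zero (alg_ne K (D.m_ne a b hab)) (alg_ne K (dd_ne (fun _ => hab)))

theorem wt_ne (l : Bool) (S : Finset V) : D.wt K l S ≠ 0 := by
  rw [wt]
  apply mul_ne_zero
  · split_ifs
    · exact one_ne_zero
    · apply alg_ne K
      rw [PP, Finset.prod_ne_zero_iff]
      exact fun a _ => D.P_ne a
  · rw [eps, Finset.prod_ne_zero_iff]
    intro a ha
    rw [Finset.prod_ne_zero_iff]
    intro b hb
    apply eta_ne
    rintro rfl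
    exact (Finset.mem_compl.1 hb) ha

theorem wts_ne (ls : List Bool) (L : List (Finset V)) : wts D K ls L ≠ 0 := by
  induction ls generalizing L with
  | nil => simp [wts]
  | cons l ls ih =>
    cases L with
    | nil => simp [wts]
    | cons S L =>
      simp only [wts]
      exact mul_ne_zero (wt_ne l S) (ih L)

theorem coeff_ev_zero (ls : List Bool) (g : List (Finset V) → O) (μ : V → ℤ)
    (h : ∀ L : List (Finset V), L.length = ls.length → expo ls L = μ → g L = 0) :
    (ev D K ls g).coeff μ = 0 := by
  classical
  induction ls generalizing g μ with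
  | nil =>
    simp only [ev]
    rw [AddMonoidAlgebra.coeff_single, Finsupp.single_apply]
    split_ifs with h0
    · rw [h [] rfl (by simp [expo, h0]), map_zero]
    · rfl
  | cons l ls ih =>
    simp only [ev]
    rw [AddMonoidAlgebra.coeff_sum, Finset.sum_apply']
    apply Finset.sum_eq_zero
    intro S _
    rw [AddMonoidAlgebra.coeff_single_mul_apply, ih, mul_zero]
    intro L hL hexp
    apply h (S :: L) (by simp [hL])
    simp only [expo, hexp]
    abel

theorem coeff_ev (ls : List Bool) (g : List (Finset V) → O) (C : List (Finset V))
    (hC : C.length = ls.length)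
    (h : ∀ L : List (Finset V), L.length = ls.length → expo ls L = expo ls C → L ≠ C → g L = 0) :
    (ev D K ls g).coeff (expo ls C) = algebraMap O K (g C) * wts D K ls C := by
  classical
  induction ls generalizing g C with
  | nil =>
    have : C = [] := List.length_eq_zero_iff.1 (by simpa using hC)
    subst this
    simp only [ev, expo, wts, mul_one]
    rw [AddMonoidAlgebra.coeff_single, Finsupp.single_eq_same]
  | cons l ls ih =>
    cases C with
    | nil => simp at hC
    | cons S C =>
      have hC' : C.length = ls.length := by simpa using hC
      simp only [ev, expo, wts]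
      rw [AddMonoidAlgebra.coeff_sum, Finset.sum_apply', Finset.sum_eq_single S]
      · rw [AddMonoidAlgebra.coeff_single_mul_apply]
        have : -ex l S + (ex l S + expo ls C) = expo ls C := by abel
        rw [this, ih (fun L => g (S :: L)) C hC']
        · ring
        · intro L hL hexp hne
          apply h (S :: L) (by simp [hL])
          · simp only [expo, hexp]
          · intro heq
            exact hne (List.cons.inj heq).2
      · intro S' _ hne
        rw [AddMonoidAlgebra.coeff_single_mul_apply, coeff_ev_zero, mul_zero]
        intro L hL hexp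
        apply h (S' :: L) (by simp [hL])
        · simp only [expo, hexp]
          abel
        · intro heq
          exact hne (List.cons.inj heq).1
      · intro h; exact absurd (Finset.mem_univ _) h

theorem cnt_le_length (L : List (Finset V)) (a : V) : cnt L a ≤ L.length := by
  induction L with
  | nil => simp [cnt]
  | cons S L ih =>
    simp only [cnt, List.length_cons]
    split_ifs <;> omega

theorem cnt_of_forall {L : List (Finset V)} {a : V} (h : ∀ S ∈ L, a ∈ S) :
    cnt L a = L.length := by
  induction L with
  | nil => simp [cnt]
  | cons S L ih =>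
    simp only [cnt, List.length_cons]
    rw [if_pos (h S List.mem_cons_self), ih (fun T hT => h T (List.mem_cons_of_mem _ hT))]
    omega

theorem cnt_of_forall_not {L : List (Finset V)} {a : V} (h : ∀ S ∈ L, a ∉ S) :
    cnt L a = 0 := by
  induction L with
  | nil => simp [cnt]
  | cons S L ih =>
    simp only [cnt]
    rw [if_neg (h S List.mem_cons_self), ih (fun T hT => h T (List.mem_cons_of_mem _ hT))]

theorem cnt_pos {L : List (Finset V)} {a : V} {S : Finset V} (hS : S ∈ L) (h : a ∈ S) :
    1 ≤ cnt L a := by
  induction L with
  | nil => simp at hS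
  | cons T L ih =>
    simp only [cnt]
    rcases List.mem_cons.1 hS with h1 | h1
    · rw [← h1, if_pos h]; omega
    · have := ih h1; omega

theorem cnt_lt {L : List (Finset V)} {a : V} {S : Finset V} (hS : S ∈ L) (h : a ∉ S) :
    cnt L a + 1 ≤ L.length := by
  induction L with
  | nil => simp at hS
  | cons T L ih =>
    simp only [cnt, List.length_cons]
    rcases List.mem_cons.1 hS with h1 | h1
    · rw [← h1, if_neg h]
      have := cnt_le_length L a; omega
    · have := ih h1
      split_ifs <;> omega

theorem cnt_append (L L' : List (Finset V)) (a : V) : cnt (L ++ L') a = cnt L a + cnt L' a := by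
  induction L with
  | nil => simp [cnt]
  | cons S L ih =>
    simp only [List.cons_append, cnt, ih]; ring

/-- number of F labels -/
def nF (ls : List Bool) : ℕ := ls.countP (fun l => l)

theorem expo_eq_cnt (ls : List Bool) (L : List (Finset V)) (h : L.length = ls.length) (a : V) :
    expo ls L a = (cnt L a : ℤ) - nF ls := by
  induction ls generalizing L with
  | nil =>
    have : L = [] := List.length_eq_zero_iff.1 (by simpa using h)
    subst this
    simp [expo, cnt, nF]
  | cons l ls ih =>
    cases L with
    | nil => simp at h
    | cons S L =>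
      have h' : L.length = ls.length := by simpa using h
      simp only [expo, cnt, Pi.add_apply, ih L h', ex, nF]
      cases l
      · simp [List.countP_cons]
        ring
      · simp [List.countP_cons]
        ring

theorem tot_map (L : List (Finset V)) : tot (L.map D.dim) = ∑ a, cnt L a := by
  induction L with
  | nil => simp [tot, cnt]
  | cons S L ih =>
    simp only [List.map_cons, tot, cnt, ih, Finset.sum_add_distrib]
    rw [← card_eq_sum_dim]
    simp

theorem Lm_le {C L : List (Finset V)} (hC : Chain C) (hlen : L.length = C.length)
    (h : ∀ a, cnt L a ≤ cnt C a) :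
    Lm (L.map D.dim) ≤ Lm (C.map D.dim) ∧ tot (L.map D.dim) ≤ tot (C.map D.dim) := by
  refine ⟨?_, ?_⟩
  · induction C generalizing L with
    | nil =>
      have : L = [] := List.length_eq_zero_iff.1 (by simpa using hlen)
      subst this
      exact le_rfl
    | cons S C ih =>
      cases L with
      | nil => simp at hlen
      | cons T L =>
        have hlen' : L.length = C.length := by simpa using hlen
        have hC' : Chain C := (List.pairwise_cons.1 hC).2
        have h' : ∀ a, cnt L a ≤ cnt C a := by
          intro a
          by_cases ha : a ∈ S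
          · rw [cnt_of_forall (L := C) (fun U hU => (List.pairwise_cons.1 hC).1 U hU ha),
              ← hlen']
            exact cnt_le_length L a
          · have h1 := h a
            simp only [cnt] at h1
            rw [if_neg ha] at h1
            omega
        simp only [List.map_cons, Lm]
        have h2 := ih hC' hlen' h'
        have h3 : tot (L.map D.dim) ≤ tot (C.map D.dim) := by
          rw [tot_map, tot_map]
          exact Finset.sum_le_sum (fun a _ => h' a)
        omega
  · rw [tot_map, tot_map]
    exact Finset.sum_le_sum (fun a _ => h a)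

theorem eq_of_Lm {C L : List (Finset V)} (hC : Chain C) (hlen : L.length = C.length)
    (h : ∀ a, cnt L a = cnt C a) (hLm : Lm (C.map D.dim) ≤ Lm (L.map D.dim)) : L = C := by
  induction C generalizing L with
  | nil => exact List.length_eq_zero_iff.1 (by simpa using hlen)
  | cons S C ih =>
    cases L with
    | nil => simp at hlen
    | cons T L =>
      have hlen' : L.length = C.length := by simpa using hlen
      have hC' : Chain C := (List.pairwise_cons.1 hC).2
      have h' : ∀ a, cnt L a ≤ cnt C a := by
        intro a
        by_cases ha : a ∈ S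
        · rw [cnt_of_forall (L := C) (fun U hU => (List.pairwise_cons.1 hC).1 U hU ha),
            ← hlen']
          exact cnt_le_length L a
        · have h1 := h a
          simp only [cnt] at h1
          rw [if_neg ha] at h1
          omega
      obtain ⟨h2, h3⟩ := Lm_le (D := D) hC' hlen' h'
      simp only [List.map_cons, Lm] at hLm
      have h4 : tot (L.map D.dim) = tot (C.map D.dim) := by omega
      have h5 : Lm (C.map D.dim) ≤ Lm (L.map D.dim) := by omega
      rw [tot_map, tot_map] at h4
      have h6 := (Finset.sum_eq_sum_iff_of_le (fun a _ => h' a)).1 h4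
      have h7 : L = C := ih hC' hlen' (fun a => h6 a (Finset.mem_univ a)) h5
      subst h7
      congr 1
      ext a
      have h8 := h a
      simp only [cnt] at h8
      by_cases hT : a ∈ T <;> by_cases hS : a ∈ S <;> simp [hT, hS] at h8 ⊢

theorem Lm_lt_of_ne {ls : List Bool} {C L : List (Finset V)} (hC : Chain C)
    (hlenC : C.length = ls.length) (hlenL : L.length = ls.length)
    (hexp : expo ls L = expo ls C) (hne : L ≠ C) :
    Lm (L.map D.dim) < Lm (C.map D.dim) := by
  by_contra hcon
  push Not at hcon
  apply hne
  apply eq_of_Lm (D := D) hC (hlenL.trans hlenC.symm) _ hcon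
  intro a
  have h1 := congrFun hexp a
  rw [expo_eq_cnt ls L hlenL, expo_eq_cnt ls C hlenC] at h1
  have : (cnt L a : ℤ) = cnt C a := by linarith
  exact_mod_cast this

theorem Adj_Lm {ds ds' : List (I → ℕ)} (h : D.Adj ds ds') :
    tot ds' = tot ds ∧ Lm ds < Lm ds' ∧ ds'.length = ds.length := by
  induction h with
  | head hst =>
    rename_i d1 d2 q1 q2 ds
    obtain ⟨h1, h2, h3, h4, h5⟩ := hst
    have e1 : (∑ i, q1 i) + (∑ i, q2 i) = (∑ i, d1 i) + (∑ i, d2 i) := by
      rw [← Finset.sum_add_distrib, ← Finset.sum_add_distrib]
      apply Finset.sum_congr rfl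
      intro i _
      exact congrFun h1 i
    have e2 : (∑ i, q1 i) < ∑ i, d1 i := by
      apply Finset.sum_lt_sum (fun i _ => h2 i)
      by_contra hcon
      push Not at hcon
      apply h4
      ext i
      exact le_antisymm (h2 i) (hcon i (Finset.mem_univ i))
    simp only [tot, Lm, List.length_cons]
    refine ⟨by omega, by omega, trivial⟩
  | cons h ih =>
    simp only [tot, Lm, List.length_cons]
    omega

theorem Adj_le {ds ds' : List (I → ℕ)} (h : D.Adj ds ds') (hle : ∀ d ∈ ds, d ≤ D.dim univ) :
    ∀ d ∈ ds', d ≤ D.dim univ := by
  induction h with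
  | head hst =>
    rename_i d1 d2 q1 q2 ds
    obtain ⟨h1, h2, h3, h4, h5⟩ := hst
    intro d hd
    rcases List.mem_cons.1 hd with h | h
    · rw [h]; exact h2.trans (hle d1 List.mem_cons_self)
    · rcases List.mem_cons.1 h with h | h
      · rw [h]; exact h5
      · exact hle d (List.mem_cons_of_mem _ (List.mem_cons_of_mem _ h))
  | cons h ih =>
    rename_i d0 ds ds'
    intro d hd
    rcases List.mem_cons.1 hd with h | h
    · rw [h]; exact hle d0 List.mem_cons_self
    · exact ih (fun d hd => hle d (List.mem_cons_of_mem _ hd)) d h

theorem tot_bound (n : ℕ) {ds : List (I → ℕ)} (h : ∀ d ∈ ds, ∑ i, d i ≤ n) :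
    tot ds ≤ ds.length * n := by
  induction ds with
  | nil => simp [tot]
  | cons d ds ih =>
    simp only [tot, List.length_cons]
    have h1 := h d List.mem_cons_self
    have h2 := ih (fun d hd => h d (List.mem_cons_of_mem _ hd))
    rw [add_mul, one_mul]
    omega

theorem Lm_bound (n : ℕ) {ds : List (I → ℕ)} (h : ∀ d ∈ ds, ∑ i, d i ≤ n) :
    Lm ds ≤ ds.length * (ds.length * n) := by
  induction ds with
  | nil => simp [Lm]
  | cons d ds ih =>
    simp only [Lm, List.length_cons]
    have h2 := ih (fun d hd => h d (List.mem_cons_of_mem _ hd))
    have h3 := tot_bound n (fun d hd => h d (List.mem_cons_of_mem _ hd))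
    nlinarith

end Dat

end Run7.h787
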