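import Pool.Agent.Run7.h787.Words2

/-! Elements of the ideal with small support. -/

open Finset

set_option linter.unusedSectionVars false
set_option linter.unusedVariables false
set_option linter.unusedSimpArgs false

namespace Run7.h787

variable {V I O : Type} [Fintype V] [DecidableEq V] [Fintype I] [DecidableEq I] [CommRing O]
  [IsDomain O] [Algebra ℚ O]

namespace Dat

variable (D : Dat V I O)
variable (K : Type) [Field K] [Algebra O K] [IsFractionRing O K]

/-- the trivial letters -/
def Triv (t : Bool × (I → ℕ)) : Prop := t.2 = if t.1 then D.dim univ else 0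

/-- types with at most one non-trivial E and at most one non-trivial F, neighbours -/
def Flat (τ : List (Bool × (I → ℕ))) : Prop :=
  ∃ τ1 τ2 d1 d2, τ = τ1 ++ (false, d1) :: (true, d2) :: τ2 ∧ (∀ t ∈ τ1, D.Triv t) ∧
    ∀ t ∈ τ2, D.Triv t

/-- elements with support in `{-1,0,1}^V` -/
def Small : Submodule ℤ (AddMonoidAlgebra K (V → ℤ)) where
  carrier := {x | ∀ μ, x.coeff μ ≠ 0 → ∀ a, |μ a| ≤ 1}
  add_mem' := by
    intro x y hx hy μ hμ
    by_cases h : x.coeff μ = 0
    · apply hy μ
      intro h'
      apply hμ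
      rw [AddMonoidAlgebra.coeff_add, Finsupp.add_apply, h, h', add_zero]
    · exact hx μ h
  zero_mem' := by
    intro μ hμ
    exact absurd rfl hμ
  smul_mem' := by
    intro n x hx μ hμ
    apply hx μ
    intro h
    apply hμ
    rw [AddMonoidAlgebra.coeff_smul, Finsupp.smul_apply, h, smul_zero]

variable {D K}

theorem mem_Small {x : AddMonoidAlgebra K (V → ℤ)} :
    x ∈ Small K ↔ ∀ μ, x.coeff μ ≠ 0 → ∀ a, |μ a| ≤ 1 := Iff.rfl

theorem G_mul_G_small (d1 d2 : I → ℕ) : D.G K false d1 * D.G K true d2 ≤ Small K := by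
  classical
  rw [G, G, Submodule.span_mul_span, Submodule.span_le]
  rintro _ ⟨_, ⟨f, hf, rfl⟩, _, ⟨g, hg, rfl⟩, rfl⟩
  simp only
  rw [SetLike.mem_coe, X, X, Finset.sum_mul_sum]
  apply sum_mem
  intro S _
  apply sum_mem
  intro T _
  rw [AddMonoidAlgebra.single_mul_single]
  intro μ hμ a
  rw [AddMonoidAlgebra.coeff_single, Finsupp.single_apply] at hμ
  split_ifs at hμ with h
  · rw [← h]
    simp only [ex, Pi.add_apply, Bool.false_eq_true, if_false, if_true]
    split_ifs <;> simp
  · exact absurd rfl hμ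

theorem MM_small : D.MM K ≤ Small K := by
  rw [MM]
  exact iSup_le (fun q => G_mul_G_small _ _)

variable (D K) in
/-- invariant scalars -/
noncomputable def Rr : Submodule ℤ (AddMonoidAlgebra K (V → ℤ)) :=
  Submodule.span ℤ {x | ∃ r : O, (∀ σ : Equiv.Perm V, D.CP σ → D.sub σ r = r) ∧
    x = AddMonoidAlgebra.single 0 (algebraMap O K r)}

theorem one_mem_Rr : (1 : AddMonoidAlgebra K (V → ℤ)) ∈ Rr D K := by
  apply Submodule.subset_span
  exact ⟨1, fun σ _ => map_one _, by rw [map_one]; exact AddMonoidAlgebra.one_def⟩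

theorem Rr_mul_Rr : Rr D K * Rr D K ≤ Rr D K := by
  rw [Rr, Submodule.span_mul_span, Submodule.span_le]
  rintro _ ⟨_, ⟨r, hr, rfl⟩, _, ⟨s, hs, rfl⟩, rfl⟩
  apply Submodule.subset_span
  refine ⟨r * s, fun σ hσ => by rw [map_mul, hr σ hσ, hs σ hσ], ?_⟩
  simp only
  rw [AddMonoidAlgebra.single_mul_single, add_zero, map_mul]

theorem Rr_mul_G (l : Bool) (d : I → ℕ) : Rr D K * D.G K l d ≤ D.G K l d := by
  rw [Rr, G, Submodule.span_mul_span, Submodule.span_le]
  rintro _ ⟨_, ⟨r, hr, rfl⟩, _, ⟨f, hf, rfl⟩, rfl⟩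
  apply Submodule.subset_span
  refine ⟨fun S => r * f S, ⟨?_, ?_⟩, ?_⟩
  · intro σ hσ S
    rw [map_mul, hr σ hσ, hf.1 σ hσ]
  · intro S hS
    change r * f S = 0
    rw [hf.2 S hS, mul_zero]
  · simp only
    rw [X, X, Finset.mul_sum]
    apply Finset.sum_congr rfl
    intro S _
    rw [AddMonoidAlgebra.single_mul_single, zero_add, map_mul, mul_assoc]

theorem G_triv {t : Bool × (I → ℕ)} (ht : D.Triv t) : D.G K t.1 t.2 ≤ Rr D K := by
  classical
  obtain ⟨l, d⟩ := t
  simp only [Triv] at ht
  rw [G, Submodule.span_le]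
  rintro _ ⟨f, hf, rfl⟩
  apply Submodule.subset_span
  simp only at hf ⊢
  cases l
  · simp only [Bool.false_eq_true, if_false] at ht
    subst ht
    refine ⟨f ∅, ?_, ?_⟩
    · intro σ hσ
      rw [hf.1 σ hσ, im_empty]
    · rw [X, Finset.sum_eq_single ∅]
      · have e0 : ex false (∅ : Finset V) = 0 := by ext a; simp [ex]
        rw [wt_false_empty, mul_one, e0]
      · intro S _ hS
        rw [hf.2 S (fun h => hS (D.eq_empty_of_dim h)), map_zero, zero_mul,
          AddMonoidAlgebra.single_zero]
      · intro h; exact absurd (Finset.mem_univ _) h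
  · simp only [if_true] at ht
    subst ht
    refine ⟨f univ, ?_, ?_⟩
    · intro σ hσ
      rw [hf.1 σ hσ, im_univ]
    · rw [X, Finset.sum_eq_single univ]
      · have e0 : ex true (univ : Finset V) = 0 := by ext a; simp [ex]
        rw [wt_true_univ, mul_one, e0]
      · intro S _ hS
        rw [hf.2 S (fun h => hS (D.eq_univ_of_dim h)), map_zero, zero_mul,
          AddMonoidAlgebra.single_zero]
      · intro h; exact absurd (Finset.mem_univ _) h

theorem Gw_triv {τ : List (Bool × (I → ℕ))} (h : ∀ t ∈ τ, D.Triv t) : D.Gw K τ ≤ Rr D K := by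
  induction τ with
  | nil =>
    simp only [Gw, List.map_nil, List.prod_nil]
    rw [Submodule.one_le]
    exact one_mem_Rr
  | cons t τ ih =>
    simp only [Gw, List.map_cons, List.prod_cons]
    refine (mul_le_mul' (G_triv (h t List.mem_cons_self)) ?_).trans Rr_mul_Rr
    exact ih (fun t' ht' => h t' (List.mem_cons_of_mem _ ht'))

theorem Gw_flat {τ : List (Bool × (I → ℕ))} (hf : D.Flat τ) (hn : ¬ ∀ t ∈ τ, D.Triv t) :
    D.Gw K τ ≤ D.MM K := by
  obtain ⟨τ1, τ2, d1, d2, rfl, h1, h2⟩ := hf
  have e : D.Gw K (τ1 ++ (false, d1) :: (true, d2) :: τ2) =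
      (D.Gw K τ1 * D.G K false d1) * (D.Gw K τ2 * D.G K true d2) := by
    simp only [Gw, List.map_append, List.map_cons, List.prod_append, List.prod_cons]
    rw [mul_assoc, mul_comm (D.G K true d2)]
  rw [e]
  have i1 : D.Gw K τ1 * D.G K false d1 ≤ D.G K false d1 :=
    (mul_le_mul' (Gw_triv h1) le_rfl).trans (Rr_mul_G _ _)
  have i2 : D.Gw K τ2 * D.G K true d2 ≤ D.G K true d2 :=
    (mul_le_mul' (Gw_triv h2) le_rfl).trans (Rr_mul_G _ _)
  refine (mul_le_mul' i1 i2).trans ?_
  have hq : ¬ (d1 = 0 ∧ d2 = D.dim univ) := by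
    rintro ⟨rfl, rfl⟩
    apply hn
    intro t ht
    rw [List.mem_append, List.mem_cons, List.mem_cons] at ht
    rcases ht with ht | ht | ht | ht
    · exact h1 t ht
    · rw [ht]; simp [Triv]
    · rw [ht]; simp [Triv]
    · exact h2 t ht
  exact le_iSup (fun q : {q : (I → ℕ) × (I → ℕ) // ¬ (q.1 = 0 ∧ q.2 = D.dim univ)} =>
    D.G K false q.1.1 * D.G K true q.1.2) ⟨(d1, d2), hq⟩

theorem flat_of_Adj {ls : List Bool} (hs : ls.Pairwise (fun l l' => l = true → l' = true))
    {ds ds' : List (I → ℕ)} (hlen : ls.length = ds.length) (h : D.Adj ds ds')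
    (ht : ∀ t ∈ ls.zip ds', D.Triv t) : D.Flat (ls.zip ds) := by
  induction h generalizing ls with
  | head hst =>
    rename_i d1 d2 q1 q2 ds
    obtain ⟨s1, s2, s3, s4, s5⟩ := hst
    cases ls with
    | nil => simp at hlen
    | cons l1 ls =>
      cases ls with
      | nil => simp at hlen
      | cons l2 ls =>
        have t1 := ht (l1, q1) (by simp)
        have t2 := ht (l2, q2) (by simp)
        have t3 : ∀ t ∈ ls.zip ds, D.Triv t := by
          intro t htm
          exact ht t (by simp [htm])
        have hl : l1 = true → l2 = true := (List.pairwise_cons.1 hs).1 l2 List.mem_cons_self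
        simp only [Triv] at t1 t2
        cases l1
        · cases l2
          · exfalso
            simp only [Bool.false_eq_true, if_false] at t1 t2
            rw [t1, t2, add_zero] at s1
            apply s4
            rw [t1]
            ext i
            have := congrFun s1 i
            simp only [Pi.add_apply, Pi.zero_apply] at this ⊢
            omega
          · exact ⟨[], ls.zip ds, d1, d2, by simp, by simp, t3⟩
        · cases l2
          · exact absurd (hl rfl) (by simp)
          · exfalso
            simp only [if_true] at t1 t2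
            apply s4
            ext i
            have e1 : q1 i + q2 i = d1 i + d2 i := congrFun s1 i
            have e2 : q1 i ≤ d1 i := s2 i
            have e3 : q1 i ≤ d2 i := s3 i
            have e4 : q1 i = D.dim univ i := congrFun t1 i
            have e5 : q2 i = D.dim univ i := congrFun t2 i
            omega
  | cons h ih =>
    rename_i d ds ds'
    cases ls with
    | nil => simp at hlen
    | cons l ls =>
      have t1 := ht (l, d) (by simp)
      obtain ⟨τ1, τ2, d1, d2, h1, h2, h3⟩ := ih (List.pairwise_cons.1 hs).2 (by simpa using hlen)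
        (fun t htm => ht t (by simp [htm]))
      refine ⟨(l, d) :: τ1, τ2, d1, d2, by simp [h1], ?_, h3⟩
      intro t htm
      rcases List.mem_cons.1 htm with h | h
      · rw [h]; exact t1
      · exact h2 t h

theorem G_bot {l : Bool} {d : I → ℕ} (hd : ¬ d ≤ D.dim univ) : D.G K l d = ⊥ := by
  rw [eq_bot_iff, G, Submodule.span_le]
  rintro _ ⟨f, hf, rfl⟩
  rw [SetLike.mem_coe, Submodule.mem_bot, X]
  apply Finset.sum_eq_zero
  intro S _
  rw [hf.2 S (fun h => hd (h ▸ D.dim_le_univ S)), map_zero, zero_mul,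
    AddMonoidAlgebra.single_zero]

theorem Gw_bot {τ : List (Bool × (I → ℕ))} {t : Bool × (I → ℕ)} (ht : t ∈ τ)
    (hd : ¬ t.2 ≤ D.dim univ) : D.Gw K τ = ⊥ := by
  have : (0 : Submodule ℤ (AddMonoidAlgebra K (V → ℤ))) ∈ τ.map (fun t => D.G K t.1 t.2) := by
    rw [List.mem_map]
    exact ⟨t, ht, G_bot hd⟩
  exact List.prod_eq_zero this

/-- the label list -/
def labs (N : ℕ) : List Bool := List.replicate (N + 1) false ++ List.replicate (N + 1) true

theorem labs_eq (N : ℕ) : labs N = List.replicate N false ++ false :: true ::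
    List.replicate N true := by
  simp only [labs]
  rw [List.replicate_succ', List.replicate_succ, List.append_assoc]
  rfl

theorem labs_pairwise (N : ℕ) : (labs N).Pairwise (fun l l' => l = true → l' = true) := by
  rw [labs, List.pairwise_append]
  refine ⟨?_, ?_, ?_⟩
  · rw [List.pairwise_replicate]; right; simp
  · rw [List.pairwise_replicate]; right; simp
  · intro a ha b hb h
    rw [List.mem_replicate] at hb
    exact hb.2

theorem nF_labs (N : ℕ) : nF (labs N) = N + 1 := by
  simp [nF, labs, List.countP_append, List.countP_replicate]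

theorem chain_large (N : ℕ) {ds : List (I → ℕ)} (hlen : (labs N).length = ds.length)
    (hf : ¬ D.Flat ((labs N).zip ds)) {C : List (Finset V)} (hC : Chain C)
    (hCd : C.map D.dim = ds) : ∃ a, 2 ≤ |expo (labs N) C a| := by
  have hlenC : C.length = (labs N).length := by rw [hlen, ← hCd, List.length_map]
  have hlabs : (labs N).length = N + 1 + (N + 1) := by simp [labs]
  -- split C
  obtain ⟨C1, C2', hsplit, hl1⟩ : ∃ C1 C2', C = C1 ++ C2' ∧ C1.length = N :=
    ⟨C.take N, C.drop N, (List.take_append_drop N C).symm, by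
      rw [List.length_take]; omega⟩
  obtain ⟨S, C2'', hS⟩ : ∃ S C2'', C2' = S :: C2'' := by
    cases C2' with
    | nil =>
      exfalso
      rw [hsplit, List.append_nil, hl1] at hlenC
      omega
    | cons S L => exact ⟨S, L, rfl⟩
  obtain ⟨T, C2, hT⟩ : ∃ T C2, C2'' = T :: C2 := by
    cases C2'' with
    | nil =>
      exfalso
      rw [hsplit, hS, List.length_append, hl1] at hlenC
      simp at hlenC
      omega
    | cons T L => exact ⟨T, L, rfl⟩
  subst hT hS
  have hl2 : C2.length = N := by
    rw [hsplit, List.length_append, hl1] at hlenC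
    simp at hlenC
    omega
  have hzip : (labs N).zip ds = (List.replicate N false).zip (C1.map D.dim) ++
      (false, D.dim S) :: (true, D.dim T) :: (List.replicate N true).zip (C2.map D.dim) := by
    rw [← hCd, hsplit, labs_eq, List.map_append, List.zip_append (by simp [hl1])]
    simp
  have hex : (∃ U ∈ C1, U.Nonempty) ∨ (∃ U ∈ C2, U ≠ univ) := by
    by_contra hcon
    push Not at hcon
    apply hf
    refine ⟨_, _, _, _, hzip, ?_, ?_⟩
    · rintro ⟨l, d⟩ ht
      have h1 := List.of_mem_zip ht
      obtain ⟨U, hU, hUd⟩ := List.mem_map.1 h1.2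
      have h2 := hcon.1 U hU
      have h3 : l = false := (List.mem_replicate.1 h1.1).2
      subst h3
      simp only [Triv, Bool.false_eq_true, if_false]
      rw [← hUd, h2]
      exact D.dim_empty
    · rintro ⟨l, d⟩ ht
      have h1 := List.of_mem_zip ht
      obtain ⟨U, hU, hUd⟩ := List.mem_map.1 h1.2
      have h2 := hcon.2 U hU
      have h3 : l = true := (List.mem_replicate.1 h1.1).2
      subst h3
      simp only [Triv, if_true]
      rw [← hUd, h2]
  rw [hsplit, Chain, List.pairwise_append] at hC
  obtain ⟨hc1, hc2, hc3⟩ := hC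
  have hc4 := List.pairwise_cons.1 hc2
  have hc5 := List.pairwise_cons.1 hc4.2
  rcases hex with ⟨U, hU, a, ha⟩ | ⟨U, hU, hne⟩
  · refine ⟨a, ?_⟩
    have h1 : 1 ≤ cnt C1 a := cnt_pos hU ha
    have h2 : cnt (S :: T :: C2) a = (S :: T :: C2).length :=
      cnt_of_forall (fun W hW => hc3 U hU W hW ha)
    rw [expo_eq_cnt _ _ hlenC, nF_labs, hsplit, cnt_append, h2]
    simp only [List.length_cons, hl2]
    push_cast
    rw [le_abs]
    left
    omega
  · obtain ⟨a, ha⟩ : ∃ a, a ∉ U := by
      by_contra hcon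
      push Not at hcon
      exact hne (Finset.eq_univ_iff_forall.2 hcon)
    refine ⟨a, ?_⟩
    have h1 : cnt C1 a = 0 := cnt_of_forall_not (fun W hW h =>
      ha (hc3 W hW U (List.mem_cons_of_mem _ (List.mem_cons_of_mem _ hU)) h))
    have h2 : a ∉ S := fun h => ha (hc4.1 U (List.mem_cons_of_mem _ hU) h)
    have h3 : a ∉ T := fun h => ha (hc5.1 U hU h)
    have h4 := cnt_lt hU ha
    rw [expo_eq_cnt _ _ hlenC, nF_labs, hsplit, cnt_append, h1]
    simp only [cnt, if_neg h2, if_neg h3]
    push_cast
    rw [le_abs]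
    right
    omega

variable (D) in
/-- non-flat types of weighted size at least `s` -/
def WW (N s : ℕ) (ds : List (I → ℕ)) : Prop :=
  (labs N).length = ds.length ∧ (∀ d ∈ ds, d ≤ D.dim univ) ∧ ¬ D.Flat ((labs N).zip ds) ∧
    s ≤ Lm ds

theorem small_main (N : ℕ) (k s : ℕ)
    (hk : Fintype.card V * ((N + 1 + (N + 1)) * (N + 1 + (N + 1))) + 1 ≤ s + k) :
    ∀ x : AddMonoidAlgebra K (V → ℤ),
    x ∈ D.MM K ⊔ ⨆ ds : {ds : List (I → ℕ) // D.WW N s ds}, D.Gw K ((labs N).zip ds.1) →
    x ∈ Small K → x ∈ D.MM K := by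
  classical
  have hlabs : (labs N).length = N + 1 + (N + 1) := by simp [labs]
  induction k generalizing s with
  | zero =>
    intro x hx _
    have hempty : IsEmpty {ds : List (I → ℕ) // D.WW N s ds} := by
      refine ⟨?_⟩
      rintro ⟨ds, h1, h2, h3, h4⟩
      have h5 : Lm ds ≤ ds.length * (ds.length * Fintype.card V) := by
        apply Lm_bound
        intro d hd
        have h6 := h2 d hd
        have h7 : ∑ i, d i ≤ ∑ i, D.dim univ i := Finset.sum_le_sum (fun i _ => h6 i)
        rw [← card_eq_sum_dim, Finset.card_univ] at h7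
        exact h7
      rw [← h1, hlabs] at h5
      have : (N + 1 + (N + 1)) * ((N + 1 + (N + 1)) * Fintype.card V) =
          Fintype.card V * ((N + 1 + (N + 1)) * (N + 1 + (N + 1))) := by ring
      omega
    rw [iSup_of_empty, sup_bot_eq] at hx
    exact hx
  | succ k ih =>
    intro x hx hxs
    apply ih (s + 1) (by omega) x _ hxs
    obtain ⟨m, hm, y, hy, rfl⟩ := Submodule.mem_sup.1 hx
    have hys : y ∈ Small K := by
      have := sub_mem hxs (MM_small hm)
      rwa [add_sub_cancel_left] at this
    apply add_mem (Submodule.mem_sup_left hm)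
    -- decompose y
    obtain ⟨fy, hfy, hsum⟩ := (Submodule.mem_iSup_iff_exists_finsupp _ _).1 hy
    have hg : ∀ ds : {ds : List (I → ℕ) // D.WW N s ds}, ∃ g ∈ D.TT ds.1,
        fy ds = ev D K (labs N) g := fun ds => exists_TT_of_mem_Gw ds.2.1 (hfy ds)
    choose g hgT hgv using hg
    set gs : List (Finset V) → O := ∑ ds ∈ fy.support, g ds with hgs
    have hyev : y = ev D K (labs N) gs := by
      rw [← hsum, Finsupp.sum, hgs, ev_sum]
      exact Finset.sum_congr rfl (fun ds _ => hgv ds)
    have hgs_supp : ∀ L, gs L ≠ 0 → ∃ ds : {ds : List (I → ℕ) // D.WW N s ds},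
        L.map D.dim = ds.1 := by
      intro L hL
      rw [hgs, Finset.sum_apply] at hL
      obtain ⟨ds, _, hne⟩ := Finset.exists_ne_zero_of_sum_ne_zero hL
      exact ⟨ds, TT_supp (hgT ds) L hne⟩
    rw [← hsum, Finsupp.sum]
    apply sum_mem
    intro ds hds
    rw [hgv ds]
    by_cases hLm : s + 1 ≤ Lm ds.1
    · apply Submodule.mem_sup_right
      exact Submodule.mem_iSup_of_mem
        (⟨ds.1, ds.2.1, ds.2.2.1, ds.2.2.2.1, hLm⟩ : {ds : List (I → ℕ) // D.WW N (s + 1) ds})
        (mem_Gw_of_TT ds.2.1 (hgT ds))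
    · have hLm' : Lm ds.1 = s := by
        have := ds.2.2.2.2
        omega
      -- vanishing on chains
      have hch : ∀ C : List (Finset V), Chain C → C.map D.dim = ds.1 → g ds C = 0 := by
        intro C hC hCd
        have hlenC : C.length = (labs N).length := by
          rw [ds.2.1, ← hCd, List.length_map]
        have hcoef := coeff_ev (D := D) (K := K) (labs N) gs C hlenC (by
          intro L hL hexp hne
          by_contra h0
          obtain ⟨ds', hds'⟩ := hgs_supp L h0
          have h1 := Lm_lt_of_ne (D := D) hC hlenC hL hexp hne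
          rw [hCd, hds', hLm'] at h1
          have := ds'.2.2.2.2
          omega)
        obtain ⟨a, ha⟩ := chain_large N ds.2.1 ds.2.2.2.1 hC hCd
        have h0 : y.coeff (expo (labs N) C) = 0 := by
          by_contra h0
          have := (mem_Small.1 hys) _ h0 a
          omega
        rw [hyev, hcoef] at h0
        have h1 : algebraMap O K (gs C) = 0 :=
          (mul_eq_zero.1 h0).resolve_right (wts_ne _ _)
        have h2 : gs C = 0 := IsFractionRing.injective O K (by rw [h1, map_zero])
        rw [hgs, Finset.sum_apply, Finset.sum_eq_single ds] at h2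
        · exact h2
        · intro ds' _ hne
          by_contra h3
          have := TT_supp (hgT ds') C h3
          exact hne (Subtype.ext (this.symm.trans hCd))
        · intro h; exact absurd hds h
      have hspr := lemma_N (D := D) (K := K) (labs N) (labs_pairwise N) ds.1 ds.2.1 (g ds)
        (hgT ds) hch
      have hle : Spr D K (labs N) ds.1 ≤
          D.MM K ⊔ ⨆ ds : {ds : List (I → ℕ) // D.WW N (s + 1) ds},
            D.Gw K ((labs N).zip ds.1) := by
        apply iSup_le
        rintro ⟨ds', hadj⟩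
        simp only
        obtain ⟨_, hlt, hlen'⟩ := Adj_Lm hadj
        by_cases hf : D.Flat ((labs N).zip ds')
        · apply le_sup_of_le_left
          apply Gw_flat hf
          intro ht
          exact ds.2.2.2.1 (flat_of_Adj (labs_pairwise N) ds.2.1 hadj ht)
        · apply le_sup_of_le_right
          exact le_iSup (fun ds : {ds : List (I → ℕ) // D.WW N (s + 1) ds} =>
            D.Gw K ((labs N).zip ds.1)) ⟨ds', by rw [ds.2.1, hlen'],
              Adj_le hadj ds.2.2.1, hf, by omega⟩
      exact hle hspr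

variable (D K)

theorem small_support (N : ℕ) (x : AddMonoidAlgebra K (V → ℤ))
    (hx : x ∈ ⨆ τ : {τ : List (Bool × (I → ℕ)) //
      τ.map Prod.fst = List.replicate (N + 1) false ++ List.replicate (N + 1) true ∧
        ¬ ∀ t ∈ τ, D.Triv t}, D.Gw K τ.1)
    (hs : ∀ μ, x.coeff μ ≠ 0 → ∀ a, |μ a| ≤ 1) :
    x ∈ D.MM K := by
  classical
  apply small_main (D := D) (K := K) N
    (Fintype.card V * ((N + 1 + (N + 1)) * (N + 1 + (N + 1))) + 1) 0 (by omega) x _ hs
  have hle : (⨆ τ : {τ : List (Bool × (I → ℕ)) //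
      τ.map Prod.fst = List.replicate (N + 1) false ++ List.replicate (N + 1) true ∧
        ¬ ∀ t ∈ τ, D.Triv t}, D.Gw K τ.1) ≤
      D.MM K ⊔ ⨆ ds : {ds : List (I → ℕ) // D.WW N 0 ds}, D.Gw K ((labs N).zip ds.1) := by
    apply iSup_le
    rintro ⟨τ, hτ, hnt⟩
    simp only
    have hzip : τ = (labs N).zip (τ.map Prod.snd) := by
      rw [labs, ← hτ]
      clear hτ hnt
      induction τ with
      | nil => rfl
      | cons t τ ih => simp only [List.map_cons, List.zip_cons_cons, ← ih]
    have hlen : (labs N).length = (τ.map Prod.snd).length := by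
      rw [labs, ← hτ, List.length_map, List.length_map]
    by_cases hf : D.Flat τ
    · exact le_sup_of_le_left (Gw_flat hf hnt)
    · by_cases hd : ∀ d ∈ τ.map Prod.snd, d ≤ D.dim univ
      · apply le_sup_of_le_right
        rw [hzip] at hf
        have := le_iSup (fun ds : {ds : List (I → ℕ) // D.WW N 0 ds} =>
          D.Gw K ((labs N).zip ds.1)) ⟨τ.map Prod.snd, hlen, hd, hf, Nat.zero_le _⟩
        simp only at this
        rwa [← hzip] at this
      · push Not at hd
        obtain ⟨d, hd, hd'⟩ := hd
        obtain ⟨t, ht, rfl⟩ := List.mem_map.1 hd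
        rw [Gw_bot ht hd']
        exact bot_le
  exact hle hx

end Dat

end Run7.h787
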